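import Pool.Agent.Helper949.AC.Defs2

set_option autoImplicit false

/-!
Definitions for the asymptotics of the average state complexity of intersections.
Tables `T : V → Fin k → V`; `rn T g w x` is the state reached from `x` after reading `w`.
-/

namespace AC

open Finset

variable {V : Type} {k : ℕ}

end AC

namespace AC
open Finset Filter Topology

private theorem po_nonneg (i x : ℕ) : 0 ≤ po i x := by
  unfold po; positivity

private theorem po_hasSum (i : ℕ) : HasSum (po i) 1 := by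
  have h := NormedSpace.expSeries_div_hasSum_exp (𝔸 := ℝ) (i : ℝ)
  rw [← Real.exp_eq_exp_ℝ] at h
  have h2 := h.mul_left (Real.exp (-(i : ℝ)))
  rw [← Real.exp_add, neg_add_cancel, Real.exp_zero] at h2
  have e : po i = fun n : ℕ => Real.exp (-(i : ℝ)) * ((i : ℝ) ^ n / (n.factorial : ℝ)) := by
    funext x
    unfold po
    ring
  rw [e]
  exact h2

private theorem po_summable (i : ℕ) : Summable (po i) := (po_hasSum i).summable

/-- expectation of a function of two independent Poisson variables -/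
private noncomputable def EE (a : ℕ → ℕ → ℝ) (i j : ℕ) : ℝ := ∑' x : ℕ, ∑' y : ℕ, po i x * po j y * a x y

private theorem EE_inner_summable (a : ℕ → ℕ → ℝ) (ha : ∀ x y, 0 ≤ a x y ∧ a x y ≤ 1) (i j x : ℕ) :
    Summable (fun y : ℕ => po i x * po j y * a x y) := by
  refine Summable.of_nonneg_of_le (fun y => ?_) (fun y => ?_) ((po_summable j).mul_left (po i x))
  · exact mul_nonneg (mul_nonneg (po_nonneg _ _) (po_nonneg _ _)) (ha x y).1
  · exact mul_le_of_le_one_right (mul_nonneg (po_nonneg _ _) (po_nonneg _ _)) (ha x y).2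

private theorem EE_inner_nonneg (a : ℕ → ℕ → ℝ) (ha : ∀ x y, 0 ≤ a x y ∧ a x y ≤ 1) (i j x : ℕ) :
    0 ≤ ∑' y : ℕ, po i x * po j y * a x y :=
  tsum_nonneg (fun y => mul_nonneg (mul_nonneg (po_nonneg _ _) (po_nonneg _ _)) (ha x y).1)

private theorem EE_inner_le (a : ℕ → ℕ → ℝ) (ha : ∀ x y, 0 ≤ a x y ∧ a x y ≤ 1) (i j x : ℕ) :
    ∑' y : ℕ, po i x * po j y * a x y ≤ po i x := by
  have h1 : ∑' y : ℕ, po i x * po j y * a x y ≤ ∑' y : ℕ, po i x * po j y := by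
    refine (EE_inner_summable a ha i j x).tsum_le_tsum (fun y => ?_) ((po_summable j).mul_left (po i x))
    exact mul_le_of_le_one_right (mul_nonneg (po_nonneg _ _) (po_nonneg _ _)) (ha x y).2
  rw [tsum_mul_left, (po_hasSum j).tsum_eq, mul_one] at h1
  exact h1

private theorem EE_outer_summable (a : ℕ → ℕ → ℝ) (ha : ∀ x y, 0 ≤ a x y ∧ a x y ≤ 1) (i j : ℕ) :
    Summable (fun x : ℕ => ∑' y : ℕ, po i x * po j y * a x y) :=
  Summable.of_nonneg_of_le (fun x => EE_inner_nonneg a ha i j x) (fun x => EE_inner_le a ha i j x)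
    (po_summable i)

private theorem EE_nonneg (a : ℕ → ℕ → ℝ) (ha : ∀ x y, 0 ≤ a x y ∧ a x y ≤ 1) (i j : ℕ) : 0 ≤ EE a i j :=
  tsum_nonneg (fun x => EE_inner_nonneg a ha i j x)

private theorem EE_le_one (a : ℕ → ℕ → ℝ) (ha : ∀ x y, 0 ≤ a x y ∧ a x y ≤ 1) (i j : ℕ) : EE a i j ≤ 1 := by
  have := (EE_outer_summable a ha i j).tsum_le_tsum (fun x => EE_inner_le a ha i j x) (po_summable i)
  rw [(po_hasSum i).tsum_eq] at this
  exact this

private theorem EE_mono (a b : ℕ → ℕ → ℝ) (ha : ∀ x y, 0 ≤ a x y ∧ a x y ≤ 1)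
    (hb : ∀ x y, 0 ≤ b x y ∧ b x y ≤ 1) (hab : ∀ x y, a x y ≤ b x y) (i j : ℕ) :
    EE a i j ≤ EE b i j := by
  refine (EE_outer_summable a ha i j).tsum_le_tsum (fun x => ?_) (EE_outer_summable b hb i j)
  refine (EE_inner_summable a ha i j x).tsum_le_tsum (fun y => ?_) (EE_inner_summable b hb i j x)
  exact mul_le_mul_of_nonneg_left (hab x y) (mul_nonneg (po_nonneg _ _) (po_nonneg _ _))

private theorem aa_succ (k : ℕ) (θ β : ℝ) (g i j : ℕ) : aa k θ β (g + 1) i j = (EE (aa k θ β g) i j) ^ k := rfl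

private theorem pow01 {t : ℝ} (h0 : 0 ≤ t) (h1 : t ≤ 1) (i : ℕ) : 0 ≤ 1 - (1 - t) ^ i ∧ 1 - (1 - t) ^ i ≤ 1 := by
  have a1 : (1 - t) ^ i ≤ 1 := pow_le_one₀ (by linarith) (by linarith)
  have a2 : 0 ≤ (1 - t) ^ i := pow_nonneg (by linarith) _
  constructor <;> linarith

theorem aa_basic (k : ℕ) (θ β : ℝ) (h0 : 0 ≤ θ) (h1 : θ ≤ 1) (b0 : 0 ≤ β) (b1 : β ≤ 1) (g i j : ℕ) :
    0 ≤ aa k θ β g i j ∧ aa k θ β g i j ≤ 1 := by
  induction g generalizing i j with
  | zero =>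
    show 0 ≤ 1 - (1 - β) * (1 - (1 - θ) ^ i) * (1 - (1 - θ) ^ j) ∧
      1 - (1 - β) * (1 - (1 - θ) ^ i) * (1 - (1 - θ) ^ j) ≤ 1
    have hi := pow01 h0 h1 i
    have hj := pow01 h0 h1 j
    have e1 : 0 ≤ (1 - β) * (1 - (1 - θ) ^ i) * (1 - (1 - θ) ^ j) :=
      mul_nonneg (mul_nonneg (by linarith) hi.1) hj.1
    have e2 : (1 - β) * (1 - (1 - θ) ^ i) * (1 - (1 - θ) ^ j) ≤ 1 :=
      mul_le_one₀ (mul_le_one₀ (by linarith) hi.1 hi.2) hj.1 hj.2
    constructor <;> linarith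
  | succ g ih =>
    rw [aa_succ]
    exact ⟨pow_nonneg (EE_nonneg _ (fun x y => ih x y) i j) _,
      pow_le_one₀ (EE_nonneg _ (fun x y => ih x y) i j) (EE_le_one _ (fun x y => ih x y) i j)⟩

theorem aa_mono (k : ℕ) (θ θ' β β' : ℝ) (h0 : 0 ≤ θ) (h1 : θ ≤ θ') (h2 : θ' ≤ 1) (b0 : 0 ≤ β')
    (b1 : β' ≤ β) (b2 : β ≤ 1) (g i j : ℕ) :
    aa k θ' β' g i j ≤ aa k θ β g i j := by
  induction g generalizing i j with
  | zero =>
    show 1 - (1 - β') * (1 - (1 - θ') ^ i) * (1 - (1 - θ') ^ j) ≤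
      1 - (1 - β) * (1 - (1 - θ) ^ i) * (1 - (1 - θ) ^ j)
    have hi := pow01 h0 (h1.trans h2) i
    have hj := pow01 h0 (h1.trans h2) j
    have hi' := pow01 (h0.trans h1) h2 i
    have hj' := pow01 (h0.trans h1) h2 j
    have mi : ∀ n : ℕ, 1 - (1 - θ) ^ n ≤ 1 - (1 - θ') ^ n := fun n => by
      have : (1 - θ') ^ n ≤ (1 - θ) ^ n := pow_le_pow_left₀ (by linarith) (by linarith) n
      linarith
    have e : (1 - β) * (1 - (1 - θ) ^ i) * (1 - (1 - θ) ^ j) ≤
        (1 - β') * (1 - (1 - θ') ^ i) * (1 - (1 - θ') ^ j) :=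
      mul_le_mul (mul_le_mul (by linarith) (mi i) hi.1 (by linarith)) (mi j) hj.1
        (mul_nonneg (by linarith) hi'.1)
    linarith
  | succ g ih =>
    rw [aa_succ, aa_succ]
    have ha := fun x y => aa_basic k θ' β' (h0.trans h1) h2 b0 (b1.trans b2) g x y
    have hb := fun x y => aa_basic k θ β h0 (h1.trans h2) (b0.trans b1) b2 g x y
    exact pow_le_pow_left₀ (EE_nonneg _ ha i j) (EE_mono _ _ ha hb ih i j) k

private theorem po_zero (x : ℕ) : po 0 x = if x = 0 then 1 else 0 := by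
  unfold po
  by_cases hx : x = 0
  · subst hx; simp
  · simp [hx]

private theorem EE_zero_left (a : ℕ → ℕ → ℝ) (j : ℕ) (h : ∀ y, a 0 y = 1) : EE a 0 j = 1 := by
  unfold EE
  rw [tsum_eq_single 0]
  · simp only [po_zero, if_true, one_mul, h, mul_one]
    exact (po_hasSum j).tsum_eq
  · intro x hx
    simp [po_zero, hx]

private theorem EE_zero_right (a : ℕ → ℕ → ℝ) (i : ℕ) (h : ∀ x, a x 0 = 1) : EE a i 0 = 1 := by
  unfold EE
  have : ∀ x, ∑' y : ℕ, po i x * po 0 y * a x y = po i x := by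
    intro x
    rw [tsum_eq_single 0]
    · simp [po_zero, h]
    · intro y hy
      simp [po_zero, hy]
  simp only [this]
  exact (po_hasSum i).tsum_eq

private theorem aa_zero_eq_one (k i j : ℕ) (h : i = 0 ∨ j = 0) : aa k 1 0 0 i j = 1 := by
  show 1 - (1 - 0) * (1 - (1 - 1 : ℝ) ^ i) * (1 - (1 - 1 : ℝ) ^ j) = 1
  rcases h with h | h <;> subst h <;> simp

private theorem aa_zero_eq_zero (k i j : ℕ) (hi : i ≠ 0) (hj : j ≠ 0) : aa k 1 0 0 i j = 0 := by
  show 1 - (1 - 0) * (1 - (1 - 1 : ℝ) ^ i) * (1 - (1 - 1 : ℝ) ^ j) = 0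
  simp [hi, hj]

theorem aa_mono_g (k : ℕ) (g i j : ℕ) : aa k 1 0 g i j ≤ aa k 1 0 (g + 1) i j := by
  have hb : ∀ g x y, 0 ≤ aa k 1 0 g x y ∧ aa k 1 0 g x y ≤ 1 := fun g x y =>
    aa_basic k 1 0 zero_le_one le_rfl le_rfl zero_le_one g x y
  induction g generalizing i j with
  | zero =>
    by_cases hi : i = 0
    · subst hi
      rw [aa_zero_eq_one k 0 j (Or.inl rfl), aa_succ,
        EE_zero_left _ _ (fun y => aa_zero_eq_one k 0 y (Or.inl rfl)), one_pow]
    · by_cases hj : j = 0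
      · subst hj
        rw [aa_zero_eq_one k i 0 (Or.inr rfl), aa_succ,
          EE_zero_right _ _ (fun y => aa_zero_eq_one k y 0 (Or.inr rfl)), one_pow]
      · rw [aa_zero_eq_zero k i j hi hj]
        exact (hb _ _ _).1
  | succ g ih =>
    rw [aa_succ, aa_succ]
    exact pow_le_pow_left₀ (EE_nonneg _ (hb g) i j) (EE_mono _ _ (hb g) (hb (g+1)) ih i j) k

end AC

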