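import Pool.Agent.Helper949.AC.Defs2
import Pool.Agent.Helper949.AC.AaA

set_option autoImplicit false

/-!
Definitions for the asymptotics of the average state complexity of intersections.
Tables `T : V → Fin k → V`; `rn T g w x` is the state reached from `x` after reading `w`.
-/

namespace AC

open Finset

variable {V : Type} {k : ℕ}

end AC

namespace AC
open Finset Filter Topology

/-! GIVEN (being proved separately, you may use them) -/
private theorem aaij_po_nonneg (i x : ℕ) : 0 ≤ po i x := by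
  unfold po
  positivity

private theorem aaij_po_hasSum (i : ℕ) : HasSum (po i) 1 := by
  have h := (NormedSpace.expSeries_div_hasSum_exp (𝔸 := ℝ) (i : ℝ)).mul_left (Real.exp (-(i:ℝ)))
  rw [← Real.exp_eq_exp_ℝ, ← Real.exp_add, neg_add_cancel, Real.exp_zero] at h
  have e : po i = fun x : ℕ => Real.exp (-(i:ℝ)) * ((i:ℝ) ^ x / (x.factorial : ℝ)) := by
    funext x
    unfold po
    ring
  rw [e]
  exact h

private theorem aaij_E_summable (i : ℕ) (f : ℕ → ℝ) (hf : ∀ x, 0 ≤ f x ∧ f x ≤ 1) :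
    Summable (fun x => po i x * f x) := by
  refine Summable.of_nonneg_of_le (fun x => mul_nonneg (aaij_po_nonneg i x) (hf x).1)
    (fun x => ?_) (aaij_po_hasSum i).summable
  exact mul_le_of_le_one_right (aaij_po_nonneg i x) (hf x).2

private theorem aaij_E_mono (i : ℕ) (f g : ℕ → ℝ) (hf : ∀ x, 0 ≤ f x ∧ f x ≤ 1)
    (hg : ∀ x, 0 ≤ g x ∧ g x ≤ 1) (h : ∀ x, f x ≤ g x) :
    ∑' x, po i x * f x ≤ ∑' x, po i x * g x :=
  Summable.tsum_le_tsum (fun x => mul_le_mul_of_nonneg_left (h x) (aaij_po_nonneg i x))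
    (aaij_E_summable i f hf) (aaij_E_summable i g hg)

private theorem aaij_E_mem (i : ℕ) (f : ℕ → ℝ) (hf : ∀ x, 0 ≤ f x ∧ f x ≤ 1) :
    0 ≤ ∑' x, po i x * f x ∧ ∑' x, po i x * f x ≤ 1 := by
  refine ⟨tsum_nonneg fun x => mul_nonneg (aaij_po_nonneg i x) (hf x).1, ?_⟩
  rw [← (aaij_po_hasSum i).tsum_eq]
  refine Summable.tsum_le_tsum (fun x => ?_) (aaij_E_summable i f hf) (aaij_po_hasSum i).summable
  exact mul_le_of_le_one_right (aaij_po_nonneg i x) (hf x).2

private theorem aaij_po_succ (i n : ℕ) :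
    po (i + 1) n = ∑ m ∈ Finset.range (n + 1), po i m * po 1 (n - m) := by
  unfold po
  push_cast
  rw [add_pow, Finset.mul_sum, Finset.sum_div]
  apply Finset.sum_congr rfl
  intro m hm
  have hmn : m ≤ n := Nat.lt_succ_iff.mp (Finset.mem_range.mp hm)
  have h1 := Nat.choose_mul_factorial_mul_factorial hmn
  have h2 : (n.choose m : ℝ) * (m.factorial : ℝ) * ((n - m).factorial : ℝ) = (n.factorial : ℝ) := by
    exact_mod_cast h1
  have hm0 : (m.factorial : ℝ) ≠ 0 := by positivity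
  have hnm0 : ((n - m).factorial : ℝ) ≠ 0 := by positivity
  have hn0 : (n.factorial : ℝ) ≠ 0 := by positivity
  rw [neg_add, Real.exp_add]
  rw [div_mul_div_comm, div_eq_div_iff hn0 (mul_ne_zero hm0 hnm0), ← h2]
  ring

private theorem aaij_E_succ (i : ℕ) (f : ℕ → ℝ) (hf : ∀ x, 0 ≤ f x ∧ f x ≤ 1) (ha : Antitone f) :
    ∑' x, po (i + 1) x * f x ≤ ∑' x, po i x * f x := by
  have hs1 : Summable fun x => ‖po i x * f x‖ := (aaij_E_summable i f hf).norm
  have hs2 : Summable fun x => ‖po 1 x‖ := (aaij_po_hasSum 1).summable.norm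
  have h := tsum_mul_tsum_eq_tsum_sum_range_of_summable_norm hs1 hs2
  rw [(aaij_po_hasSum 1).tsum_eq, mul_one] at h
  rw [h]
  refine Summable.tsum_le_tsum (fun n => ?_) (aaij_E_summable (i + 1) f hf)
    (summable_norm_sum_mul_range_of_summable_norm hs1 hs2).of_norm
  rw [aaij_po_succ, Finset.sum_mul]
  apply Finset.sum_le_sum
  intro m hm
  have hmn : m ≤ n := Nat.lt_succ_iff.mp (Finset.mem_range.mp hm)
  have h1 := mul_le_mul_of_nonneg_left (ha hmn)
    (mul_nonneg (aaij_po_nonneg i m) (aaij_po_nonneg 1 (n - m)))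
  linarith

private theorem aaij_E_anti (f : ℕ → ℝ) (hf : ∀ x, 0 ≤ f x ∧ f x ≤ 1) (ha : Antitone f) :
    Antitone (fun i => ∑' x, po i x * f x) :=
  antitone_nat_of_succ_le fun i => aaij_E_succ i f hf ha

private theorem aaij_main (k : ℕ) (θ β : ℝ) (h0 : 0 ≤ θ) (h1 : θ ≤ 1) (b0 : 0 ≤ β) (b1 : β ≤ 1) (g : ℕ) :
    (∀ i, Antitone (aa k θ β g i)) ∧ (∀ j, Antitone (fun i => aa k θ β g i j)) := by
  induction g with
  | zero =>
    have hp : ∀ i i' : ℕ, i ≤ i' → (1 - θ) ^ i' ≤ (1 - θ) ^ i := fun i i' h =>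
      pow_le_pow_of_le_one (by linarith) (by linarith) h
    have hp1 : ∀ i : ℕ, (1 - θ) ^ i ≤ 1 := fun i => pow_le_one₀ (by linarith) (by linarith)
    constructor
    · intro i j j' hj
      simp only [aa]
      have h2 := hp j j' hj
      have h3 : 0 ≤ (1 - β) * (1 - (1 - θ) ^ i) := mul_nonneg (by linarith) (by linarith [hp1 i])
      have h4 : 1 - (1 - θ) ^ j ≤ 1 - (1 - θ) ^ j' := by linarith
      have h5 := mul_le_mul_of_nonneg_left h4 h3
      linarith
    · intro j i i' hi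
      simp only [aa]
      have h2 := hp i i' hi
      have h3 : 0 ≤ (1 - β) * (1 - (1 - θ) ^ j) := mul_nonneg (by linarith) (by linarith [hp1 j])
      have h4 : 1 - (1 - θ) ^ i ≤ 1 - (1 - θ) ^ i' := by linarith
      have h5 := mul_le_mul_of_nonneg_left h4 h3
      linarith
  | succ g ih =>
    obtain ⟨ih1, ih2⟩ := ih
    have hmem : ∀ x y, 0 ≤ aa k θ β g x y ∧ aa k θ β g x y ≤ 1 := fun x y =>
      aa_basic k θ β h0 h1 b0 b1 g x y
    have hform : ∀ i j, aa k θ β (g + 1) i j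
        = (∑' x, po i x * ∑' y, po j y * aa k θ β g x y) ^ k := by
      intro i j
      simp only [aa]
      congr 1
      apply tsum_congr
      intro x
      rw [← tsum_mul_left]
      apply tsum_congr
      intro y
      ring
    have hinner : ∀ j x, 0 ≤ ∑' y, po j y * aa k θ β g x y ∧ ∑' y, po j y * aa k θ β g x y ≤ 1 :=
      fun j x => aaij_E_mem j _ (hmem x)
    constructor
    · intro i j j' hj
      rw [hform, hform]
      apply pow_le_pow_left₀ (aaij_E_mem i _ (hinner j')).1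
      apply aaij_E_mono i _ _ (hinner j') (hinner j)
      intro x
      exact aaij_E_anti (aa k θ β g x) (hmem x) (ih1 x) hj
    · intro j i i' hi
      show aa k θ β (g + 1) i' j ≤ aa k θ β (g + 1) i j
      rw [hform, hform]
      apply pow_le_pow_left₀ (aaij_E_mem i' _ (hinner j)).1
      refine aaij_E_anti (fun x => ∑' y, po j y * aa k θ β g x y) (hinner j) ?_ hi
      intro x x' hx
      exact aaij_E_mono j _ _ (hmem x') (hmem x) (fun y => ih2 y hx)

/-! TARGET -/
theorem aa_anti_ij (k : ℕ) (θ β : ℝ) (h0 : 0 ≤ θ) (h1 : θ ≤ 1) (b0 : 0 ≤ β) (b1 : β ≤ 1) (g i j i' j' : ℕ)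
    (hi : i ≤ i') (hj : j ≤ j') : aa k θ β g i' j' ≤ aa k θ β g i j := by
  obtain ⟨m1, m2⟩ := aaij_main k θ β h0 h1 b0 b1 g
  exact (m1 i' hj).trans (m2 j hi)

end AC

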