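import Pool.Agent.Helper949.AC.Defs2
import Pool.Agent.Helper949.AC.AaA
import Pool.Agent.Helper949.AC.AaC

set_option autoImplicit false

/-!
Definitions for the asymptotics of the average state complexity of intersections.
Tables `T : V → Fin k → V`; `rn T g w x` is the state reached from `x` after reading `w`.
-/

namespace AC

open Finset

variable {V : Type} {k : ℕ}

end AC

namespace AC
open Finset Filter Topology

/-! GIVEN (being proved separately, you may use them) -/
private theorem po_nonneg' (i x : ℕ) : 0 ≤ po i x := by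
  unfold po
  positivity

private theorem po_hasSum (i : ℕ) : HasSum (po i) 1 := by
  have h := (NormedSpace.expSeries_div_hasSum_exp (i : ℝ)).mul_left (Real.exp (-(i : ℝ)))
  rw [← Real.exp_eq_exp_ℝ, ← Real.exp_add] at h
  have e : -(i : ℝ) + i = 0 := by ring
  rw [e, Real.exp_zero] at h
  have e2 : po i = fun x : ℕ => Real.exp (-(i : ℝ)) * ((i : ℝ) ^ x / (x.factorial : ℝ)) := by
    funext x
    unfold po
    ring
  rw [e2]
  exact h

private theorem po2_summable (i j : ℕ) : Summable (fun p : ℕ × ℕ => po i p.1 * po j p.2) :=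
  (po_hasSum i).summable.mul_of_nonneg (po_hasSum j).summable (po_nonneg' i) (po_nonneg' j)

/-- expectation under two independent Poisson variables -/
private noncomputable def En (i j : ℕ) (f : ℕ → ℕ → ℝ) : ℝ :=
  ∑' p : ℕ × ℕ, po i p.1 * po j p.2 * f p.1 p.2

/-- values in the unit interval -/
private def Un (f : ℕ → ℕ → ℝ) : Prop := ∀ x y, 0 ≤ f x y ∧ f x y ≤ 1

private theorem En_summable (i j : ℕ) {f : ℕ → ℕ → ℝ} (hf : Un f) :
    Summable (fun p : ℕ × ℕ => po i p.1 * po j p.2 * f p.1 p.2) := by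
  apply Summable.of_nonneg_of_le _ _ (po2_summable i j)
  · intro p
    exact mul_nonneg (mul_nonneg (po_nonneg' _ _) (po_nonneg' _ _)) (hf _ _).1
  · intro p
    exact mul_le_of_le_one_right (mul_nonneg (po_nonneg' _ _) (po_nonneg' _ _)) (hf _ _).2

private theorem En_eq (i j : ℕ) {f : ℕ → ℕ → ℝ} (hf : Un f) :
    ∑' x : ℕ, ∑' y : ℕ, po i x * po j y * f x y = En i j f :=
  ((En_summable i j hf).tsum_prod).symm

private theorem En_one (i j : ℕ) : En i j (fun _ _ => 1) = 1 := by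
  rw [← En_eq i j (fun _ _ => ⟨zero_le_one, le_rfl⟩)]
  simp only [mul_one]
  have h : ∀ x, ∑' y : ℕ, po i x * po j y = po i x := by
    intro x
    rw [tsum_mul_left, (po_hasSum j).tsum_eq, mul_one]
  simp only [h]
  exact (po_hasSum i).tsum_eq

private theorem En_mono (i j : ℕ) {f g : ℕ → ℕ → ℝ} (hf : Un f) (hg : Un g) (h : ∀ x y, f x y ≤ g x y) :
    En i j f ≤ En i j g := by
  apply Summable.tsum_le_tsum _ (En_summable i j hf) (En_summable i j hg)
  intro p
  exact mul_le_mul_of_nonneg_left (h _ _) (mul_nonneg (po_nonneg' _ _) (po_nonneg' _ _))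

private theorem En_smul (i j : ℕ) (t : ℝ) (f : ℕ → ℕ → ℝ) :
    En i j (fun x y => t * f x y) = t * En i j f := by
  unfold En
  rw [← tsum_mul_left]
  congr 1
  funext p
  ring

private theorem En_one_sub (i j : ℕ) {f : ℕ → ℕ → ℝ} (hf : Un f) :
    En i j (fun x y => 1 - f x y) = 1 - En i j f := by
  have h1 : Un (fun _ _ => (1 : ℝ)) := fun _ _ => ⟨zero_le_one, le_rfl⟩
  have h := ((En_summable i j h1).tsum_sub (En_summable i j hf))
  have e : ∑' p : ℕ × ℕ, po i p.1 * po j p.2 * 1 = 1 := En_one i j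
  unfold En
  calc ∑' p : ℕ × ℕ, po i p.1 * po j p.2 * (1 - f p.1 p.2) =
        ∑' p : ℕ × ℕ, (po i p.1 * po j p.2 * 1 - po i p.1 * po j p.2 * f p.1 p.2) := by
        congr 1
        funext p
        ring
    _ = (∑' p : ℕ × ℕ, po i p.1 * po j p.2 * 1) -
        ∑' p : ℕ × ℕ, po i p.1 * po j p.2 * f p.1 p.2 := h
    _ = _ := by rw [e]

private theorem En_nonneg (i j : ℕ) {f : ℕ → ℕ → ℝ} (hf : Un f) : 0 ≤ En i j f := by
  apply tsum_nonneg
  intro p
  exact mul_nonneg (mul_nonneg (po_nonneg' _ _) (po_nonneg' _ _)) (hf _ _).1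

private theorem En_le_one (i j : ℕ) {f : ℕ → ℕ → ℝ} (hf : Un f) : En i j f ≤ 1 := by
  rw [← En_one i j]
  exact En_mono i j hf (fun _ _ => ⟨zero_le_one, le_rfl⟩) (fun x y => (hf x y).2)

private theorem En_tendsto (i j : ℕ) {f : ℕ → ℕ → ℕ → ℝ} {v : ℕ → ℕ → ℝ} (hf : ∀ g, Un (f g))
    (h : ∀ x y, Tendsto (fun g => f g x y) atTop (𝓝 (v x y))) :
    Tendsto (fun g => En i j (f g)) atTop (𝓝 (En i j v)) := by
  unfold En
  apply tendsto_tsum_of_dominated_convergence (po2_summable i j)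
  · intro p
    exact (h p.1 p.2).const_mul _
  · refine Eventually.of_forall fun g p => ?_
    rw [Real.norm_eq_abs, abs_of_nonneg (mul_nonneg
      (mul_nonneg (po_nonneg' _ _) (po_nonneg' _ _)) (hf g _ _).1)]
    exact mul_le_of_le_one_right (mul_nonneg (po_nonneg' _ _) (po_nonneg' _ _)) (hf g _ _).2

private theorem Un_aa (k : ℕ) (θ β : ℝ) (h0 : 0 ≤ θ) (h1 : θ ≤ 1) (b0 : 0 ≤ β) (b1 : β ≤ 1) (g : ℕ) :
    Un (fun i j => 1 - aa k θ β g i j) := by
  intro i j
  have h := aa_basic k θ β h0 h1 b0 b1 g i j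
  exact ⟨by linarith [h.2], by linarith [h.1]⟩

private theorem aa_succ_En (k : ℕ) (θ β : ℝ) (h0 : 0 ≤ θ) (h1 : θ ≤ 1) (b0 : 0 ≤ β) (b1 : β ≤ 1)
    (g i j : ℕ) :
    aa k θ β (g + 1) i j = (1 - En i j (fun x y => 1 - aa k θ β g x y)) ^ k := by
  have hU : Un (fun i j => aa k θ β g i j) := fun i j => aa_basic k θ β h0 h1 b0 b1 g i j
  rw [En_one_sub i j hU]
  have e : aa k θ β (g + 1) i j =
      (∑' x : ℕ, ∑' y : ℕ, po i x * po j y * aa k θ β g x y) ^ k := rfl
  rw [e, En_eq i j hU]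
  congr 1
  ring

private theorem key_ineq (k : ℕ) (hk : 2 ≤ k) (t x : ℝ) (ht0 : 0 ≤ t) (ht1 : t ≤ 1) (hx0 : 0 ≤ x)
    (hx1 : x ≤ 1) :
    (1 - t * x) ^ k ≤ (1 - t) + t * (1 - x) ^ k - t * (1 - t) * x ^ 2 := by
  induction k, hk using Nat.le_induction with
  | base => nlinarith
  | succ k hk ih =>
    have h1 : 0 ≤ 1 - t * x := by nlinarith
    have hA : (1 - x) ^ k ≤ 1 - x := by
      have := pow_le_pow_of_le_one (by linarith : 0 ≤ 1 - x) (by linarith : 1 - x ≤ 1)
        (by omega : 1 ≤ k)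
      simpa using this
    have h2 := mul_le_mul_of_nonneg_right ih h1
    rw [pow_succ, pow_succ]
    refine h2.trans ?_
    have h3 : 0 ≤ 1 - (1 - x) ^ k - t * x ^ 2 := by nlinarith
    have h4 : 0 ≤ t * (1 - t) * x * (1 - (1 - x) ^ k - t * x ^ 2) := by
      apply mul_nonneg _ h3
      apply mul_nonneg (mul_nonneg ht0 (by linarith)) hx0
    nlinarith

/-! TARGET -/
theorem aa_limit (k : ℕ) (hk : 2 ≤ k) (w : ℝ) (hw0 : 0 < w) (hw1 : w < 1) :
    ∃ s : ℝ, 0 ≤ s ∧ s ≤ 1 ∧ Tendsto (fun g => 1 - aa k 1 0 g 1 1) atTop (𝓝 s) ∧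
      ∀ β : ℝ, 0 ≤ β → β < 1 → ∀ ε : ℝ, 0 < ε → ∀ᶠ g in atTop, s - ε ≤ 1 - aa k w β g 1 1 := by
  obtain ⟨u, hu⟩ : ∃ u : ℕ → ℕ → ℕ → ℝ, u = fun g x y => 1 - aa k 1 0 g x y := ⟨_, rfl⟩
  have huU : ∀ g, Un (u g) := by
    intro g
    rw [hu]
    exact Un_aa k 1 0 zero_le_one le_rfl le_rfl zero_le_one g
  have hus : ∀ g i j, u (g + 1) i j = 1 - (1 - En i j (u g)) ^ k := by
    intro g i j
    rw [hu]
    simp only
    rw [aa_succ_En k 1 0 zero_le_one le_rfl le_rfl zero_le_one g i j]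
  have hanti : ∀ x y, Antitone (fun g => u g x y) := by
    intro x y
    apply antitone_nat_of_succ_le
    intro g
    rw [hu]
    have := aa_mono_g k g x y
    simp only
    linarith
  obtain ⟨v, hv⟩ : ∃ v : ℕ → ℕ → ℝ, ∀ x y, Tendsto (fun g => u g x y) atTop (𝓝 (v x y)) := by
    refine ⟨fun x y => ⨅ g, u g x y, fun x y => ?_⟩
    apply tendsto_atTop_ciInf (hanti x y)
    refine ⟨0, ?_⟩
    rintro _ ⟨g, rfl⟩
    exact (huU g x y).1
  have hvU : Un v := fun x y => ⟨ge_of_tendsto' (hv x y) (fun g => (huU g x y).1),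
    le_of_tendsto' (hv x y) (fun g => (huU g x y).2)⟩
  have hfix : ∀ i j, v i j = 1 - (1 - En i j v) ^ k := by
    intro i j
    have h1 : Tendsto (fun g => u (g + 1) i j) atTop (𝓝 (v i j)) :=
      (tendsto_add_atTop_iff_nat 1).mpr (hv i j)
    have h2 : Tendsto (fun g => 1 - (1 - En i j (u g)) ^ k) atTop
        (𝓝 (1 - (1 - En i j v) ^ k)) :=
      ((En_tendsto i j huU hv).const_sub 1 |>.pow k).const_sub 1
    simp only [hus] at h1
    exact tendsto_nhds_unique h1 h2
  have hvle : ∀ g x y, v x y ≤ u g x y := fun g x y => (hanti x y).le_of_tendsto (hv x y) g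
  have hv0j : ∀ j, v 0 j = 0 := by
    intro j
    apply le_antisymm _ (hvU 0 j).1
    refine (hvle 0 0 j).trans (le_of_eq ?_)
    rw [hu]
    simp [aa]
  have hvi0 : ∀ i, v i 0 = 0 := by
    intro i
    apply le_antisymm _ (hvU i 0).1
    refine (hvle 0 i 0).trans (le_of_eq ?_)
    rw [hu]
    simp [aa]
  have hvge : ∀ i j, 1 ≤ i → 1 ≤ j → v 1 1 ≤ v i j := by
    intro i j hi hj
    apply le_of_tendsto_of_tendsto' (hv 1 1) (hv i j)
    intro g
    rw [hu]
    have := aa_anti_ij k 1 0 zero_le_one le_rfl le_rfl zero_le_one g 1 1 i j hi hj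
    simp only
    linarith
  refine ⟨v 1 1, (hvU 1 1).1, (hvU 1 1).2, ?_, ?_⟩
  · have h := hv 1 1
    rw [hu] at h
    exact h
  intro β hβ0 hβ1 ε hε
  rcases (hvU 1 1).1.eq_or_lt with hs | hs
  · refine Eventually.of_forall fun g => ?_
    rw [← hs]
    have := (aa_basic k w β hw0.le hw1.le hβ0 hβ1.le g 1 1).2
    linarith
  have hk0 : (0 : ℝ) < k := by
    have : 0 < k := by omega
    exact_mod_cast this
  have hk1 : (1 : ℝ) ≤ k := by
    have : 1 ≤ k := by omega
    exact_mod_cast this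
  obtain ⟨m, hm⟩ : ∃ m, m = v 1 1 / k := ⟨_, rfl⟩
  have hm0 : 0 < m := by rw [hm]; positivity
  have hm1 : m ≤ 1 := by
    rw [hm, div_le_one hk0]
    linarith [(hvU 1 1).2]
  have hxm : ∀ i j, 1 ≤ i → 1 ≤ j → m ≤ En i j v := by
    intro i j hi hj
    have h1 := hfix i j
    have h2 : 1 + (k : ℝ) * (-(En i j v)) ≤ (1 + -(En i j v)) ^ k := by
      apply one_add_mul_le_pow
      have := En_le_one i j hvU
      linarith
    have h3 := hvge i j hi hj
    rw [hm, div_le_iff₀ hk0]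
    have h4 : (1 + -(En i j v)) ^ k = (1 - En i j v) ^ k := by ring
    rw [h4] at h2
    linarith
  obtain ⟨t0, ht0⟩ : ∃ t0, t0 = (1 - β) * w ^ 2 := ⟨_, rfl⟩
  have ht0p : 0 < t0 := by
    rw [ht0]
    have : 0 < 1 - β := by linarith
    positivity
  have ht01 : t0 ≤ 1 := by
    rw [ht0]
    nlinarith
  obtain ⟨c, hc⟩ : ∃ c, c = t0 * m ^ 2 := ⟨_, rfl⟩
  have hc0 : 0 < c := by rw [hc]; positivity
  have hm21 : m ^ 2 ≤ 1 := by nlinarith
  have hc1 : c ≤ 1 := by
    rw [hc]
    nlinarith [sq_nonneg m]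
  have claim : ∀ g : ℕ, ∃ t : ℝ, t0 ≤ t ∧ t ≤ 1 ∧ 1 - t ≤ (1 - c) ^ g ∧
      ∀ i j, t * v i j ≤ 1 - aa k w β g i j := by
    intro g
    induction g with
    | zero =>
      refine ⟨t0, le_rfl, ht01, by simp; linarith, ?_⟩
      intro i j
      have hb := (aa_basic k w β hw0.le hw1.le hβ0 hβ1.le 0 i j).2
      rcases Nat.eq_zero_or_pos i with hi | hi
      · rw [hi, hv0j, mul_zero]
        rw [hi] at hb
        linarith
      rcases Nat.eq_zero_or_pos j with hj | hj
      · rw [hj, hvi0, mul_zero]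
        rw [hj] at hb
        linarith
      have h1 : (1 - w) ^ i ≤ 1 - w := by
        have := pow_le_pow_of_le_one (by linarith : 0 ≤ 1 - w) (by linarith : 1 - w ≤ 1) hi
        simpa using this
      have h2 : (1 - w) ^ j ≤ 1 - w := by
        have := pow_le_pow_of_le_one (by linarith : 0 ≤ 1 - w) (by linarith : 1 - w ≤ 1) hj
        simpa using this
      have e : 1 - aa k w β 0 i j = (1 - β) * (1 - (1 - w) ^ i) * (1 - (1 - w) ^ j) := by
        simp only [aa]
        ring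
      rw [e]
      have h3 : w * w ≤ (1 - (1 - w) ^ i) * (1 - (1 - w) ^ j) :=
        mul_le_mul (by linarith) (by linarith) hw0.le (by linarith)
      have h4 : t0 * v i j ≤ t0 := mul_le_of_le_one_right ht0p.le (hvU i j).2
      refine h4.trans ?_
      rw [ht0, mul_assoc, pow_two]
      exact mul_le_mul_of_nonneg_left h3 (by linarith)
    | succ g ih =>
      obtain ⟨t, h1, h2, h3, h4⟩ := ih
      have htp : 0 < t := lt_of_lt_of_le ht0p h1
      refine ⟨t + t * (1 - t) * m ^ 2, ?_, ?_, ?_, ?_⟩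
      · have : 0 ≤ t * (1 - t) * m ^ 2 :=
          mul_nonneg (mul_nonneg htp.le (by linarith)) (sq_nonneg m)
        linarith
      · have h5 : t * m ^ 2 ≤ 1 := by nlinarith [sq_nonneg m]
        nlinarith
      · have h5 : 1 - (t + t * (1 - t) * m ^ 2) = (1 - t) * (1 - t * m ^ 2) := by ring
        rw [h5, pow_succ]
        apply mul_le_mul h3 _ _ (pow_nonneg (by linarith) g)
        · rw [hc]
          nlinarith [sq_nonneg m]
        · nlinarith [sq_nonneg m]
      · intro i j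
        have hb := (aa_basic k w β hw0.le hw1.le hβ0 hβ1.le (g + 1) i j).2
        rcases Nat.eq_zero_or_pos i with hi | hi
        · rw [hi, hv0j, mul_zero]
          rw [hi] at hb
          linarith
        rcases Nat.eq_zero_or_pos j with hj | hj
        · rw [hj, hvi0, mul_zero]
          rw [hj] at hb
          linarith
        have hU1 : Un (fun x y => t * v x y) := fun x y =>
          ⟨mul_nonneg htp.le (hvU x y).1, by nlinarith [(hvU x y).1, (hvU x y).2]⟩
        have hU2 := Un_aa k w β hw0.le hw1.le hβ0 hβ1.le g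
        have h5 : t * En i j v ≤ En i j (fun x y => 1 - aa k w β g x y) := by
          rw [← En_smul]
          exact En_mono i j hU1 hU2 h4
        have h6 := En_le_one i j hU2
        rw [aa_succ_En k w β hw0.le hw1.le hβ0 hβ1.le g i j]
        have h7 : (1 - En i j (fun x y => 1 - aa k w β g x y)) ^ k ≤ (1 - t * En i j v) ^ k :=
          pow_le_pow_left₀ (by linarith) (by linarith) k
        have hx0 := En_nonneg i j hvU
        have hx1 := En_le_one i j hvU
        have h8 := key_ineq k hk t (En i j v) htp.le h2 hx0 hx1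
        have h9 := hfix i j
        have h10 := hxm i j hi hj
        have h11 : m ^ 2 ≤ En i j v ^ 2 := by nlinarith
        have h12 : t * (1 - t) * m ^ 2 ≤ t * (1 - t) * En i j v ^ 2 :=
          mul_le_mul_of_nonneg_left h11 (mul_nonneg htp.le (by linarith))
        have h13 : t * (1 - t) * m ^ 2 * v i j ≤ t * (1 - t) * m ^ 2 :=
          mul_le_of_le_one_right
            (mul_nonneg (mul_nonneg htp.le (by linarith)) (sq_nonneg m)) (hvU i j).2
        have h14 : t * v i j = t * (1 - (1 - En i j v) ^ k) := by rw [← h9]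
        rw [add_mul, h14]
        linarith
  have hlim : Tendsto (fun g : ℕ => (1 - c) ^ g) atTop (𝓝 0) :=
    tendsto_pow_atTop_nhds_zero_of_lt_one (by linarith) (by linarith)
  filter_upwards [hlim.eventually (gt_mem_nhds hε)] with g hg
  obtain ⟨t, h1, h2, h3, h4⟩ := claim g
  have h5 := h4 1 1
  have h6 : (1 - t) * v 1 1 ≤ (1 - t) * 1 :=
    mul_le_mul_of_nonneg_left (hvU 1 1).2 (by linarith)
  linarith


end AC

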