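import Pool.Agent.Helper513.SI.M6
import Pool.Agent.Helper513.SI.Jc

set_option autoImplicit false

/-! Elementary bounds for `E_n` (copied from helper513's `QuadraticOrder`). -/

namespace AC
open Filter Topology Asymptotics

/-- trivial bounds -/
theorem E_bounds (A : Type) [Finite A] [Nonempty A] (n : ℕ) (hn : 1 ≤ n) :
    1 ≤ SI.E A n ∧ SI.E A n ≤ (n:ℝ)^2 := by
  classical
  have hfin : (SI.R A n).Finite := SI.R_finite A n
  have hne : (SI.R A n).Nonempty := SI.R_nonempty A n hn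
  have hc : 0 < (SI.R A n).ncard := (Set.ncard_pos hfin).2 hne
  have hfin2 : (SI.R A n ×ˢ SI.R A n).Finite := hfin.prod hfin
  have hsum : (∑ᶠ p ∈ (SI.R A n) ×ˢ (SI.R A n), (SI.sc (p.1 ⊓ p.2) : ℝ))
      = ∑ p ∈ hfin2.toFinset, (SI.sc (p.1 ⊓ p.2) : ℝ) := by
    rw [finsum_mem_eq_finite_toFinset_sum _ hfin2]
  have hcard : (hfin2.toFinset.card : ℝ) = ((SI.R A n).ncard : ℝ)^2 := by
    rw [← Set.ncard_eq_toFinset_card _ hfin2, Set.ncard_prod, sq]
    push_cast
    ring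
  have hpos : (0:ℝ) < ((SI.R A n).ncard : ℝ)^2 := by positivity
  unfold SI.E
  rw [hsum]
  constructor
  · rw [le_div_iff₀ hpos, one_mul, ← hcard]
    rw [← nsmul_one, ← Finset.sum_const]
    apply Finset.sum_le_sum
    intro p hp
    rw [Set.Finite.mem_toFinset] at hp
    have := SI.sc_pos (p.1 ⊓ p.2) (SI.inter_regular _ _ hp.1.1 hp.2.1)
    exact_mod_cast this
  · rw [div_le_iff₀ hpos, ← hcard, mul_comm, ← nsmul_eq_mul, ← Finset.sum_const]
    apply Finset.sum_le_sum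
    intro p hp
    rw [Set.Finite.mem_toFinset] at hp
    have h1 := SI.sc_inter_le p.1 p.2 hp.1.1 hp.2.1
    rw [hp.1.2, hp.2.2] at h1
    have : (SI.sc (p.1 ⊓ p.2) : ℝ) ≤ ((n * n : ℕ) : ℝ) := by exact_mod_cast h1
    rw [sq]
    exact_mod_cast this

/-- lower bound for all large `n`, with a constant which does not depend on the alphabet -/
theorem E_lower (A : Type) [Finite A] (hA : 2 ≤ Nat.card A) :
    ∀ᶠ n : ℕ in atTop, (n:ℝ)^2 / 12800 ≤ SI.E A n := by
  classical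
  obtain ⟨m0, hm⟩ := SI.lower_sum (Nat.card A) hA
  filter_upwards [eventually_ge_atTop (m0 + 1)] with n hn
  obtain ⟨m, rfl⟩ : ∃ m, n = m + 1 := ⟨n - 1, by omega⟩
  have h1 := hm m (by omega)
  rw [SI.E_map A (Fin (Nat.card A)) (Finite.equivFin A) (m+1)]
  have h2 := SI.E_mul (Fin (Nat.card A)) m
  haveI : NeZero (Nat.card A) := ⟨by omega⟩
  have hne : (SI.R (Fin (Nat.card A)) (m+1)).Nonempty := SI.R_nonempty _ (m+1) (by omega)
  obtain ⟨L, hL⟩ := hne
  have hcard := SI.fiber_card (m := m) L hL.1 hL.2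
  have hpos : 0 < (SI.MinAut (Fin (Nat.card A)) m).ncard := by
    rw [Set.ncard_pos (Set.toFinite _)]
    have : 0 < {x | x ∈ SI.MinAut (Fin (Nat.card A)) m ∧ SI.lang x = L}.ncard := by
      rw [hcard]; exact Nat.factorial_pos _
    obtain ⟨x, hx⟩ := (Set.ncard_pos (Set.toFinite _)).1 this
    exact ⟨x, hx.1⟩
  have hpos' : (0:ℝ) < ((SI.MinAut (Fin (Nat.card A)) m).ncard : ℝ)^2 := by positivity
  rw [← h2] at h1
  push_cast
  rw [div_le_iff₀ (by norm_num)]
  have h3 : ((m:ℝ)+1)^2 * ((SI.MinAut (Fin (Nat.card A)) m).ncard : ℝ)^2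
      ≤ (SI.E (Fin (Nat.card A)) (m+1) * 12800) * ((SI.MinAut (Fin (Nat.card A)) m).ncard : ℝ)^2 := by
    calc _ ≤ _ := h1
      _ = _ := by ring
  exact le_of_mul_le_mul_right h3 hpos'


end AC
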