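import Pool.Agent.Helper949.AC.Defs2

set_option autoImplicit false

/-!
Definitions for the asymptotics of the average state complexity of intersections.
Tables `T : V → Fin k → V`; `rn T g w x` is the state reached from `x` after reading `w`.
-/

namespace AC

open Finset

variable {V : Type} {k : ℕ}

end AC

namespace AC
open Finset

/-- exploration: state `0` is `x`, state `s + 1` is the `a s`-successor of state `π s` -/
private def coinc_one_st {W : Type} {k : ℕ} (T : W → Fin k → W) (x : W) (π : ℕ → ℕ) (a : ℕ → Fin k) :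
    ℕ → W
  | 0 => x
  | s + 1 => if _h : π s ≤ s then T (coinc_one_st T x π a (π s)) (a s) else x
termination_by s => s
decreasing_by omega

private theorem coinc_one_zero {W : Type} {k : ℕ} (T : W → Fin k → W) (x : W) (π : ℕ → ℕ) (a : ℕ → Fin k) :
    coinc_one_st T x π a 0 = x := by
  rw [coinc_one_st]

private theorem coinc_one_succ {W : Type} {k : ℕ} (T : W → Fin k → W) (x : W) (π : ℕ → ℕ) (a : ℕ → Fin k)
    (hπ : ∀ s, π s ≤ s) (s : ℕ) :
    coinc_one_st T x π a (s + 1) = T (coinc_one_st T x π a (π s)) (a s) := by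
  rw [coinc_one_st, dif_pos (hπ s)]

/-- the word leading to a state of the exploration -/
private def coinc_one_W {k : ℕ} (π : ℕ → ℕ) (a : ℕ → Fin k) : ℕ → List (Fin k) :=
  coinc_one_st (fun (l : List (Fin k)) b => l.concat b) [] π a

/-- step `s` uses a new cell and leads to a visited state -/
private def coinc_one_bad {W : Type} {k : ℕ} (x : W) (π : ℕ → ℕ) (a : ℕ → Fin k) (s : ℕ)
    (T : W → Fin k → W) : Prop :=
  (∀ r < s, ¬ (coinc_one_st T x π a (π r) = coinc_one_st T x π a (π s) ∧ a r = a s)) ∧
    ∃ m ≤ s, coinc_one_st T x π a (s + 1) = coinc_one_st T x π a m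

private theorem coinc_one_claim {W : Type} {k : ℕ} (T : W → Fin k → W) (x : W) (π : ℕ → ℕ) (a : ℕ → Fin k)
    (hπ : ∀ s, π s ≤ s) (n : ℕ) (hno : ∀ s < n, ¬ coinc_one_bad x π a s T) :
    ∀ N ≤ n, ∀ m ≤ N, ∀ m' ≤ N, coinc_one_st T x π a m = coinc_one_st T x π a m' →
      coinc_one_W π a m = coinc_one_W π a m' := by
  intro N
  induction N with
  | zero =>
    intro _ m hm m' hm' _
    have h1 : m = 0 := by omega
    have h2 : m' = 0 := by omega
    subst h1 h2
    rfl
  | succ N ih =>
    intro hN
    have ih' := ih (by omega)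
    have key : ∀ m' ≤ N, coinc_one_st T x π a (N + 1) = coinc_one_st T x π a m' →
        coinc_one_W π a (N + 1) = coinc_one_W π a m' := by
      intro m' hm' he
      have h1 : ¬ (∀ r < N, ¬ (coinc_one_st T x π a (π r) = coinc_one_st T x π a (π N) ∧
          a r = a N)) := fun hf => hno N (by omega) ⟨hf, m', hm', he⟩
      push Not at h1
      obtain ⟨r, hr, h2, h3⟩ := h1
      have h4 : coinc_one_st T x π a (r + 1) = coinc_one_st T x π a (N + 1) := by
        rw [coinc_one_succ T x π a hπ, coinc_one_succ T x π a hπ, h2, h3]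
      have h5 : coinc_one_W π a (π r) = coinc_one_W π a (π N) :=
        ih' _ (by have := hπ r; omega) _ (hπ N) h2
      have h6 : coinc_one_W π a (r + 1) = coinc_one_W π a (N + 1) := by
        unfold coinc_one_W at h5 ⊢
        rw [coinc_one_succ _ _ π a hπ, coinc_one_succ _ _ π a hπ, h5, h3]
      rw [← h6]
      exact ih' (r + 1) (by omega) m' hm' (h4.trans he)
    intro m hm m' hm' he
    rcases Nat.lt_or_ge N m with h | h
    · have h7 : m = N + 1 := by omega
      subst h7
      rcases Nat.lt_or_ge N m' with h' | h'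
      · have h8 : m' = N + 1 := by omega
        subst h8
        rfl
      · exact key m' h' he
    · rcases Nat.lt_or_ge N m' with h' | h'
      · have h8 : m' = N + 1 := by omega
        subst h8
        exact (key m h he.symm).symm
      · exact ih' m h m' h' he

/-- redirect one cell -/
private def coinc_one_upd {W : Type} {k : ℕ} [DecidableEq W] (T : W → Fin k → W) (c : W) (b : Fin k)
    (y : W) : W → Fin k → W := fun v d => if v = c ∧ d = b then y else T v d

private theorem coinc_one_inv {W : Type} {k : ℕ} [DecidableEq W] (T : W → Fin k → W) (x : W) (π : ℕ → ℕ)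
    (a : ℕ → Fin k) (hπ : ∀ s, π s ≤ s) (s : ℕ)
    (hf : ∀ r < s, ¬ (coinc_one_st T x π a (π r) = coinc_one_st T x π a (π s) ∧ a r = a s))
    (y : W) : ∀ N ≤ s, ∀ m ≤ N,
      coinc_one_st (coinc_one_upd T (coinc_one_st T x π a (π s)) (a s) y) x π a m
        = coinc_one_st T x π a m := by
  intro N
  induction N with
  | zero =>
    intro _ m hm
    have h1 : m = 0 := by omega
    subst h1
    rw [coinc_one_zero, coinc_one_zero]
  | succ N ih =>
    intro hN m hm
    have ih' := ih (by omega)
    rcases Nat.lt_or_ge N m with h | h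
    · have h7 : m = N + 1 := by omega
      subst h7
      rw [coinc_one_succ _ _ π a hπ, coinc_one_succ T x π a hπ, ih' _ (hπ N)]
      have h2 := hf N (by omega)
      simp only [coinc_one_upd]
      rw [if_neg h2]
    · exact ih' m h

private theorem coinc_one_count {W : Type} {k : ℕ} [DecidableEq W] [Fintype W] (x : W) (π : ℕ → ℕ)
    (a : ℕ → Fin k) (hπ : ∀ s, π s ≤ s) (s : ℕ) [DecidablePred (coinc_one_bad (k := k) x π a s)] :
    (univ.filter (coinc_one_bad (k := k) x π a s)).card * Fintype.card W
      ≤ (s + 1) * Fintype.card (W → Fin k → W) := by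
  classical
  let f : (W → Fin k → W) → Finset W := fun T => (range (s + 1)).image (coinc_one_st T x π a)
  have hf : ∀ T, (f T).card ≤ s + 1 := fun T => card_image_le.trans (by simp)
  have h1 : ((univ.filter (coinc_one_bad (k := k) x π a s)) ×ˢ (univ : Finset W)).card
      ≤ ((univ : Finset (W → Fin k → W)).sigma f).card := by
    refine Finset.card_le_card_of_injOn
      (fun p => ⟨coinc_one_upd p.1 (coinc_one_st p.1 x π a (π s)) (a s) p.2,
        coinc_one_st p.1 x π a (s + 1)⟩) ?_ ?_
    · intro p hp
      have hp' := (mem_filter.1 (mem_product.1 hp).1).2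
      obtain ⟨hfr, m, hm, he⟩ := hp'
      rw [mem_coe, mem_sigma]
      refine ⟨mem_univ _, ?_⟩
      rw [mem_image]
      refine ⟨m, by simpa using Nat.lt_succ_of_le hm, ?_⟩
      rw [coinc_one_inv p.1 x π a hπ s hfr p.2 s le_rfl m hm]
      exact he.symm
    · rintro ⟨T, y⟩ hp ⟨T', y'⟩ hp' he
      have hfr := (mem_filter.1 (mem_product.1 hp).1).2.1
      have hfr' := (mem_filter.1 (mem_product.1 hp').1).2.1
      simp only [Sigma.mk.injEq] at he
      obtain ⟨he1, he2⟩ := he
      have he2' := eq_of_heq he2
      have e1 := coinc_one_inv T x π a hπ s hfr y s le_rfl (π s) (hπ s)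
      have e2 := coinc_one_inv T' x π a hπ s hfr' y' s le_rfl (π s) (hπ s)
      simp only at he1 he2' hfr hfr'
      rw [he1, e2] at e1
      -- e1 : st T' (π s) = st T (π s)
      rw [coinc_one_succ T x π a hπ, coinc_one_succ T' x π a hπ, e1] at he2'
      rw [e1] at he1
      have hy : y = y' := by
        have := congrFun (congrFun he1 (coinc_one_st T x π a (π s))) (a s)
        simpa [coinc_one_upd] using this
      have hT : T = T' := by
        funext v d
        by_cases hvd : v = coinc_one_st T x π a (π s) ∧ d = a s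
        · rw [hvd.1, hvd.2]
          exact he2'
        · have := congrFun (congrFun he1 v) d
          simp only [coinc_one_upd] at this
          rwa [if_neg hvd, if_neg hvd] at this
      rw [hT, hy]
  rw [card_product, card_sigma, card_univ] at h1
  refine h1.trans ?_
  calc ∑ T : W → Fin k → W, (f T).card ≤ ∑ T : W → Fin k → W, (s + 1) :=
        sum_le_sum fun T _ => hf T
    _ = (s + 1) * Fintype.card (W → Fin k → W) := by
        rw [sum_const, card_univ, smul_eq_mul, mul_comm]

private theorem coinc_one_walk1 {W : Type} {k : ℕ} (T : W → Fin k → W) (x : W) (i : ℕ)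
    (U U' : ℕ → Fin k) : ∀ m ≤ i,
      coinc_one_st T x (fun s => if s = i then 0 else s) (fun s => if s < i then U s else U' (s - i)) m
        = rn T m (fun t => U t) x := by
  intro m
  induction m with
  | zero => intro _; rw [coinc_one_zero]; rfl
  | succ m ih =>
    intro hm
    rw [coinc_one_succ _ _ _ _ (by intro s; split_ifs <;> omega)]
    have h1 : ¬ m = i := by omega
    have h2 : m < i := by omega
    rw [if_neg h1, if_pos h2, ih (by omega)]
    rfl

private theorem coinc_one_walk2 {W : Type} {k : ℕ} (T : W → Fin k → W) (x : W) (i : ℕ)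
    (U U' : ℕ → Fin k) : ∀ m,
      coinc_one_st T x (fun s => if s = i then 0 else s) (fun s => if s < i then U s else U' (s - i))
        (i + (m + 1)) = rn T (m + 1) (fun t => U' t) x := by
  intro m
  induction m with
  | zero =>
    have h0 : i + (0 + 1) = i + 1 := by omega
    rw [h0, coinc_one_succ _ _ _ _ (by intro s; split_ifs <;> omega)]
    rw [if_pos rfl, if_neg (lt_irrefl i), coinc_one_zero, Nat.sub_self]
    rfl
  | succ m ih =>
    have h0 : i + (m + 1 + 1) = (i + (m + 1)) + 1 := by omega
    rw [h0, coinc_one_succ _ _ _ _ (by intro s; split_ifs <;> omega)]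
    have h1 : ¬ i + (m + 1) = i := by omega
    have h2 : ¬ i + (m + 1) < i := by omega
    have h3 : i + (m + 1) - i = m + 1 := by omega
    rw [if_neg h1, if_neg h2, h3, ih]
    rfl

private theorem coinc_one_ofFn {k : ℕ} (g : ℕ) (w : Fin g → Fin k) :
    rn (fun (l : List (Fin k)) b => l.concat b) g w [] = List.ofFn w := by
  induction g with
  | zero => simp [rn]
  | succ g ih =>
    rw [List.ofFn_succ', ← ih]
    rfl

private theorem coinc_one_exists {W : Type} {k : ℕ} (hk : 1 ≤ k) (T : W → Fin k → W) (x : W) (i j : ℕ)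
    (u : Fin i → Fin k) (u' : Fin j → Fin k)
    (hne : (⟨i, u⟩ : Σ n, Fin n → Fin k) ≠ ⟨j, u'⟩) (hc : rn T i u x = rn T j u' x) :
    ∃ s < i + j, coinc_one_bad x (fun s => if s = i then 0 else s)
      (fun s => if s < i then (if h : s < i then u ⟨s, h⟩ else ⟨0, hk⟩)
        else (if h : s - i < j then u' ⟨s - i, h⟩ else ⟨0, hk⟩)) s T := by
  by_contra hno
  push Not at hno
  set U : ℕ → Fin k := fun s => if h : s < i then u ⟨s, h⟩ else ⟨0, hk⟩ with hU
  set U' : ℕ → Fin k := fun s => if h : s < j then u' ⟨s, h⟩ else ⟨0, hk⟩ with hU'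
  have hUu : (fun t : Fin i => U t) = u := by
    funext t
    simp [hU]
  have hUu' : (fun t : Fin j => U' t) = u' := by
    funext t
    simp [hU']
  have hcl := coinc_one_claim T x (fun s => if s = i then 0 else s)
    (fun s => if s < i then U s else U' (s - i)) (by intro s; split_ifs <;> omega)
    (i + j) hno (i + j) le_rfl
  have e1 := coinc_one_walk1 T x i U U' i le_rfl
  have f1 := coinc_one_walk1 (fun (l : List (Fin k)) b => l.concat b) [] i U U' i le_rfl
  rw [hUu] at e1 f1
  rw [coinc_one_ofFn] at f1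
  have h2 : ∃ e' ≤ i + j, coinc_one_st T x (fun s => if s = i then 0 else s)
      (fun s => if s < i then U s else U' (s - i)) e' = rn T j u' x ∧
      coinc_one_st (fun (l : List (Fin k)) b => l.concat b) [] (fun s => if s = i then 0 else s)
      (fun s => if s < i then U s else U' (s - i)) e' = List.ofFn u' := by
    rcases Nat.eq_zero_or_pos j with hj | hj
    · subst hj
      refine ⟨0, by omega, ?_, ?_⟩
      · rw [coinc_one_zero]; rfl
      · rw [coinc_one_zero]; simp
    · obtain ⟨m, rfl⟩ : ∃ m, j = m + 1 := ⟨j - 1, by omega⟩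
      refine ⟨i + (m + 1), le_rfl, ?_, ?_⟩
      · rw [coinc_one_walk2, hUu']
      · rw [coinc_one_walk2, hUu', coinc_one_ofFn]
  obtain ⟨e', he', e2, f2⟩ := h2
  have h3 := hcl i (by omega) e' he' (e1.trans (hc.trans e2.symm))
  have h4 : List.ofFn u = List.ofFn u' := f1.symm.trans (h3.trans f2)
  exact hne (List.ofFn_inj'.1 h4)

/-- two different words lead rarely to the same state from a given state -/
theorem coinc_one (k g : ℕ) (hk : 1 ≤ k) : ∃ C : ℝ, 0 ≤ C ∧ ∀ (M : ℕ) (x : Fin (M + 1)) (i j : ℕ)
    (u : Fin i → Fin k) (u' : Fin j → Fin k), i ≤ g → j ≤ g →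
    (⟨i, u⟩ : Σ n, Fin n → Fin k) ≠ ⟨j, u'⟩ →
    pr (fun T : Fin (M + 1) → Fin k → Fin (M + 1) => rn T i u x = rn T j u' x) ≤ C / (M + 1) := by
  classical
  refine ⟨((2 * g : ℕ) : ℝ) ^ 2, by positivity, ?_⟩
  intro M x i j u u' hi hj hne
  set π : ℕ → ℕ := fun s => if s = i then 0 else s with hπd
  set a : ℕ → Fin k := fun s => if s < i then (if h : s < i then u ⟨s, h⟩ else ⟨0, hk⟩)
        else (if h : s - i < j then u' ⟨s - i, h⟩ else ⟨0, hk⟩) with had
  have hπ : ∀ s, π s ≤ s := by
    intro s
    simp only [hπd]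
    split_ifs <;> omega
  have hsub : (univ.filter (fun T : Fin (M + 1) → Fin k → Fin (M + 1) => rn T i u x = rn T j u' x))
      ⊆ (range (i + j)).biUnion (fun s => univ.filter (coinc_one_bad (k := k) x π a s)) := by
    intro T hT
    rw [mem_filter] at hT
    obtain ⟨s, hs, hb⟩ := coinc_one_exists hk T x i j u u' hne hT.2
    rw [mem_biUnion]
    exact ⟨s, mem_range.2 hs, mem_filter.2 ⟨mem_univ _, hb⟩⟩
  have hpos : (0 : ℝ) < Fintype.card (Fin (M + 1) → Fin k → Fin (M + 1)) := by
    have : 0 < Fintype.card (Fin (M + 1) → Fin k → Fin (M + 1)) := Fintype.card_pos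
    exact_mod_cast this
  have hM : (0 : ℝ) < (M : ℝ) + 1 := by positivity
  have hcard : ((univ.filter (fun T : Fin (M + 1) → Fin k → Fin (M + 1) =>
      rn T i u x = rn T j u' x)).card : ℝ) * (M + 1)
      ≤ ((2 * g : ℕ) : ℝ) ^ 2 * Fintype.card (Fin (M + 1) → Fin k → Fin (M + 1)) := by
    have h1 : (univ.filter (fun T : Fin (M + 1) → Fin k → Fin (M + 1) =>
        rn T i u x = rn T j u' x)).card
        ≤ ∑ s ∈ range (i + j), (univ.filter (coinc_one_bad (k := k) x π a s)).card :=
      (card_le_card hsub).trans card_biUnion_le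
    have h2 : (univ.filter (fun T : Fin (M + 1) → Fin k → Fin (M + 1) =>
        rn T i u x = rn T j u' x)).card * (M + 1)
        ≤ (2 * g) ^ 2 * Fintype.card (Fin (M + 1) → Fin k → Fin (M + 1)) := by
      calc _ ≤ (∑ s ∈ range (i + j), (univ.filter (coinc_one_bad (k := k) x π a s)).card) * (M + 1) :=
            Nat.mul_le_mul_right _ h1
        _ = ∑ s ∈ range (i + j), (univ.filter (coinc_one_bad (k := k) x π a s)).card * (M + 1) := by
            rw [sum_mul]
        _ ≤ ∑ s ∈ range (i + j), (2 * g) * Fintype.card (Fin (M + 1) → Fin k → Fin (M + 1)) := by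
            refine sum_le_sum fun s hs => ?_
            rw [mem_range] at hs
            have h3 := coinc_one_count (W := Fin (M + 1)) (k := k) x π a hπ s
            rw [Fintype.card_fin (M + 1)] at h3
            refine h3.trans (Nat.mul_le_mul_right _ ?_)
            omega
        _ ≤ (2 * g) ^ 2 * Fintype.card (Fin (M + 1) → Fin k → Fin (M + 1)) := by
            rw [sum_const, card_range, smul_eq_mul, ← mul_assoc, pow_two]
            refine Nat.mul_le_mul_right _ (Nat.mul_le_mul_right _ ?_)
            omega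
    have h4 := (Nat.cast_le (α := ℝ)).2 h2
    push_cast at h4 ⊢
    exact h4
  unfold pr
  rw [div_le_div_iff₀ hpos hM]
  refine le_trans (le_of_eq ?_) hcard
  congr!
end AC

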