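import Pool.Agent.Helper949.AC.Defs2

set_option autoImplicit false

/-!
Definitions for the asymptotics of the average state complexity of intersections.
Tables `T : V → Fin k → V`; `rn T g w x` is the state reached from `x` after reading `w`.
-/

namespace AC

open Finset

variable {V : Type} {k : ℕ}

end AC

namespace AC
open Finset

private theorem h16502_one {α : Type} [Fintype α] [Nonempty α] (X : α → ℝ) (L : ℝ) (hL : 0 < L)
    (h0 : ∑ v, X v = 0) (h : ∀ v v', |X v - X v'| ≤ L) (s : ℝ) :
    ∑ v, Real.exp (s * X v) ≤ (Fintype.card α : ℝ) * Real.exp (s ^ 2 * L ^ 2 / 2) := by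
  have hc : 0 < (Fintype.card α : ℝ) := by exact_mod_cast Fintype.card_pos
  have hX : ∀ v, |X v| ≤ L := by
    intro v
    have h1 : (Fintype.card α : ℝ) * X v = ∑ v', (X v - X v') := by
      rw [Finset.sum_sub_distrib, h0, Finset.sum_const, Finset.card_univ, nsmul_eq_mul, sub_zero]
    have h2 : |(Fintype.card α : ℝ) * X v| ≤ (Fintype.card α : ℝ) * L := by
      rw [h1]
      refine (Finset.abs_sum_le_sum_abs _ _).trans ?_
      refine (Finset.sum_le_sum fun v' _ => h v v').trans (le_of_eq ?_)
      rw [Finset.sum_const, Finset.card_univ, nsmul_eq_mul]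
    rw [abs_mul, abs_of_pos hc] at h2
    exact le_of_mul_le_mul_left h2 hc
  have hpt : ∀ v, Real.exp (s * X v) ≤ (L + X v) / (2 * L) * Real.exp (s * L) +
      (L - X v) / (2 * L) * Real.exp (-(s * L)) := by
    intro v
    have h1 := abs_le.mp (hX v)
    have ha : 0 ≤ (L + X v) / (2 * L) := div_nonneg (by linarith) (by linarith)
    have hb : 0 ≤ (L - X v) / (2 * L) := div_nonneg (by linarith) (by linarith)
    have hab : (L + X v) / (2 * L) + (L - X v) / (2 * L) = 1 := by
      field_simp
      ring
    have h2 := convexOn_exp.2 (Set.mem_univ (s * L)) (Set.mem_univ (-(s * L))) ha hb hab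
    simp only [smul_eq_mul] at h2
    have h3 : (L + X v) / (2 * L) * (s * L) + (L - X v) / (2 * L) * (-(s * L)) = s * X v := by
      field_simp
      ring
    rw [h3] at h2
    exact h2
  calc ∑ v, Real.exp (s * X v) ≤ ∑ v, ((L + X v) / (2 * L) * Real.exp (s * L) +
      (L - X v) / (2 * L) * Real.exp (-(s * L))) := Finset.sum_le_sum fun v _ => hpt v
    _ = ∑ v, ((Real.exp (s * L) + Real.exp (-(s * L))) / 2 +
        (Real.exp (s * L) - Real.exp (-(s * L))) / (2 * L) * X v) := by
        apply Finset.sum_congr rfl
        intro v _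
        field_simp
        ring
    _ = (Fintype.card α : ℝ) * Real.cosh (s * L) := by
        rw [Finset.sum_add_distrib, ← Finset.mul_sum, h0, mul_zero, add_zero, Finset.sum_const,
          Finset.card_univ, nsmul_eq_mul, Real.cosh_eq]
    _ ≤ (Fintype.card α : ℝ) * Real.exp (s ^ 2 * L ^ 2 / 2) := by
        apply mul_le_mul_of_nonneg_left _ hc.le
        refine (Real.cosh_le_exp_half_sq _).trans (le_of_eq ?_)
        congr 1
        ring

private theorem h16502_fin {α : Type} [Fintype α] [Nonempty α] (L : ℝ) (hL : 0 < L) (s : ℝ) :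
    ∀ (n : ℕ) (f : (Fin n → α) → ℝ), (∀ w i v, |f (Function.update w i v) - f w| ≤ L) →
      ∑ w, Real.exp (s * (f w - (∑ w', f w') / (Fintype.card α : ℝ) ^ n)) ≤
        (Fintype.card α : ℝ) ^ n * Real.exp (s ^ 2 * (n : ℝ) * L ^ 2 / 2) := by
  intro n
  have hc : 0 < (Fintype.card α : ℝ) := by exact_mod_cast Fintype.card_pos
  induction n with
  | zero =>
    intro f _
    simp
  | succ n ih =>
    intro f hf
    set c : ℝ := (Fintype.card α : ℝ) with hcdef
    let g : (Fin n → α) → ℝ := fun w => (∑ a, f (Fin.cons a w)) / c
    have hsum : ∀ F : (Fin (n + 1) → α) → ℝ, ∑ w, F w = ∑ w : Fin n → α, ∑ a, F (Fin.cons a w) := by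
      intro F
      rw [← (Fin.consEquiv (fun _ : Fin (n + 1) => α)).sum_comp, Fintype.sum_prod_type,
        Finset.sum_comm]
      rfl
    have hg : (∑ w', f w') / c ^ (n + 1) = (∑ w', g w') / c ^ n := by
      rw [hsum f]
      simp only [g]
      rw [← Finset.sum_div, pow_succ, div_div, mul_comm]
    have hgd : ∀ w i v, |g (Function.update w i v) - g w| ≤ L := by
      intro w i v
      simp only [g]
      rw [← sub_div, ← Finset.sum_sub_distrib, abs_div, abs_of_pos hc, div_le_iff₀ hc]
      refine (Finset.abs_sum_le_sum_abs _ _).trans ?_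
      calc ∑ a, |f (Fin.cons a (Function.update w i v)) - f (Fin.cons a w)|
          ≤ ∑ _a : α, L := by
            apply Finset.sum_le_sum
            intro a _
            rw [Fin.cons_update]
            exact hf _ _ _
        _ = L * c := by
            rw [Finset.sum_const, Finset.card_univ, nsmul_eq_mul, hcdef]
            ring
    have hone : ∀ w : Fin n → α, ∑ a, Real.exp (s * (f (Fin.cons a w) - g w)) ≤
        c * Real.exp (s ^ 2 * L ^ 2 / 2) := by
      intro w
      apply h16502_one (fun a => f (Fin.cons a w) - g w) L hL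
      · rw [Finset.sum_sub_distrib, Finset.sum_const, Finset.card_univ, nsmul_eq_mul]
        simp only [g]
        rw [← hcdef]
        field_simp
        ring
      · intro v v'
        have h1 := hf (Fin.cons v' w) 0 v
        rw [Fin.update_cons_zero] at h1
        have h2 : f (Fin.cons v w) - g w - (f (Fin.cons v' w) - g w) =
          f (Fin.cons v w) - f (Fin.cons v' w) := by ring
        rw [h2]
        exact h1
    rw [hsum, hg]
    calc ∑ w : Fin n → α, ∑ a, Real.exp (s * (f (Fin.cons a w) - (∑ w', g w') / c ^ n))
        = ∑ w : Fin n → α, Real.exp (s * (g w - (∑ w', g w') / c ^ n)) *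
            ∑ a, Real.exp (s * (f (Fin.cons a w) - g w)) := by
          apply Finset.sum_congr rfl
          intro w _
          rw [Finset.mul_sum]
          apply Finset.sum_congr rfl
          intro a _
          rw [← Real.exp_add]
          congr 1
          ring
      _ ≤ ∑ w : Fin n → α, Real.exp (s * (g w - (∑ w', g w') / c ^ n)) *
            (c * Real.exp (s ^ 2 * L ^ 2 / 2)) :=
          Finset.sum_le_sum fun w _ => mul_le_mul_of_nonneg_left (hone w) (Real.exp_pos _).le
      _ = (∑ w : Fin n → α, Real.exp (s * (g w - (∑ w', g w') / c ^ n))) *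
            (c * Real.exp (s ^ 2 * L ^ 2 / 2)) := by rw [Finset.sum_mul]
      _ ≤ (c ^ n * Real.exp (s ^ 2 * (n : ℝ) * L ^ 2 / 2)) *
            (c * Real.exp (s ^ 2 * L ^ 2 / 2)) := by
          apply mul_le_mul_of_nonneg_right (ih g hgd)
          exact mul_nonneg hc.le (Real.exp_pos _).le
      _ = c ^ (n + 1) * (Real.exp (s ^ 2 * (n : ℝ) * L ^ 2 / 2) * Real.exp (s ^ 2 * L ^ 2 / 2)) := by
          ring
      _ = c ^ (n + 1) * Real.exp (s ^ 2 * ((n + 1 : ℕ) : ℝ) * L ^ 2 / 2) := by
          rw [← Real.exp_add]
          congr 2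
          push_cast
          ring

/-- transfer to tables -/
private theorem h16502_tab {V : Type} {k : ℕ} [Fintype V] [DecidableEq V] [Nonempty V]
    (f : (V → Fin k → V) → ℝ) (L : ℝ) (hL : 0 < L)
    (h : ∀ T v a y, |f (Function.update T v (Function.update (T v) a y)) - f T| ≤ L) (s : ℝ) :
    ∑ T, Real.exp (s * (f T - avg f)) ≤ (Fintype.card (V → Fin k → V) : ℝ) *
      Real.exp (s ^ 2 * ((Fintype.card V : ℝ) * k) * L ^ 2 / 2) := by
  classical
  let n := Fintype.card (V × Fin k)
  let e : V × Fin k ≃ Fin n := Fintype.equivFin _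
  let Φ : (Fin n → V) ≃ (V → Fin k → V) :=
    { toFun := fun w v a => w (e (v, a))
      invFun := fun T i => T (e.symm i).1 (e.symm i).2
      left_inv := by
        intro w
        funext i
        simp
      right_inv := by
        intro T
        funext v a
        simp }
  have hn : (n : ℝ) = (Fintype.card V : ℝ) * k := by
    simp only [n, Fintype.card_prod, Fintype.card_fin]
    push_cast
    rfl
  have hcard : (Fintype.card (V → Fin k → V) : ℝ) = (Fintype.card V : ℝ) ^ n := by
    rw [← Fintype.card_congr Φ, Fintype.card_fun, Fintype.card_fin]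
    push_cast
    rfl
  have h1 := h16502_fin (α := V) L hL s n (fun w => f (Φ w)) (by
    intro w i v
    have h2 : Φ (Function.update w i v) = Function.update (Φ w) (e.symm i).1
        (Function.update (Φ w (e.symm i).1) (e.symm i).2 v) := by
      funext x a
      show Function.update w i v (e (x, a)) = _
      by_cases hx : x = (e.symm i).1
      · subst hx
        rw [Function.update_self]
        by_cases ha : a = (e.symm i).2
        · subst ha
          rw [Function.update_self]
          have : e ((e.symm i).1, (e.symm i).2) = i := by simp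
          rw [this, Function.update_self]
        · rw [Function.update_of_ne ha, Function.update_of_ne]
          · rfl
          · intro h3
            apply ha
            rw [← h3]
            simp
      · rw [Function.update_of_ne hx, Function.update_of_ne]
        · rfl
        · intro h3
          apply hx
          rw [← h3]
          simp
    show |f (Φ (Function.update w i v)) - f (Φ w)| ≤ L
    rw [h2]
    exact h _ _ _ _)
  have h3 : ∑ w', f (Φ w') = ∑ T, f T := Φ.sum_comp f
  have h4 : (∑ w', f (Φ w')) / (Fintype.card V : ℝ) ^ n = avg f := by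
    unfold avg
    rw [h3, hcard]
  rw [h4] at h1
  have h5 : ∑ w, Real.exp (s * (f (Φ w) - avg f)) = ∑ T, Real.exp (s * (f T - avg f)) :=
    Φ.sum_comp (fun T => Real.exp (s * (f T - avg f)))
  rw [h5] at h1
  rw [hcard, ← hn]
  exact h1

private theorem h16502_side {V : Type} {k : ℕ} [Fintype V] [DecidableEq V] [Nonempty V]
    (f : (V → Fin k → V) → ℝ) (L : ℝ) (hL : 0 < L)
    (h : ∀ T v a y, |f (Function.update T v (Function.update (T v) a y)) - f T| ≤ L)
    (t : ℝ) (ht : 0 ≤ t) (hk : 0 < (Fintype.card V : ℝ) * k) :
    pr (fun T => t ≤ f T - avg f)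
      ≤ Real.exp (-(t ^ 2) / (2 * ((Fintype.card V : ℝ) * k) * L ^ 2)) := by
  classical
  set m := (Fintype.card V : ℝ) * k with hm
  set s := t / (m * L ^ 2) with hs
  have hL2 : 0 < L ^ 2 := by positivity
  have hs0 : 0 ≤ s := by rw [hs]; positivity
  have h1 := h16502_tab f L hL h s
  rw [← hm] at h1
  have hC : 0 < (Fintype.card (V → Fin k → V) : ℝ) := by exact_mod_cast Fintype.card_pos
  unfold pr
  rw [div_le_iff₀ hC]
  have h2 : (((univ.filter (fun T : V → Fin k → V => t ≤ f T - avg f)).card : ℝ)) *
      Real.exp (s * t) ≤ ∑ T, Real.exp (s * (f T - avg f)) := by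
    calc (((univ.filter (fun T : V → Fin k → V => t ≤ f T - avg f)).card : ℝ)) * Real.exp (s * t)
        = ∑ T ∈ univ.filter (fun T : V → Fin k → V => t ≤ f T - avg f), Real.exp (s * t) := by
          rw [Finset.sum_const, nsmul_eq_mul]
      _ ≤ ∑ T ∈ univ.filter (fun T : V → Fin k → V => t ≤ f T - avg f),
            Real.exp (s * (f T - avg f)) := by
          apply Finset.sum_le_sum
          intro T hT
          have := (Finset.mem_filter.mp hT).2
          exact Real.exp_le_exp.mpr (mul_le_mul_of_nonneg_left this hs0)
      _ ≤ _ := Finset.sum_le_sum_of_subset_of_nonneg (Finset.filter_subset _ _)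
            (fun T _ _ => (Real.exp_pos _).le)
  have h3 := h2.trans h1
  have h4 : Real.exp (s ^ 2 * m * L ^ 2 / 2) =
      Real.exp (-(t ^ 2) / (2 * m * L ^ 2)) * Real.exp (s * t) := by
    rw [← Real.exp_add]
    congr 1
    rw [hs]
    field_simp
    ring
  rw [h4, ← mul_assoc] at h3
  have h5 := le_of_mul_le_mul_right h3 (Real.exp_pos (s * t))
  rw [mul_comm]
  exact h5

/-- McDiarmid's inequality (weak constant) for tables -/
theorem mcd_table {V : Type} {k : ℕ} [Fintype V] [DecidableEq V] [Nonempty V]
    (f : (V → Fin k → V) → ℝ) (L : ℝ) (hL : 0 < L)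
    (h : ∀ T v a y, |f (Function.update T v (Function.update (T v) a y)) - f T| ≤ L)
    (t : ℝ) (ht : 0 ≤ t) :
    pr (fun T => t ≤ |f T - avg f|)
      ≤ 2 * Real.exp (-(t ^ 2) / (2 * ((Fintype.card V : ℝ) * k) * L ^ 2)) := by
  classical
  have hC : 0 < (Fintype.card (V → Fin k → V) : ℝ) := by exact_mod_cast Fintype.card_pos
  have hprle : ∀ P : (V → Fin k → V) → Prop, pr P ≤ 1 := by
    intro P
    unfold pr
    rw [div_le_one hC]
    have := Finset.card_filter_le (univ : Finset (V → Fin k → V)) P
    rw [Finset.card_univ] at this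
    exact_mod_cast this
  rcases Nat.eq_zero_or_pos k with hk | hk
  · subst hk
    refine (hprle _).trans ?_
    simp
  · have hV : 0 < (Fintype.card V : ℝ) := by exact_mod_cast Fintype.card_pos
    have hk' : 0 < (k : ℝ) := by exact_mod_cast hk
    have hm : 0 < (Fintype.card V : ℝ) * k := mul_pos hV hk'
    have h1 := h16502_side f L hL h t ht hm
    have h2 := h16502_side (fun T => - f T) L hL (by
      intro T v a y
      have := h T v a y
      rw [abs_sub_comm] at this
      have e : -f (Function.update T v (Function.update (T v) a y)) - -f T =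
        f T - f (Function.update T v (Function.update (T v) a y)) := by ring
      rw [e]
      exact this) t ht hm
    have h3 : avg (fun T => - f T) = - avg f := by
      unfold avg
      rw [Finset.sum_neg_distrib, neg_div]
    rw [h3] at h2
    have h4 : pr (fun T => t ≤ |f T - avg f|) ≤ pr (fun T => t ≤ f T - avg f) +
        pr (fun T => t ≤ - f T - - avg f) := by
      unfold pr
      rw [← add_div]
      apply div_le_div_of_nonneg_right _ hC.le
      have h5 : (univ.filter (fun T : V → Fin k → V => t ≤ |f T - avg f|)) ⊆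
          (univ.filter (fun T : V → Fin k → V => t ≤ f T - avg f)) ∪
          (univ.filter (fun T : V → Fin k → V => t ≤ - f T - - avg f)) := by
        intro T hT
        rw [Finset.mem_union, Finset.mem_filter, Finset.mem_filter]
        have h6 := (Finset.mem_filter.mp hT).2
        rcases le_abs.mp h6 with h7 | h7
        · exact Or.inl ⟨Finset.mem_univ _, h7⟩
        · exact Or.inr ⟨Finset.mem_univ _, by linarith⟩
      have h6 := (Finset.card_le_card h5).trans (Finset.card_union_le _ _)
      exact_mod_cast h6
    linarith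

end AC

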