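import Pool.Agent.Helper949.AC.Defs2

set_option autoImplicit false

/-!
Definitions for the asymptotics of the average state complexity of intersections.
Tables `T : V → Fin k → V`; `rn T g w x` is the state reached from `x` after reading `w`.
-/

namespace AC

open Finset

variable {V : Type} {k : ℕ}

end AC

namespace AC
open Finset

theorem outs_card {V : Type} {k : ℕ} [Fintype V] (T : V → Fin k → V) (g : ℕ) (hk : 1 ≤ k) (y : V) :
    (outs T g y).card ≤ g * k ^ g := by
  classical
  have hsub : outs T g y ⊆ (range g).biUnion
      (fun j => (univ : Finset (Fin j → Fin k)).image (fun u => rn T j u y)) := by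
    intro x hx
    unfold outs at hx
    rw [mem_filter] at hx
    obtain ⟨_, j, hj, u, hu⟩ := hx
    rw [mem_biUnion]
    exact ⟨j, mem_range.2 hj, mem_image.2 ⟨u, mem_univ _, hu⟩⟩
  calc (outs T g y).card ≤ _ := card_le_card hsub
    _ ≤ ∑ j ∈ range g, ((univ : Finset (Fin j → Fin k)).image (fun u => rn T j u y)).card :=
        card_biUnion_le
    _ ≤ ∑ _j ∈ range g, k ^ g := by
        apply sum_le_sum
        intro j hj
        calc _ ≤ (univ : Finset (Fin j → Fin k)).card := card_image_le
          _ = k ^ j := by simp
          _ ≤ k ^ g := Nat.pow_le_pow_right hk (mem_range.1 hj).le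
    _ = g * k ^ g := by simp

private theorem rn_split_16505 {V : Type} {k : ℕ} (T T' : V → Fin k → V) (v : V) (a : Fin k)
    (h : ∀ s c, ¬ (s = v ∧ c = a) → T s c = T' s c) (g : ℕ) (w : Fin g → Fin k) (x : V) :
    rn T g w x = rn T' g w x ∨ ∃ j < g, ∃ u : Fin j → Fin k,
      rn T g w x = rn T j u (T v a) ∧ rn T' j u (T v a) = rn T j u (T v a) := by
  induction g with
  | zero => exact Or.inl rfl
  | succ g ih =>
    by_cases hc : rn T g (fun i => w i.castSucc) x = v ∧ w (Fin.last g) = a
    · right
      refine ⟨0, Nat.succ_pos g, fun i => i.elim0, ?_, rfl⟩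
      change T (rn T g (fun i => w i.castSucc) x) (w (Fin.last g)) = T v a
      rw [hc.1, hc.2]
    · have hT := h _ _ hc
      rcases ih (fun i => w i.castSucc) with h1 | ⟨j, hj, u, h1, h2⟩
      · left
        change T (rn T g (fun i => w i.castSucc) x) (w (Fin.last g))
          = T' (rn T' g (fun i => w i.castSucc) x) (w (Fin.last g))
        rw [hT, h1]
      · right
        refine ⟨j + 1, by omega, Fin.snoc (α := fun _ => Fin k) u (w (Fin.last g)), ?_, ?_⟩
        · change T (rn T g (fun i => w i.castSucc) x) (w (Fin.last g))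
            = T (rn T j (fun i => (Fin.snoc (α := fun _ => Fin k) u (w (Fin.last g)) :
              Fin (j + 1) → Fin k) i.castSucc) (T v a))
              ((Fin.snoc (α := fun _ => Fin k) u (w (Fin.last g)) : Fin (j + 1) → Fin k)
                (Fin.last j))
          simp only [Fin.snoc_castSucc, Fin.snoc_last]
          rw [h1]
        · change T' (rn T' j (fun i => (Fin.snoc (α := fun _ => Fin k) u (w (Fin.last g)) :
              Fin (j + 1) → Fin k) i.castSucc) (T v a))
              ((Fin.snoc (α := fun _ => Fin k) u (w (Fin.last g)) : Fin (j + 1) → Fin k)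
                (Fin.last j))
            = T (rn T j (fun i => (Fin.snoc (α := fun _ => Fin k) u (w (Fin.last g)) :
              Fin (j + 1) → Fin k) i.castSucc) (T v a))
              ((Fin.snoc (α := fun _ => Fin k) u (w (Fin.last g)) : Fin (j + 1) → Fin k)
                (Fin.last j))
          simp only [Fin.snoc_castSucc, Fin.snoc_last]
          have e : (fun i => u i) = u := rfl
          rw [h2, ← h1]
          exact hT.symm

theorem cov_update {V : Type} {k : ℕ} [Fintype V] [DecidableEq V] (T : V → Fin k → V) (g : ℕ)
    (Q : Finset (Fin g → Fin k)) (v : V) (a : Fin k) (y : V) :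
    symmDiff (cov T g Q) (cov (Function.update T v (Function.update (T v) a y)) g Q)
      ⊆ outs T g y ∪ outs T g (T v a) := by
  classical
  set T' := Function.update T v (Function.update (T v) a y) with hT'
  have hTT : ∀ s c, ¬ (s = v ∧ c = a) → T s c = T' s c := by
    intro s c hsc
    rw [hT']
    by_cases hs : s = v
    · subst hs
      have hc : c ≠ a := fun h => hsc ⟨rfl, h⟩
      rw [Function.update_self, Function.update_of_ne hc]
    · rw [Function.update_of_ne hs]
  have hy : T' v a = y := by
    rw [hT', Function.update_self, Function.update_self]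
  intro p hp
  rw [mem_symmDiff] at hp
  rw [mem_union]
  unfold cov outs at *
  simp only [mem_filter, mem_univ, true_and] at *
  rcases hp with ⟨⟨w, hw, x, hx⟩, hn⟩ | ⟨⟨w, hw, x, hx⟩, hn⟩
  · right
    rcases rn_split_16505 T T' v a hTT g w x with h | ⟨j, hj, u, h1, _⟩
    · exact absurd ⟨w, hw, x, by rw [← h, hx]⟩ hn
    · exact ⟨j, hj, u, by rw [← h1, hx]⟩
  · left
    rcases rn_split_16505 T' T v a (fun s c h => (hTT s c h).symm) g w x with h | ⟨j, hj, u, h1, h2⟩
    · exact absurd ⟨w, hw, x, by rw [← h, hx]⟩ hn
    · refine ⟨j, hj, u, ?_⟩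
      rw [hy] at h1 h2
      rw [h2, ← h1, hx]

end AC

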