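import Pool.Agent.Helper949.AC.Defs2
import Pool.Agent.Helper949.AC.McD
import Pool.Agent.Helper949.AC.Outs
import Pool.Agent.Helper949.AC.CO1

set_option autoImplicit false

/-!
Definitions for the asymptotics of the average state complexity of intersections.
Tables `T : V → Fin k → V`; `rn T g w x` is the state reached from `x` after reading `w`.
-/

namespace AC

open Finset

variable {V : Type} {k : ℕ}

end AC

namespace AC
open Finset

/-! GIVEN -/
/-! TARGETS -/
private theorem rn_snoc {V : Type} {k : ℕ} (T : V → Fin k → V) (j : ℕ) (u : Fin j → Fin k) (b : Fin k)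
    (x : V) : rn T (j + 1) (Fin.snoc (α := fun _ => Fin k) u b) x = T (rn T j u x) b := by
  show T (rn T j (fun i => (Fin.snoc (α := fun _ => Fin k) u b : Fin (j + 1) → Fin k) i.castSucc) x)
    ((Fin.snoc (α := fun _ => Fin k) u b : Fin (j + 1) → Fin k) (Fin.last j)) = T (rn T j u x) b
  simp

private theorem upd_ne {V : Type} {k : ℕ} [DecidableEq V] (T : V → Fin k → V)
    (v : V) (a : Fin k) (y z : V) (b : Fin k) (h : ¬ (z = v ∧ b = a)) :
    (Function.update T v (Function.update (T v) a y)) z b = T z b := by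
  by_cases hz : z = v
  · subst hz
    have hb : b ≠ a := fun e => h ⟨rfl, e⟩
    rw [Function.update_self, Function.update_of_ne hb]
  · rw [Function.update_of_ne hz]

private theorem upd_eq {V : Type} {k : ℕ} [DecidableEq V] (T : V → Fin k → V)
    (v : V) (a : Fin k) (y : V) :
    (Function.update T v (Function.update (T v) a y)) v a = y := by
  rw [Function.update_self, Function.update_self]

private theorem walkA {V : Type} {k : ℕ} [DecidableEq V] (T : V → Fin k → V)
    (v : V) (a : Fin k) (y x : V) : ∀ (i : ℕ) (w : Fin i → Fin k),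
    rn (Function.update T v (Function.update (T v) a y)) i w x = rn T i w x ∨
      ∃ j < i, ∃ u : Fin j → Fin k, rn T j u (T v a) = rn T i w x := by
  intro i
  induction i with
  | zero => intro w; exact Or.inl rfl
  | succ i ih =>
    intro w
    have e : ∀ S : V → Fin k → V, rn S (i + 1) w x =
      S (rn S i (fun i => w i.castSucc) x) (w (Fin.last i)) := fun S => rfl
    rw [e, e]
    rcases ih (fun i => w i.castSucc) with h | ⟨j, hj, u, hu⟩
    · rw [h]
      by_cases hc : rn T i (fun i => w i.castSucc) x = v ∧ w (Fin.last i) = a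
      · refine Or.inr ⟨0, Nat.succ_pos _, Fin.elim0, ?_⟩
        rw [hc.1, hc.2]
        rfl
      · exact Or.inl (upd_ne T v a y _ _ hc)
    · refine Or.inr ⟨j + 1, by omega, Fin.snoc (α := fun _ => Fin k) u (w (Fin.last i)), ?_⟩
      rw [rn_snoc, hu]

private theorem walkB {V : Type} {k : ℕ} [DecidableEq V] (T : V → Fin k → V)
    (v : V) (a : Fin k) (y x : V) : ∀ (i : ℕ) (w : Fin i → Fin k),
    rn T i w x = rn (Function.update T v (Function.update (T v) a y)) i w x ∨
      ∃ j < i, ∃ u : Fin j → Fin k,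
        rn T j u y = rn (Function.update T v (Function.update (T v) a y)) i w x := by
  intro i
  induction i with
  | zero => intro w; exact Or.inl rfl
  | succ i ih =>
    intro w
    have e : ∀ S : V → Fin k → V, rn S (i + 1) w x =
      S (rn S i (fun i => w i.castSucc) x) (w (Fin.last i)) := fun S => rfl
    rw [e, e]
    set T' := Function.update T v (Function.update (T v) a y) with hT'
    by_cases hc : rn T' i (fun i => w i.castSucc) x = v ∧ w (Fin.last i) = a
    · refine Or.inr ⟨0, Nat.succ_pos _, Fin.elim0, ?_⟩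
      rw [hc.1, hc.2, hT', upd_eq]
      rfl
    · have h1 : T' (rn T' i (fun i => w i.castSucc) x) (w (Fin.last i)) =
          T (rn T' i (fun i => w i.castSucc) x) (w (Fin.last i)) := upd_ne T v a y _ _ hc
      rw [h1]
      rcases ih (fun i => w i.castSucc) with h | ⟨j, hj, u, hu⟩
      · rw [h]
        exact Or.inl rfl
      · refine Or.inr ⟨j + 1, by omega, Fin.snoc (α := fun _ => Fin k) u (w (Fin.last i)), ?_⟩
        rw [rn_snoc, hu]

theorem coin_update {V : Type} {k : ℕ} [Fintype V] [DecidableEq V] (T : V → Fin k → V) (g : ℕ)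
    (v : V) (a : Fin k) (y p : V)
    (h : ¬ (Coin T g p ↔ Coin (Function.update T v (Function.update (T v) a y)) g p)) :
    p ∈ outs T g y ∪ outs T g (T v a) := by
  rw [mem_union]
  by_contra hcon
  push Not at hcon
  obtain ⟨h1, h2⟩ := hcon
  have h1' : ∀ j < g, ∀ u : Fin j → Fin k, rn T j u y ≠ p := by
    intro j hj u hu
    apply h1
    unfold outs
    simp only [mem_filter, mem_univ, true_and]
    exact ⟨j, hj, u, hu⟩
  have h2' : ∀ j < g, ∀ u : Fin j → Fin k, rn T j u (T v a) ≠ p := by
    intro j hj u hu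
    apply h2
    unfold outs
    simp only [mem_filter, mem_univ, true_and]
    exact ⟨j, hj, u, hu⟩
  apply h
  constructor
  · rintro ⟨x, i, hi, j, hj, u, u', hne, e1, e2⟩
    refine ⟨x, i, hi, j, hj, u, u', hne, ?_, ?_⟩
    · rcases walkA T v a y x i u with h3 | ⟨j', hj', w, hw⟩
      · rw [h3, e1]
      · exact absurd (hw.trans e1) (h2' j' (by omega) w)
    · rcases walkA T v a y x j u' with h3 | ⟨j', hj', w, hw⟩
      · rw [h3, e2]
      · exact absurd (hw.trans e2) (h2' j' (by omega) w)
  · rintro ⟨x, i, hi, j, hj, u, u', hne, e1, e2⟩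
    refine ⟨x, i, hi, j, hj, u, u', hne, ?_, ?_⟩
    · rcases walkB T v a y x i u with h3 | ⟨j', hj', w, hw⟩
      · rw [h3, e1]
      · exact absurd (hw.trans e1) (h1' j' (by omega) w)
    · rcases walkB T v a y x j u' with h3 | ⟨j', hj', w, hw⟩
      · rw [h3, e2]
      · exact absurd (hw.trans e2) (h1' j' (by omega) w)

open Classical in
private theorem avg_card {Ω V : Type} [Fintype Ω] [Fintype V] (R : Ω → V → Prop) :
    avg (fun T => ((univ.filter (fun x => R T x)).card : ℝ)) = ∑ x, pr (fun T => R T x) := by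
  unfold avg pr
  simp_rw [Finset.card_filter]
  push_cast
  rw [Finset.sum_comm, Finset.sum_div]

private theorem avg_mono {Ω : Type} [Fintype Ω] {f g : Ω → ℝ} (h : ∀ x, f x ≤ g x) : avg f ≤ avg g := by
  unfold avg
  exact div_le_div_of_nonneg_right (Finset.sum_le_sum (fun x _ => h x)) (Nat.cast_nonneg _)

private theorem avg_sum {Ω ι : Type} [Fintype Ω] (s : Finset ι) (f : ι → Ω → ℝ) :
    avg (fun x => ∑ i ∈ s, f i x) = ∑ i ∈ s, avg (f i) := by
  unfold avg
  rw [Finset.sum_comm, Finset.sum_div]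

private theorem pr_mono {Ω : Type} [Fintype Ω] {P Q : Ω → Prop} (h : ∀ x, P x → Q x) : pr P ≤ pr Q := by
  classical
  unfold pr
  refine div_le_div_of_nonneg_right ?_ (Nat.cast_nonneg _)
  have : (univ.filter P).card ≤ (univ.filter Q).card :=
    card_le_card (fun x hx => by
      rw [mem_filter] at hx ⊢
      exact ⟨hx.1, h x hx.2⟩)
  exact_mod_cast this

open Classical in
theorem coin_conc (k g : ℕ) (hk : 1 ≤ k) (ε : ℝ) (hε : 0 < ε) :
    ∃ c : ℝ, 0 < c ∧ ∃ M0 : ℕ, ∀ M, M0 ≤ M →
    pr (fun T : Fin (M + 1) → Fin k → Fin (M + 1) =>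
        ε * ((M : ℝ) + 1) ≤ ((univ.filter (fun p => Coin T g p)).card : ℝ))
      ≤ Real.exp (-(c * (M + 1))) := by
  obtain ⟨C, hC0, hC⟩ := coinc_one k g hk
  let I : Type := Σ i : Fin (g + 1), (Fin (i : ℕ) → Fin k)
  let Pp : Finset (I × I) := univ.filter (fun ab =>
    (⟨(ab.1.1 : ℕ), ab.1.2⟩ : Σ n, Fin n → Fin k) ≠ ⟨(ab.2.1 : ℕ), ab.2.2⟩)
  set L : ℝ := 2 * g * (k : ℝ) ^ g + 1 with hL
  have hL0 : 0 < L := by positivity
  set C' : ℝ := Pp.card * C with hC'
  set c1 : ℝ := ε ^ 2 / (8 * k * L ^ 2) with hc1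
  have hk0 : (0 : ℝ) < k := by exact_mod_cast hk
  have hc10 : 0 < c1 := by positivity
  obtain ⟨M1, hM1⟩ := exists_nat_ge (2 * C' / ε)
  obtain ⟨M2, hM2⟩ := exists_nat_ge (2 * Real.log 2 / c1)
  refine ⟨c1 / 2, by positivity, max M1 M2, fun M hM => ?_⟩
  have hMM1 : (M1 : ℝ) ≤ M := by exact_mod_cast (le_max_left _ _).trans hM
  have hMM2 : (M2 : ℝ) ≤ M := by exact_mod_cast (le_max_right _ _).trans hM
  have hM0 : (0 : ℝ) < (M : ℝ) + 1 := by positivity
  -- Lipschitz
  have hlip : ∀ (T : Fin (M + 1) → Fin k → Fin (M + 1)) (v : Fin (M + 1)) (a : Fin k)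
      (y : Fin (M + 1)),
      |((univ.filter (fun p => Coin (Function.update T v (Function.update (T v) a y)) g p)).card : ℝ)
        - ((univ.filter (fun p => Coin T g p)).card : ℝ)| ≤ L := by
    intro T v a y
    have hcu := fun p => coin_update T g v a y p
    set T' := Function.update T v (Function.update (T v) a y) with hT'
    set U := outs T g y ∪ outs T g (T v a) with hU
    have hUc : (U.card : ℝ) ≤ L := by
      have h1 : U.card ≤ g * k ^ g + g * k ^ g :=
        (card_union_le _ _).trans (Nat.add_le_add (outs_card T g hk y) (outs_card T g hk (T v a)))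
      have h2 : (U.card : ℝ) ≤ ((g * k ^ g + g * k ^ g : ℕ) : ℝ) := by exact_mod_cast h1
      push_cast at h2
      rw [hL]
      linarith
    have hA : univ.filter (fun p => Coin T' g p) ⊆ univ.filter (fun p => Coin T g p) ∪ U := by
      intro p hp
      rw [mem_union]
      by_cases h1 : Coin T g p
      · exact Or.inl (mem_filter.2 ⟨mem_univ _, h1⟩)
      · right
        apply hcu p
        intro h2
        exact h1 (h2.2 (mem_filter.1 hp).2)
    have hB : univ.filter (fun p => Coin T g p) ⊆ univ.filter (fun p => Coin T' g p) ∪ U := by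
      intro p hp
      rw [mem_union]
      by_cases h1 : Coin T' g p
      · exact Or.inl (mem_filter.2 ⟨mem_univ _, h1⟩)
      · right
        apply hcu p
        intro h2
        exact h1 (h2.1 (mem_filter.1 hp).2)
    have hA' : ((univ.filter (fun p => Coin T' g p)).card : ℝ) ≤
        ((univ.filter (fun p => Coin T g p)).card : ℝ) + (U.card : ℝ) := by
      exact_mod_cast (card_le_card hA).trans (card_union_le _ _)
    have hB' : ((univ.filter (fun p => Coin T g p)).card : ℝ) ≤
        ((univ.filter (fun p => Coin T' g p)).card : ℝ) + (U.card : ℝ) := by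
      exact_mod_cast (card_le_card hB).trans (card_union_le _ _)
    rw [abs_le]
    constructor <;> linarith
  -- mean
  have hmean : avg (fun T : Fin (M + 1) → Fin k → Fin (M + 1) =>
      ((univ.filter (fun p => Coin T g p)).card : ℝ)) ≤ C' := by
    have h1 : ∀ T : Fin (M + 1) → Fin k → Fin (M + 1),
        ((univ.filter (fun p => Coin T g p)).card : ℝ) ≤
        ∑ ab ∈ Pp, ((univ.filter (fun x => rn T ab.1.1 ab.1.2 x = rn T ab.2.1 ab.2.2 x)).card : ℝ) := by
      intro T
      have h2 : univ.filter (fun p => Coin T g p) ⊆ Pp.biUnion (fun ab =>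
          (univ.filter (fun x => rn T ab.1.1 ab.1.2 x = rn T ab.2.1 ab.2.2 x)).image
            (fun x => rn T ab.1.1 ab.1.2 x)) := by
        intro p hp
        obtain ⟨x, i, hi, j, hj, u, u', hne, e1, e2⟩ := (mem_filter.1 hp).2
        rw [mem_biUnion]
        refine ⟨((⟨⟨i, by omega⟩, u⟩ : I), (⟨⟨j, by omega⟩, u'⟩ : I)), ?_, ?_⟩
        · exact mem_filter.2 ⟨mem_univ _, hne⟩
        · rw [mem_image]
          refine ⟨x, ?_, e1⟩
          rw [mem_filter]
          exact ⟨mem_univ _, e1.trans e2.symm⟩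
      have h3 := (card_le_card h2).trans card_biUnion_le
      have h4 : (univ.filter (fun p => Coin T g p)).card ≤
          ∑ ab ∈ Pp, (univ.filter (fun x => rn T ab.1.1 ab.1.2 x = rn T ab.2.1 ab.2.2 x)).card :=
        h3.trans (sum_le_sum (fun ab _ => card_image_le))
      exact_mod_cast h4
    refine (avg_mono h1).trans ?_
    rw [avg_sum]
    rw [hC', ← nsmul_eq_mul]
    refine Finset.sum_le_card_nsmul _ _ _ (fun ab hab => ?_)
    refine le_trans (le_of_eq (?_ : _ = ∑ x : Fin (M + 1),
      pr (fun T : Fin (M + 1) → Fin k → Fin (M + 1) =>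
        rn T ab.1.1 ab.1.2 x = rn T ab.2.1 ab.2.2 x))) ?_
    · rw [← avg_card (fun (T : Fin (M + 1) → Fin k → Fin (M + 1)) x =>
        rn T ab.1.1 ab.1.2 x = rn T ab.2.1 ab.2.2 x)]
      refine congrArg avg (funext fun T => ?_)
      congr
    have h5 : ∀ x : Fin (M + 1), pr (fun T : Fin (M + 1) → Fin k → Fin (M + 1) =>
        rn T ab.1.1 ab.1.2 x = rn T ab.2.1 ab.2.2 x) ≤ C / (M + 1) := by
      intro x
      exact hC M x ab.1.1 ab.2.1 ab.1.2 ab.2.2 (by have := ab.1.1.2; omega)
        (by have := ab.2.1.2; omega) (mem_filter.1 hab).2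
    refine (Finset.sum_le_card_nsmul _ _ _ (fun x _ => h5 x)).trans ?_
    rw [card_univ, Fintype.card_fin, nsmul_eq_mul]
    push_cast
    rw [mul_div_cancel₀ _ hM0.ne']
  have hC'M : C' ≤ ε * ((M : ℝ) + 1) / 2 := by
    have h1 : 2 * C' / ε ≤ (M : ℝ) + 1 := by linarith
    rw [div_le_iff₀ hε] at h1
    linarith
  set t : ℝ := ε * ((M : ℝ) + 1) / 2 with ht
  have ht0 : 0 ≤ t := by positivity
  have hmcd := mcd_table (V := Fin (M + 1)) (k := k)
    (fun T => ((univ.filter (fun p => Coin T g p)).card : ℝ)) L hL0 hlip t ht0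
  have hstep : pr (fun T : Fin (M + 1) → Fin k → Fin (M + 1) =>
        ε * ((M : ℝ) + 1) ≤ ((univ.filter (fun p => Coin T g p)).card : ℝ)) ≤
      pr (fun T : Fin (M + 1) → Fin k → Fin (M + 1) =>
        t ≤ |((univ.filter (fun p => Coin T g p)).card : ℝ) - avg (fun T : Fin (M + 1) → Fin k → Fin (M + 1) =>
      ((univ.filter (fun p => Coin T g p)).card : ℝ))|) := by
    refine pr_mono (fun T hT => ?_)
    refine le_trans ?_ (le_abs_self _)
    have : ε * ((M : ℝ) + 1) = 2 * t := by rw [ht]; ring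
    linarith
  refine hstep.trans (hmcd.trans ?_)
  have hexp : -(t ^ 2) / (2 * ((Fintype.card (Fin (M + 1)) : ℝ) * k) * L ^ 2) =
      -(c1 * ((M : ℝ) + 1)) := by
    rw [Fintype.card_fin, ht, hc1]
    push_cast
    field_simp
    ring
  rw [hexp]
  have h2 : Real.log 2 ≤ c1 / 2 * ((M : ℝ) + 1) := by
    have h3 : 2 * Real.log 2 / c1 ≤ (M : ℝ) + 1 := by linarith
    rw [div_le_iff₀ hc10] at h3
    linarith
  calc 2 * Real.exp (-(c1 * ((M : ℝ) + 1))) = Real.exp (Real.log 2 + -(c1 * ((M : ℝ) + 1))) := by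
        rw [Real.exp_add, Real.exp_log (by norm_num)]
    _ ≤ Real.exp (-(c1 / 2 * ((M : ℝ) + 1))) := by
        apply Real.exp_le_exp.2
        linarith

end AC

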