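import Pool.Agent.Helper949.AC.Defs2

set_option autoImplicit false

/-!
Definitions for the asymptotics of the average state complexity of intersections.
Tables `T : V → Fin k → V`; `rn T g w x` is the state reached from `x` after reading `w`.
-/

namespace AC

open Finset

variable {V : Type} {k : ℕ}

end AC

namespace AC
open Finset

private theorem reach_step {V : Type} {k : ℕ} (S : V → Fin k → V) (o p : V) (a : Fin k)
    (h : ∃ (l : ℕ) (w : Fin l → Fin k), rn S l w o = p) :
    ∃ (l : ℕ) (w : Fin l → Fin k), rn S l w o = S p a := by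
  obtain ⟨l, w, hw⟩ := h
  refine ⟨l + 1, Fin.snoc (α := fun _ => Fin k) w a, ?_⟩
  show S (rn S l (fun i => (Fin.snoc (α := fun _ => Fin k) w a : Fin (l + 1) → Fin k) i.castSucc) o)
    ((Fin.snoc (α := fun _ => Fin k) w a : Fin (l + 1) → Fin k) (Fin.last l)) = S p a
  have h1 : (fun i : Fin l => (Fin.snoc (α := fun _ => Fin k) w a : Fin (l + 1) → Fin k) i.castSucc)
      = w := by
    funext i
    simp
  rw [h1, hw]
  simp

/-- insertion of a new state -/
private def ext {k m : ℕ} (z : Fin k) (T : Fin (m + 1) → Fin k → Fin (m + 1)) (g : Fin k → Fin (m + 1)) :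
    Fin (m + 2) → Fin k → Fin (m + 2) :=
  fun v => Fin.lastCases (motive := fun _ => Fin k → Fin (m + 2))
    (fun b => if b = z then (T (g z) z).castSucc else (g b).castSucc)
    (fun v b => if v = g z ∧ b = z then Fin.last _ else (T v b).castSucc) v

private theorem ext_last {k m : ℕ} (z : Fin k) (T : Fin (m + 1) → Fin k → Fin (m + 1))
    (g : Fin k → Fin (m + 1)) (b : Fin k) :
    ext z T g (Fin.last _) b = if b = z then (T (g z) z).castSucc else (g b).castSucc := by
  simp [ext]

private theorem ext_cast {k m : ℕ} (z : Fin k) (T : Fin (m + 1) → Fin k → Fin (m + 1))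
    (g : Fin k → Fin (m + 1)) (v : Fin (m + 1)) (b : Fin k) :
    ext z T g v.castSucc b = if v = g z ∧ b = z then Fin.last _ else (T v b).castSucc := by
  simp [ext]

private theorem ext_inj {k m : ℕ} (z : Fin k) (T T' : Fin (m + 1) → Fin k → Fin (m + 1))
    (g g' : Fin k → Fin (m + 1)) (h : ext z T g = ext z T' g') : g = g' ∧ T = T' := by
  have hz : g z = g' z := by
    have h1 := congrFun (congrFun h (g z).castSucc) z
    rw [ext_cast, ext_cast] at h1
    by_contra hne
    simp [hne] at h1
    exact absurd h1.symm (Fin.castSucc_lt_last _).ne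
  have hg : g = g' := by
    funext b
    by_cases hb : b = z
    · rw [hb, hz]
    · have h1 := congrFun (congrFun h (Fin.last _)) b
      rw [ext_last, ext_last] at h1
      simp only [hb, if_false] at h1
      exact Fin.castSucc_injective _ h1
  refine ⟨hg, ?_⟩
  funext v b
  by_cases hv : v = g z ∧ b = z
  · obtain ⟨rfl, rfl⟩ := hv
    have h1 := congrFun (congrFun h (Fin.last _)) b
    rw [ext_last, ext_last] at h1
    simp only [if_true] at h1
    have h2 := Fin.castSucc_injective _ h1
    rw [h2, hz]
  · have h1 := congrFun (congrFun h v.castSucc) b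
    rw [ext_cast, ext_cast] at h1
    have hv' : ¬ (v = g' z ∧ b = z) := by rw [← hz]; exact hv
    simp only [hv, hv', if_false] at h1
    exact Fin.castSucc_injective _ h1

private theorem ext_acc {k m : ℕ} (z : Fin k) (T : Fin (m + 1) → Fin k → Fin (m + 1))
    (g : Fin k → Fin (m + 1)) (hT : Ac T 0) : Ac (ext z T g) 0 := by
  have key : ∀ (l : ℕ) (w : Fin l → Fin k),
      ∃ (l' : ℕ) (w' : Fin l' → Fin k), rn (ext z T g) l' w' 0 = (rn T l w 0).castSucc := by
    intro l
    induction l with
    | zero =>
      intro w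
      exact ⟨0, Fin.elim0, rfl⟩
    | succ l ih =>
      intro w
      have h1 := ih (fun i => w i.castSucc)
      show ∃ (l' : ℕ) (w' : Fin l' → Fin k), rn (ext z T g) l' w' 0
        = (T (rn T l (fun i => w i.castSucc) 0) (w (Fin.last l))).castSucc
      set u := rn T l (fun i => w i.castSucc) 0 with hu
      by_cases hc : u = g z ∧ w (Fin.last l) = z
      · have h2 := reach_step (ext z T g) 0 _ z h1
        rw [ext_cast, if_pos ⟨hc.1, rfl⟩] at h2
        have h3 := reach_step (ext z T g) 0 _ z h2
        rw [ext_last, if_pos rfl] at h3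
        rw [hc.1, hc.2]
        exact h3
      · have h2 := reach_step (ext z T g) 0 _ (w (Fin.last l)) h1
        rw [ext_cast, if_neg hc] at h2
        exact h2
  have hold : ∀ v : Fin (m + 1), ∃ (l : ℕ) (w : Fin l → Fin k),
      rn (ext z T g) l w 0 = v.castSucc := by
    intro v
    obtain ⟨l, w, hw⟩ := hT v
    obtain ⟨l', w', hw'⟩ := key l w
    exact ⟨l', w', by rw [hw', hw]⟩
  intro q
  induction q using Fin.lastCases with
  | last =>
    have h2 := reach_step (ext z T g) 0 _ z (hold (g z))
    rw [ext_cast, if_pos ⟨rfl, rfl⟩] at h2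
    exact h2
  | cast v => exact hold v

open Classical in
theorem acc_ratio (k m : ℕ) (hk : 1 ≤ k) :
    (m + 1) ^ k * (univ.filter (fun T : Fin (m + 1) → Fin k → Fin (m + 1) => Ac T 0)).card
      ≤ (univ.filter (fun T : Fin (m + 2) → Fin k → Fin (m + 2) => Ac T 0)).card := by
  let z : Fin k := ⟨0, hk⟩
  have hcard : (m + 1) ^ k
      * (univ.filter (fun T : Fin (m + 1) → Fin k → Fin (m + 1) => Ac T 0)).card
      = ((univ : Finset (Fin k → Fin (m + 1))) ×ˢ
        (univ.filter (fun T : Fin (m + 1) → Fin k → Fin (m + 1) => Ac T 0))).card := by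
    rw [card_product]
    simp
  rw [hcard]
  refine card_le_card_of_injOn (fun p => ext z p.2 p.1) ?_ ?_
  · rintro ⟨g, T⟩ hp
    simp only [coe_product, Set.mem_prod, coe_filter, mem_univ, true_and, Set.mem_setOf_eq,
      coe_univ, Set.mem_univ] at hp ⊢
    exact ext_acc z T g hp
  · rintro ⟨g, T⟩ _ ⟨g', T'⟩ _ h
    obtain ⟨h1, h2⟩ := ext_inj z T T' g g' h
    rw [h1, h2]

end AC

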