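import Pool.Agent.Helper949.AC.Defs2

set_option autoImplicit false

/-!
Definitions for the asymptotics of the average state complexity of intersections.
Tables `T : V → Fin k → V`; `rn T g w x` is the state reached from `x` after reading `w`.
-/

namespace AC

open Finset

variable {V : Type} {k : ℕ}

end AC

namespace AC
open Finset

private theorem rli_zero_mem {k M : ℕ} (S : Fin (M + 1) → Fin k → Fin (M + 1)) : 0 ∈ rch S 0 := by
  classical
  unfold rch
  rw [mem_filter]
  exact ⟨mem_univ _, 0, Fin.elim0, rfl⟩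

private theorem rli_closed {k M : ℕ} (S : Fin (M + 1) → Fin k → Fin (M + 1)) {v : Fin (M + 1)}
    (hv : v ∈ rch S 0) (a : Fin k) : S v a ∈ rch S 0 := by
  classical
  unfold rch at hv ⊢
  rw [mem_filter] at hv ⊢
  obtain ⟨-, l, w, hw⟩ := hv
  refine ⟨mem_univ _, l + 1, Fin.snoc w a, ?_⟩
  show S (rn S l (fun i => (Fin.snoc w a : Fin (l + 1) → Fin k) i.castSucc) 0)
    ((Fin.snoc w a : Fin (l + 1) → Fin k) (Fin.last l)) = S v a
  rw [Fin.snoc_last]
  have : (fun i : Fin l => (Fin.snoc w a : Fin (l + 1) → Fin k) i.castSucc) = w := by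
    funext i
    rw [Fin.snoc_castSucc]
  rw [this, hw]

private theorem rli_pred {k M : ℕ} (S : Fin (M + 1) → Fin k → Fin (M + 1)) {q : Fin (M + 1)}
    (hq : q ∈ rch S 0) (h0 : q ≠ 0) : ∃ v ∈ rch S 0, ∃ a, S v a = q := by
  classical
  unfold rch at hq ⊢
  rw [mem_filter] at hq
  obtain ⟨-, l, w, hw⟩ := hq
  cases l with
  | zero => exact absurd hw.symm h0
  | succ l =>
    refine ⟨rn S l (fun i => w i.castSucc) 0, ?_, w (Fin.last l), hw⟩
    rw [mem_filter]
    exact ⟨mem_univ _, l, _, rfl⟩

private theorem rli_perm {m M : ℕ} (hmM : m ≤ M) (R : Finset (Fin (M + 1))) :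
    ∃ π : Equiv.Perm (Fin (M + 1)), R.card = m + 1 → ∀ v, v.val ≤ m ↔ π v ∈ R := by
  classical
  by_cases hR : R.card = m + 1
  · let R0 : Finset (Fin (M + 1)) := univ.filter (fun v => v.val ≤ m)
    have hR0 : R0.card = m + 1 := by
      have h1 : R0 = Finset.Iic (⟨m, by omega⟩ : Fin (M + 1)) := by
        ext v
        simp [R0, Fin.le_def]
      rw [h1, Fin.card_Iic]
    let e : {x // x ∈ R0} ≃ {x // x ∈ R} := Finset.equivOfCardEq (hR0.trans hR.symm)
    refine ⟨e.extendSubtype, fun _ v => ?_⟩
    have hv : v.val ≤ m ↔ v ∈ R0 := by simp [R0]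
    rw [hv]
    constructor
    · intro h
      exact e.extendSubtype_mem v h
    · intro h
      by_contra hcon
      exact e.extendSubtype_not_mem v hcon h
  · exact ⟨1, fun h => absurd h hR⟩

open Classical in
/-- the size of the reachable set is compared with a coupon collector variable -/
theorem rch_le_image (k m M : ℕ) (hmM : m ≤ M) :
    (univ.filter (fun S : Fin (M + 1) → Fin k → Fin (M + 1) => (rch S 0).card = m + 1)).card
      ≤ (univ.filter (fun S : Fin (M + 1) → Fin k → Fin (M + 1) => (im S m).card = m + 1)).card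
        + (univ.filter (fun S : Fin (M + 1) → Fin k → Fin (M + 1) => (im S m).card = m)).card := by
  choose π hπ using rli_perm hmM
  let Φ : (Fin (M + 1) → Fin k → Fin (M + 1)) → (Fin (M + 1) → Fin k → Fin (M + 1)) :=
    fun S v a => S (π (rch S 0) v) a
  have hmem : ∀ S : Fin (M + 1) → Fin k → Fin (M + 1), (rch S 0).card = m + 1 → ∀ q,
      q ∈ im (Φ S) m ↔ ∃ v ∈ rch S 0, ∃ a, S v a = q := by
    intro S hS q
    unfold im
    rw [mem_image]
    constructor
    · rintro ⟨⟨v, a⟩, hc, rfl⟩
      rw [mem_filter] at hc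
      exact ⟨π (rch S 0) v, (hπ _ hS v).mp hc.2, a, rfl⟩
    · rintro ⟨v, hv, a, rfl⟩
      refine ⟨((π (rch S 0)).symm v, a), ?_, ?_⟩
      · rw [mem_filter]
        refine ⟨mem_univ _, ?_⟩
        show ((π (rch S 0)).symm v).val ≤ m
        rw [hπ _ hS, Equiv.apply_symm_apply]
        exact hv
      · show S (π (rch S 0) ((π (rch S 0)).symm v)) a = S v a
        rw [Equiv.apply_symm_apply]
  have hinj : ∀ S S' : Fin (M + 1) → Fin k → Fin (M + 1), Φ S = Φ S' → rch S 0 = rch S' 0 →
      S = S' := by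
    intro S S' h1 h2
    funext v a
    have h3 := congrFun (congrFun h1 ((π (rch S 0)).symm v)) a
    have h4 : S (π (rch S 0) ((π (rch S 0)).symm v)) a =
        S' (π (rch S' 0) ((π (rch S 0)).symm v)) a := h3
    rw [← h2, Equiv.apply_symm_apply] at h4
    exact h4
  let A : Finset (Fin (M + 1) → Fin k → Fin (M + 1)) :=
    univ.filter (fun S => (rch S 0).card = m + 1 ∧ im (Φ S) m = rch S 0)
  let B : Finset (Fin (M + 1) → Fin k → Fin (M + 1)) :=
    univ.filter (fun S => (rch S 0).card = m + 1 ∧ im (Φ S) m = (rch S 0).erase 0)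
  have hsub : univ.filter (fun S : Fin (M + 1) → Fin k → Fin (M + 1) => (rch S 0).card = m + 1) ⊆
      A ∪ B := by
    intro S hS
    have hS' := (mem_filter.mp hS).2
    rw [mem_union]
    by_cases h0 : (0 : Fin (M + 1)) ∈ im (Φ S) m
    · left
      refine mem_filter.mpr ⟨mem_univ _, hS', ?_⟩
      ext q
      rw [hmem S hS']
      constructor
      · rintro ⟨v, hv, a, rfl⟩
        exact rli_closed S hv a
      · intro hq
        by_cases hq0 : q = 0
        · rw [hq0]
          exact (hmem S hS' 0).mp h0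
        · exact rli_pred S hq hq0
    · right
      refine mem_filter.mpr ⟨mem_univ _, hS', ?_⟩
      ext q
      rw [hmem S hS', mem_erase]
      constructor
      · rintro ⟨v, hv, a, rfl⟩
        refine ⟨?_, rli_closed S hv a⟩
        intro h
        exact h0 ((hmem S hS' 0).mpr ⟨v, hv, a, h⟩)
      · rintro ⟨hq0, hq⟩
        exact rli_pred S hq hq0
  refine (card_le_card hsub).trans ((card_union_le _ _).trans (Nat.add_le_add ?_ ?_))
  · refine card_le_card_of_injOn Φ ?_ ?_
    · intro S hS
      have h1 := (mem_filter.mp (mem_coe.mp hS)).2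
      rw [mem_coe, mem_filter]
      exact ⟨mem_univ _, by rw [h1.2, h1.1]⟩
    · intro S hS S' hS' h
      have h1 := (mem_filter.mp (mem_coe.mp hS)).2
      have h2 := (mem_filter.mp (mem_coe.mp hS')).2
      exact hinj S S' h (by rw [← h1.2, ← h2.2, h])
  · refine card_le_card_of_injOn Φ ?_ ?_
    · intro S hS
      have h1 := (mem_filter.mp (mem_coe.mp hS)).2
      rw [mem_coe, mem_filter]
      refine ⟨mem_univ _, ?_⟩
      rw [h1.2, card_erase_of_mem (rli_zero_mem S), h1.1]
      rfl
    · intro S hS S' hS' h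
      have h1 := (mem_filter.mp (mem_coe.mp hS)).2
      have h2 := (mem_filter.mp (mem_coe.mp hS')).2
      have h3 : (rch S 0).erase 0 = (rch S' 0).erase 0 := by rw [← h1.2, ← h2.2, h]
      have h4 : rch S 0 = rch S' 0 := by
        rw [← insert_erase (rli_zero_mem S), ← insert_erase (rli_zero_mem S'), h3]
      exact hinj S S' h h4

end AC

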