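import Pool.Agent.Helper949.AC.Defs2

set_option autoImplicit false

/-!
Definitions for the asymptotics of the average state complexity of intersections.
Tables `T : V → Fin k → V`; `rn T g w x` is the state reached from `x` after reading `w`.
-/

namespace AC

open Finset

variable {V : Type} {k : ℕ}

end AC

namespace AC
open Finset

private theorem h232_mem_im {k M : ℕ} (S : Fin (M + 1) → Fin k → Fin (M + 1)) (m : ℕ) (p : Fin (M + 1)) :
    p ∈ im S m ↔ ∃ v : Fin (M + 1), v.val ≤ m ∧ ∃ a, S v a = p := by
  classical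
  unfold im
  rw [mem_image]
  constructor
  · rintro ⟨c, hc, rfl⟩
    rw [mem_filter] at hc
    exact ⟨c.1, hc.2, c.2, rfl⟩
  · rintro ⟨v, hv, a, rfl⟩
    exact ⟨(v, a), by rw [mem_filter]; exact ⟨mem_univ _, hv⟩, rfl⟩

open Classical in
private theorem h232_count (k m M : ℕ) (p : Fin (M + 1)) :
    (((univ : Finset (Fin (M + 1) → Fin k → Fin (M + 1))).filter (fun S => p ∉ im S m)).card : ℝ) =
      ∏ v : Fin (M + 1), (if v.val ≤ m then (M : ℝ) ^ k else ((M : ℝ) + 1) ^ k) := by
  have h1 : (univ : Finset (Fin (M + 1) → Fin k → Fin (M + 1))).filter (fun S => p ∉ im S m) =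
      Fintype.piFinset (fun v : Fin (M + 1) => Fintype.piFinset (fun _ : Fin k =>
        if v.val ≤ m then (univ : Finset (Fin (M + 1))).erase p else univ)) := by
    ext S
    rw [mem_filter, Fintype.mem_piFinset]
    constructor
    · rintro ⟨_, h⟩ v
      rw [Fintype.mem_piFinset]
      intro a
      by_cases hv : v.val ≤ m
      · rw [if_pos hv, mem_erase]
        exact ⟨fun h' => h ((h232_mem_im S m p).2 ⟨v, hv, a, h'⟩), mem_univ _⟩
      · rw [if_neg hv]; exact mem_univ _
    · intro h
      refine ⟨mem_univ _, fun h' => ?_⟩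
      obtain ⟨v, hv, a, ha⟩ := (h232_mem_im S m p).1 h'
      have h2 := h v
      rw [Fintype.mem_piFinset] at h2
      have h3 := h2 a
      rw [if_pos hv, mem_erase] at h3
      exact h3.1 ha
  rw [h1, Fintype.card_piFinset, Nat.cast_prod]
  refine prod_congr rfl fun v _ => ?_
  rw [Fintype.card_piFinset, prod_const, card_univ, Fintype.card_fin]
  by_cases hv : v.val ≤ m
  · rw [if_pos hv, if_pos hv, card_erase_of_mem (mem_univ _), card_univ, Fintype.card_fin]
    push_cast
    simp
  · rw [if_neg hv, if_neg hv, card_univ, Fintype.card_fin]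
    push_cast
    rfl

private theorem h232_cardle (m M : ℕ) (hmM : m ≤ M) :
    ((univ : Finset (Fin (M + 1))).filter (fun v => v.val ≤ m)).card = m + 1 := by
  have h1 : (univ : Finset (Fin (M + 1))).filter (fun v => v.val ≤ m) =
      (Finset.range (m + 1)).attachFin (fun n hn => by
        have := mem_range.1 hn
        omega) := by
    ext v
    simp [Nat.lt_succ_iff]
  rw [h1, card_attachFin, card_range]

theorem im_mean (k m M : ℕ) (hmM : m ≤ M) :
    avg (fun S : Fin (M + 1) → Fin k → Fin (M + 1) => ((im S m).card : ℝ))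
      = (M + 1) * (1 - (1 - 1 / ((M : ℝ) + 1)) ^ (k * (m + 1))) := by
  classical
  have hM : (0 : ℝ) < (M : ℝ) + 1 := by positivity
  have hcard : ((Fintype.card (Fin (M + 1) → Fin k → Fin (M + 1)) : ℕ) : ℝ) =
      ∏ _v : Fin (M + 1), ((M : ℝ) + 1) ^ k := by
    rw [Fintype.card_pi, Nat.cast_prod]
    refine prod_congr rfl fun v _ => ?_
    rw [Fintype.card_pi, prod_const, card_univ, Fintype.card_fin, Fintype.card_fin]
    push_cast
    rfl
  have hpos : (0 : ℝ) < (Fintype.card (Fin (M + 1) → Fin k → Fin (M + 1)) : ℕ) := by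
    rw [hcard]
    exact prod_pos fun _ _ => by positivity
  have hratio : ∀ p : Fin (M + 1),
      (((univ : Finset (Fin (M + 1) → Fin k → Fin (M + 1))).filter (fun S => p ∉ im S m)).card : ℝ) =
      (1 - 1 / ((M : ℝ) + 1)) ^ (k * (m + 1)) *
        (Fintype.card (Fin (M + 1) → Fin k → Fin (M + 1)) : ℕ) := by
    intro p
    rw [h232_count, hcard]
    have h1 : ∏ v : Fin (M + 1), (if v.val ≤ m then (M : ℝ) ^ k else ((M : ℝ) + 1) ^ k) =
        (∏ v : Fin (M + 1), (if v.val ≤ m then (1 - 1 / ((M : ℝ) + 1)) ^ k else 1)) *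
          ∏ _v : Fin (M + 1), ((M : ℝ) + 1) ^ k := by
      rw [← prod_mul_distrib]
      refine prod_congr rfl fun v _ => ?_
      by_cases hv : v.val ≤ m
      · rw [if_pos hv, if_pos hv, ← mul_pow]
        congr 1
        field_simp
        ring
      · rw [if_neg hv, if_neg hv, one_mul]
    rw [h1]
    congr 1
    rw [prod_ite, prod_const, prod_const_one, mul_one, h232_cardle m M hmM, ← pow_mul]
  have hsum : ∑ S : Fin (M + 1) → Fin k → Fin (M + 1), ((im S m).card : ℝ) =
      ((M : ℝ) + 1) * (1 - (1 - 1 / ((M : ℝ) + 1)) ^ (k * (m + 1))) *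
        (Fintype.card (Fin (M + 1) → Fin k → Fin (M + 1)) : ℕ) := by
    have h1 : ∀ S : Fin (M + 1) → Fin k → Fin (M + 1), ((im S m).card : ℝ) =
        ∑ p : Fin (M + 1), (1 - if p ∉ im S m then (1 : ℝ) else 0) := by
      intro S
      rw [card_eq_sum_ones, Nat.cast_sum]
      rw [← sum_filter_add_sum_filter_not univ (fun p => p ∈ im S m)
        (fun p => (1 - if p ∉ im S m then (1 : ℝ) else 0))]
      have e1 : ∑ p ∈ univ.filter (fun p => p ∈ im S m), (1 - if p ∉ im S m then (1 : ℝ) else 0) =
          ∑ p ∈ im S m, ((1 : ℕ) : ℝ) := by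
        have e3 : univ.filter (fun p => p ∈ im S m) = im S m := by ext p; simp
        rw [e3]
        refine sum_congr rfl fun p hp => ?_
        rw [if_neg (not_not.2 hp)]
        simp
      have e2 : ∑ p ∈ univ.filter (fun p => ¬ p ∈ im S m),
          (1 - if p ∉ im S m then (1 : ℝ) else 0) = 0 := by
        refine sum_eq_zero fun p hp => ?_
        rw [if_pos (mem_filter.1 hp).2]
        simp
      rw [e1, e2, add_zero]
    simp only [h1]
    rw [sum_comm]
    have h2 : ∀ p : Fin (M + 1), ∑ S : Fin (M + 1) → Fin k → Fin (M + 1),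
        (1 - if p ∉ im S m then (1 : ℝ) else 0) =
        (1 - (1 - 1 / ((M : ℝ) + 1)) ^ (k * (m + 1))) *
        (Fintype.card (Fin (M + 1) → Fin k → Fin (M + 1)) : ℕ) := by
      intro p
      rw [sum_sub_distrib, sum_boole, hratio p, sum_const, card_univ, nsmul_eq_mul]
      ring
    rw [sum_congr rfl (fun p _ => h2 p), sum_const, card_univ, Fintype.card_fin, nsmul_eq_mul]
    push_cast
    ring
  unfold avg
  rw [hsum]
  field_simp

private theorem h232_lip_aux (k m M : ℕ) (S S' : Fin (M + 1) → Fin k → Fin (M + 1)) (y : Fin (M + 1))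
    (h : ∀ v a, S' v a = y ∨ S' v a = S v a) : (im S' m).card ≤ (im S m).card + 1 := by
  classical
  have h1 : im S' m ⊆ insert y (im S m) := by
    intro p hp
    obtain ⟨v, hv, a, rfl⟩ := (h232_mem_im S' m p).1 hp
    rw [mem_insert]
    rcases h v a with h2 | h2
    · exact Or.inl h2
    · exact Or.inr ((h232_mem_im S m _).2 ⟨v, hv, a, h2.symm⟩)
  exact (card_le_card h1).trans (card_insert_le _ _)

theorem im_lip (k m M : ℕ) (S : Fin (M + 1) → Fin k → Fin (M + 1)) (v : Fin (M + 1)) (a : Fin k)
    (y : Fin (M + 1)) :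
    |((im (Function.update S v (Function.update (S v) a y)) m).card : ℝ) - ((im S m).card : ℝ)| ≤ 1 := by
  classical
  have hval : ∀ v' a', (v' = v ∧ a' = a ∧
      Function.update S v (Function.update (S v) a y) v' a' = y) ∨
      Function.update S v (Function.update (S v) a y) v' a' = S v' a' := by
    intro v' a'
    by_cases hv : v' = v
    · subst hv
      rw [Function.update_self]
      by_cases ha : a' = a
      · subst ha
        rw [Function.update_self]
        exact Or.inl ⟨rfl, rfl, rfl⟩
      · rw [Function.update_of_ne ha]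
        exact Or.inr rfl
    · rw [Function.update_of_ne hv]
      exact Or.inr rfl
  have h1 := h232_lip_aux k m M S (Function.update S v (Function.update (S v) a y)) y (by
    intro v' a'
    rcases hval v' a' with ⟨_, _, h⟩ | h
    · exact Or.inl h
    · exact Or.inr h)
  have h2 := h232_lip_aux k m M (Function.update S v (Function.update (S v) a y)) S (S v a) (by
    intro v' a'
    rcases hval v' a' with ⟨hv, ha, _⟩ | h
    · left; rw [hv, ha]
    · exact Or.inr h.symm)
  rw [abs_le]
  have h1' : ((im (Function.update S v (Function.update (S v) a y)) m).card : ℝ) ≤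
      ((im S m).card : ℝ) + 1 := by exact_mod_cast h1
  have h2' : ((im S m).card : ℝ) ≤
      ((im (Function.update S v (Function.update (S v) a y)) m).card : ℝ) + 1 := by
    exact_mod_cast h2
  constructor <;> linarith

end AC

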