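import Pool.Agent.Helper949.AC.Defs2

set_option autoImplicit false

/-!
Definitions for the asymptotics of the average state complexity of intersections.
Tables `T : V → Fin k → V`; `rn T g w x` is the state reached from `x` after reading `w`.
-/

namespace AC

open Finset

variable {V : Type} {k : ℕ}

end AC

namespace AC
open Finset

open Classical in
/-- the tables for which `R` is closed -/
private noncomputable def h74_cl {V : Type} {k : ℕ} [Fintype V] (R : Finset V) :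
    Finset (V → Fin k → V) :=
  Fintype.piFinset (fun x => if x ∈ R then Fintype.piFinset (fun _ : Fin k => R) else univ)

open Classical in
private theorem h74_mem_cl {V : Type} {k : ℕ} [Fintype V] (R : Finset V) (S : V → Fin k → V) :
    S ∈ h74_cl R ↔ ∀ x ∈ R, ∀ a, S x a ∈ R := by
  unfold h74_cl
  rw [Fintype.mem_piFinset]
  constructor
  · intro h x hx a
    have h1 := h x
    rw [if_pos hx, Fintype.mem_piFinset] at h1
    exact h1 a
  · intro h x
    split_ifs with hx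
    · rw [Fintype.mem_piFinset]
      exact h x hx
    · exact Finset.mem_univ _

open Classical in
private theorem h74_card_cl {V : Type} {k : ℕ} [Fintype V] (R : Finset V) :
    (h74_cl (k := k) R).card =
      (R.card ^ k) ^ R.card * (Fintype.card V ^ k) ^ (Fintype.card V - R.card) := by
  unfold h74_cl
  rw [Fintype.card_piFinset]
  have h1 : ∀ x : V, (if x ∈ R then Fintype.piFinset (fun _ : Fin k => R) else univ).card =
      if x ∈ R then R.card ^ k else Fintype.card V ^ k := by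
    intro x
    split_ifs
    · rw [Fintype.card_piFinset]
      simp
    · simp
  rw [Finset.prod_congr rfl (fun x _ => h1 x), Finset.prod_ite, Finset.prod_const,
    Finset.prod_const]
  congr 2
  · congr 1
    ext x
    simp
  · have h2 : (univ.filter (fun x => x ∉ R)) = Rᶜ := by
      ext x
      simp
    rw [h2, Finset.card_compl]

open Classical in
private theorem h74_rch_closed {V : Type} {k : ℕ} [Fintype V] (S : V → Fin k → V) (o : V) :
    S ∈ h74_cl (rch S o) := by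
  rw [h74_mem_cl]
  intro x hx a
  unfold rch at hx ⊢
  rw [Finset.mem_filter] at hx ⊢
  obtain ⟨-, l, w, hw⟩ := hx
  refine ⟨Finset.mem_univ _, l + 1, Fin.snoc (α := fun _ => Fin k) w a, ?_⟩
  show S (rn S l (fun i => (Fin.snoc (α := fun _ => Fin k) w a : Fin (l + 1) → Fin k) i.castSucc) o)
    ((Fin.snoc (α := fun _ => Fin k) w a : Fin (l + 1) → Fin k) (Fin.last l)) = S x a
  have e1 : (fun i : Fin l => (Fin.snoc (α := fun _ => Fin k) w a : Fin (l + 1) → Fin k) i.castSucc)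
      = w := by
    funext i
    exact Fin.snoc_castSucc (α := fun _ => Fin k) a w i
  have e2 : (Fin.snoc (α := fun _ => Fin k) w a : Fin (l + 1) → Fin k) (Fin.last l) = a :=
    Fin.snoc_last (α := fun _ => Fin k) a w
  rw [e1, e2, hw]

open Classical in
private theorem h74_rch_pos {V : Type} {k : ℕ} [Fintype V] (S : V → Fin k → V) (o : V) :
    1 ≤ (rch S o).card := by
  rw [Nat.one_le_iff_ne_zero, ← Nat.pos_iff_ne_zero, Finset.card_pos]
  refine ⟨o, ?_⟩
  unfold rch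
  rw [Finset.mem_filter]
  exact ⟨Finset.mem_univ _, 0, Fin.elim0, rfl⟩

private theorem h74_term (k N r : ℕ) (hk : 2 ≤ k) (hr : 1 ≤ r) (hN : 0 < N) (h : 6 * r ≤ N) :
    ((N.choose r : ℝ) * (((r : ℝ) ^ k) ^ r * ((N : ℝ) ^ k) ^ (N - r))) ≤
      ((N : ℝ) ^ k) ^ N * ((6 / N) * (r * (1 / 2 : ℝ) ^ r)) := by
  have hNr : (0 : ℝ) < N := by exact_mod_cast hN
  have hr0 : (0 : ℝ) < r := by exact_mod_cast hr
  have hrN : r ≤ N := by omega
  have h' : 6 * (r : ℝ) ≤ N := by exact_mod_cast h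
  set t : ℝ := (r : ℝ) / N with ht
  have ht0 : 0 < t := by positivity
  have ht6 : t ≤ 1 / 6 := by
    rw [ht, div_le_iff₀ hNr]
    linarith
  have ht1 : t ≤ 1 := by linarith
  have hrt : (r : ℝ) = t * N := by
    rw [ht]
    field_simp
  have e1 : ((r : ℝ) ^ k) ^ r * ((N : ℝ) ^ k) ^ (N - r) = (t ^ k) ^ r * ((N : ℝ) ^ k) ^ N := by
    have e2 : ((N : ℝ) ^ k) ^ N = ((N : ℝ) ^ k) ^ r * ((N : ℝ) ^ k) ^ (N - r) := by
      rw [← pow_add]
      congr 1
      omega
    rw [e2, ← mul_assoc, ← mul_pow, ← mul_pow, ← hrt]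
  rw [e1]
  have e3 : (N.choose r : ℝ) ≤ (N : ℝ) ^ r / (r.factorial : ℝ) := Nat.choose_le_pow_div r N
  have e4 : (t ^ k) ^ r ≤ (t ^ 2) ^ r :=
    pow_le_pow_left₀ (by positivity) (pow_le_pow_of_le_one ht0.le ht1 hk) r
  have e5 : (r : ℝ) ^ r / (r.factorial : ℝ) ≤ 3 ^ r := by
    refine (Real.pow_div_factorial_le_exp (r : ℝ) hr0.le r).trans ?_
    have e6 : Real.exp (r : ℝ) = Real.exp 1 ^ r := by
      rw [← Real.exp_nat_mul, mul_one]
    rw [e6]
    refine pow_le_pow_left₀ (Real.exp_pos _).le ?_ r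
    have := Real.exp_one_lt_d9
    linarith
  have e7 : (N.choose r : ℝ) * (t ^ k) ^ r ≤ (3 * t) ^ r := by
    calc (N.choose r : ℝ) * (t ^ k) ^ r ≤ ((N : ℝ) ^ r / (r.factorial : ℝ)) * (t ^ 2) ^ r :=
          mul_le_mul e3 e4 (by positivity) (by positivity)
      _ = ((r : ℝ) ^ r / (r.factorial : ℝ)) * t ^ r := by
          rw [hrt]
          have : (t * (N : ℝ)) ^ r = t ^ r * (N : ℝ) ^ r := mul_pow _ _ _
          rw [this, ← pow_mul, mul_comm 2 r, pow_mul]
          ring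
      _ ≤ 3 ^ r * t ^ r := mul_le_mul_of_nonneg_right e5 (by positivity)
      _ = (3 * t) ^ r := (mul_pow _ _ _).symm
  have e8 : (3 * t) ^ r ≤ (6 / N) * (r * (1 / 2 : ℝ) ^ r) := by
    obtain ⟨q, rfl⟩ : ∃ q, r = q + 1 := ⟨r - 1, by omega⟩
    have e9 : (3 * t) ^ q ≤ (1 / 2 : ℝ) ^ q :=
      pow_le_pow_left₀ (by positivity) (by linarith) q
    rw [pow_succ]
    calc (3 * t) ^ q * (3 * t) ≤ (1 / 2 : ℝ) ^ q * (3 * t) :=
          mul_le_mul_of_nonneg_right e9 (by positivity)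
      _ = (6 / N) * (((q + 1 : ℕ) : ℝ) * (1 / 2 : ℝ) ^ (q + 1)) := by
          rw [ht, pow_succ]
          field_simp
          ring
  calc (N.choose r : ℝ) * ((t ^ k) ^ r * ((N : ℝ) ^ k) ^ N)
      = ((N : ℝ) ^ k) ^ N * ((N.choose r : ℝ) * (t ^ k) ^ r) := by ring
    _ ≤ ((N : ℝ) ^ k) ^ N * ((6 / N) * (r * (1 / 2 : ℝ) ^ r)) :=
        mul_le_mul_of_nonneg_left (e7.trans e8) (by positivity)

private theorem h74_sum (n : ℕ) : ∑ r ∈ Finset.Icc 1 n, ((r : ℝ) * (1 / 2 : ℝ) ^ r) ≤ 2 := by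
  have h : ∀ n : ℕ, ∑ r ∈ Finset.Icc 1 n, ((r : ℝ) * (1 / 2 : ℝ) ^ r) =
      2 - ((n : ℝ) + 2) * (1 / 2 : ℝ) ^ n := by
    intro n
    induction n with
    | zero => simp
    | succ n ih =>
      rw [Finset.sum_Icc_succ_top (by omega), ih]
      push_cast
      ring
  rw [h n]
  have : (0 : ℝ) ≤ ((n : ℝ) + 2) * (1 / 2 : ℝ) ^ n := by positivity
  linarith

open Classical in
/-- small reachable sets are unlikely -/
theorem small_reach (k : ℕ) (hk : 2 ≤ k) : ∃ d : ℝ, 0 < d ∧ d < 1 ∧ ∃ M0 : ℕ, ∀ M, M0 ≤ M →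
    pr (fun S : Fin (M + 1) → Fin k → Fin (M + 1) => ((rch S 0).card : ℝ) ≤ d * (M + 1)) ≤ 1 / 4 := by
  refine ⟨1 / 6, by norm_num, by norm_num, 48, ?_⟩
  intro M hM
  set N : ℕ := M + 1 with hN
  have hNpos : 0 < N := by omega
  have hN48 : 48 ≤ N := by omega
  have hNr : (0 : ℝ) < N := by exact_mod_cast hNpos
  have hNr48 : (48 : ℝ) ≤ N := by exact_mod_cast hN48
  have hcastN : ((M : ℝ) + 1) = N := by rw [hN]; push_cast; ring
  set n : ℕ := N / 6 with hn
  have hsub : univ.filter (fun S : Fin N → Fin k → Fin N =>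
      ((rch S 0).card : ℝ) ≤ 1 / 6 * ((M : ℝ) + 1)) ⊆
      (Finset.Icc 1 n).biUnion (fun r => (powersetCard r (univ : Finset (Fin N))).biUnion
        (fun R => h74_cl R)) := by
    intro S hS
    rw [Finset.mem_filter] at hS
    have h1 : ((rch S 0).card : ℝ) ≤ 1 / 6 * ((M : ℝ) + 1) := hS.2
    rw [hcastN] at h1
    have h2 : 6 * (rch S 0).card ≤ N := by
      have : 6 * ((rch S 0).card : ℝ) ≤ N := by linarith
      exact_mod_cast this
    rw [Finset.mem_biUnion]
    refine ⟨(rch S 0).card, ?_, ?_⟩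
    · rw [Finset.mem_Icc]
      refine ⟨h74_rch_pos S 0, ?_⟩
      rw [hn]
      omega
    · rw [Finset.mem_biUnion]
      refine ⟨rch S 0, ?_, h74_rch_closed S 0⟩
      rw [Finset.mem_powersetCard]
      exact ⟨Finset.subset_univ _, rfl⟩
  have hcard : (univ.filter (fun S : Fin N → Fin k → Fin N =>
      ((rch S 0).card : ℝ) ≤ 1 / 6 * ((M : ℝ) + 1))).card ≤
      ∑ r ∈ Finset.Icc 1 n, N.choose r * ((r ^ k) ^ r * (N ^ k) ^ (N - r)) := by
    refine (Finset.card_le_card hsub).trans ?_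
    refine Finset.card_biUnion_le.trans ?_
    refine Finset.sum_le_sum ?_
    intro r hr
    refine Finset.card_biUnion_le.trans ?_
    have h3 : ∀ R ∈ powersetCard r (univ : Finset (Fin N)), (h74_cl (k := k) R).card =
        (r ^ k) ^ r * (N ^ k) ^ (N - r) := by
      intro R hR
      rw [h74_card_cl, (Finset.mem_powersetCard.1 hR).2, Fintype.card_fin]
    rw [Finset.sum_congr rfl h3, Finset.sum_const, Finset.card_powersetCard, Finset.card_univ,
      Fintype.card_fin, smul_eq_mul]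
  have hcard' : ((univ.filter (fun S : Fin N → Fin k → Fin N =>
      ((rch S 0).card : ℝ) ≤ 1 / 6 * ((M : ℝ) + 1))).card : ℝ) ≤
      ∑ r ∈ Finset.Icc 1 n, (N.choose r : ℝ) * (((r : ℝ) ^ k) ^ r * ((N : ℝ) ^ k) ^ (N - r)) := by
    exact_mod_cast hcard
  have hOm : (Fintype.card (Fin N → Fin k → Fin N) : ℝ) = ((N : ℝ) ^ k) ^ N := by
    simp
  have hpos : (0 : ℝ) < ((N : ℝ) ^ k) ^ N := by positivity
  show ((univ.filter (fun S : Fin N → Fin k → Fin N =>
      ((rch S 0).card : ℝ) ≤ 1 / 6 * ((M : ℝ) + 1))).card : ℝ) /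
      (Fintype.card (Fin N → Fin k → Fin N) : ℝ) ≤ 1 / 4
  rw [hOm, div_le_iff₀ hpos]
  refine hcard'.trans ?_
  calc ∑ r ∈ Finset.Icc 1 n, (N.choose r : ℝ) * (((r : ℝ) ^ k) ^ r * ((N : ℝ) ^ k) ^ (N - r))
      ≤ ∑ r ∈ Finset.Icc 1 n, ((N : ℝ) ^ k) ^ N * ((6 / N) * (r * (1 / 2 : ℝ) ^ r)) := by
        refine Finset.sum_le_sum ?_
        intro r hr
        rw [Finset.mem_Icc] at hr
        exact h74_term k N r hk hr.1 hNpos (by omega)
    _ = (((N : ℝ) ^ k) ^ N * (6 / N)) * ∑ r ∈ Finset.Icc 1 n, (r * (1 / 2 : ℝ) ^ r) := by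
        rw [Finset.mul_sum]
        refine Finset.sum_congr rfl ?_
        intro r _
        ring
    _ ≤ (((N : ℝ) ^ k) ^ N * (6 / N)) * 2 :=
        mul_le_mul_of_nonneg_left (h74_sum n) (by positivity)
    _ = (12 / N) * ((N : ℝ) ^ k) ^ N := by ring
    _ ≤ 1 / 4 * ((N : ℝ) ^ k) ^ N := by
        refine mul_le_mul_of_nonneg_right ?_ hpos.le
        rw [div_le_iff₀ hNr]
        linarith

end AC

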