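import Pool.Agent.Helper949.AC.Defs2
import Pool.Agent.Helper949.AC.McD
import Pool.Agent.Helper949.AC.D3
import Pool.Agent.Helper949.AC.D3b
import Pool.Agent.Helper949.AC.D4

set_option autoImplicit false

/-!
Definitions for the asymptotics of the average state complexity of intersections.
Tables `T : V → Fin k → V`; `rn T g w x` is the state reached from `x` after reading `w`.
-/

namespace AC

open Finset

variable {V : Type} {k : ℕ}

end AC

namespace AC
open Finset

/-! GIVEN -/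
private theorem rw_pow_sub (a b : ℝ) (hb : 0 ≤ b) (hab : b ≤ a) (ha : a ≤ 1) (t : ℕ) :
    a ^ t - b ^ t ≤ t * (a - b) := by
  induction t with
  | zero => simp
  | succ t ih =>
    have h1 : b ^ t ≤ 1 := pow_le_one₀ hb (hab.trans ha)
    have h3 : b ^ t ≤ a ^ t := pow_le_pow_left₀ hb hab t
    have h4 : 0 ≤ (1 - a) * (a ^ t - b ^ t) := mul_nonneg (by linarith) (by linarith)
    have h5 : 0 ≤ (a - b) * (1 - b ^ t) := mul_nonneg (by linarith) (by linarith)
    push_cast
    rw [pow_succ, pow_succ]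
    nlinarith

private theorem rw_approx (N : ℝ) (hN : 1 ≤ N) (t k : ℕ) (ht : (t : ℝ) ≤ k * N) :
    |(1 - 1 / N) ^ t - Real.exp (-((t : ℝ) / N))| ≤ k / N := by
  have hN0 : 0 < N := by linarith
  have hx0 : 0 < 1 / N := by positivity
  have hx1 : 1 / N ≤ 1 := by rw [div_le_one hN0]; exact hN
  have e1 : Real.exp (-((t : ℝ) / N)) = (Real.exp (-(1 / N))) ^ t := by
    rw [← Real.exp_nat_mul]
    congr 1
    ring
  have hb : 0 ≤ 1 - 1 / N := by linarith
  have hab : 1 - 1 / N ≤ Real.exp (-(1 / N)) := by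
    have := Real.add_one_le_exp (-(1 / N))
    linarith
  have ha : Real.exp (-(1 / N)) ≤ 1 := Real.exp_le_one_iff.mpr (by linarith)
  have h1 := rw_pow_sub _ _ hb hab ha t
  have h2 : (1 - 1 / N) ^ t ≤ (Real.exp (-(1 / N))) ^ t := pow_le_pow_left₀ hb hab t
  have h3 : Real.exp (-(1 / N)) - (1 - 1 / N) ≤ (1 / N) ^ 2 := by
    have := Real.abs_exp_sub_one_sub_id_le (x := -(1 / N)) (by
      rw [abs_neg, abs_of_pos hx0]; exact hx1)
    have h4 := (abs_le.mp this).2
    nlinarith
  have h5 : (t : ℝ) * (Real.exp (-(1 / N)) - (1 - 1 / N)) ≤ k / N := by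
    calc (t : ℝ) * (Real.exp (-(1 / N)) - (1 - 1 / N)) ≤ (k * N) * (1 / N) ^ 2 :=
          mul_le_mul ht h3 (by linarith) (by positivity)
      _ = k / N := by field_simp
  rw [e1, abs_sub_comm, abs_of_nonneg (by linarith)]
  linarith

private theorem rw_root (k : ℝ) (hk : 0 < k) (w : ℝ) (hw0 : 0 < w)
    (hw : w = 1 - Real.exp (-(k * w))) (y : ℝ) (hy : 0 < y) (hyw : y ≠ w) :
    0 < |y - (1 - Real.exp (-(k * y)))| := by
  have hexp : Real.exp (-(k * w)) = 1 - w := by linarith
  rw [abs_pos]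
  rcases lt_or_gt_of_ne hyw with h | h
  · have h1 := strictConvexOn_exp.2 (Set.mem_univ (0 : ℝ)) (Set.mem_univ (-(k * w)))
      (by
        have : 0 < k * w := by positivity
        intro h0
        linarith) (show 0 < 1 - y / w by rw [sub_pos, div_lt_one hw0]; exact h)
      (show 0 < y / w by positivity) (by ring)
    simp only [smul_eq_mul, mul_zero, zero_add, Real.exp_zero, mul_one] at h1
    have e1 : y / w * (-(k * w)) = -(k * y) := by field_simp
    rw [e1, hexp] at h1
    have e2 : 1 - y / w + y / w * (1 - w) = 1 - y := by field_simp; ring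
    rw [e2] at h1
    intro h0
    linarith
  · have h1 := strictConvexOn_exp.2 (Set.mem_univ (0 : ℝ)) (Set.mem_univ (-(k * y)))
      (by
        have : 0 < k * y := by positivity
        intro h0
        linarith) (show 0 < 1 - w / y by rw [sub_pos, div_lt_one hy]; exact h)
      (show 0 < w / y by positivity) (by ring)
    simp only [smul_eq_mul, mul_zero, zero_add, Real.exp_zero, mul_one] at h1
    have e1 : w / y * (-(k * y)) = -(k * w) := by field_simp
    rw [e1, hexp] at h1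
    have h2 : (1 - w) * y < (1 - w / y + w / y * Real.exp (-(k * y))) * y :=
      mul_lt_mul_of_pos_right h1 hy
    have e2 : (1 - w / y + w / y * Real.exp (-(k * y))) * y
        = y - w + w * Real.exp (-(k * y)) := by field_simp
    rw [e2] at h2
    intro h0
    have h3 : Real.exp (-(k * y)) = 1 - y := by linarith
    rw [h3] at h2
    nlinarith

private theorem rw_gap (k : ℝ) (hk : 0 < k) (w : ℝ) (hw0 : 0 < w)
    (hw : w = 1 - Real.exp (-(k * w))) (d δ : ℝ) (hd : 0 < d) (hδ : 0 < δ) :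
    ∃ c0 : ℝ, 0 < c0 ∧ ∀ y, d ≤ y → y ≤ 1 → δ ≤ |y - w| →
      c0 ≤ |y - (1 - Real.exp (-(k * y)))| := by
  set K : Set ℝ := Set.Icc d 1 ∩ {y | δ ≤ |y - w|} with hK
  have hKc : IsCompact K := by
    apply isCompact_Icc.inter_right
    exact isClosed_le continuous_const (by fun_prop)
  rcases K.eq_empty_or_nonempty with he | hne
  · refine ⟨1, one_pos, fun y h1 h2 h3 => ?_⟩
    have : y ∈ K := ⟨⟨h1, h2⟩, h3⟩
    rw [he] at this
    exact absurd this (Set.notMem_empty y)
  · obtain ⟨y0, hy0, hmin⟩ := hKc.exists_isMinOn hne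
      (f := fun y => |y - (1 - Real.exp (-(k * y)))|) (by fun_prop)
    refine ⟨|y0 - (1 - Real.exp (-(k * y0)))|, ?_, fun y h1 h2 h3 => ?_⟩
    · apply rw_root k hk w hw0 hw y0 (by linarith [hy0.1.1])
      intro h
      have := hy0.2
      rw [Set.mem_ofPred_eq, h, sub_self, abs_zero] at this
      linarith
    · exact hmin ⟨⟨h1, h2⟩, h3⟩

open Classical in
private theorem rw_pr_mono {Ω : Type} [Fintype Ω] {P Q : Ω → Prop} (h : ∀ x, P x → Q x) :
    pr P ≤ pr Q := by
  unfold pr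
  apply div_le_div_of_nonneg_right _ (by positivity)
  have : (univ.filter P).card ≤ (univ.filter Q).card := by
    apply card_le_card
    intro x hx
    rw [mem_filter] at hx ⊢
    exact ⟨hx.1, h x hx.2⟩
  exact_mod_cast this

open Classical in
private theorem rw_pr_cover {Ω : Type} [Fintype Ω] [Nonempty Ω] (B : Ω → Prop) (A : ℕ → Ω → Prop)
    (s : Finset ℕ) (h : ∀ x, B x ∨ ∃ m ∈ s, A m x) : 1 ≤ pr B + ∑ m ∈ s, pr (A m) := by
  have hc : (0 : ℝ) < Fintype.card Ω := by
    have := Fintype.card_pos (α := Ω)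
    exact_mod_cast this
  unfold pr
  rw [← Finset.sum_div, ← add_div, le_div_iff₀ hc, one_mul]
  have h1 : (univ : Finset Ω) ⊆ univ.filter B ∪ s.biUnion (fun m => univ.filter (A m)) := by
    intro x _
    rw [mem_union, mem_filter, mem_biUnion]
    rcases h x with hx | ⟨m, hm, hx⟩
    · exact Or.inl ⟨mem_univ x, hx⟩
    · refine Or.inr ⟨m, hm, ?_⟩
      rw [mem_filter]
      exact ⟨mem_univ x, hx⟩
  have h2 : Fintype.card Ω ≤ (univ.filter B).card + ∑ m ∈ s, (univ.filter (A m)).card := by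
    rw [← card_univ]
    exact (card_le_card h1).trans ((card_union_le _ _).trans
      (Nat.add_le_add_left card_biUnion_le _))
  exact_mod_cast h2

open Classical in
private theorem rw_rch_pos {M k : ℕ} (S : Fin (M + 1) → Fin k → Fin (M + 1)) : 1 ≤ (rch S 0).card := by
  rw [Nat.one_le_iff_ne_zero, ← Nat.pos_iff_ne_zero, card_pos]
  refine ⟨0, ?_⟩
  unfold rch
  rw [mem_filter]
  exact ⟨mem_univ _, 0, Fin.elim0, rfl⟩

private theorem rw_rch_le {M k : ℕ} (S : Fin (M + 1) → Fin k → Fin (M + 1)) :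
    (rch S 0).card ≤ M + 1 := by
  have := card_le_univ (rch S 0)
  rwa [Fintype.card_fin] at this

private theorem rw_pr_eq {Ω : Type} [Fintype Ω] (P : Ω → Prop) [DecidablePred P] :
    pr P = ((univ.filter P).card : ℝ) / Fintype.card Ω := by
  unfold pr
  congr!

open Classical in
private theorem rw_split (k m M : ℕ) (hmM : m ≤ M) :
    pr (fun S : Fin (M + 1) → Fin k → Fin (M + 1) => (rch S 0).card = m + 1) ≤
      pr (fun S : Fin (M + 1) → Fin k → Fin (M + 1) => (im S m).card = m + 1) +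
      pr (fun S : Fin (M + 1) → Fin k → Fin (M + 1) => (im S m).card = m) := by
  rw [rw_pr_eq, rw_pr_eq, rw_pr_eq, ← add_div]
  apply div_le_div_of_nonneg_right _ (by positivity)
  have h := rch_le_image k m M hmM
  have h2 : ((univ.filter (fun S : Fin (M + 1) → Fin k → Fin (M + 1) =>
      (rch S 0).card = m + 1)).card : ℝ) ≤
      ((univ.filter (fun S : Fin (M + 1) → Fin k → Fin (M + 1) =>
        (im S m).card = m + 1)).card : ℝ)
        + ((univ.filter (fun S : Fin (M + 1) → Fin k → Fin (M + 1) =>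
          (im S m).card = m)).card : ℝ) := by exact_mod_cast h
  exact h2

/-- the probability of a reachable set of a given size outside the window -/
private theorem rw_far (k m M : ℕ) (hk : 2 ≤ k) (hmM : m ≤ M) (c : ℝ) (hc : 0 < c)
    (h : c * ((M : ℝ) + 1) + 1 ≤
      |((m : ℝ) + 1) - (M + 1) * (1 - (1 - 1 / ((M : ℝ) + 1)) ^ (k * (m + 1)))|) :
    pr (fun S : Fin (M + 1) → Fin k → Fin (M + 1) => (rch S 0).card = m + 1) ≤
      4 * Real.exp (-(c ^ 2 / (2 * k) * ((M : ℝ) + 1))) := by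
  have hN : (0 : ℝ) < (M : ℝ) + 1 := by positivity
  have hk0 : (0 : ℝ) < k := by
    have : (2 : ℝ) ≤ k := by exact_mod_cast hk
    linarith
  have h1 := mcd_table (V := Fin (M + 1)) (k := k)
    (fun S : Fin (M + 1) → Fin k → Fin (M + 1) => ((im S m).card : ℝ)) 1 one_pos
    (fun T v a y => im_lip k m M T v a y) (c * ((M : ℝ) + 1)) (by positivity)
  rw [im_mean k m M hmM, Fintype.card_fin] at h1
  have e1 : -((c * ((M : ℝ) + 1)) ^ 2) / (2 * (((M + 1 : ℕ) : ℝ) * k) * 1 ^ 2)
      = -(c ^ 2 / (2 * k) * ((M : ℝ) + 1)) := by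
    push_cast
    field_simp
  rw [e1] at h1
  have h2 : pr (fun S : Fin (M + 1) → Fin k → Fin (M + 1) => (im S m).card = m + 1) ≤
      2 * Real.exp (-(c ^ 2 / (2 * k) * ((M : ℝ) + 1))) := by
    refine le_trans (rw_pr_mono ?_) h1
    intro S hS
    rw [hS]
    push_cast
    linarith
  have h3 : pr (fun S : Fin (M + 1) → Fin k → Fin (M + 1) => (im S m).card = m) ≤
      2 * Real.exp (-(c ^ 2 / (2 * k) * ((M : ℝ) + 1))) := by
    refine le_trans (rw_pr_mono ?_) h1
    intro S hS
    rw [hS]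
    have h4 : |((m : ℝ) + 1) - (M + 1) * (1 - (1 - 1 / ((M : ℝ) + 1)) ^ (k * (m + 1)))| ≤
        |(m : ℝ) - (M + 1) * (1 - (1 - 1 / ((M : ℝ) + 1)) ^ (k * (m + 1)))| + |(1 : ℝ)| := by
      have e2 : ((m : ℝ) + 1) - (M + 1) * (1 - (1 - 1 / ((M : ℝ) + 1)) ^ (k * (m + 1)))
          = ((m : ℝ) - (M + 1) * (1 - (1 - 1 / ((M : ℝ) + 1)) ^ (k * (m + 1)))) + 1 := by
        ring
      rw [e2]
      exact abs_add_le _ _
    rw [abs_one] at h4
    linarith
  have h4 := rw_split k m M hmM
  linarith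

/-! TARGET -/
open Classical in
theorem rch_window (k : ℕ) (hk : 2 ≤ k) (w : ℝ) (hw0 : 0 < w) (hw1 : w < 1)
    (hw : w = 1 - Real.exp (-((k : ℝ) * w))) (δ : ℝ) (hδ : 0 < δ) :
    ∃ M0 : ℕ, ∀ M, M0 ≤ M → ∃ m ≤ M, |((m : ℝ) + 1) / (M + 1) - w| < δ ∧
      1 / (4 * ((M : ℝ) + 1)) ≤
        pr (fun S : Fin (M + 1) → Fin k → Fin (M + 1) => (rch S 0).card = m + 1) := by
  have hk0 : (0 : ℝ) < k := by
    have : (2 : ℝ) ≤ k := by exact_mod_cast hk
    linarith
  obtain ⟨d, hd0, hd1, M1, hM1⟩ := small_reach k hk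
  obtain ⟨c0, hc0, hgap⟩ := rw_gap k hk0 w hw0 hw d δ hd0 hδ
  set c := c0 / 2 with hc
  have hcpos : 0 < c := by positivity
  set c' := c ^ 2 / (2 * (k : ℝ)) with hc'
  have hc'pos : 0 < c' := by positivity
  obtain ⟨M2, hM2⟩ := exists_nat_ge (2 * ((k : ℝ) + 1) / c0)
  obtain ⟨M3, hM3⟩ := exists_nat_ge (32 / c' ^ 2)
  refine ⟨max M1 (max M2 M3), fun M hM => ?_⟩
  have hMM1 : M1 ≤ M := le_trans (le_max_left _ _) hM
  have hMM2 : M2 ≤ M := le_trans (le_trans (le_max_left _ _) (le_max_right _ _)) hM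
  have hMM3 : M3 ≤ M := le_trans (le_trans (le_max_right _ _) (le_max_right _ _)) hM
  have hN : (0 : ℝ) < (M : ℝ) + 1 := by positivity
  have hN1 : (1 : ℝ) ≤ (M : ℝ) + 1 := by
    have : (0 : ℝ) ≤ M := by positivity
    linarith
  have hN2 : 2 * ((k : ℝ) + 1) ≤ c0 * ((M : ℝ) + 1) := by
    have h1 : (M2 : ℝ) ≤ M := by exact_mod_cast hMM2
    rw [div_le_iff₀ hc0] at hM2
    nlinarith
  have hN3 : 32 ≤ c' ^ 2 * ((M : ℝ) + 1) := by
    have h1 : (M3 : ℝ) ≤ M := by exact_mod_cast hMM3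
    have h2 : 0 < c' ^ 2 := by positivity
    rw [div_le_iff₀ h2] at hM3
    nlinarith
  have hexp : 4 * Real.exp (-(c' * ((M : ℝ) + 1))) ≤ 1 / (4 * ((M : ℝ) + 1)) := by
    have hz : 0 ≤ c' * ((M : ℝ) + 1) := by positivity
    have h1 := Real.quadratic_le_exp_of_nonneg hz
    have h2 : (c' * ((M : ℝ) + 1)) ^ 2 / 2 ≤ Real.exp (c' * ((M : ℝ) + 1)) := by linarith
    have h3 : 16 * ((M : ℝ) + 1) ≤ Real.exp (c' * ((M : ℝ) + 1)) := by
      refine le_trans ?_ h2
      nlinarith
    rw [Real.exp_neg, le_div_iff₀ (by positivity), ← div_eq_mul_inv, div_mul_eq_mul_div,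
      div_le_one (Real.exp_pos _)]
    linarith
  by_contra hcon
  push Not at hcon
  -- the cover
  set s : Finset ℕ := (range (M + 1)).filter (fun m => d * ((M : ℝ) + 1) < (m : ℝ) + 1) with hs
  have hcov := rw_pr_cover
    (fun S : Fin (M + 1) → Fin k → Fin (M + 1) => ((rch S 0).card : ℝ) ≤ d * (M + 1))
    (fun m => fun S : Fin (M + 1) → Fin k → Fin (M + 1) => (rch S 0).card = m + 1) s (by
      intro S
      by_cases hS : ((rch S 0).card : ℝ) ≤ d * (M + 1)
      · exact Or.inl hS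
      · right
        have h1 := rw_rch_pos S
        have h2 := rw_rch_le S
        refine ⟨(rch S 0).card - 1, ?_, by omega⟩
        rw [hs, mem_filter, mem_range]
        refine ⟨by omega, ?_⟩
        push Not at hS
        have h3 : (((rch S 0).card - 1 : ℕ) : ℝ) + 1 = (rch S 0).card := by
          rw [Nat.cast_sub h1]; push_cast; ring
        rw [h3]
        exact hS)
  have hbound : ∀ m ∈ s, pr (fun S : Fin (M + 1) → Fin k → Fin (M + 1) =>
      (rch S 0).card = m + 1) ≤ 1 / (4 * ((M : ℝ) + 1)) := by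
    intro m hm
    rw [hs, mem_filter, mem_range] at hm
    obtain ⟨hm1, hm2⟩ := hm
    have hmM : m ≤ M := by omega
    by_cases hwin : |((m : ℝ) + 1) / (M + 1) - w| < δ
    · exact (hcon m hmM hwin).le
    · push Not at hwin
      have hy1 : d ≤ ((m : ℝ) + 1) / (M + 1) := by
        rw [le_div_iff₀ hN]; exact hm2.le
      have hy2 : ((m : ℝ) + 1) / (M + 1) ≤ 1 := by
        rw [div_le_one hN]
        have : (m : ℝ) ≤ M := by exact_mod_cast hmM
        linarith
      have h1 := hgap _ hy1 hy2 hwin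
      have h2 := rw_approx ((M : ℝ) + 1) hN1 (k * (m + 1)) k (by
        push_cast
        have : (m : ℝ) ≤ M := by exact_mod_cast hmM
        exact mul_le_mul_of_nonneg_left (by linarith) hk0.le)
      have e1 : -(((k * (m + 1) : ℕ) : ℝ) / ((M : ℝ) + 1)) = -(k * (((m : ℝ) + 1) / (M + 1))) := by
        push_cast; ring
      rw [e1] at h2
      refine le_trans (rw_far k m M hk hmM c hcpos ?_) hexp
      -- the gap
      set y := ((m : ℝ) + 1) / (M + 1) with hy
      set P := (1 - 1 / ((M : ℝ) + 1)) ^ (k * (m + 1)) with hP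
      have e2 : ((m : ℝ) + 1) - (M + 1) * (1 - P) = (M + 1) * (y - (1 - P)) := by
        rw [hy]; field_simp
      rw [e2, abs_mul, abs_of_pos hN]
      have h3 : |y - (1 - Real.exp (-(k * y)))| ≤ |y - (1 - P)| + |P - Real.exp (-(k * y))| := by
        have e3 : y - (1 - Real.exp (-(k * y))) = (y - (1 - P)) + -(P - Real.exp (-(k * y))) := by
          ring
        rw [e3]
        refine (abs_add_le _ _).trans ?_
        rw [abs_neg]
      have h4 : c0 - k / ((M : ℝ) + 1) ≤ |y - (1 - P)| := by linarith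
      have h5 : (M + 1) * (c0 - k / ((M : ℝ) + 1)) ≤ (M + 1) * |y - (1 - P)| :=
        mul_le_mul_of_nonneg_left h4 hN.le
      have e4 : ((M : ℝ) + 1) * (c0 - k / ((M : ℝ) + 1)) = c0 * (M + 1) - k := by
        field_simp
      rw [e4] at h5
      rw [hc]
      linarith
  have hsum : ∑ m ∈ s, pr (fun S : Fin (M + 1) → Fin k → Fin (M + 1) =>
      (rch S 0).card = m + 1) ≤ 1 / 4 := by
    refine (Finset.sum_le_sum hbound).trans ?_
    rw [Finset.sum_const, nsmul_eq_mul]
    have h1 : (s.card : ℝ) ≤ (M : ℝ) + 1 := by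
      have : s.card ≤ M + 1 := by
        refine (card_filter_le _ _).trans ?_
        rw [card_range]
      exact_mod_cast this
    calc (s.card : ℝ) * (1 / (4 * ((M : ℝ) + 1))) ≤ ((M : ℝ) + 1) * (1 / (4 * ((M : ℝ) + 1))) :=
          mul_le_mul_of_nonneg_right h1 (by positivity)
      _ = 1 / 4 := by field_simp
  have hB := hM1 M hMM1
  have : (1 : ℝ) ≤ 1 / 4 + 1 / 4 := by
    refine hcov.trans (add_le_add ?_ hsum)
    convert hB
  norm_num at this

end AC

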