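import Pool.Agent.Helper949.AC.Defs2

set_option autoImplicit false

/-!
Definitions for the asymptotics of the average state complexity of intersections.
Tables `T : V → Fin k → V`; `rn T g w x` is the state reached from `x` after reading `w`.
-/

namespace AC

open Finset

variable {V : Type} {k : ℕ}

end AC

namespace AC
open Finset

private theorem fm_mem_rch {V : Type} {k : ℕ} [Fintype V] (T : V → Fin k → V) (o q : V) :
    q ∈ rch T o ↔ ∃ (l : ℕ) (w : Fin l → Fin k), rn T l w o = q := by
  classical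
  unfold rch
  rw [Finset.mem_filter]
  exact ⟨fun h => h.2, fun h => ⟨Finset.mem_univ _, h⟩⟩

private theorem fm_zero {V : Type} {k : ℕ} [Fintype V] (T : V → Fin k → V) (o : V) : o ∈ rch T o :=
  (fm_mem_rch T o o).2 ⟨0, Fin.elim0, rfl⟩

private theorem fm_closed {V : Type} {k : ℕ} [Fintype V] (T : V → Fin k → V) (o q : V) (a : Fin k)
    (h : q ∈ rch T o) : T q a ∈ rch T o := by
  obtain ⟨l, w, rfl⟩ := (fm_mem_rch T o q).1 h
  refine (fm_mem_rch T o _).2 ⟨l + 1, Fin.snoc (α := fun _ => Fin k) w a, ?_⟩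
  show T (rn T l (fun i => Fin.snoc (α := fun _ => Fin k) w a i.castSucc) o)
    (Fin.snoc (α := fun _ => Fin k) w a (Fin.last l)) = _
  simp only [Fin.snoc_castSucc, Fin.snoc_last]

private theorem fm_min {V : Type} {k : ℕ} [Fintype V] (T : V → Fin k → V) (o : V) (R : Finset V)
    (h0 : o ∈ R) (hc : ∀ q ∈ R, ∀ a, T q a ∈ R) : rch T o ⊆ R := by
  have key : ∀ (l : ℕ) (w : Fin l → Fin k), rn T l w o ∈ R := by
    intro l
    induction l with
    | zero => intro w; exact h0
    | succ l ih => intro w; exact hc _ (ih _) _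
  intro q hq
  obtain ⟨l, w, rfl⟩ := (fm_mem_rch T o q).1 hq
  exact key l w

private theorem fm_rn {k m M : ℕ} {e : Fin (m + 1) → Fin (M + 1)} {T : Fin (m + 1) → Fin k → Fin (m + 1)}
    {S : Fin (M + 1) → Fin k → Fin (M + 1)} (h : ∀ x a, S (e x) a = e (T x a)) :
    ∀ (l : ℕ) (w : Fin l → Fin k) (x : Fin (m + 1)), rn S l w (e x) = e (rn T l w x) := by
  intro l
  induction l with
  | zero => intro w x; rfl
  | succ l ih =>
    intro w x
    show S (rn S l _ (e x)) _ = e (T (rn T l _ x) _)
    rw [ih, h]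

/-- the increasing enumeration of a set -/
private noncomputable def fm_e {m M : ℕ} (R : Finset (Fin (M + 1))) (h : R.card = m + 1) :
    Fin (m + 1) → Fin (M + 1) := R.orderEmbOfFin h

private theorem fm_e_inj {m M : ℕ} (R : Finset (Fin (M + 1))) (h : R.card = m + 1) :
    Function.Injective (fm_e R h) := (R.orderEmbOfFin h).injective

private theorem fm_e_mem {m M : ℕ} (R : Finset (Fin (M + 1))) (h : R.card = m + 1) (x : Fin (m + 1)) :
    fm_e R h x ∈ R := Finset.orderEmbOfFin_mem R h x

private theorem fm_e_surj {m M : ℕ} (R : Finset (Fin (M + 1))) (h : R.card = m + 1) {v : Fin (M + 1)}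
    (hv : v ∈ R) : ∃ x, fm_e R h x = v := by
  have h1 : v ∈ Set.range (R.orderEmbOfFin h) := by
    rw [Finset.range_orderEmbOfFin]; exact hv
  exact h1

private theorem fm_e_zero {m M : ℕ} (R : Finset (Fin (M + 1))) (h : R.card = m + 1) (h0 : 0 ∈ R) :
    fm_e R h 0 = 0 := by
  obtain ⟨x, hx⟩ := fm_e_surj R h h0
  have h1 : fm_e R h 0 ≤ fm_e R h x := (R.orderEmbOfFin h).monotone (Fin.zero_le x)
  rw [hx] at h1
  exact Fin.le_zero_iff.1 h1

open Classical in
/-- the relabelled restriction -/
private noncomputable def fm_dec (k m M : ℕ) (S : Fin (M + 1) → Fin k → Fin (M + 1)) :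
    Fin (m + 1) → Fin k → Fin (m + 1) :=
  if h : (rch S 0).card = m + 1 then
    fun x a => Function.invFun (fm_e (rch S 0) h) (S (fm_e (rch S 0) h x) a)
  else fun _ _ => 0

private theorem fm_dec_spec {k m M : ℕ} (S : Fin (M + 1) → Fin k → Fin (M + 1))
    (h : (rch S 0).card = m + 1) (x : Fin (m + 1)) (a : Fin k) :
    S (fm_e (rch S 0) h x) a = fm_e (rch S 0) h (fm_dec k m M S x a) := by
  have h1 : fm_dec k m M S x a =
      Function.invFun (fm_e (rch S 0) h) (S (fm_e (rch S 0) h x) a) := by
    unfold fm_dec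
    rw [dif_pos h]
  rw [h1]
  exact (Function.invFun_eq (fm_e_surj (rch S 0) h
    (fm_closed S 0 _ a (fm_e_mem (rch S 0) h x)))).symm

/-- the tables with a given reachable set and a given restriction -/
private theorem fm_iff {k m M : ℕ} (T : Fin (m + 1) → Fin k → Fin (m + 1)) (hT : Ac T 0)
    (R : Finset (Fin (M + 1))) (hR : R.card = m + 1) (h0 : 0 ∈ R)
    (S : Fin (M + 1) → Fin k → Fin (M + 1)) :
    (((rch S 0).card = m + 1 ∧ fm_dec k m M S = T) ∧ rch S 0 = R) ↔
      ∀ x a, S (fm_e R hR x) a = fm_e R hR (T x a) := by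
  constructor
  · rintro ⟨⟨h1, h2⟩, h3⟩ x a
    subst h3
    rw [fm_dec_spec S hR x a, h2]
  · intro h
    have e0 := fm_e_zero R hR h0
    have h3 : rch S 0 = R := by
      apply Finset.Subset.antisymm
      · refine fm_min S 0 R h0 fun q hq a => ?_
        obtain ⟨x, rfl⟩ := fm_e_surj R hR hq
        rw [h]
        exact fm_e_mem R hR _
      · intro v hv
        obtain ⟨x, rfl⟩ := fm_e_surj R hR hv
        obtain ⟨l, w, hw⟩ := hT x
        refine (fm_mem_rch S 0 _).2 ⟨l, w, ?_⟩
        have h4 := fm_rn h l w 0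
        rw [e0, hw] at h4
        exact h4
    refine ⟨⟨by rw [h3]; exact hR, ?_⟩, h3⟩
    funext x a
    subst h3
    apply fm_e_inj (rch S 0) hR
    rw [← fm_dec_spec S hR x a, h]

open Classical in
private theorem fm_count {k m M : ℕ} (T : Fin (m + 1) → Fin k → Fin (m + 1))
    (R : Finset (Fin (M + 1))) (hR : R.card = m + 1) :
    (univ.filter (fun S : Fin (M + 1) → Fin k → Fin (M + 1) =>
      ∀ x a, S (fm_e R hR x) a = fm_e R hR (T x a))).card = (M + 1) ^ (k * (M - m)) := by
  have h1 : univ.filter (fun S : Fin (M + 1) → Fin k → Fin (M + 1) =>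
      ∀ x a, S (fm_e R hR x) a = fm_e R hR (T x a)) =
      Fintype.piFinset (fun v : Fin (M + 1) => if v ∈ R then
        {(fun a => fm_e R hR (T (Function.invFun (fm_e R hR) v) a) : Fin k → Fin (M + 1))}
        else (univ : Finset (Fin k → Fin (M + 1)))) := by
    ext S
    rw [Finset.mem_filter, Fintype.mem_piFinset]
    constructor
    · rintro ⟨_, h⟩ v
      by_cases hv : v ∈ R
      · rw [if_pos hv, Finset.mem_singleton]
        obtain ⟨x, rfl⟩ := fm_e_surj R hR hv
        funext a
        rw [Function.leftInverse_invFun (fm_e_inj R hR) x, h]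
      · rw [if_neg hv]
        exact Finset.mem_univ _
    · intro h
      refine ⟨Finset.mem_univ _, fun x a => ?_⟩
      have h2 := h (fm_e R hR x)
      rw [if_pos (fm_e_mem R hR x), Finset.mem_singleton] at h2
      rw [h2, Function.leftInverse_invFun (fm_e_inj R hR) x]
  rw [h1, Fintype.card_piFinset]
  have h2 : ∀ v : Fin (M + 1), (if v ∈ R then
        {(fun a => fm_e R hR (T (Function.invFun (fm_e R hR) v) a) : Fin k → Fin (M + 1))}
        else (univ : Finset (Fin k → Fin (M + 1)))).card =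
      if v ∈ R then 1 else (M + 1) ^ k := by
    intro v
    by_cases hv : v ∈ R
    · rw [if_pos hv, if_pos hv, Finset.card_singleton]
    · rw [if_neg hv, if_neg hv, Finset.card_univ, Fintype.card_fun, Fintype.card_fin,
        Fintype.card_fin]
  rw [Finset.prod_congr rfl fun v _ => h2 v, Finset.prod_ite, Finset.prod_const_one, one_mul,
    Finset.prod_const, ← pow_mul]
  have h3 : (univ.filter (fun v : Fin (M + 1) => v ∉ R)).card = M - m := by
    have h4 : univ.filter (fun v : Fin (M + 1) => v ∉ R) = Rᶜ := by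
      ext v; simp
    rw [h4, Finset.card_compl, Fintype.card_fin, hR]
    omega
  rw [h3]

private theorem fm_sets (m M : ℕ) :
    (((univ : Finset (Fin (M + 1))).powersetCard (m + 1)).filter (fun R => 0 ∈ R)).card =
      M.choose m := by
  classical
  have h1 : (((univ : Finset (Fin (M + 1))).erase 0).powersetCard m).card = M.choose m := by
    rw [Finset.card_powersetCard, Finset.card_erase_of_mem (Finset.mem_univ _), Finset.card_univ,
      Fintype.card_fin, Nat.add_sub_cancel]
  rw [← h1]
  refine Finset.card_nbij' (fun R => R.erase 0) (fun R => insert 0 R) ?_ ?_ ?_ ?_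
  · intro R hR
    rw [Finset.mem_coe, Finset.mem_filter, Finset.mem_powersetCard] at hR
    rw [Finset.mem_coe, Finset.mem_powersetCard]
    refine ⟨Finset.erase_subset_erase 0 hR.1.1, ?_⟩
    rw [Finset.card_erase_of_mem hR.2, hR.1.2, Nat.add_sub_cancel]
  · intro R hR
    rw [Finset.mem_coe, Finset.mem_powersetCard] at hR
    rw [Finset.mem_coe, Finset.mem_filter, Finset.mem_powersetCard]
    have h0 : (0 : Fin (M + 1)) ∉ R := fun h => (Finset.mem_erase.1 (hR.1 h)).1 rfl
    refine ⟨⟨Finset.subset_univ _, ?_⟩, Finset.mem_insert_self _ _⟩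
    rw [Finset.card_insert_of_notMem h0, hR.2]
  · intro R hR
    rw [Finset.mem_coe, Finset.mem_filter] at hR
    exact Finset.insert_erase hR.2
  · intro R hR
    rw [Finset.mem_coe, Finset.mem_powersetCard] at hR
    have h0 : (0 : Fin (M + 1)) ∉ R := fun h => (Finset.mem_erase.1 (hR.1 h)).1 rfl
    exact Finset.erase_insert h0

open Classical in
/-- restricting a table to its reachable set and relabelling: all fibres have the same size -/
theorem fiber_map (k m M : ℕ) (hmM : m ≤ M) :
    ∃ dec : (Fin (M + 1) → Fin k → Fin (M + 1)) → (Fin (m + 1) → Fin k → Fin (m + 1)),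
      (∀ S, (rch S 0).card = m + 1 → Ac (dec S) 0 ∧ ∃ e, Emb e (dec S) S) ∧
      ∀ T, Ac T 0 →
        (univ.filter (fun S : Fin (M + 1) → Fin k → Fin (M + 1) =>
          (rch S 0).card = m + 1 ∧ dec S = T)).card = M.choose m * (M + 1) ^ (k * (M - m)) := by
  refine ⟨fm_dec k m M, fun S h => ⟨?_, fm_e (rch S 0) h, fm_e_inj _ h, fm_e_zero _ h (fm_zero S 0),
    fm_dec_spec S h⟩, fun T hT => ?_⟩
  · intro q
    obtain ⟨l, w, hw⟩ := (fm_mem_rch S 0 _).1 (fm_e_mem (rch S 0) h q)
    refine ⟨l, w, fm_e_inj _ h ?_⟩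
    have h4 := fm_rn (fm_dec_spec S h) l w 0
    rw [fm_e_zero _ h (fm_zero S 0), hw] at h4
    exact h4.symm
  · rw [Finset.card_eq_sum_card_fiberwise (f := fun S => rch S 0)
      (t := ((univ : Finset (Fin (M + 1))).powersetCard (m + 1)).filter (fun R => 0 ∈ R))]
    · rw [Finset.sum_congr rfl (g := fun _ => (M + 1) ^ (k * (M - m)))]
      · rw [Finset.sum_const, fm_sets, smul_eq_mul]
      · intro R hR
        rw [Finset.mem_filter, Finset.mem_powersetCard] at hR
        rw [← fm_count T R hR.1.2]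
        congr 1
        ext S
        rw [Finset.mem_filter, Finset.mem_filter, Finset.mem_filter]
        have h5 := fm_iff T hT R hR.1.2 hR.2 S
        constructor
        · rintro ⟨⟨_, h6⟩, h7⟩
          exact ⟨Finset.mem_univ _, h5.1 ⟨h6, h7⟩⟩
        · rintro ⟨_, h6⟩
          obtain ⟨h7, h8⟩ := h5.2 h6
          exact ⟨⟨Finset.mem_univ _, h7⟩, h8⟩
    · intro S hS
      rw [Finset.mem_coe, Finset.mem_filter] at hS
      rw [Finset.mem_coe, Finset.mem_filter, Finset.mem_powersetCard]
      exact ⟨⟨Finset.subset_univ _, hS.2.1⟩, fm_zero S 0⟩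

end AC

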