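import Pool.Agent.Helper949.AC.Defs2
import Pool.Agent.Helper949.AC.D2

set_option autoImplicit false

/-!
Definitions for the asymptotics of the average state complexity of intersections.
Tables `T : V → Fin k → V`; `rn T g w x` is the state reached from `x` after reading `w`.
-/

namespace AC

open Finset

variable {V : Type} {k : ℕ}

end AC

namespace AC
open Finset

/-! GIVEN -/
/-! TARGETS -/
private theorem tr_cnt {α β : Type} [Fintype α] [Fintype β] [DecidableEq β] (dec : α → β)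
    (R : α → Prop) (A : β → Prop) [DecidablePred R] [DecidablePred A] (K : ℕ)
    (h1 : ∀ S, R S → A (dec S))
    (h2 : ∀ T, A T → (univ.filter (fun S => R S ∧ dec S = T)).card = K) (P : β → Prop)
    [DecidablePred P] :
    (univ.filter (fun S => R S ∧ P (dec S))).card = K * (univ.filter (fun T => A T ∧ P T)).card := by
  rw [Finset.card_eq_sum_card_fiberwise (f := dec) (t := univ.filter (fun T => A T ∧ P T))]
  · rw [Finset.sum_congr rfl (g := fun _ => K)]
    · rw [sum_const, smul_eq_mul, mul_comm]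
    · intro T hT
      have hT' := (mem_filter.1 hT).2
      rw [← h2 T hT'.1]
      congr 1
      ext S
      simp only [mem_filter, mem_univ, true_and]
      constructor
      · rintro ⟨⟨h3, h4⟩, h5⟩
        exact ⟨h3, h5⟩
      · rintro ⟨h3, h5⟩
        exact ⟨⟨h3, by rw [h5]; exact hT'.2⟩, h5⟩
  · intro S hS
    have hS' := (mem_filter.1 hS).2
    exact Finset.mem_coe.2 (mem_filter.2 ⟨mem_univ _, h1 S hS'.1, hS'.2⟩)

private theorem tr_cnt2 {α β : Type} [Fintype α] [Fintype β] [DecidableEq β] (dec : α → β)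
    (R : α → Prop) (A : β → Prop) [DecidablePred R] [DecidablePred A] (K : ℕ)
    (h1 : ∀ S, R S → A (dec S))
    (h2 : ∀ T, A T → (univ.filter (fun S => R S ∧ dec S = T)).card = K) (P : β → β → Prop)
    [∀ a b, Decidable (P a b)] :
    (univ.filter (fun p : α × α => (R p.1 ∧ R p.2) ∧ P (dec p.1) (dec p.2))).card =
      (K * K) * (univ.filter (fun p : β × β => (A p.1 ∧ A p.2) ∧ P p.1 p.2)).card := by
  have h := tr_cnt (fun p : α × α => (dec p.1, dec p.2)) (fun p => R p.1 ∧ R p.2)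
    (fun p => A p.1 ∧ A p.2) (K * K) (fun S hS => ⟨h1 _ hS.1, h1 _ hS.2⟩) (by
      rintro ⟨T, T'⟩ ⟨hT, hT'⟩
      have h3 : (univ.filter (fun S : α × α => (R S.1 ∧ R S.2) ∧ (dec S.1, dec S.2) = (T, T'))) =
          (univ.filter (fun S => R S ∧ dec S = T)) ×ˢ (univ.filter (fun S => R S ∧ dec S = T')) := by
        ext ⟨S, S'⟩
        simp only [mem_filter, mem_univ, true_and, mem_product, Prod.mk.injEq]
        tauto
      rw [h3, card_product, h2 T hT, h2 T' hT']) (fun p => P p.1 p.2)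
  exact h

open Classical in
theorem rch_card_count (k m M : ℕ) (hmM : m ≤ M) :
    (univ.filter (fun S : Fin (M + 1) → Fin k → Fin (M + 1) => (rch S 0).card = m + 1)).card
      = M.choose m * (M + 1) ^ (k * (M - m))
        * (univ.filter (fun T : Fin (m + 1) → Fin k → Fin (m + 1) => Ac T 0)).card := by
  obtain ⟨dec, hd1, hd2⟩ := fiber_map k m M hmM
  have h := tr_cnt dec (fun S => (rch S 0).card = m + 1) (fun T => Ac T 0)
    (M.choose m * (M + 1) ^ (k * (M - m))) (fun S hS => (hd1 S hS).1) (fun T hT => hd2 T hT)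
    (fun _ => True)
  simpa using h

open Classical in
theorem transfer1 (k m M : ℕ) (hmM : m ≤ M)
    (P : (Fin (m + 1) → Fin k → Fin (m + 1)) → Prop)
    (P' : (Fin (M + 1) → Fin k → Fin (M + 1)) → Prop)
    (h : ∀ T S e, Ac T 0 → Emb e T S → P T → P' S) :
    (univ.filter (fun T : Fin (m + 1) → Fin k → Fin (m + 1) => Ac T 0 ∧ P T)).card
      * (univ.filter (fun S : Fin (M + 1) → Fin k → Fin (M + 1) => (rch S 0).card = m + 1)).card
    ≤ (univ.filter P').card
      * (univ.filter (fun T : Fin (m + 1) → Fin k → Fin (m + 1) => Ac T 0)).card := by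
  rw [rch_card_count k m M hmM]
  obtain ⟨dec, hd1, hd2⟩ := fiber_map k m M hmM
  have h1 := tr_cnt dec (fun S => (rch S 0).card = m + 1) (fun T => Ac T 0)
    (M.choose m * (M + 1) ^ (k * (M - m))) (fun S hS => (hd1 S hS).1) (fun T hT => hd2 T hT) P
  have h2 : (univ.filter (fun S : Fin (M + 1) → Fin k → Fin (M + 1) =>
      (rch S 0).card = m + 1 ∧ P (dec S))).card ≤ (univ.filter P').card := by
    apply card_le_card
    intro S hS
    rw [mem_filter] at hS ⊢
    obtain ⟨h3, e, h4⟩ := hd1 S hS.2.1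
    exact ⟨mem_univ _, h (dec S) S e h3 h4 hS.2.2⟩
  rw [h1] at h2
  calc _ = (M.choose m * (M + 1) ^ (k * (M - m)) *
      (univ.filter (fun T : Fin (m + 1) → Fin k → Fin (m + 1) => Ac T 0 ∧ P T)).card) *
      (univ.filter (fun T : Fin (m + 1) → Fin k → Fin (m + 1) => Ac T 0)).card := by ring
    _ ≤ _ := Nat.mul_le_mul_right _ h2

open Classical in
theorem transfer2 (k m M : ℕ) (hmM : m ≤ M)
    (P : (Fin (m + 1) → Fin k → Fin (m + 1)) → (Fin (m + 1) → Fin k → Fin (m + 1)) → Prop)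
    (P' : (Fin (M + 1) → Fin k → Fin (M + 1)) → (Fin (M + 1) → Fin k → Fin (M + 1)) → Prop)
    (h : ∀ T T' S S' e e', Ac T 0 → Ac T' 0 → Emb e T S → Emb e' T' S' → P T T' → P' S S') :
    (univ.filter (fun p : (Fin (m + 1) → Fin k → Fin (m + 1)) × (Fin (m + 1) → Fin k → Fin (m + 1)) =>
        Ac p.1 0 ∧ Ac p.2 0 ∧ P p.1 p.2)).card
      * (univ.filter (fun S : Fin (M + 1) → Fin k → Fin (M + 1) => (rch S 0).card = m + 1)).card ^ 2
    ≤ (univ.filter (fun p : (Fin (M + 1) → Fin k → Fin (M + 1)) × (Fin (M + 1) → Fin k → Fin (M + 1)) =>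
        P' p.1 p.2)).card
      * (univ.filter (fun T : Fin (m + 1) → Fin k → Fin (m + 1) => Ac T 0)).card ^ 2 := by
  rw [rch_card_count k m M hmM]
  obtain ⟨dec, hd1, hd2⟩ := fiber_map k m M hmM
  have h1 := tr_cnt2 dec (fun S => (rch S 0).card = m + 1) (fun T => Ac T 0)
    (M.choose m * (M + 1) ^ (k * (M - m))) (fun S hS => (hd1 S hS).1) (fun T hT => hd2 T hT) P
  have h2 : (univ.filter (fun p : (Fin (M + 1) → Fin k → Fin (M + 1)) ×
      (Fin (M + 1) → Fin k → Fin (M + 1)) =>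
      ((rch p.1 0).card = m + 1 ∧ (rch p.2 0).card = m + 1) ∧ P (dec p.1) (dec p.2))).card ≤
      (univ.filter (fun p : (Fin (M + 1) → Fin k → Fin (M + 1)) ×
        (Fin (M + 1) → Fin k → Fin (M + 1)) => P' p.1 p.2)).card := by
    apply card_le_card
    rintro ⟨S, S'⟩ hS
    rw [mem_filter] at hS ⊢
    obtain ⟨h3, e, h4⟩ := hd1 S hS.2.1.1
    obtain ⟨h3', e', h4'⟩ := hd1 S' hS.2.1.2
    exact ⟨mem_univ _, h (dec S) (dec S') S S' e e' h3 h3' h4 h4' hS.2.2⟩
  rw [h1] at h2
  have h5 : (univ.filter (fun p : (Fin (m + 1) → Fin k → Fin (m + 1)) ×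
      (Fin (m + 1) → Fin k → Fin (m + 1)) => (Ac p.1 0 ∧ Ac p.2 0) ∧ P p.1 p.2)) =
      (univ.filter (fun p : (Fin (m + 1) → Fin k → Fin (m + 1)) ×
      (Fin (m + 1) → Fin k → Fin (m + 1)) => Ac p.1 0 ∧ Ac p.2 0 ∧ P p.1 p.2)) := by
    ext p
    simp only [mem_filter, mem_univ, true_and, and_assoc]
  rw [h5] at h2
  calc _ = ((M.choose m * (M + 1) ^ (k * (M - m))) * (M.choose m * (M + 1) ^ (k * (M - m))) *
      (univ.filter (fun p : (Fin (m + 1) → Fin k → Fin (m + 1)) ×
      (Fin (m + 1) → Fin k → Fin (m + 1)) => Ac p.1 0 ∧ Ac p.2 0 ∧ P p.1 p.2)).card) *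
      (univ.filter (fun T : Fin (m + 1) → Fin k → Fin (m + 1) => Ac T 0)).card ^ 2 := by ring
    _ ≤ _ := Nat.mul_le_mul_right _ h2

end AC

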