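import Pool.Agent.Helper949.AC.Defs2
import Pool.Agent.Helper949.AC.D1
import Pool.Agent.Helper949.AC.D6
import Pool.Agent.Helper949.AC.D5a

set_option autoImplicit false

/-!
Definitions for the asymptotics of the average state complexity of intersections.
Tables `T : V → Fin k → V`; `rn T g w x` is the state reached from `x` after reading `w`.
-/

namespace AC

open Finset

variable {V : Type} {k : ℕ}

end AC

namespace AC
open Finset

/-! GIVEN -/
/-! TARGET -/
open Classical in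
/-- number of accessible tables -/
private noncomputable def Acn (k m : ℕ) : ℕ :=
  (univ.filter (fun T : Fin (m + 1) → Fin k → Fin (m + 1) => Ac T 0)).card

private theorem Acn_ratio (k m : ℕ) (hk : 1 ≤ k) : (m + 1) ^ k * Acn k m ≤ Acn k (m + 1) :=
  acc_ratio k m hk

private theorem Acn_iter (k m : ℕ) (hk : 1 ≤ k) (d : ℕ) :
    (m + 1) ^ (k * d) * Acn k m ≤ Acn k (m + d) := by
  induction d with
  | zero => simp
  | succ d ih =>
    calc (m + 1) ^ (k * (d + 1)) * Acn k m = (m + 1) ^ k * ((m + 1) ^ (k * d) * Acn k m) := by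
          ring
      _ ≤ (m + 1) ^ k * Acn k (m + d) := Nat.mul_le_mul_left _ ih
      _ ≤ (m + d + 1) ^ k * Acn k (m + d) :=
          Nat.mul_le_mul_right _ (Nat.pow_le_pow_left (by omega) k)
      _ ≤ Acn k (m + d + 1) := Acn_ratio k (m + d) hk

private theorem choose_iter (M m d : ℕ) : M.choose m ≤ (M + d).choose (m + d) := by
  induction d with
  | zero => exact le_rfl
  | succ d ih =>
    refine ih.trans ?_
    show (M + d).choose (m + d) ≤ (M + d + 1).choose (m + d + 1)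
    rw [Nat.choose_succ_succ]
    exact Nat.le_add_right _ _

private theorem pr_formula (k m M : ℕ) (hmM : m ≤ M) :
    pr (fun S : Fin (M + 1) → Fin k → Fin (M + 1) => (rch S 0).card = m + 1) =
      (M.choose m : ℝ) * Acn k m / ((M : ℝ) + 1) ^ (k * (m + 1)) := by
  have hcard : (Fintype.card (Fin (M + 1) → Fin k → Fin (M + 1)) : ℝ) =
      ((M : ℝ) + 1) ^ (k * (M + 1)) := by
    rw [Fintype.card_fun, Fintype.card_fun, Fintype.card_fin, Fintype.card_fin, ← pow_mul]
    push_cast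
    rfl
  have hc : ((@Finset.filter (Fin (M + 1) → Fin k → Fin (M + 1))
      (fun S => (rch S 0).card = m + 1) (fun a => Classical.propDecidable _) univ).card) =
      M.choose m * (M + 1) ^ (k * (M - m)) * Acn k m := by
    have h := rch_card_count k m M hmM
    unfold Acn
    convert h
  unfold pr
  rw [hc, hcard]
  have hM : (0 : ℝ) < (M : ℝ) + 1 := by positivity
  have he : k * (M + 1) = k * (M - m) + k * (m + 1) := by
    rw [← mul_add]
    congr 1
    omega
  rw [he, pow_add, div_eq_div_iff (by positivity) (by positivity)]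
  push_cast
  ring

open Classical in

/-- every size `m + 1` is the size of the reachable set with not exponentially small probability,
for a suitable number of states `M + 1` with `(m+1)/(M+1)` close to `w` -/
theorem transfer_exists (k : ℕ) (hk : 2 ≤ k) (w : ℝ) (hw0 : 0 < w) (hw1 : w < 1)
    (hw : w = 1 - Real.exp (-((k : ℝ) * w))) (ε : ℝ) (hε : 0 < ε) :
    ∃ m0 : ℕ, ∀ m, m0 ≤ m → ∃ M, m ≤ M ∧ |((m : ℝ) + 1) / (M + 1) - w| < ε ∧
      Real.exp (-(ε * (M + 1))) ≤
        pr (fun S : Fin (M + 1) → Fin k → Fin (M + 1) => (rch S 0).card = m + 1) := by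
  have hk1 : 1 ≤ k := by omega
  have hk0 : (0 : ℝ) < k := by
    have : 0 < k := by omega
    exact_mod_cast this
  have h4w : 1 < 4 / w := by
    rw [lt_div_iff₀ hw0]
    linarith
  have hlog : 0 < Real.log (4 / w) := Real.log_pos h4w
  obtain ⟨B, hB⟩ : ∃ B, B = (k : ℝ) * (1 + Real.log (4 / w)) := ⟨_, rfl⟩
  have hB0 : 0 < B := by rw [hB]; positivity
  obtain ⟨δ, hδ⟩ : ∃ δ, δ = min (min ((1 - w) / 2) (w / 2))
    (min (1 / 4) (min (ε / 8) (ε / (8 * B)))) := ⟨_, rfl⟩
  have hδ0 : 0 < δ := by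
    rw [hδ]
    refine lt_min (lt_min (by linarith) (by linarith)) (lt_min (by norm_num) (lt_min ?_ ?_))
    · positivity
    · positivity
  have hδ1 : δ ≤ (1 - w) / 2 := by rw [hδ]; exact (min_le_left _ _).trans (min_le_left _ _)
  have hδ2 : δ ≤ w / 2 := by rw [hδ]; exact (min_le_left _ _).trans (min_le_right _ _)
  have hδ3 : δ ≤ 1 / 4 := by rw [hδ]; exact (min_le_right _ _).trans (min_le_left _ _)
  have hδ4 : δ ≤ ε / 8 := by
    rw [hδ]; exact (min_le_right _ _).trans ((min_le_right _ _).trans (min_le_left _ _))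
  have hδ5 : δ ≤ ε / (8 * B) := by
    rw [hδ]; exact (min_le_right _ _).trans ((min_le_right _ _).trans (min_le_right _ _))
  have hδ5' : B * δ ≤ ε / 8 := by
    rw [le_div_iff₀ (by positivity)] at hδ5
    linarith
  obtain ⟨M0, hM0⟩ := rch_window k hk w hw0 hw1 hw δ hδ0
  refine ⟨M0 + 2 + ⌈4 * B / ε⌉₊ + ⌈4 / ε⌉₊ + ⌈32 / ε ^ 2⌉₊, ?_⟩
  intro m hm
  have hwδ : 0 < w + δ := by linarith
  have hwδ1 : w + δ ≤ 1 := by linarith
  obtain ⟨N1, hN1⟩ : ∃ N1 : ℕ, N1 = ⌊((m : ℝ) + 1) / (w + δ)⌋₊ := ⟨_, rfl⟩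
  have hm0 : (0 : ℝ) ≤ (m : ℝ) + 1 := by positivity
  have hN1a : (w + δ) * N1 ≤ m + 1 := by
    have h : (N1 : ℝ) ≤ ((m : ℝ) + 1) / (w + δ) := by
      rw [hN1]
      exact Nat.floor_le (by positivity)
    rw [le_div_iff₀ hwδ] at h
    linarith
  have hN1b : (m : ℝ) + 1 < (w + δ) * (N1 + 1) := by
    have h : ((m : ℝ) + 1) / (w + δ) < N1 + 1 := by
      rw [hN1]
      exact Nat.lt_floor_add_one _
    rw [div_lt_iff₀ hwδ] at h
    linarith
  have hN1c : m + 1 ≤ N1 := by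
    rw [hN1]
    apply Nat.le_floor
    rw [le_div_iff₀ hwδ]
    push_cast
    nlinarith
  obtain ⟨M1, hM1⟩ : ∃ M1, N1 = M1 + 1 := ⟨N1 - 1, by omega⟩
  obtain ⟨m1, hm1, habs, hp⟩ := hM0 M1 (by omega)
  have hN1r : (N1 : ℝ) = (M1 : ℝ) + 1 := by rw [hM1]; push_cast; rfl
  rw [← hN1r] at habs hp
  have hN1m : ((M0 + 2 + ⌈4 * B / ε⌉₊ + ⌈4 / ε⌉₊ + ⌈32 / ε ^ 2⌉₊ : ℕ) : ℝ) ≤ N1 := by
    exact_mod_cast (hm.trans (by omega))
  push_cast at hN1m
  have c1 := Nat.le_ceil (4 * B / ε)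
  have c2 := Nat.le_ceil (4 / ε)
  have c3 := Nat.le_ceil (32 / ε ^ 2)
  have c0 : (0 : ℝ) ≤ M0 := Nat.cast_nonneg _
  have c4 : (0 : ℝ) ≤ ⌈4 * B / ε⌉₊ := Nat.cast_nonneg _
  have c5 : (0 : ℝ) ≤ ⌈4 / ε⌉₊ := Nat.cast_nonneg _
  have c6 : (0 : ℝ) ≤ ⌈32 / ε ^ 2⌉₊ := Nat.cast_nonneg _
  have hNge2 : (2 : ℝ) ≤ N1 := by linarith
  have hNB : 4 * B ≤ ε * N1 := by
    have h : 4 * B / ε ≤ N1 := by linarith
    rw [div_le_iff₀ hε] at h
    linarith
  have hN4 : 4 ≤ ε * N1 := by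
    have h : 4 / ε ≤ N1 := by linarith
    rw [div_le_iff₀ hε] at h
    linarith
  have hN32 : 32 ≤ ε ^ 2 * N1 := by
    have h : 32 / ε ^ 2 ≤ N1 := by linarith
    rw [div_le_iff₀ (by positivity)] at h
    linarith
  have hN0 : (0 : ℝ) < N1 := by linarith
  rw [abs_lt, lt_sub_iff_add_lt, sub_lt_iff_lt_add, lt_div_iff₀ hN0, div_lt_iff₀ hN0] at habs
  obtain ⟨ha1, ha2⟩ := habs
  have hm1m : m1 ≤ m := by
    have h : (m1 : ℝ) + 1 < (m : ℝ) + 1 := by nlinarith
    have h2 : (m1 : ℝ) < m := by linarith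
    exact (Nat.cast_lt.mp h2).le
  obtain ⟨d, rfl⟩ : ∃ d, m = m1 + d := ⟨m - m1, by omega⟩
  push_cast at hN1a hN1b
  have hd0 : (0 : ℝ) ≤ d := Nat.cast_nonneg _
  have hd : (d : ℝ) ≤ 2 * δ * N1 + 1 := by nlinarith
  refine ⟨M1 + d, by omega, ?_, ?_⟩
  · have e1 : ((M1 + d : ℕ) : ℝ) + 1 = N1 + d := by push_cast; rw [hN1r]; ring
    have e2 : ((m1 + d : ℕ) : ℝ) + 1 = (m1 + 1) + d := by push_cast; ring
    rw [e1, e2]
    have hNd : (0 : ℝ) < (N1 : ℝ) + d := by linarith
    have hδN : δ * N1 ≤ ε / 8 * N1 := mul_le_mul_of_nonneg_right hδ4 hN0.le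
    rw [abs_lt, lt_sub_iff_add_lt, sub_lt_iff_lt_add, lt_div_iff₀ hNd, div_lt_iff₀ hNd]
    have hwd : w * d ≤ d := by nlinarith
    have hed : 0 ≤ ε * d := by positivity
    have hwd0 : 0 ≤ w * d := by positivity
    constructor
    · nlinarith
    · nlinarith
  · rw [pr_formula k (m1 + d) (M1 + d) (by omega)]
    rw [pr_formula k m1 M1 hm1] at hp
    have e1 : ((M1 + d : ℕ) : ℝ) + 1 = N1 + d := by push_cast; rw [hN1r]; ring
    rw [e1]
    rw [← hN1r] at hp
    have hNd : (0 : ℝ) < (N1 : ℝ) + d := by linarith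
    have hD1 : (0 : ℝ) < (N1 : ℝ) ^ (k * (m1 + 1)) := by positivity
    rw [le_div_iff₀ hD1] at hp
    rw [le_div_iff₀ (by positivity)]
    -- numerator
    have hnum : (M1.choose m1 : ℝ) * Acn k m1 * ((m1 : ℝ) + 1) ^ (k * d) ≤
        ((M1 + d).choose (m1 + d) : ℝ) * Acn k (m1 + d) := by
      have h1 : (M1.choose m1 : ℝ) ≤ ((M1 + d).choose (m1 + d) : ℝ) := by
        exact_mod_cast choose_iter M1 m1 d
      have h2 : ((m1 : ℝ) + 1) ^ (k * d) * Acn k m1 ≤ (Acn k (m1 + d) : ℝ) := by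
        exact_mod_cast Acn_iter k m1 hk1 d
      calc (M1.choose m1 : ℝ) * Acn k m1 * ((m1 : ℝ) + 1) ^ (k * d) =
            (M1.choose m1 : ℝ) * (((m1 : ℝ) + 1) ^ (k * d) * Acn k m1) := by ring
        _ ≤ _ := mul_le_mul h1 h2 (by positivity) (by positivity)
    -- denominator
    have hden : ((N1 : ℝ) + d) ^ (k * (m1 + d + 1)) ≤
        ((N1 : ℝ) ^ (k * (m1 + 1)) * Real.exp (k * d)) * ((4 / w) * ((m1 : ℝ) + 1)) ^ (k * d) := by
      have e3 : k * (m1 + d + 1) = k * (m1 + 1) + k * d := by ring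
      rw [e3, pow_add]
      apply mul_le_mul _ _ (by positivity) (by positivity)
      · have h3 : (N1 : ℝ) + d ≤ N1 * Real.exp (d / N1) := by
          have h4 := Real.add_one_le_exp ((d : ℝ) / N1)
          have h5 : (N1 : ℝ) + d = N1 * ((d : ℝ) / N1 + 1) := by field_simp; ring
          rw [h5]
          exact mul_le_mul_of_nonneg_left h4 hN0.le
        calc ((N1 : ℝ) + d) ^ (k * (m1 + 1)) ≤ (N1 * Real.exp (d / N1)) ^ (k * (m1 + 1)) :=
              pow_le_pow_left₀ hNd.le h3 _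
          _ = (N1 : ℝ) ^ (k * (m1 + 1)) * Real.exp (d / N1) ^ (k * (m1 + 1)) := mul_pow _ _ _
          _ ≤ (N1 : ℝ) ^ (k * (m1 + 1)) * Real.exp (k * d) := by
              apply mul_le_mul_of_nonneg_left _ hD1.le
              rw [← Real.exp_nat_mul]
              apply Real.exp_le_exp.mpr
              push_cast
              have h6 : ((m1 : ℝ) + 1) * (d / N1) ≤ d := by
                rw [mul_div_assoc', div_le_iff₀ hN0]
                have h7 : (m1 : ℝ) + 1 ≤ N1 := by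
                  rw [hN1r]
                  have : (m1 : ℝ) ≤ M1 := by exact_mod_cast hm1
                  linarith
                nlinarith
              rw [mul_assoc]
              exact mul_le_mul_of_nonneg_left h6 hk0.le
      · apply pow_le_pow_left₀ hNd.le
        have h8 : (N1 : ℝ) + d ≤ 2 * N1 := by nlinarith
        have h9 : (w / 2) * N1 ≤ (m1 : ℝ) + 1 := by nlinarith
        have h10 : 2 * (N1 : ℝ) = (4 / w) * ((w / 2) * N1) := by field_simp; ring
        calc (N1 : ℝ) + d ≤ 2 * N1 := h8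
          _ = (4 / w) * ((w / 2) * N1) := h10
          _ ≤ _ := mul_le_mul_of_nonneg_left h9 (by positivity)
    have hexpB : Real.exp (k * d) * (4 / w) ^ (k * d) = Real.exp (B * d) := by
      have h11 : (4 / w) ^ (k * d) = Real.exp (((k * d : ℕ) : ℝ) * Real.log (4 / w)) := by
        rw [Real.exp_nat_mul, Real.exp_log (by positivity)]
      rw [h11, ← Real.exp_add, hB]
      congr 1
      push_cast
      ring
    have hexp4 : 4 * (N1 : ℝ) ≤ Real.exp (ε / 2 * N1) := by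
      have h12 := Real.quadratic_le_exp_of_nonneg (show 0 ≤ ε / 2 * N1 by positivity)
      have h13 : 4 * (N1 : ℝ) ≤ (ε / 2 * N1) ^ 2 / 2 := by nlinarith
      have h14 : 0 ≤ ε / 2 * N1 := by positivity
      linarith
    have hBd : B * d ≤ ε / 2 * N1 := by
      have h15 : B * d ≤ B * (2 * δ * N1 + 1) := mul_le_mul_of_nonneg_left hd hB0.le
      have h16 : B * δ * N1 ≤ ε / 8 * N1 := mul_le_mul_of_nonneg_right hδ5' hN0.le
      nlinarith
    have hfin : Real.exp (-(ε * (N1 + d))) * Real.exp (B * d) ≤ 1 / (4 * N1) := by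
      rw [← Real.exp_add, le_div_iff₀ (by positivity)]
      have h17 : Real.exp (-(ε * (N1 + d)) + B * d) ≤ Real.exp (-(ε / 2 * N1)) := by
        apply Real.exp_le_exp.mpr
        have : 0 ≤ ε * d := by positivity
        nlinarith
      calc Real.exp (-(ε * (N1 + d)) + B * d) * (4 * N1) ≤
            Real.exp (-(ε / 2 * N1)) * Real.exp (ε / 2 * N1) :=
            mul_le_mul h17 hexp4 (by positivity) (by positivity)
        _ = 1 := by rw [← Real.exp_add]; simp
    calc Real.exp (-(ε * (N1 + d))) * ((N1 : ℝ) + d) ^ (k * (m1 + d + 1))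
        ≤ Real.exp (-(ε * (N1 + d))) * (((N1 : ℝ) ^ (k * (m1 + 1)) * Real.exp (k * d)) *
          ((4 / w) * ((m1 : ℝ) + 1)) ^ (k * d)) :=
          mul_le_mul_of_nonneg_left hden (Real.exp_pos _).le
      _ = (Real.exp (-(ε * (N1 + d))) * (Real.exp (k * d) * (4 / w) ^ (k * d))) *
          (N1 : ℝ) ^ (k * (m1 + 1)) * ((m1 : ℝ) + 1) ^ (k * d) := by
          rw [mul_pow]; ring
      _ = (Real.exp (-(ε * (N1 + d))) * Real.exp (B * d)) *
          (N1 : ℝ) ^ (k * (m1 + 1)) * ((m1 : ℝ) + 1) ^ (k * d) := by rw [hexpB]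
      _ ≤ (1 / (4 * N1)) * (N1 : ℝ) ^ (k * (m1 + 1)) * ((m1 : ℝ) + 1) ^ (k * d) := by
          apply mul_le_mul_of_nonneg_right _ (by positivity)
          exact mul_le_mul_of_nonneg_right hfin hD1.le
      _ ≤ (M1.choose m1 : ℝ) * Acn k m1 * ((m1 : ℝ) + 1) ^ (k * d) :=
          mul_le_mul_of_nonneg_right hp (by positivity)
      _ ≤ _ := hnum


end AC

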