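import Pool.Agent.Helper949.AC.Defs2
import Pool.Agent.Helper949.AC.CO2
import Pool.Agent.Helper949.AC.D6
import Pool.Agent.Helper949.AC.D5b

set_option autoImplicit false

/-!
Definitions for the asymptotics of the average state complexity of intersections.
Tables `T : V → Fin k → V`; `rn T g w x` is the state reached from `x` after reading `w`.
-/

namespace AC

open Finset

variable {V : Type} {k : ℕ}

end AC

namespace AC
open Finset

end AC

namespace AC
open Finset

/-! GIVEN -/
/-! TARGETS -/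
private theorem co3_rn {k m M : ℕ} {e : Fin (m + 1) → Fin (M + 1)} {T : Fin (m + 1) → Fin k → Fin (m + 1)}
    {S : Fin (M + 1) → Fin k → Fin (M + 1)} (h : Emb e T S) (i : ℕ) (u : Fin i → Fin k)
    (x : Fin (m + 1)) : rn S i u (e x) = e (rn T i u x) := by
  induction i with
  | zero => rfl
  | succ i ih =>
    show S (rn S i (fun i => u i.castSucc) (e x)) (u (Fin.last i)) =
      e (T (rn T i (fun i => u i.castSucc) x) (u (Fin.last i)))
    rw [ih, h.2.2]

private theorem co3_coin {k m M g : ℕ} {e : Fin (m + 1) → Fin (M + 1)}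
    {T : Fin (m + 1) → Fin k → Fin (m + 1)} {S : Fin (M + 1) → Fin k → Fin (M + 1)}
    (h : Emb e T S) (p : Fin (m + 1)) (hp : Coin T g p) : Coin S g (e p) := by
  obtain ⟨x, i, hi, j, hj, u, u', hne, h1, h2⟩ := hp
  exact ⟨e x, i, hi, j, hj, u, u', hne, by rw [co3_rn h, h1], by rw [co3_rn h, h2]⟩

open Classical in
/-- most states of most accessible tables have no coincidences -/
theorem coin_acc (k : ℕ) (hk : 2 ≤ k) (w : ℝ) (hw0 : 0 < w) (hw1 : w < 1)
    (hw : w = 1 - Real.exp (-((k : ℝ) * w))) (g : ℕ) (ε : ℝ) (hε : 0 < ε) :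
    ∃ m0 : ℕ, ∀ m, m0 ≤ m →
    ((univ.filter (fun T : Fin (m + 1) → Fin k → Fin (m + 1) => Ac T 0 ∧
        ε * ((m : ℝ) + 1) ≤ ((univ.filter (fun p => Coin T g p)).card : ℝ))).card : ℝ)
      ≤ ε * ((univ.filter (fun T : Fin (m + 1) → Fin k → Fin (m + 1) => Ac T 0)).card : ℝ) := by
  obtain ⟨c, hc, M0, hM0⟩ := coin_conc k g (by omega) (ε * w / 2) (by positivity)
  obtain ⟨ε', hε'⟩ : ∃ ε' : ℝ, ε' = min (w / 2) (c / 4) := ⟨_, rfl⟩
  have hε'0 : 0 < ε' := by
    rw [hε']
    exact lt_min (by positivity) (by positivity)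
  have hε'1 : ε' ≤ w / 2 := by
    rw [hε']
    exact min_le_left _ _
  have hε'2 : ε' ≤ c / 4 := by
    rw [hε']
    exact min_le_right _ _
  obtain ⟨m0, hm0⟩ := transfer_exists k hk w hw0 hw1 hw ε' hε'0
  refine ⟨max (max m0 M0) ⌈2 / (c * ε)⌉₊, fun m hm => ?_⟩
  have hmm0 : m0 ≤ m := le_trans (le_max_left _ _) (le_trans (le_max_left _ _) hm)
  have hmM0 : M0 ≤ m := le_trans (le_max_right _ _) (le_trans (le_max_left _ _) hm)
  have hmc : ⌈2 / (c * ε)⌉₊ ≤ m := le_trans (le_max_right _ _) hm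
  obtain ⟨M, hmM, hM1, hM2⟩ := hm0 m hmm0
  have hM3 := hM0 M (hmM0.trans hmM)
  have hMp : (0 : ℝ) < (M : ℝ) + 1 := by positivity
  have hratio : w / 2 * ((M : ℝ) + 1) ≤ (m : ℝ) + 1 := by
    have h1 := (abs_lt.1 hM1).1
    have h2 : w / 2 ≤ ((m : ℝ) + 1) / (M + 1) := by linarith
    rwa [le_div_iff₀ hMp] at h2
  have htr := transfer1 k m M hmM
    (fun T => ε * ((m : ℝ) + 1) ≤ ((univ.filter (fun p => Coin T g p)).card : ℝ))
    (fun S => ε * w / 2 * ((M : ℝ) + 1) ≤ ((univ.filter (fun p => Coin S g p)).card : ℝ))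
    (fun T S e _ he hT => by
      have h1 : (univ.filter (fun p => Coin T g p)).card ≤
          (univ.filter (fun p => Coin S g p)).card := by
        refine Finset.card_le_card_of_injOn e ?_ he.1.injOn
        intro p hp
        rw [Finset.mem_coe, Finset.mem_filter] at hp ⊢
        exact ⟨Finset.mem_univ _, co3_coin he p hp.2⟩
      have h2 : ((univ.filter (fun p => Coin T g p)).card : ℝ) ≤
          (univ.filter (fun p => Coin S g p)).card := by exact_mod_cast h1
      calc ε * w / 2 * ((M : ℝ) + 1) = ε * (w / 2 * ((M : ℝ) + 1)) := by ring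
        _ ≤ ε * ((m : ℝ) + 1) := mul_le_mul_of_nonneg_left hratio hε.le
        _ ≤ _ := hT.trans h2)
  obtain ⟨bad, hbad⟩ : ∃ bad : ℝ, bad =
      ((univ.filter (fun T : Fin (m + 1) → Fin k → Fin (m + 1) => Ac T 0 ∧
        ε * ((m : ℝ) + 1) ≤ ((univ.filter (fun p => Coin T g p)).card : ℝ))).card : ℝ) := ⟨_, rfl⟩
  obtain ⟨acc, hacc⟩ : ∃ acc : ℝ, acc =
      ((univ.filter (fun T : Fin (m + 1) → Fin k → Fin (m + 1) => Ac T 0)).card : ℝ) := ⟨_, rfl⟩
  obtain ⟨rc, hrc⟩ : ∃ rc : ℝ, rc =
      ((univ.filter (fun S : Fin (M + 1) → Fin k → Fin (M + 1) => (rch S 0).card = m + 1)).card : ℝ) :=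
    ⟨_, rfl⟩
  obtain ⟨pc, hpc⟩ : ∃ pc : ℝ, pc =
      ((univ.filter (fun S : Fin (M + 1) → Fin k → Fin (M + 1) =>
        ε * w / 2 * ((M : ℝ) + 1) ≤ ((univ.filter (fun p => Coin S g p)).card : ℝ))).card : ℝ) :=
    ⟨_, rfl⟩
  have htr' : bad * rc ≤ pc * acc := by
    rw [hbad, hrc, hpc, hacc]
    exact_mod_cast htr
  have hN : (0 : ℝ) < Fintype.card (Fin (M + 1) → Fin k → Fin (M + 1)) := by
    have : 0 < Fintype.card (Fin (M + 1) → Fin k → Fin (M + 1)) := Fintype.card_pos
    exact_mod_cast this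
  have h1 : Real.exp (-(ε' * (M + 1))) * Fintype.card (Fin (M + 1) → Fin k → Fin (M + 1)) ≤ rc := by
    unfold pr at hM2
    rw [le_div_iff₀ hN] at hM2
    refine hM2.trans (le_of_eq ?_)
    rw [hrc]
    congr!
  have h2 : pc ≤ Real.exp (-(c * (M + 1))) * Fintype.card (Fin (M + 1) → Fin k → Fin (M + 1)) := by
    unfold pr at hM3
    rw [div_le_iff₀ hN] at hM3
    rw [hpc]
    exact hM3
  have hbad0 : 0 ≤ bad := by rw [hbad]; exact Nat.cast_nonneg _
  have hacc0 : 0 ≤ acc := by rw [hacc]; exact Nat.cast_nonneg _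
  rw [← hbad, ← hacc]
  have h3 : bad * Real.exp (-(ε' * (M + 1))) ≤ Real.exp (-(c * (M + 1))) * acc := by
    refine le_of_mul_le_mul_right ?_ hN
    calc bad * Real.exp (-(ε' * (M + 1))) * Fintype.card (Fin (M + 1) → Fin k → Fin (M + 1))
        = bad * (Real.exp (-(ε' * (M + 1))) *
          Fintype.card (Fin (M + 1) → Fin k → Fin (M + 1))) := by ring
      _ ≤ bad * rc := mul_le_mul_of_nonneg_left h1 hbad0
      _ ≤ pc * acc := htr'
      _ ≤ (Real.exp (-(c * (M + 1))) * Fintype.card (Fin (M + 1) → Fin k → Fin (M + 1))) * acc :=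
        mul_le_mul_of_nonneg_right h2 hacc0
      _ = _ := by ring
  have hMm : (m : ℝ) + 1 ≤ (M : ℝ) + 1 := by
    have : (m : ℝ) ≤ M := by exact_mod_cast hmM
    linarith
  have h4 : bad ≤ Real.exp (-(c / 2 * (m + 1))) * acc := by
    have e1 : bad = bad * Real.exp (-(ε' * (M + 1))) * Real.exp (ε' * (M + 1)) := by
      rw [mul_assoc, ← Real.exp_add]
      simp
    rw [e1]
    calc bad * Real.exp (-(ε' * (M + 1))) * Real.exp (ε' * (M + 1))
        ≤ Real.exp (-(c * (M + 1))) * acc * Real.exp (ε' * (M + 1)) :=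
          mul_le_mul_of_nonneg_right h3 (Real.exp_pos _).le
      _ = Real.exp (-(c * (M + 1)) + ε' * (M + 1)) * acc := by
          rw [Real.exp_add]
          ring
      _ ≤ Real.exp (-(c / 2 * (m + 1))) * acc := by
          refine mul_le_mul_of_nonneg_right (Real.exp_le_exp.2 ?_) hacc0
          nlinarith
  have h5 : Real.exp (-(c / 2 * (m + 1))) ≤ ε := by
    have h6 : 2 / (c * ε) ≤ (m : ℝ) + 1 := by
      have := (Nat.le_ceil (2 / (c * ε))).trans (Nat.cast_le.2 hmc)
      linarith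
    have h7 : 1 / ε ≤ c / 2 * ((m : ℝ) + 1) := by
      have h8 := mul_le_mul_of_nonneg_left h6 (by positivity : 0 ≤ c / 2)
      refine le_trans (le_of_eq ?_) h8
      field_simp
    have h9 : 1 / ε ≤ Real.exp (c / 2 * (m + 1)) := by
      linarith [Real.add_one_le_exp (c / 2 * ((m : ℝ) + 1))]
    rw [Real.exp_neg]
    rw [div_le_iff₀ hε] at h9
    rw [inv_le_iff_one_le_mul₀ (Real.exp_pos _)]
    exact h9.trans (le_of_eq (by ring))
  exact h4.trans (mul_le_mul_of_nonneg_right h5 hacc0)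

open Classical in
private theorem co3_fw {V : Type} {k : ℕ} [Fintype V] (T : V → Fin k → V) (g : ℕ) (hk : 1 ≤ k) (o : V) :
    (univ.filter (fun p : V => o ∈ ball T g p)).card ≤ (g + 1) * k ^ g := by
  have h1 : univ.filter (fun p : V => o ∈ ball T g p) ⊆
      (range (g + 1)).biUnion (fun j => univ.image (fun u : Fin j → Fin k => rn T j u o)) := by
    intro p hp
    have h2 := (Finset.mem_filter.1 hp).2
    unfold ball at h2
    obtain ⟨j, hj, u, hu⟩ := (Finset.mem_filter.1 h2).2
    rw [Finset.mem_biUnion]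
    exact ⟨j, Finset.mem_range.2 (by omega), Finset.mem_image.2 ⟨u, Finset.mem_univ _, hu⟩⟩
  refine (Finset.card_le_card h1).trans (Finset.card_biUnion_le.trans ?_)
  have h3 : ∀ j ∈ range (g + 1),
      (univ.image (fun u : Fin j → Fin k => rn T j u o)).card ≤ k ^ g := by
    intro j hj
    refine Finset.card_image_le.trans ?_
    rw [Finset.card_univ, Fintype.card_fun, Fintype.card_fin, Fintype.card_fin]
    exact Nat.pow_le_pow_right hk (by have := Finset.mem_range.1 hj; omega)
  refine (Finset.sum_le_sum h3).trans ?_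
  rw [Finset.sum_const, Finset.card_range, smul_eq_mul]

open Classical in
/-- few states have large balls -/
theorem big_ball {V : Type} {k : ℕ} [Fintype V] (T : V → Fin k → V) (g b : ℕ) (hk : 1 ≤ k) :
    (univ.filter (fun p : V => b < (ball T g p).card)).card * b ≤ Fintype.card V * ((g + 1) * k ^ g) := by
  have h1 : (univ.filter (fun p : V => b < (ball T g p).card)).card * b ≤
      ∑ p ∈ univ.filter (fun p : V => b < (ball T g p).card), (ball T g p).card := by
    rw [← smul_eq_mul, ← Finset.sum_const]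
    exact Finset.sum_le_sum fun p hp => (Finset.mem_filter.1 hp).2.le
  have h2 : ∑ p ∈ univ.filter (fun p : V => b < (ball T g p).card), (ball T g p).card ≤
      ∑ p, (ball T g p).card :=
    Finset.sum_le_sum_of_subset (Finset.filter_subset _ _)
  have h3 : ∑ p, (ball T g p).card = ∑ y, (univ.filter (fun p : V => y ∈ ball T g p)).card := by
    have e1 : ∀ p, (ball T g p).card = ∑ y, if y ∈ ball T g p then 1 else 0 := by
      intro p
      rw [← Finset.card_filter]
      congr 1
      ext y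
      simp
    have e2 : ∀ y, (univ.filter (fun p : V => y ∈ ball T g p)).card =
        ∑ p, if y ∈ ball T g p then 1 else 0 := by
      intro y
      rw [Finset.card_filter]
    simp only [e1, e2]
    exact Finset.sum_comm
  have h4 : ∑ y, (univ.filter (fun p : V => y ∈ ball T g p)).card ≤
      ∑ _y : V, (g + 1) * k ^ g := Finset.sum_le_sum fun y _ => co3_fw T g hk y
  rw [Finset.sum_const, Finset.card_univ, smul_eq_mul] at h4
  exact h1.trans (h2.trans (h3.le.trans h4))

open Classical in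
/-- few balls contain a given state -/
theorem ball_zero {V : Type} {k : ℕ} [Fintype V] (T : V → Fin k → V) (g : ℕ) (hk : 1 ≤ k) (o : V) :
    (univ.filter (fun p : V => o ∈ ball T g p)).card ≤ (g + 1) * k ^ g :=
  co3_fw T g hk o

end AC

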