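import Pool.Agent.Helper949.AC.Defs2

set_option autoImplicit false

/-!
Definitions for the asymptotics of the average state complexity of intersections.
Tables `T : V → Fin k → V`; `rn T g w x` is the state reached from `x` after reading `w`.
-/

namespace AC

open Finset

variable {V : Type} {k : ℕ}

end AC

namespace AC
open Finset

section resample
variable {V : Type} {k : ℕ}

/-- table with the cell `c` redirected to `p` -/
private def Ucell [DecidableEq V] (T : V → Fin k → V) (c : V × Fin k) (p : V) : V → Fin k → V :=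
  Function.update T c.1 (Function.update (T c.1) c.2 p)

private theorem Ucell_self [DecidableEq V] (T : V → Fin k → V) (c : V × Fin k) (p : V) :
    Ucell T c p c.1 c.2 = p := by
  simp [Ucell]

private theorem Ucell_ne [DecidableEq V] (T : V → Fin k → V) (c : V × Fin k) (p : V) (c' : V × Fin k)
    (h : c' ≠ c) : Ucell T c p c'.1 c'.2 = T c'.1 c'.2 := by
  unfold Ucell
  by_cases h1 : c'.1 = c.1
  · have h2 : c'.2 ≠ c.2 := fun h2 => h (Prod.ext h1 h2)
    rw [h1, Function.update_self, Function.update_of_ne h2]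
  · rw [Function.update_of_ne h1]

private theorem Ucell_Ucell [DecidableEq V] (T : V → Fin k → V) (c : V × Fin k) (p q : V) :
    Ucell (Ucell T c p) c q = Ucell T c q := by
  unfold Ucell
  simp

private theorem Ucell_eq_self [DecidableEq V] (T : V → Fin k → V) (c : V × Fin k) :
    Ucell T c (T c.1 c.2) = T := by
  unfold Ucell
  simp

private theorem sum_Ucell [Fintype V] [DecidableEq V] (c : V × Fin k) (ψ : (V → Fin k → V) → ℝ) :
    ∑ T : V → Fin k → V, ∑ p : V, ψ (Ucell T c p) = (Fintype.card V : ℝ) * ∑ T, ψ T := by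
  have e : ((V → Fin k → V) × V) ≃ ((V → Fin k → V) × V) :=
    { toFun := fun x => (Ucell x.1 c x.2, x.1 c.1 c.2)
      invFun := fun x => (Ucell x.1 c x.2, x.1 c.1 c.2)
      left_inv := fun x => by
        simp only [Ucell_Ucell, Ucell_self, Ucell_eq_self]
      right_inv := fun x => by
        simp only [Ucell_Ucell, Ucell_self, Ucell_eq_self] }
  have h1 : ∑ x : (V → Fin k → V) × V, ψ (Ucell x.1 c x.2) =
      ∑ x : (V → Fin k → V) × V, ψ x.1 := by
    exact Equiv.sum_comp ({ toFun := fun x => (Ucell x.1 c x.2, x.1 c.1 c.2)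
                            invFun := fun x => (Ucell x.1 c x.2, x.1 c.1 c.2)
                            left_inv := fun x => by
                              simp only [Ucell_Ucell, Ucell_self, Ucell_eq_self]
                            right_inv := fun x => by
                              simp only [Ucell_Ucell, Ucell_self, Ucell_eq_self] } :
        ((V → Fin k → V) × V) ≃ ((V → Fin k → V) × V)) (fun x => ψ x.1)
  rw [Fintype.sum_prod_type, Fintype.sum_prod_type] at h1
  rw [h1]
  simp [Finset.mul_sum]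

private theorem sum_Xp [Fintype V] [DecidableEq V] (g : ℕ) (Q : Finset (Fin (g + 1) → Fin k)) (s : ℝ)
    (T : V → Fin k → V) :
    ∑ p : V, (Xp g Q T p : ℝ) * s ^ (Xp g Q T p - 1) =
      ∑ c : V × Fin k, if c ∈ Bd g Q T then s ^ (Xp g Q T (T c.1 c.2) - 1) else 0 := by
  classical
  rw [← Finset.sum_filter]
  rw [show (univ.filter (fun c => c ∈ Bd g Q T)) = Bd g Q T by ext; simp]
  rw [← Finset.sum_fiberwise (Bd g Q T) (fun c => T c.1 c.2)]
  refine Finset.sum_congr rfl fun p _ => ?_
  have h1 : ∀ c ∈ (Bd g Q T).filter (fun c => T c.1 c.2 = p),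
      s ^ (Xp g Q T (T c.1 c.2) - 1) = s ^ (Xp g Q T p - 1) := by
    intro c hc
    rw [(Finset.mem_filter.mp hc).2]
  rw [Finset.sum_congr rfl h1, Finset.sum_const, nsmul_eq_mul]
  congr 2
  unfold Xp
  congr 1
  ext c
  simp

private theorem Xp_diff [Fintype V] [DecidableEq V] (g : ℕ) (Q : Finset (Fin (g + 1) → Fin k))
    (T : V → Fin k → V) (c : V × Fin k) (p : V) (h1 : c ∈ Bd g Q (Ucell T c p))
    (h2 : T c.1 c.2 ≠ p)
    (h3 : ∀ c' : V × Fin k, T c'.1 c'.2 = p → (c' ∈ Bd g Q T ↔ c' ∈ Bd g Q (Ucell T c p))) :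
    Xp g Q (Ucell T c p) p - 1 = Xp g Q T p := by
  classical
  have h4 : (Bd g Q (Ucell T c p)).filter (fun c' => Ucell T c p c'.1 c'.2 = p) =
      insert c ((Bd g Q T).filter (fun c' => T c'.1 c'.2 = p)) := by
    ext c'
    simp only [Finset.mem_filter, Finset.mem_insert]
    constructor
    · rintro ⟨ha, hb⟩
      by_cases hc : c' = c
      · exact Or.inl hc
      · rw [Ucell_ne _ _ _ _ hc] at hb
        exact Or.inr ⟨(h3 c' hb).mpr ha, hb⟩
    · rintro (rfl | ⟨ha, hb⟩)
      · exact ⟨h1, Ucell_self _ _ _⟩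
      · refine ⟨(h3 c' hb).mp ha, ?_⟩
        have hc : c' ≠ c := by
          rintro rfl
          exact h2 hb
        rw [Ucell_ne _ _ _ _ hc]
        exact hb
  have h5 : c ∉ (Bd g Q T).filter (fun c' => T c'.1 c'.2 = p) := by
    intro h
    exact h2 (Finset.mem_filter.mp h).2
  have h6 : Xp g Q (Ucell T c p) p = Xp g Q T p + 1 := by
    have h7 := congrArg Finset.card h4
    rw [Finset.card_insert_of_notMem h5] at h7
    unfold Xp
    convert h7
  omega

end resample

set_option maxHeartbeats 4000000 in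
/-- resampling one cell: `E ∑ p X_p s^(X_p - 1)` is almost `E (1/n) ∑ p |Bd| s^(X_p)` -/
theorem core_resample {V : Type} {k : ℕ} [Fintype V] [DecidableEq V] [Nonempty V] (g : ℕ)
    (hk : 1 ≤ k) (Q : Finset (Fin (g + 1) → Fin k)) (s : ℝ) (hs0 : 0 ≤ s) (hs1 : s ≤ 1)
    (hout : ∀ (T : V → Fin k → V) (y : V), (outs T g y).card ≤ g * k ^ g)
    (hupd : ∀ (T : V → Fin k → V) (R : Finset (Fin g → Fin k)) (v : V) (a : Fin k) (y : V),
      symmDiff (cov T g R) (cov (Function.update T v (Function.update (T v) a y)) g R)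
        ⊆ outs T g y ∪ outs T g (T v a))
    (hcyc : avg (fun T : V → Fin k → V =>
      ((univ.filter (fun c : V × Fin k => c.1 ∈ outs T g (T c.1 c.2))).card : ℝ))
      ≤ k * (g * k ^ g)) :
    |avg (fun T : V → Fin k → V => ∑ p : V, (Xp g Q T p : ℝ) * s ^ (Xp g Q T p - 1))
      - avg (fun T : V → Fin k → V =>
          (∑ p : V, ((Bd g Q T).card : ℝ) * s ^ (Xp g Q T p)) / Fintype.card V)|
      ≤ k + 4 * k ^ 2 * (g * k ^ g) := by
  classical
  have hn : (0 : ℝ) < Fintype.card V := by exact_mod_cast Fintype.card_pos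
  have hΩ : (0 : ℝ) < Fintype.card (V → Fin k → V) := by exact_mod_cast Fintype.card_pos
  set n : ℝ := (Fintype.card V : ℝ) with hnd
  set N : ℝ := (Fintype.card (V → Fin k → V) : ℝ) with hNd
  set M : ℝ := (g * k ^ g : ℝ) with hM
  have hM0 : 0 ≤ M := by positivity
  have hout' : ∀ (T : V → Fin k → V) (y : V), ((outs T g y).card : ℝ) ≤ M := by
    intro T y
    have := hout T y
    rw [hM]
    exact_mod_cast this
  -- membership changes
  have hmem : ∀ (T : V → Fin k → V) (c : V × Fin k) (p : V) (c' : V × Fin k),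
      ¬ (c' ∈ Bd g Q T ↔ c' ∈ Bd g Q (Ucell T c p)) →
      c'.1 ∈ outs T g p ∨ c'.1 ∈ outs T g (T c.1 c.2) := by
    intro T c p c' h
    have h1 := hupd T (slice Q c'.2) c.1 c.2 p
    have h2 : c'.1 ∈ symmDiff (cov T g (slice Q c'.2))
        (cov (Function.update T c.1 (Function.update (T c.1) c.2 p)) g (slice Q c'.2)) := by
      rw [Finset.mem_symmDiff]
      unfold Bd Ucell at h
      simp only [Finset.mem_filter, Finset.mem_univ, true_and] at h
      tauto
    have h3 := h1 h2
    rw [Finset.mem_union] at h3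
    exact h3
  -- the functions
  let φ : (V → Fin k → V) → V × Fin k → ℝ := fun T c =>
    if c ∈ Bd g Q T then s ^ (Xp g Q T (T c.1 c.2) - 1) else 0
  let χ : (V → Fin k → V) → V × Fin k → V → ℝ := fun T c p =>
    if c ∈ Bd g Q T then s ^ (Xp g Q T p) else 0
  let b : (V → Fin k → V) → V × Fin k → V → ℝ := fun T c p =>
    (if c.1 ∈ outs T g p then 1 else 0) + (if c.1 ∈ outs T g (T c.1 c.2) then 1 else 0) +
    (if T c.1 c.2 = p then 1 else 0) +
    (∑ c' : V × Fin k, if T c'.1 c'.2 = p then (if c'.1 ∈ outs T g p then (1 : ℝ) else 0) else 0) +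
    (∑ c' : V × Fin k,
      if T c'.1 c'.2 = p then (if c'.1 ∈ outs T g (T c.1 c.2) then (1 : ℝ) else 0) else 0)
  have hpow : ∀ m : ℕ, 0 ≤ s ^ m ∧ s ^ m ≤ 1 := fun m => ⟨pow_nonneg hs0 m, pow_le_one₀ hs0 hs1⟩
  have key : ∀ x1 x2 x3 x4 x5 : ℝ, 0 ≤ x1 → 0 ≤ x2 → 0 ≤ x3 → 0 ≤ x4 → 0 ≤ x5 →
      (1 ≤ x1 ∨ 1 ≤ x2 ∨ 1 ≤ x3 ∨ 1 ≤ x4 ∨ 1 ≤ x5) → 1 ≤ x1 + x2 + x3 + x4 + x5 := by
    rintro x1 x2 x3 x4 x5 h1 h2 h3 h4 h5 (h | h | h | h | h) <;> linarith
  have key0 : ∀ x1 x2 x3 x4 x5 : ℝ, 0 ≤ x1 → 0 ≤ x2 → 0 ≤ x3 → 0 ≤ x4 → 0 ≤ x5 →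
      0 ≤ x1 + x2 + x3 + x4 + x5 := by
    intro x1 x2 x3 x4 x5 h1 h2 h3 h4 h5
    linarith
  have hb : ∀ T c p, |φ (Ucell T c p) c - χ T c p| ≤ b T c p := by
    intro T c p
    have t1 : (0 : ℝ) ≤ if c.1 ∈ outs T g p then 1 else 0 := by split_ifs <;> norm_num
    have t2 : (0 : ℝ) ≤ if c.1 ∈ outs T g (T c.1 c.2) then 1 else 0 := by split_ifs <;> norm_num
    have t3 : (0 : ℝ) ≤ if T c.1 c.2 = p then 1 else 0 := by split_ifs <;> norm_num
    have t4 : ∀ c' ∈ (univ : Finset (V × Fin k)), (0 : ℝ) ≤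
        if T c'.1 c'.2 = p then (if c'.1 ∈ outs T g p then (1 : ℝ) else 0) else 0 := by
      intro c' _
      split_ifs <;> norm_num
    have t5 : ∀ c' ∈ (univ : Finset (V × Fin k)), (0 : ℝ) ≤
        if T c'.1 c'.2 = p then (if c'.1 ∈ outs T g (T c.1 c.2) then (1 : ℝ) else 0) else 0 := by
      intro c' _
      split_ifs <;> norm_num
    have t4' := Finset.sum_nonneg t4
    have t5' := Finset.sum_nonneg t5
    have hφ : 0 ≤ φ (Ucell T c p) c ∧ φ (Ucell T c p) c ≤ 1 := by
      simp only [φ]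
      split_ifs
      · exact hpow _
      · exact ⟨le_rfl, zero_le_one⟩
    have hχ : 0 ≤ χ T c p ∧ χ T c p ≤ 1 := by
      simp only [χ]
      split_ifs
      · exact hpow _
      · exact ⟨le_rfl, zero_le_one⟩
    have hle1 : |φ (Ucell T c p) c - χ T c p| ≤ 1 := by
      rw [abs_le]
      constructor <;> linarith [hφ.1, hφ.2, hχ.1, hχ.2]
    by_cases h1 : c ∈ Bd g Q T ↔ c ∈ Bd g Q (Ucell T c p)
    · by_cases h2 : T c.1 c.2 = p
      · exact hle1.trans (key _ _ _ _ _ t1 t2 t3 t4' t5' (Or.inr (Or.inr (Or.inl (by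
          rw [if_pos h2])))))
      · by_cases h3 : ∀ c' : V × Fin k, T c'.1 c'.2 = p →
            (c' ∈ Bd g Q T ↔ c' ∈ Bd g Q (Ucell T c p))
        · have h0 : φ (Ucell T c p) c - χ T c p = 0 := by
            simp only [φ, χ]
            by_cases h4 : c ∈ Bd g Q T
            · have h5 := h1.mp h4
              rw [if_pos h4, if_pos h5, Ucell_self, Xp_diff g Q T c p h5 h2 h3, sub_self]
            · have h5 : c ∉ Bd g Q (Ucell T c p) := fun h => h4 (h1.mpr h)
              rw [if_neg h4, if_neg h5, sub_self]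
          rw [h0, abs_zero]
          exact key0 _ _ _ _ _ t1 t2 t3 t4' t5'
        · push Not at h3
          obtain ⟨c', hc', h4⟩ := h3
          have h5 : ¬ (c' ∈ Bd g Q T ↔ c' ∈ Bd g Q (Ucell T c p)) := by
            tauto
          rcases hmem T c p c' h5 with h6 | h6
          · have h7 := Finset.single_le_sum t4 (Finset.mem_univ c')
            rw [if_pos hc', if_pos h6] at h7
            exact hle1.trans (key _ _ _ _ _ t1 t2 t3 t4' t5'
              (Or.inr (Or.inr (Or.inr (Or.inl h7)))))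
          · have h7 := Finset.single_le_sum t5 (Finset.mem_univ c')
            rw [if_pos hc', if_pos h6] at h7
            exact hle1.trans (key _ _ _ _ _ t1 t2 t3 t4' t5'
              (Or.inr (Or.inr (Or.inr (Or.inr h7)))))
    · rcases hmem T c p c h1 with h6 | h6
      · exact hle1.trans (key _ _ _ _ _ t1 t2 t3 t4' t5' (Or.inl (by rw [if_pos h6])))
      · exact hle1.trans (key _ _ _ _ _ t1 t2 t3 t4' t5' (Or.inr (Or.inl (by rw [if_pos h6]))))
  -- sum of the bound
  let cyc : (V → Fin k → V) → ℝ := fun T =>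
    ((univ.filter (fun c : V × Fin k => c.1 ∈ outs T g (T c.1 c.2))).card : ℝ)
  have hcyc' : ∑ T, cyc T ≤ N * (k * M) := by
    have h1 := hcyc
    unfold avg at h1
    rw [div_le_iff₀ hΩ] at h1
    calc ∑ T, cyc T ≤ k * M * N := h1
      _ = N * (k * M) := by ring
  have hcount : ∀ S : Finset V, ∑ c : V × Fin k, (if c.1 ∈ S then (1 : ℝ) else 0) = k * S.card := by
    intro S
    rw [Fintype.sum_prod_type]
    have h1 : ∀ x : V, ∑ y : Fin k, (if (x, y).1 ∈ S then (1 : ℝ) else 0) =
        k * (if x ∈ S then (1 : ℝ) else 0) := by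
      intro x
      by_cases h : x ∈ S <;> simp [h]
    rw [Finset.sum_congr rfl fun x _ => h1 x, ← Finset.mul_sum, Finset.sum_boole]
    congr 3
    ext x
    simp
  have hcard : (∑ _c : V × Fin k, (1 : ℝ)) = n * k := by
    simp [hnd]
  have hsum : ∀ T, ∑ c : V × Fin k, ∑ p : V, b T c p ≤
      n * (k * M) + n * cyc T + n * k + n * k * cyc T + n * k * (k * M) := by
    intro T
    simp only [b, Finset.sum_add_distrib]
    have s1 : ∑ c : V × Fin k, ∑ p : V, (if c.1 ∈ outs T g p then (1 : ℝ) else 0) ≤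
        n * (k * M) := by
      rw [Finset.sum_comm]
      calc ∑ p : V, ∑ c : V × Fin k, (if c.1 ∈ outs T g p then (1 : ℝ) else 0)
          ≤ ∑ p : V, (k * M) := by
            refine Finset.sum_le_sum fun p _ => ?_
            rw [hcount]
            exact mul_le_mul_of_nonneg_left (hout' T p) (by positivity)
        _ = n * (k * M) := by simp [hnd]
    have s2 : ∑ c : V × Fin k, ∑ _p : V, (if c.1 ∈ outs T g (T c.1 c.2) then (1 : ℝ) else 0) =
        n * cyc T := by
      simp only [cyc, Finset.sum_const, nsmul_eq_mul, Finset.card_univ]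
      rw [← Finset.mul_sum, Finset.sum_boole]
    have s3 : ∑ c : V × Fin k, ∑ p : V, (if T c.1 c.2 = p then (1 : ℝ) else 0) = n * k := by
      rw [← hcard]
      refine Finset.sum_congr rfl fun c _ => ?_
      simp
    have s4 : ∑ _c : V × Fin k, ∑ p : V, ∑ c' : V × Fin k,
        (if T c'.1 c'.2 = p then (if c'.1 ∈ outs T g p then (1 : ℝ) else 0) else 0) =
        n * k * cyc T := by
      rw [Finset.sum_const, nsmul_eq_mul, Finset.sum_comm]
      have : ∀ c' : V × Fin k, ∑ p : V,
          (if T c'.1 c'.2 = p then (if c'.1 ∈ outs T g p then (1 : ℝ) else 0) else 0) =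
          if c'.1 ∈ outs T g (T c'.1 c'.2) then (1 : ℝ) else 0 := by
        intro c'
        rw [Finset.sum_ite_eq Finset.univ (T c'.1 c'.2)
          (fun p => if c'.1 ∈ outs T g p then (1 : ℝ) else 0)]
        simp
      simp only [this]
      rw [Finset.sum_boole]
      simp [hnd, cyc]
    have s5 : ∑ c : V × Fin k, ∑ p : V, ∑ c' : V × Fin k,
        (if T c'.1 c'.2 = p then (if c'.1 ∈ outs T g (T c.1 c.2) then (1 : ℝ) else 0) else 0) ≤
        n * k * (k * M) := by
      rw [← hcard, Finset.sum_mul]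
      refine Finset.sum_le_sum fun c _ => ?_
      rw [Finset.sum_comm]
      have : ∀ c' : V × Fin k, ∑ p : V,
          (if T c'.1 c'.2 = p then (if c'.1 ∈ outs T g (T c.1 c.2) then (1 : ℝ) else 0) else 0) =
          if c'.1 ∈ outs T g (T c.1 c.2) then (1 : ℝ) else 0 := by
        intro c'
        rw [Finset.sum_ite_eq Finset.univ (T c'.1 c'.2)
          (fun p => if c'.1 ∈ outs T g (T c.1 c.2) then (1 : ℝ) else 0)]
        simp
      simp only [this]
      rw [hcount, one_mul]
      exact mul_le_mul_of_nonneg_left (hout' T _) (by positivity)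
    linarith
  -- the main identity
  have e1 : avg (fun T : V → Fin k → V => ∑ p : V, (Xp g Q T p : ℝ) * s ^ (Xp g Q T p - 1)) =
      (∑ T : V → Fin k → V, ∑ c : V × Fin k, ∑ p : V, φ (Ucell T c p) c) / (n * N) := by
    unfold avg
    have h1 : ∑ T : V → Fin k → V, ∑ p : V, (Xp g Q T p : ℝ) * s ^ (Xp g Q T p - 1) =
        ∑ T : V → Fin k → V, ∑ c : V × Fin k, φ T c :=
      Finset.sum_congr rfl fun T _ => sum_Xp g Q s T
    rw [h1, Finset.sum_comm, Finset.sum_comm (s := (univ : Finset (V → Fin k → V)))]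
    have h2 : ∀ c : V × Fin k, ∑ T : V → Fin k → V, ∑ p : V, φ (Ucell T c p) c =
        n * ∑ T, φ T c := fun c => sum_Ucell c (fun T => φ T c)
    simp only [h2]
    rw [← Finset.mul_sum]
    rw [mul_div_mul_left _ _ hn.ne']
  have e2 : avg (fun T : V → Fin k → V =>
          (∑ p : V, ((Bd g Q T).card : ℝ) * s ^ (Xp g Q T p)) / Fintype.card V) =
      (∑ T : V → Fin k → V, ∑ c : V × Fin k, ∑ p : V, χ T c p) / (n * N) := by
    unfold avg
    rw [← Finset.sum_div, div_div]
    congr 1
    refine Finset.sum_congr rfl fun T _ => ?_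
    rw [Finset.sum_comm]
    refine Finset.sum_congr rfl fun p _ => ?_
    simp only [χ]
    rw [← Finset.sum_filter, Finset.sum_const, nsmul_eq_mul]
    congr 2
    simp
  rw [e1, e2, ← sub_div, abs_div, abs_of_pos (mul_pos hn hΩ), div_le_iff₀ (mul_pos hn hΩ)]
  have hbig : |∑ T : V → Fin k → V, ∑ c : V × Fin k, ∑ p : V, φ (Ucell T c p) c -
      ∑ T : V → Fin k → V, ∑ c : V × Fin k, ∑ p : V, χ T c p| ≤
      ∑ T : V → Fin k → V, ∑ c : V × Fin k, ∑ p : V, b T c p := by
    simp only [← Finset.sum_sub_distrib]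
    refine (Finset.abs_sum_le_sum_abs _ _).trans (Finset.sum_le_sum fun T _ => ?_)
    refine (Finset.abs_sum_le_sum_abs _ _).trans (Finset.sum_le_sum fun c _ => ?_)
    refine (Finset.abs_sum_le_sum_abs _ _).trans (Finset.sum_le_sum fun p _ => ?_)
    exact hb T c p
  refine hbig.trans ?_
  have hk' : (1 : ℝ) ≤ k := by exact_mod_cast hk
  calc ∑ T : V → Fin k → V, ∑ c : V × Fin k, ∑ p : V, b T c p
      ≤ ∑ T : V → Fin k → V,
        (n * (k * M) + n * cyc T + n * k + n * k * cyc T + n * k * (k * M)) :=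
        Finset.sum_le_sum fun T _ => hsum T
    _ = N * (n * (k * M) + n * k + n * k * (k * M)) + (n + n * k) * ∑ T, cyc T := by
        rw [Finset.mul_sum, show N * (n * (k * M) + n * k + n * k * (k * M)) =
          ∑ _T : V → Fin k → V, (n * (k * M) + n * k + n * k * (k * M)) by
            rw [Finset.sum_const, nsmul_eq_mul, Finset.card_univ],
          ← Finset.sum_add_distrib]
        refine Finset.sum_congr rfl fun T _ => ?_
        ring
    _ ≤ N * (n * (k * M) + n * k + n * k * (k * M)) + (n + n * k) * (N * (k * M)) := by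
        have : 0 ≤ n + n * k := by positivity
        nlinarith [mul_le_mul_of_nonneg_left hcyc' this]
    _ ≤ (k + 4 * k ^ 2 * M) * (n * N) := by
        have h1 : 0 ≤ (n * N) * (k * M) := by positivity
        have h2 : 0 ≤ (n * N) * (k * M) * (k - 1) := mul_nonneg h1 (by linarith)
        nlinarith

end AC

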