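import Pool.Agent.Helper949.AC.Defs2

set_option autoImplicit false

/-!
Definitions for the asymptotics of the average state complexity of intersections.
Tables `T : V → Fin k → V`; `rn T g w x` is the state reached from `x` after reading `w`.
-/

namespace AC

open Finset

variable {V : Type} {k : ℕ}

end AC

namespace AC
open Finset

private theorem rn_add_aux {V : Type} {k : ℕ} (T : V → Fin k → V) (h : ℕ) : ∀ (g : ℕ)
    (v : Fin (h + g) → Fin k) (x : V),
    rn T (h + g) v x = rn T g (fun i => v (Fin.natAdd h i)) (rn T h (fun i => v (Fin.castAdd g i)) x)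
  | 0, v, x => rfl
  | g + 1, v, x => by
    have ih := rn_add_aux T h g (fun i => v i.castSucc) x
    show T (rn T (h + g) (fun i => v i.castSucc) x) (v (Fin.last (h + g))) = _
    rw [ih]
    rfl

theorem cov_lift {V : Type} {k : ℕ} [Fintype V] [DecidableEq V] (T : V → Fin k → V) (h g : ℕ)
    (Q : Finset (Fin g → Fin k)) (p : V) :
    p ∈ cov T (h + g) (lift h Q) ↔ ∃ w ∈ Q, ∃ x ∈ cov T h univ, rn T g w x = p := by
  classical
  constructor
  · intro hp
    simp only [cov, lift, mem_filter, mem_univ, true_and] at hp
    obtain ⟨v, hv, x, hx⟩ := hp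
    rw [rn_add_aux] at hx
    refine ⟨_, hv, rn T h (fun i => v (Fin.castAdd g i)) x, ?_, hx⟩
    simp only [cov, mem_filter, mem_univ, true_and]
    exact ⟨_, x, rfl⟩
  · rintro ⟨w, hw, x, hx, hp⟩
    simp only [cov, mem_filter, mem_univ, true_and] at hx
    obtain ⟨u, y, hy⟩ := hx
    simp only [cov, lift, mem_filter, mem_univ, true_and]
    refine ⟨Fin.append u w, ?_, y, ?_⟩
    · have : (fun i : Fin g => Fin.append u w (Fin.natAdd h i)) = w := by
        funext i; simp
      rw [this]; exact hw
    · rw [rn_add_aux]
      have e1 : (fun i : Fin g => Fin.append u w (Fin.natAdd h i)) = w := by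
        funext i; simp
      have e2 : (fun i : Fin h => Fin.append u w (Fin.castAdd g i)) = u := by
        funext i; simp
      rw [e1, e2, hy, hp]

end AC

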