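import Pool.Agent.Helper949.AC.Defs2

set_option autoImplicit false

/-!
Definitions for the asymptotics of the average state complexity of intersections.
Tables `T : V → Fin k → V`; `rn T g w x` is the state reached from `x` after reading `w`.
-/

namespace AC

open Finset

variable {V : Type} {k : ℕ}

end AC

namespace AC
open Finset

private theorem outs_card {V : Type} {k : ℕ} [Fintype V] (T : V → Fin k → V) (g : ℕ) (hk : 1 ≤ k) (y : V) :
    (outs T g y).card ≤ g * k ^ g := by
  classical
  have hsub : outs T g y ⊆ (Finset.range g).biUnion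
      (fun j => (Finset.univ : Finset (Fin j → Fin k)).image (fun u => rn T j u y)) := by
    intro x hx
    obtain ⟨j, hj, u, hu⟩ := (Finset.mem_filter.1 hx).2
    rw [Finset.mem_biUnion]
    exact ⟨j, Finset.mem_range.2 hj, Finset.mem_image.2 ⟨u, Finset.mem_univ _, hu⟩⟩
  refine (Finset.card_le_card hsub).trans (Finset.card_biUnion_le.trans ?_)
  calc ∑ j ∈ Finset.range g, ((Finset.univ : Finset (Fin j → Fin k)).image
        (fun u => rn T j u y)).card
      ≤ ∑ _j ∈ Finset.range g, k ^ g := by
        refine Finset.sum_le_sum fun j hj => ?_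
        refine Finset.card_image_le.trans ?_
        rw [Finset.card_univ, Fintype.card_fun, Fintype.card_fin, Fintype.card_fin]
        exact Nat.pow_le_pow_right hk (Finset.mem_range.1 hj).le
    _ = g * k ^ g := by rw [Finset.sum_const, Finset.card_range, smul_eq_mul]

private theorem rn_agree352 {V : Type} {k : ℕ} (T T' : V → Fin k → V) (x y : V)
    (h : ∀ p, p ≠ x → T' p = T p) (j : ℕ) (u : Fin j → Fin k) :
    rn T' j u y = rn T j u y ∨ ∃ j' < j, ∃ u' : Fin j' → Fin k, rn T' j' u' y = x := by
  induction j with
  | zero => exact Or.inl rfl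
  | succ j ih =>
    rcases ih (fun i => u i.castSucc) with h1 | ⟨j', hj', u', hu'⟩
    · by_cases hx : rn T j (fun i => u i.castSucc) y = x
      · right
        exact ⟨j, Nat.lt_succ_self j, fun i => u i.castSucc, by rw [h1, hx]⟩
      · left
        show T' (rn T' j (fun i => u i.castSucc) y) (u (Fin.last j)) =
          T (rn T j (fun i => u i.castSucc) y) (u (Fin.last j))
        rw [h1, h _ hx]
    · exact Or.inr ⟨j', by omega, u', hu'⟩

private theorem outs_agree352 {V : Type} {k : ℕ} [Fintype V] (T T' : V → Fin k → V) (x y : V) (g : ℕ)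
    (h : ∀ p, p ≠ x → T' p = T p) (hx : x ∈ outs T g y) : x ∈ outs T' g y := by
  classical
  obtain ⟨j, hj, u, hu⟩ := (Finset.mem_filter.1 hx).2
  refine Finset.mem_filter.2 ⟨Finset.mem_univ _, ?_⟩
  rcases rn_agree352 T T' x y h j u with h1 | ⟨j', hj', u', hu'⟩
  · exact ⟨j, hj, u, by rw [h1, hu]⟩
  · exact ⟨j', by omega, u', hu'⟩

private theorem cell_count352 {V : Type} {k : ℕ} [Fintype V] [DecidableEq V] (g : ℕ) (x : V) (a : Fin k) :
    (univ.filter (fun T : V → Fin k → V => x ∈ outs T g (T x a))).card * Fintype.card V ≤
      (univ.filter (fun p : (V → Fin k → V) × V => x ∈ outs p.1 g p.2)).card := by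
  rw [← Finset.card_univ (α := V), ← Finset.card_product]
  refine Finset.card_le_card_of_injOn
    (fun p : (V → Fin k → V) × V =>
      (Function.update p.1 x (Function.update (p.1 x) a p.2), p.1 x a)) ?_ ?_
  · rintro ⟨T, v⟩ hp
    have h1 := (Finset.mem_product.1 (Finset.mem_coe.1 hp)).1
    have h2 := (Finset.mem_filter.1 h1).2
    refine Finset.mem_coe.2 (Finset.mem_filter.2 ⟨Finset.mem_univ _, ?_⟩)
    exact outs_agree352 T _ x (T x a) g (fun p hp => Function.update_of_ne hp _ _) h2
  · rintro ⟨T, v⟩ _ ⟨S, w⟩ _ h
    have h1 : Function.update T x (Function.update (T x) a v) =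
        Function.update S x (Function.update (S x) a w) := (Prod.ext_iff.1 h).1
    have h2 : T x a = S x a := (Prod.ext_iff.1 h).2
    have h3 := congrFun h1 x
    rw [Function.update_self, Function.update_self] at h3
    have hvw : v = w := by
      have := congrFun h3 a
      rwa [Function.update_self, Function.update_self] at this
    have hTS : T = S := by
      funext p b
      by_cases hp : p = x
      · subst hp
        by_cases hb : b = a
        · subst hb; exact h2
        · have := congrFun h3 b
          rwa [Function.update_of_ne hb, Function.update_of_ne hb] at this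
      · have := congrFun h1 p
        rw [Function.update_of_ne hp, Function.update_of_ne hp] at this
        rw [this]
    rw [hvw, hTS]

private theorem pair_count352 {V : Type} {k : ℕ} [Fintype V] [DecidableEq V] (g : ℕ) (hk : 1 ≤ k) :
    ∑ x : V, (univ.filter (fun p : (V → Fin k → V) × V => x ∈ outs p.1 g p.2)).card ≤
      Fintype.card (V → Fin k → V) * Fintype.card V * (g * k ^ g) := by
  simp only [Finset.card_filter]
  rw [Finset.sum_comm]
  calc ∑ p : (V → Fin k → V) × V, ∑ x : V, (if x ∈ outs p.1 g p.2 then 1 else 0)
      ≤ ∑ _p : (V → Fin k → V) × V, g * k ^ g := by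
        refine Finset.sum_le_sum fun p _ => ?_
        have h1 : ∑ x : V, (if x ∈ outs p.1 g p.2 then 1 else 0) = (outs p.1 g p.2).card := by
          rw [← Finset.card_filter, Finset.filter_univ_mem]
        rw [h1]
        exact outs_card p.1 g hk p.2
    _ = _ := by
        rw [Finset.sum_const, Finset.card_univ, Fintype.card_prod, smul_eq_mul]

theorem cycle_avg {V : Type} {k : ℕ} [Fintype V] [DecidableEq V] [Nonempty V] (g : ℕ) (hk : 1 ≤ k) :
    avg (fun T : V → Fin k → V =>
      ((univ.filter (fun c : V × Fin k => c.1 ∈ outs T g (T c.1 c.2))).card : ℝ))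
      ≤ k * (g * k ^ g) := by
  have hV : 0 < Fintype.card V := Fintype.card_pos
  have hT : 0 < Fintype.card (V → Fin k → V) := Fintype.card_pos
  have h1 : ∑ T : V → Fin k → V,
      (univ.filter (fun c : V × Fin k => c.1 ∈ outs T g (T c.1 c.2))).card =
      ∑ c : V × Fin k, (univ.filter (fun T : V → Fin k → V => c.1 ∈ outs T g (T c.1 c.2))).card := by
    simp only [Finset.card_filter]
    exact Finset.sum_comm
  have h2 : (∑ T : V → Fin k → V,
      (univ.filter (fun c : V × Fin k => c.1 ∈ outs T g (T c.1 c.2))).card) * Fintype.card V ≤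
      (k * (g * k ^ g) * Fintype.card (V → Fin k → V)) * Fintype.card V := by
    rw [h1, Finset.sum_mul, Fintype.sum_prod_type]
    calc ∑ x : V, ∑ a : Fin k,
          (univ.filter (fun T : V → Fin k → V => x ∈ outs T g (T x a))).card * Fintype.card V
        ≤ ∑ x : V, ∑ _a : Fin k,
          (univ.filter (fun p : (V → Fin k → V) × V => x ∈ outs p.1 g p.2)).card :=
          Finset.sum_le_sum fun x _ => Finset.sum_le_sum fun a _ => cell_count352 g x a
      _ = k * ∑ x : V, (univ.filter (fun p : (V → Fin k → V) × V => x ∈ outs p.1 g p.2)).card := by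
          rw [Finset.mul_sum]
          refine Finset.sum_congr rfl fun x _ => ?_
          rw [Finset.sum_const, Finset.card_univ, Fintype.card_fin, smul_eq_mul]
      _ ≤ k * (Fintype.card (V → Fin k → V) * Fintype.card V * (g * k ^ g)) :=
          Nat.mul_le_mul_left _ (pair_count352 g hk)
      _ = _ := by ring
  have h3 := Nat.le_of_mul_le_mul_right h2 hV
  unfold avg
  rw [div_le_iff₀ (by exact_mod_cast hT)]
  simp only []
  exact_mod_cast h3

end AC

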