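import Mathlib

set_option autoImplicit false

/-!
Definitions for the asymptotics of the average state complexity of intersections.
Tables `T : V → Fin k → V`; `rn T g w x` is the state reached from `x` after reading `w`.
-/

namespace AC

open Finset

variable {V : Type} {k : ℕ}

/-- state reached from `x` by reading the word `w` (recursion on the last letter) -/
def rn (T : V → Fin k → V) : (g : ℕ) → (Fin g → Fin k) → V → V
  | 0, _, x => x
  | g + 1, w, x => T (rn T g (fun i => w i.castSucc) x) (w (Fin.last g))

open Classical in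
/-- states reached by some word of `Q` from some state -/
noncomputable def cov [Fintype V] (T : V → Fin k → V) (g : ℕ) (Q : Finset (Fin g → Fin k)) :
    Finset V := univ.filter (fun p => ∃ w ∈ Q, ∃ x, rn T g w x = p)

open Classical in
/-- number of words `w` of length `g` such that `p` and `q` both have a `w`-predecessor -/
noncomputable def cw [Fintype V] (T T' : V → Fin k → V) (g : ℕ) (p q : V) : ℕ :=
  (univ.filter (fun w : Fin g → Fin k => (∃ x, rn T g w x = p) ∧ (∃ y, rn T' g w y = q))).card

open Classical in
/-- number of words of length `l` leading from the pair `(o, o)` to the pair `(p, q)` -/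
noncomputable def Zl [Fintype V] (o : V) (T T' : V → Fin k → V) (l : ℕ) (p q : V) : ℕ :=
  (univ.filter (fun w : Fin l → Fin k => rn T l w o = p ∧ rn T' l w o = q)).card

/-- uniform average over a finite type -/
noncomputable def avg {Ω : Type} [Fintype Ω] (f : Ω → ℝ) : ℝ := (∑ x, f x) / Fintype.card Ω

open Classical in
/-- uniform probability over a finite type -/
noncomputable def pr {Ω : Type} [Fintype Ω] (P : Ω → Prop) : ℝ :=
  ((univ.filter P).card : ℝ) / Fintype.card Ω

/-- the words `w` such that `w` followed by `a` is in `Q` -/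
def slice {g : ℕ} (Q : Finset (Fin (g + 1) → Fin k)) (a : Fin k) : Finset (Fin g → Fin k) :=
  univ.filter (fun w => (Fin.snoc (α := fun _ => Fin k) w a : Fin (g + 1) → Fin k) ∈ Q)

/-- limiting avoidance probabilities -/
noncomputable def FF (k : ℕ) (θ : ℝ) : (g : ℕ) → Finset (Fin g → Fin k) → ℝ
  | 0, Q => if Q = ∅ then 1 else 1 - θ
  | g + 1, Q => Real.exp (∑ a : Fin k, (FF k θ g (slice Q a) - 1))

/-- Poisson weight with mean `i` -/
noncomputable def po (i x : ℕ) : ℝ := Real.exp (-(i : ℝ)) * (i : ℝ) ^ x / (x.factorial : ℝ)

/-- the recursion for the probability that no common word survives -/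
noncomputable def aa (k : ℕ) (θ β : ℝ) : ℕ → ℕ → ℕ → ℝ
  | 0, i, j => 1 - (1 - β) * (1 - (1 - θ) ^ i) * (1 - (1 - θ) ^ j)
  | g + 1, i, j => (∑' x : ℕ, ∑' y : ℕ, po i x * po j y * aa k θ β g x y) ^ k

/-- `T` with the names of `x` and `z` exchanged as targets -/
def sw [DecidableEq V] (x z : V) (T : V → Fin k → V) : V → Fin k → V :=
  fun v a => Equiv.swap x z (T v a)

/-- every word leading from `o` to `z` passes through `x` -/
def Dom (o : V) (T : V → Fin k → V) (x z : V) : Prop :=
  ∀ (l : ℕ) (w : ℕ → Fin k), rn T l (fun i => w i) o = z → ∃ j ≤ l, rn T j (fun i => w i) o = x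

end AC
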