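import Pool.Agent.Helper949.AC.Defs

set_option autoImplicit false

namespace AC

open Finset

/-- every state is reachable from `o` -/
def Ac {V : Type} {k : ℕ} (T : V → Fin k → V) (o : V) : Prop :=
  ∀ q, ∃ (l : ℕ) (w : Fin l → Fin k), rn T l w o = q

open Classical in
/-- the set of states reachable from `o` -/
noncomputable def rch {V : Type} {k : ℕ} [Fintype V] (T : V → Fin k → V) (o : V) : Finset V :=
  univ.filter (fun q => ∃ (l : ℕ) (w : Fin l → Fin k), rn T l w o = q)

/-- `T` is a copy of the restriction of `S` to a closed set -/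
def Emb {k m M : ℕ} (e : Fin (m + 1) → Fin (M + 1)) (T : Fin (m + 1) → Fin k → Fin (m + 1))
    (S : Fin (M + 1) → Fin k → Fin (M + 1)) : Prop :=
  Function.Injective e ∧ e 0 = 0 ∧ ∀ x a, S (e x) a = e (T x a)

open Classical in
/-- states reachable from `y` in fewer than `g` steps -/
noncomputable def outs {V : Type} {k : ℕ} [Fintype V] (T : V → Fin k → V) (g : ℕ) (y : V) :
    Finset V := univ.filter (fun x => ∃ j < g, ∃ u : Fin j → Fin k, rn T j u y = x)

open Classical in
/-- the cells whose source is covered in the right way -/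
noncomputable def Bd {V : Type} {k : ℕ} [Fintype V] (g : ℕ) (Q : Finset (Fin (g + 1) → Fin k))
    (T : V → Fin k → V) : Finset (V × Fin k) :=
  univ.filter (fun c => c.1 ∈ cov T g (slice Q c.2))

open Classical in
/-- number of bad cells pointing to `p` -/
noncomputable def Xp {V : Type} {k : ℕ} [Fintype V] (g : ℕ) (Q : Finset (Fin (g + 1) → Fin k))
    (T : V → Fin k → V) (p : V) : ℕ := ((Bd g Q T).filter (fun c => T c.1 c.2 = p)).card

/-- coefficients: `β ^ |W ∩ W'| = ∑ R R', cc β R R' [W ∩ R = ∅] [W' ∩ R' = ∅]` -/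
noncomputable def cc {X : Type} [Fintype X] [DecidableEq X] (β : ℝ) (R R' : Finset X) : ℝ :=
  ∏ w : X, (if w ∈ R then (if w ∈ R' then -(1 - β) else 1 - β) else (if w ∈ R' then 1 - β else β))

/-- words of length `h + g` whose last `g` letters form a word of `Q` -/
def lift {k : ℕ} (h : ℕ) {g : ℕ} (Q : Finset (Fin g → Fin k)) : Finset (Fin (h + g) → Fin k) :=
  univ.filter (fun v => (fun i : Fin g => v (Fin.natAdd h i)) ∈ Q)

/-- survival probabilities to depth `h` -/
noncomputable def th (k : ℕ) : ℕ → ℝ
  | 0 => 1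
  | h + 1 => 1 - Real.exp (-((k : ℝ) * th k h))

open Classical in
/-- targets of the cells of the first `m + 1` states -/
noncomputable def im {k M : ℕ} (S : Fin (M + 1) → Fin k → Fin (M + 1)) (m : ℕ) :
    Finset (Fin (M + 1)) :=
  (univ.filter (fun c : Fin (M + 1) × Fin k => c.1.val ≤ m)).image (fun c => S c.1 c.2)

open Classical in
/-- number of words `w` of length `g` such that `p` and `q` both have a `w`-predecessor which
itself has a predecessor of order `h` -/
noncomputable def cwm {V : Type} {k : ℕ} [Fintype V] (T T' : V → Fin k → V) (h g : ℕ) (p q : V) : ℕ :=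
  (univ.filter (fun w : Fin g → Fin k => (∃ x ∈ cov T h univ, rn T g w x = p) ∧
    (∃ y ∈ cov T' h univ, rn T' g w y = q))).card

/-- the pair `(p, q)` is reached from the pair `(o, o)` -/
def Rd {V : Type} {k : ℕ} (T T' : V → Fin k → V) (o p q : V) : Prop :=
  ∃ (l : ℕ) (w : Fin l → Fin k), rn T l w o = p ∧ rn T' l w o = q

/-- all states except possibly `o` have a predecessor -/
def Su {V : Type} {k : ℕ} (T : V → Fin k → V) (o : V) : Prop := ∀ r, r ≠ o → ∃ v a, T v a = r

/-- two different words of length at most `g` lead from some state to `p` -/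
def Coin {V : Type} {k : ℕ} (T : V → Fin k → V) (g : ℕ) (p : V) : Prop :=
  ∃ x, ∃ i ≤ g, ∃ j ≤ g, ∃ (u : Fin i → Fin k) (u' : Fin j → Fin k),
    (⟨i, u⟩ : Σ n, Fin n → Fin k) ≠ ⟨j, u'⟩ ∧ rn T i u x = p ∧ rn T j u' x = p

open Classical in
/-- states from which `p` is reached in at most `g` steps -/
noncomputable def ball {V : Type} {k : ℕ} [Fintype V] (T : V → Fin k → V) (g : ℕ) (p : V) :
    Finset V := univ.filter (fun y => ∃ j ≤ g, ∃ u : Fin j → Fin k, rn T j u y = p)

open Classical in
/-- states from which `p` is reached in fewer than `g` steps -/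
noncomputable def intr {V : Type} {k : ℕ} [Fintype V] (T : V → Fin k → V) (g : ℕ) (p : V) :
    Finset V := univ.filter (fun y => ∃ j < g, ∃ u : Fin j → Fin k, rn T j u y = p)

open Classical in
/-- cells pointing into the interior -/
noncomputable def incell {V : Type} {k : ℕ} [Fintype V] (T : V → Fin k → V) (g : ℕ) (p : V) :
    Finset (V × Fin k) := univ.filter (fun c => T c.1 c.2 ∈ intr T g p)

/-- `p` is a good state -/
def Gd {V : Type} {k : ℕ} [Fintype V] (T : V → Fin k → V) (g b : ℕ) (o p : V) : Prop :=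
  ¬ Coin T g p ∧ (ball T g p).card ≤ b ∧ o ∉ ball T g p

end AC
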