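import Pool.Agent.Helper949.AC.Defs2
import Pool.Agent.Helper949.ASX.Defs

set_option autoImplicit false

namespace AC

open Finset AS SI

open Classical in
/-- tables with the same backward ball of `p` as `T`, and covering all states but `o` -/
noncomputable def cls {V : Type} {k : ℕ} [Fintype V] [DecidableEq V] (o : V) (T : V → Fin k → V) (g : ℕ) (p : V) :
    Finset (V → Fin k → V) :=
  Om T (incell T g p) (intr T g p) ((univ \ intr T g p).erase o)

end AC
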