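import Pool.Agent.Helper949.AC.Defs2

set_option autoImplicit false

/-!
Definitions for the asymptotics of the average state complexity of intersections.
Tables `T : V → Fin k → V`; `rn T g w x` is the state reached from `x` after reading `w`.
-/

namespace AC

open Finset

variable {V : Type} {k : ℕ}

end AC

namespace AC
open Finset

private theorem slice_lift_aux {k : ℕ} (h g : ℕ) (Q : Finset (Fin (g + 1) → Fin k)) (a : Fin k) :
    slice (g := h + g) (lift h Q : Finset (Fin (h + g + 1) → Fin k)) a = lift h (slice Q a) := by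
  ext w
  have e : (fun i : Fin (g + 1) => (Fin.snoc (α := fun _ => Fin k) w a : Fin (h + g + 1) → Fin k)
      (Fin.natAdd h i)) =
      (Fin.snoc (α := fun _ => Fin k) (fun i : Fin g => w (Fin.natAdd h i)) a :
        Fin (g + 1) → Fin k) := by
    funext i
    refine Fin.lastCases ?_ (fun j => ?_) i
    · rw [Fin.snoc_last]
      exact Fin.snoc_last (α := fun _ => Fin k) _ _
    · rw [Fin.snoc_castSucc]
      exact Fin.snoc_castSucc (α := fun _ => Fin k) _ _ (Fin.natAdd h j)
  have h1 : w ∈ slice (g := h + g) (lift h Q : Finset (Fin (h + g + 1) → Fin k)) a ↔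
      (fun i : Fin (g + 1) => (Fin.snoc (α := fun _ => Fin k) w a : Fin (h + g + 1) → Fin k)
      (Fin.natAdd h i)) ∈ Q := by
    unfold slice lift
    rw [mem_filter, mem_filter]
    simp
  have h2 : w ∈ lift h (slice Q a) ↔ (Fin.snoc (α := fun _ => Fin k)
      (fun i : Fin g => w (Fin.natAdd h i)) a : Fin (g + 1) → Fin k) ∈ Q := by
    unfold slice lift
    rw [mem_filter, mem_filter]
    simp
  rw [h1, h2, e]

private theorem FF_empty_aux (k h : ℕ) : FF k 1 h ∅ = 1 := by
  induction h with
  | zero => simp [FF]
  | succ h ih =>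
    have e : ∀ a : Fin k, slice (∅ : Finset (Fin (h + 1) → Fin k)) a = ∅ := by
      intro a; unfold slice; simp
    simp only [FF, e, ih]
    simp

private theorem FF_univ_aux (k h : ℕ) : FF k 1 h univ = 1 - th k h := by
  induction h with
  | zero => simp [FF, th]
  | succ h ih =>
    have e : ∀ a : Fin k, slice (univ : Finset (Fin (h + 1) → Fin k)) a = univ := by
      intro a; unfold slice; simp
    simp only [FF, th, e, ih]
    rw [Finset.sum_const, Finset.card_univ, Fintype.card_fin, nsmul_eq_mul]
    rw [show (k : ℝ) * (1 - th k h - 1) = -((k : ℝ) * th k h) by ring]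
    ring

theorem FF_lift (k h g : ℕ) (Q : Finset (Fin g → Fin k)) :
    FF k 1 (h + g) (lift h Q) = FF k (th k h) g Q := by
  induction g with
  | zero =>
    by_cases hQ : Q = ∅
    · have e : lift h Q = ∅ := by
        rw [hQ]; unfold lift; simp
      rw [e]
      have h1 : FF k (th k h) 0 Q = 1 := by simp [FF, hQ]
      rw [h1]
      exact FF_empty_aux k h
    · obtain ⟨q, hq⟩ := Finset.nonempty_iff_ne_empty.mpr hQ
      have e : lift h Q = univ := by
        ext v
        unfold lift
        rw [mem_filter]
        refine ⟨fun _ => mem_univ _, fun _ => ⟨mem_univ _, ?_⟩⟩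
        have : (fun i : Fin 0 => v (Fin.natAdd h i)) = q := Subsingleton.elim _ _
        rw [this]
        exact hq
      rw [e]
      have h1 : FF k (th k h) 0 Q = 1 - th k h := by simp [FF, hQ]
      rw [h1]
      exact FF_univ_aux k h
  | succ g ih =>
    have h1 : FF k 1 (h + (g + 1)) (lift h Q) =
        Real.exp (∑ a : Fin k, (FF k 1 (h + g) (slice (g := h + g)
          (lift h Q : Finset (Fin (h + g + 1) → Fin k)) a) - 1)) := rfl
    have h2 : FF k (th k h) (g + 1) Q =
        Real.exp (∑ a : Fin k, (FF k (th k h) g (slice Q a) - 1)) := rfl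
    rw [h1, h2]
    congr 1
    refine Finset.sum_congr rfl fun a _ => ?_
    rw [slice_lift_aux, ih]

end AC

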