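import Pool.Agent.Helper949.AC.RE2
import Pool.Agent.Helper949.ASX.G1
import Pool.Agent.Helper949.ASX.C0
import Pool.Agent.Helper513.SI.M6

set_option autoImplicit false

namespace AC
open Finset Filter Topology

open Classical in
/-- the number of reachable pairs, in the notation of lists of letters -/
theorem reach_L1_RA (k : ℕ) (hk : 2 ≤ k) (w : ℝ) (hw0 : 0 < w) (hw1 : w < 1)
    (hw : w = 1 - Real.exp (-((k : ℝ) * w))) (s : ℝ)
    (hs : Tendsto (fun g => 1 - aa k 1 0 g 1 1) atTop (𝓝 s)) (ε : ℝ) (hε : 0 < ε) :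
    ∃ m0 : ℕ, ∀ m, m0 ≤ m →
      ∑ T ∈ Finset.univ.filter (fun T : Fin (m+1) → Fin k → Fin (m+1) => RA.Acc T 0),
        ∑ T' ∈ Finset.univ.filter (fun T : Fin (m+1) → Fin k → Fin (m+1) => RA.Acc T 0),
          |((AS.Reach T T').ncard : ℝ) - s / w ^ 2 * ((m:ℝ) + 1) ^ 2|
      ≤ ε * ((m:ℝ) + 1) ^ 2 *
        (Set.ncard {T : Fin (m+1) → Fin k → Fin (m+1) | RA.Acc T 0} : ℝ) ^ 2 := by
  obtain ⟨m0, h⟩ := reach_L1 k hk w hw0 hw1 hw s hs ε hε
  refine ⟨m0, fun m hm => ?_⟩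
  have h1 := h m hm
  have hA : (Finset.univ.filter (fun T : Fin (m+1) → Fin k → Fin (m+1) => RA.Acc T 0))
      = Finset.univ.filter (fun T : Fin (m+1) → Fin k → Fin (m+1) => Ac T 0) := by
    ext T; simp [ac_iff]
  have hc : (Set.ncard {T : Fin (m+1) → Fin k → Fin (m+1) | RA.Acc T 0})
      = (Finset.univ.filter (fun T : Fin (m+1) → Fin k → Fin (m+1) => Ac T 0)).card := by
    rw [← hA, ← Set.ncard_coe_finset]
    congr 1
    ext T; simp
  rw [hc, hA]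
  refine le_trans (le_of_eq ?_) h1
  rw [← Finset.sum_product']
  refine Finset.sum_congr ?_ ?_
  · ext P
    simp
  · intro P _
    have : (AS.Reach P.1 P.2).ncard
        = (univ.filter (fun x : Fin (m + 1) × Fin (m + 1) => Rd P.1 P.2 0 x.1 x.2)).card := by
      rw [← Set.ncard_coe_finset]
      congr 1
      ext x
      simp [AS.Reach, rd_iff]
    rw [this]

/-- the limit of `E_n / n²` -/
theorem limit_E (k : ℕ) (hk : 2 ≤ k) (w : ℝ) (hw0 : 0 < w) (hw1 : w < 1)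
    (hw : w = 1 - Real.exp (-((k : ℝ) * w))) :
    ∃ s : ℝ, 0 ≤ s ∧ s ≤ 1 ∧ Tendsto (fun g => 1 - aa k 1 0 g 1 1) atTop (𝓝 s) ∧
      Tendsto (fun n : ℕ => SI.E (Fin k) n / (n:ℝ) ^ 2) atTop (𝓝 (s / w ^ 2)) := by
  obtain ⟨s, h0, h1, hs, -⟩ := aa_limit k hk w hw0 hw1
  refine ⟨s, h0, h1, hs, ?_⟩
  have := AS.final_of_reach k hk (s / w ^ 2)
    (fun ε hε => reach_L1_RA k hk w hw0 hw1 hw s hs ε hε)
  rw [← tendsto_add_atTop_iff_nat 1]
  refine this.congr (fun m => ?_)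
  push_cast
  rfl

/-- the survival probability of the Poisson(k) Galton-Watson process -/
theorem w_unique (k : ℕ) (hk : 2 ≤ k) :
    ∃! w : ℝ, 0 < w ∧ w < 1 ∧ w = 1 - Real.exp (-((k : ℝ) * w)) := by
  have hk1 : (1 : ℝ) < k := by exact_mod_cast (by omega : 1 < k)
  have hk0 : (0 : ℝ) < k := by linarith
  obtain ⟨l, ⟨hl0, hl⟩, hu⟩ := AS.lam_exists (k : ℝ) hk1
  refine ⟨l / k, ⟨by positivity, ?_, ?_⟩, ?_⟩
  · rw [div_lt_one hk0]
    have : 0 < (k : ℝ) * Real.exp (-l) := by positivity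
    nlinarith
  · have h1 : (k : ℝ) * (l / k) = l := by field_simp
    rw [h1]
    rw [div_eq_iff (ne_of_gt hk0)]
    linarith
  · rintro w ⟨h0, -, h2⟩
    have h3 := hu ((k : ℝ) * w) ⟨by positivity, by
      rw [← h2]⟩
    rw [← h3]
    field_simp

end AC
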