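import Pool.Agent.Helper949.AC.Defs2

set_option autoImplicit false

/-!
Definitions for the asymptotics of the average state complexity of intersections.
Tables `T : V → Fin k → V`; `rn T g w x` is the state reached from `x` after reading `w`.
-/

namespace AC

open Finset

variable {V : Type} {k : ℕ}

end AC

namespace AC
open Finset

/-- a differential inequality in disguise -/
theorem gen_fun (n : ℕ) (P : ℕ → ℝ) (b ε : ℝ) (hb : 0 ≤ b) (hsum : ∑ j ∈ range (n + 1), P j = 1)
    (h : ∀ s : ℝ, 0 ≤ s → s ≤ 1 →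
      |∑ j ∈ range (n + 1), (j : ℝ) * P j * s ^ (j - 1) - b * ∑ j ∈ range (n + 1), P j * s ^ j| ≤ ε) :
    |P 0 - Real.exp (-b)| ≤ ε := by
  have hphi : ∀ s : ℝ, HasDerivAt (fun s : ℝ => ∑ j ∈ range (n + 1), P j * s ^ j)
      (∑ j ∈ range (n + 1), (j : ℝ) * P j * s ^ (j - 1)) s := by
    intro s
    have h1 := HasDerivAt.fun_sum (u := range (n + 1)) (x := s)
      (A := fun j s => P j * s ^ j) (A' := fun j => P j * ((j : ℝ) * s ^ (j - 1)))
      (fun j _ => (hasDerivAt_pow j s).const_mul (P j))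
    refine h1.congr_deriv ?_
    exact Finset.sum_congr rfl fun j _ => by ring
  have hexp : ∀ s : ℝ, HasDerivAt (fun s : ℝ => Real.exp (-(b * s))) (Real.exp (-(b * s)) * (-b))
      s := by
    intro s
    have h1 : HasDerivAt (fun s : ℝ => -(b * s)) (-(b * 1)) s := ((hasDerivAt_id s).const_mul b).neg
    rw [mul_one] at h1
    exact h1.exp
  have hpsi : ∀ s ∈ Set.Icc (0:ℝ) 1, HasDerivWithinAt
      (fun s : ℝ => (∑ j ∈ range (n + 1), P j * s ^ j) * Real.exp (-(b * s)))
      ((∑ j ∈ range (n + 1), (j : ℝ) * P j * s ^ (j - 1) -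
        b * ∑ j ∈ range (n + 1), P j * s ^ j) * Real.exp (-(b * s))) (Set.Icc (0:ℝ) 1) s := by
    intro s _
    apply HasDerivAt.hasDerivWithinAt
    refine ((hphi s).mul (hexp s)).congr_deriv ?_
    ring
  have hbound : ∀ s ∈ Set.Icc (0:ℝ) 1, ‖(∑ j ∈ range (n + 1), (j : ℝ) * P j * s ^ (j - 1) -
        b * ∑ j ∈ range (n + 1), P j * s ^ j) * Real.exp (-(b * s))‖ ≤ ε := by
    intro s hs
    rw [norm_mul, Real.norm_eq_abs, Real.norm_eq_abs, abs_of_pos (Real.exp_pos _)]
    have h1 := h s hs.1 hs.2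
    have h2 : Real.exp (-(b * s)) ≤ 1 := by
      rw [Real.exp_le_one_iff]
      have := mul_nonneg hb hs.1
      linarith
    calc _ ≤ ε * 1 := mul_le_mul h1 h2 (Real.exp_pos _).le ((abs_nonneg _).trans h1)
      _ = ε := mul_one _
  have h3 := Convex.norm_image_sub_le_of_norm_hasDerivWithin_le hpsi hbound
    (convex_Icc (0:ℝ) 1) (Set.left_mem_Icc.2 zero_le_one) (Set.right_mem_Icc.2 zero_le_one)
  have h4 : ∑ j ∈ range (n + 1), P j * (0:ℝ) ^ j = P 0 := by
    rw [Finset.sum_eq_single 0]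
    · simp
    · intro j _ hj
      rw [zero_pow hj, mul_zero]
    · intro h5
      exact absurd (Finset.mem_range.2 (Nat.succ_pos n)) h5
  simp only [one_pow, mul_one, hsum, h4, mul_zero, neg_zero, Real.exp_zero, one_mul, sub_zero,
    norm_one] at h3
  rw [abs_sub_comm]
  exact h3

end AC

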