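import Pool.Agent.Helper949.AC.Defs2

set_option autoImplicit false

/-!
Definitions for the asymptotics of the average state complexity of intersections.
Tables `T : V → Fin k → V`; `rn T g w x` is the state reached from `x` after reading `w`.
-/

namespace AC

open Finset

variable {V : Type} {k : ℕ}

end AC

namespace AC
open Finset

end AC

namespace AC
open Finset

/-! TARGETS -/
private theorem j18490_mem_cov {V : Type} {k : ℕ} [Fintype V] (T : V → Fin k → V) (g : ℕ)
    (Q : Finset (Fin g → Fin k)) (p : V) : p ∈ cov T g Q ↔ ∃ w ∈ Q, ∃ x, rn T g w x = p := by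
  classical
  unfold cov
  rw [Finset.mem_filter]
  simp

private theorem j18490_cw_pos {V : Type} {k : ℕ} [Fintype V] (T T' : V → Fin k → V) (g : ℕ) (p q : V) :
    0 < cw T T' g p q ↔ ∃ w : Fin g → Fin k, (∃ x, rn T g w x = p) ∧ (∃ y, rn T' g w y = q) := by
  classical
  unfold cw
  rw [Finset.card_pos]
  constructor
  · rintro ⟨w, hw⟩
    rw [Finset.mem_filter] at hw
    exact ⟨w, hw.2⟩
  · rintro ⟨w, hw⟩
    exact ⟨w, by rw [Finset.mem_filter]; exact ⟨Finset.mem_univ _, hw⟩⟩

private theorem j18490_cwm_pos {V : Type} {k : ℕ} [Fintype V] (T T' : V → Fin k → V) (h g : ℕ) (p q : V) :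
    0 < cwm T T' h g p q ↔ ∃ w : Fin g → Fin k, (∃ x ∈ cov T h univ, rn T g w x = p) ∧
      (∃ y ∈ cov T' h univ, rn T' g w y = q) := by
  classical
  unfold cwm
  rw [Finset.card_pos]
  constructor
  · rintro ⟨w, hw⟩
    rw [Finset.mem_filter] at hw
    exact ⟨w, hw.2⟩
  · rintro ⟨w, hw⟩
    exact ⟨w, by rw [Finset.mem_filter]; exact ⟨Finset.mem_univ _, hw⟩⟩

private theorem j18490_cwm_le {V W : Type} {k : ℕ} [Fintype V] [Fintype W] (S S' : V → Fin k → V)
    (T T' : W → Fin k → W) (h g : ℕ) (P Q : V) (p q : W)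
    (H : ∀ w : Fin g → Fin k, (∃ x ∈ cov S h univ, rn S g w x = P) →
      (∃ y ∈ cov S' h univ, rn S' g w y = Q) → (∃ x, rn T g w x = p) ∧ (∃ y, rn T' g w y = q)) :
    cwm S S' h g P Q ≤ cw T T' g p q := by
  classical
  unfold cwm cw
  apply Finset.card_le_card
  intro v hv
  rw [Finset.mem_filter] at hv ⊢
  exact ⟨Finset.mem_univ _, H v hv.2.1 hv.2.2⟩

/-- runs commute with the embedding -/
theorem rn_emb {k m M : ℕ} {e : Fin (m + 1) → Fin (M + 1)} {T : Fin (m + 1) → Fin k → Fin (m + 1)}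
    {S : Fin (M + 1) → Fin k → Fin (M + 1)} (he : Emb e T S) (g : ℕ) (w : Fin g → Fin k)
    (x : Fin (m + 1)) : rn S g w (e x) = e (rn T g w x) := by
  induction g with
  | zero => rfl
  | succ g ih =>
    show S (rn S g (fun i => w i.castSucc) (e x)) (w (Fin.last g)) =
      e (T (rn T g (fun i => w i.castSucc) x) (w (Fin.last g)))
    rw [ih, he.2.2]

/-- upper comparison -/
theorem cw_emb_pos {k m M : ℕ} {e e' : Fin (m + 1) → Fin (M + 1)}
    {T T' : Fin (m + 1) → Fin k → Fin (m + 1)} {S S' : Fin (M + 1) → Fin k → Fin (M + 1)}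
    (he : Emb e T S) (he' : Emb e' T' S') (g : ℕ) :
    (univ.filter (fun p : Fin (m + 1) × Fin (m + 1) => 1 ≤ cw T T' g p.1 p.2)).card
      ≤ (univ.filter (fun p : Fin (M + 1) × Fin (M + 1) => 1 ≤ cw S S' g p.1 p.2)).card := by
  classical
  refine Finset.card_le_card_of_injOn (fun p => (e p.1, e' p.2)) ?_ ?_
  · intro p hp
    have hp' : 1 ≤ cw T T' g p.1 p.2 := by simpa using hp
    have hq : 1 ≤ cw S S' g (e p.1) (e' p.2) := by
      obtain ⟨w, ⟨x, hx⟩, ⟨y, hy⟩⟩ := (j18490_cw_pos _ _ _ _ _).mp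
        (Nat.lt_of_lt_of_le Nat.zero_lt_one hp')
      refine (j18490_cw_pos _ _ _ _ _).mpr ⟨w, ⟨e x, ?_⟩, ⟨e' y, ?_⟩⟩
      · rw [rn_emb he, hx]
      · rw [rn_emb he', hy]
    simpa using hq
  · intro p _ q _ hpq
    simp only [Prod.mk.injEq] at hpq
    exact Prod.ext (he.1 hpq.1) (he'.1 hpq.2)

/-- splitting a run -/
private theorem j18490_rn_add {V : Type} {k : ℕ} (S : V → Fin k → V) (a : ℕ) (b : ℕ) (w : Fin (a + b) → Fin k)
    (x : V) : rn S (a + b) w x =
      rn S b (fun i => w (Fin.natAdd a i)) (rn S a (fun i => w (Fin.castAdd b i)) x) := by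
  induction b with
  | zero => rfl
  | succ b ih =>
    show S (rn S (a + b) (fun i => w i.castSucc) x) (w (Fin.last (a + b))) =
      S (rn S b (fun i => w (Fin.natAdd a i.castSucc)) (rn S a (fun i => w (Fin.castAdd (b + 1) i)) x))
        (w (Fin.natAdd a (Fin.last b)))
    rw [ih]
    rfl

private theorem j18490_claim1 {k m M : ℕ} (hk : 1 ≤ k) {e : Fin (m + 1) → Fin (M + 1)}
    {T : Fin (m + 1) → Fin k → Fin (m + 1)} {S : Fin (M + 1) → Fin k → Fin (M + 1)}
    (hT : Ac T 0) (he : Emb e T S) (h : ℕ) :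
    ((cov S h univ \ univ.image e).card : ℝ) ≤
      ((cov S h univ).card : ℝ) + h * (k : ℝ) ^ h - (m + 1) := by
  classical
  have hsub : (univ.image e) \ cov S h univ ⊆
      (univ : Finset (Σ i : Fin h, (Fin i.1 → Fin k))).image (fun s => e (rn T s.1.1 s.2 0)) := by
    intro P hP
    rw [Finset.mem_sdiff, Finset.mem_image] at hP
    obtain ⟨⟨q, -, hq⟩, hPA⟩ := hP
    obtain ⟨l, w, hw⟩ := hT q
    rw [Finset.mem_image]
    by_cases hl : l < h
    · exact ⟨⟨⟨l, hl⟩, w⟩, Finset.mem_univ _, by rw [← hq, ← hw]⟩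
    · exfalso
      apply hPA
      obtain ⟨a, rfl⟩ : ∃ a, l = a + h := ⟨l - h, by omega⟩
      rw [j18490_mem_cov]
      refine ⟨fun i => w (Fin.natAdd a i), Finset.mem_univ _,
        rn S a (fun i => w (Fin.castAdd h i)) 0, ?_⟩
      rw [← j18490_rn_add, ← hq, ← hw, ← rn_emb he, he.2.1]
  have hcard : ((univ.image e) \ cov S h univ).card ≤ h * k ^ h := by
    refine (Finset.card_le_card hsub).trans (Finset.card_image_le.trans ?_)
    rw [Finset.card_univ, Fintype.card_sigma]
    calc ∑ i : Fin h, Fintype.card (Fin i.1 → Fin k) ≤ ∑ i : Fin h, k ^ h := by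
          apply Finset.sum_le_sum
          intro i _
          rw [Fintype.card_fun, Fintype.card_fin, Fintype.card_fin]
          exact Nat.pow_le_pow_right hk i.2.le
      _ = h * k ^ h := by simp
  have hR : (univ.image e).card = m + 1 := by
    rw [Finset.card_image_of_injective _ he.1, Finset.card_univ, Fintype.card_fin]
  have h1 := Finset.card_sdiff_add_card_inter (univ.image e) (cov S h univ)
  have h2 := Finset.card_sdiff_add_card_inter (cov S h univ) (univ.image e)
  rw [Finset.inter_comm] at h2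
  have h3 : (cov S h univ \ univ.image e).card + (m + 1) ≤ (cov S h univ).card + h * k ^ h := by
    omega
  have h4 : ((cov S h univ \ univ.image e).card : ℝ) + (m + 1) ≤
      ((cov S h univ).card : ℝ) + h * (k : ℝ) ^ h := by
    exact_mod_cast h3
  linarith

/-- lower comparison: only words whose starting state has predecessors of order `h` are counted in
the big table, and few such starting states lie outside the accessible part -/
theorem lower_comp {k m M : ℕ} (hk : 1 ≤ k) {e e' : Fin (m + 1) → Fin (M + 1)}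
    {T T' : Fin (m + 1) → Fin k → Fin (m + 1)} {S S' : Fin (M + 1) → Fin k → Fin (M + 1)}
    (hT : Ac T 0) (hT' : Ac T' 0) (he : Emb e T S) (he' : Emb e' T' S') (h g : ℕ) (β : ℝ)
    (hβ0 : 0 ≤ β) (hβ1 : β ≤ 1) :
    ∑ P, ∑ Q, (1 - β ^ (cwm S S' h g P Q))
      ≤ ∑ p, ∑ q, (1 - β ^ (cw T T' g p q))
        + ((M : ℝ) + 1) * (k : ℝ) ^ g *
          ((((cov S h univ).card : ℝ) + h * (k : ℝ) ^ h - (m + 1))
            + (((cov S' h univ).card : ℝ) + h * (k : ℝ) ^ h - (m + 1))) := by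
  classical
  have hc1 := j18490_claim1 hk hT he h
  have hc2 := j18490_claim1 hk hT' he' h
  set D := cov S h univ \ univ.image e with hD
  set D' := cov S' h univ \ univ.image e' with hD'
  set Ex := (D ×ˢ (univ : Finset (Fin g → Fin k))).image (fun z => rn S g z.2 z.1) with hEx
  set Ex' := (D' ×ˢ (univ : Finset (Fin g → Fin k))).image (fun z => rn S' g z.2 z.1) with hEx'
  have hExc : (Ex.card : ℝ) ≤ (D.card : ℝ) * (k : ℝ) ^ g := by
    have : Ex.card ≤ D.card * k ^ g := by
      refine Finset.card_image_le.trans ?_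
      rw [Finset.card_product, Finset.card_univ, Fintype.card_fun, Fintype.card_fin,
        Fintype.card_fin]
    exact_mod_cast this
  have hExc' : (Ex'.card : ℝ) ≤ (D'.card : ℝ) * (k : ℝ) ^ g := by
    have : Ex'.card ≤ D'.card * k ^ g := by
      refine Finset.card_image_le.trans ?_
      rw [Finset.card_product, Finset.card_univ, Fintype.card_fun, Fintype.card_fin,
        Fintype.card_fin]
    exact_mod_cast this
  have hpre : ∀ P, P ∉ Ex → ∀ (w : Fin g → Fin k) (x : Fin (M + 1)), x ∈ cov S h univ →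
      rn S g w x = P → ∃ y, P = e (rn T g w y) := by
    intro P hP w x hx hxP
    have hxR : x ∈ univ.image e := by
      by_contra hxR
      apply hP
      rw [hEx, Finset.mem_image]
      exact ⟨(x, w), Finset.mem_product.mpr ⟨Finset.mem_sdiff.mpr ⟨hx, hxR⟩, Finset.mem_univ _⟩, hxP⟩
    obtain ⟨y, -, hy⟩ := Finset.mem_image.mp hxR
    refine ⟨y, ?_⟩
    rw [← rn_emb he, hy, hxP]
  have hpre' : ∀ P, P ∉ Ex' → ∀ (w : Fin g → Fin k) (x : Fin (M + 1)), x ∈ cov S' h univ →
      rn S' g w x = P → ∃ y, P = e' (rn T' g w y) := by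
    intro P hP w x hx hxP
    have hxR : x ∈ univ.image e' := by
      by_contra hxR
      apply hP
      rw [hEx', Finset.mem_image]
      exact ⟨(x, w), Finset.mem_product.mpr ⟨Finset.mem_sdiff.mpr ⟨hx, hxR⟩, Finset.mem_univ _⟩, hxP⟩
    obtain ⟨y, -, hy⟩ := Finset.mem_image.mp hxR
    refine ⟨y, ?_⟩
    rw [← rn_emb he', hy, hxP]
  set c : Fin (m + 1) → Fin (m + 1) → ℝ := fun p q => 1 - β ^ (cw T T' g p q) with hcdef
  have hc0 : ∀ p q, 0 ≤ c p q := by
    intro p q
    have := pow_le_one₀ (n := cw T T' g p q) hβ0 hβ1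
    simp only [hcdef]
    linarith
  have hG0 : ∀ P Q, 0 ≤ ∑ p, ∑ q, (if e p = P ∧ e' q = Q then c p q else 0) := by
    intro P Q
    refine Finset.sum_nonneg (fun p _ => Finset.sum_nonneg (fun q _ => ?_))
    split_ifs
    · exact hc0 p q
    · exact le_rfl
  have hpt : ∀ P Q, (1 - β ^ (cwm S S' h g P Q)) ≤
      (∑ p, ∑ q, (if e p = P ∧ e' q = Q then c p q else 0))
        + ((if P ∈ Ex then (1 : ℝ) else 0) + (if Q ∈ Ex' then (1 : ℝ) else 0)) := by
    intro P Q
    have hb0 : 0 ≤ β ^ (cwm S S' h g P Q) := pow_nonneg hβ0 _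
    by_cases hP : P ∈ Ex
    · rw [if_pos hP]
      have := hG0 P Q
      have h2 : (0 : ℝ) ≤ (if Q ∈ Ex' then (1 : ℝ) else 0) := by split_ifs <;> norm_num
      linarith
    by_cases hQ : Q ∈ Ex'
    · rw [if_pos hQ]
      have := hG0 P Q
      have h2 : (0 : ℝ) ≤ (if P ∈ Ex then (1 : ℝ) else 0) := by split_ifs <;> norm_num
      linarith
    rw [if_neg hP, if_neg hQ, add_zero, add_zero]
    by_cases hz : cwm S S' h g P Q = 0
    · rw [hz, pow_zero, sub_self]
      exact hG0 P Q
    · have hpos : 0 < cwm S S' h g P Q := Nat.pos_of_ne_zero hz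
      obtain ⟨w, ⟨x, hx, hxP⟩, ⟨y, hy, hyQ⟩⟩ := (j18490_cwm_pos _ _ _ _ _ _).mp hpos
      obtain ⟨x0, hx0⟩ := hpre P hP w x hx hxP
      obtain ⟨y0, hy0⟩ := hpre' Q hQ w y hy hyQ
      set p := rn T g w x0 with hp
      set q := rn T' g w y0 with hq
      have hle : cwm S S' h g P Q ≤ cw T T' g p q := by
        apply j18490_cwm_le
        rintro v ⟨x1, hx1, hxP1⟩ ⟨y1, hy1, hyQ1⟩
        obtain ⟨x2, hx2⟩ := hpre P hP v x1 hx1 hxP1
        obtain ⟨y2, hy2⟩ := hpre' Q hQ v y1 hy1 hyQ1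
        refine ⟨⟨x2, ?_⟩, ⟨y2, ?_⟩⟩
        · exact he.1 (by rw [← hx2, ← hx0])
        · exact he'.1 (by rw [← hy2, ← hy0])
      have h1 : (1 - β ^ (cwm S S' h g P Q)) ≤ c p q := by
        have := pow_le_pow_of_le_one hβ0 hβ1 hle
        simp only [hcdef]
        linarith
      refine h1.trans ?_
      have h2 : c p q = (if e p = P ∧ e' q = Q then c p q else 0) := by
        rw [if_pos ⟨hx0.symm, hy0.symm⟩]
      rw [h2]
      have hnn : ∀ p q, 0 ≤ (if e p = P ∧ e' q = Q then c p q else 0) := by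
        intro p q
        split_ifs
        · exact hc0 p q
        · exact le_rfl
      calc (if e p = P ∧ e' q = Q then c p q else 0)
          ≤ ∑ q', (if e p = P ∧ e' q' = Q then c p q' else 0) :=
            Finset.single_le_sum (f := fun q' => (if e p = P ∧ e' q' = Q then c p q' else 0))
              (fun q' _ => hnn p q') (Finset.mem_univ q)
        _ ≤ ∑ p', ∑ q', (if e p' = P ∧ e' q' = Q then c p' q' else 0) :=
            Finset.single_le_sum
              (f := fun p' => ∑ q', (if e p' = P ∧ e' q' = Q then c p' q' else 0))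
              (fun p' _ => Finset.sum_nonneg (fun q' _ => hnn p' q')) (Finset.mem_univ p)
  have hsumG : ∑ P, ∑ Q, (∑ p, ∑ q, (if e p = P ∧ e' q = Q then c p q else 0)) = ∑ p, ∑ q, c p q := by
    have e1 : ∀ P : Fin (M + 1), ∑ Q : Fin (M + 1), (∑ p, ∑ q, (if e p = P ∧ e' q = Q then c p q else 0))
        = ∑ p, ∑ q, (if e p = P then c p q else 0) := by
      intro P
      rw [Finset.sum_comm]
      refine Finset.sum_congr rfl (fun p _ => ?_)
      rw [Finset.sum_comm]
      refine Finset.sum_congr rfl (fun q _ => ?_)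
      by_cases hpP : e p = P
      · simp [hpP]
      · simp [hpP]
    rw [Finset.sum_congr rfl (fun P _ => e1 P), Finset.sum_comm]
    refine Finset.sum_congr rfl (fun p _ => ?_)
    rw [Finset.sum_comm]
    refine Finset.sum_congr rfl (fun q _ => ?_)
    simp
  have hs1 : ∑ P : Fin (M + 1), ∑ _Q : Fin (M + 1), (if P ∈ Ex then (1 : ℝ) else 0)
      = ((M : ℝ) + 1) * (Ex.card : ℝ) := by
    rw [Finset.sum_comm]
    simp [Finset.sum_ite_mem]
  have hs2 : ∑ _P : Fin (M + 1), ∑ Q : Fin (M + 1), (if Q ∈ Ex' then (1 : ℝ) else 0)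
      = ((M : ℝ) + 1) * (Ex'.card : ℝ) := by
    simp [Finset.sum_ite_mem]
  calc ∑ P, ∑ Q, (1 - β ^ (cwm S S' h g P Q))
      ≤ ∑ P, ∑ Q, ((∑ p, ∑ q, (if e p = P ∧ e' q = Q then c p q else 0))
        + ((if P ∈ Ex then (1 : ℝ) else 0) + (if Q ∈ Ex' then (1 : ℝ) else 0))) :=
        Finset.sum_le_sum (fun P _ => Finset.sum_le_sum (fun Q _ => hpt P Q))
    _ = ∑ p, ∑ q, c p q + (((M : ℝ) + 1) * (Ex.card : ℝ) + ((M : ℝ) + 1) * (Ex'.card : ℝ)) := by
        simp only [Finset.sum_add_distrib]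
        rw [hsumG, hs1, hs2]
    _ ≤ _ := by
        have hM : (0 : ℝ) ≤ (M : ℝ) + 1 := by positivity
        have hkg : (0 : ℝ) ≤ (k : ℝ) ^ g := by positivity
        have i1 : ((M : ℝ) + 1) * (Ex.card : ℝ) ≤ ((M : ℝ) + 1) * (k : ℝ) ^ g *
            (((cov S h univ).card : ℝ) + h * (k : ℝ) ^ h - (m + 1)) := by
          rw [mul_assoc]
          apply mul_le_mul_of_nonneg_left _ hM
          rw [mul_comm ((k : ℝ) ^ g)]
          exact hExc.trans (mul_le_mul_of_nonneg_right hc1 hkg)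
        have i2 : ((M : ℝ) + 1) * (Ex'.card : ℝ) ≤ ((M : ℝ) + 1) * (k : ℝ) ^ g *
            (((cov S' h univ).card : ℝ) + h * (k : ℝ) ^ h - (m + 1)) := by
          rw [mul_assoc]
          apply mul_le_mul_of_nonneg_left _ hM
          rw [mul_comm ((k : ℝ) ^ g)]
          exact hExc'.trans (mul_le_mul_of_nonneg_right hc2 hkg)
        rw [mul_add]
        linarith

end AC

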