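import Pool.Agent.Helper949.AC.Defs2
import Pool.Agent.Helper949.AC.GenF

set_option autoImplicit false

/-!
Definitions for the asymptotics of the average state complexity of intersections.
Tables `T : V → Fin k → V`; `rn T g w x` is the state reached from `x` after reading `w`.
-/

namespace AC

open Finset

variable {V : Type} {k : ℕ}

end AC

namespace AC
open Finset

/-! GIVEN -/
private theorem os_mul {Ω : Type} [Fintype Ω] (c : ℝ) (f : Ω → ℝ) :
    avg (fun x => c * f x) = c * avg f := by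
  unfold avg
  rw [← Finset.mul_sum, mul_div_assoc]

private theorem os_sub {Ω : Type} [Fintype Ω] (f h : Ω → ℝ) :
    avg (fun x => f x - h x) = avg f - avg h := by
  unfold avg
  rw [Finset.sum_sub_distrib, sub_div]

private theorem os_sum {Ω : Type} [Fintype Ω] {ι : Type} (s : Finset ι) (f : ι → Ω → ℝ) :
    avg (fun x => ∑ i ∈ s, f i x) = ∑ i ∈ s, avg (f i) := by
  unfold avg
  rw [Finset.sum_comm, Finset.sum_div]

private theorem os_abs {Ω : Type} [Fintype Ω] (f h : Ω → ℝ) (hfh : ∀ x, |f x| ≤ h x) :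
    |avg f| ≤ avg h := by
  unfold avg
  have h0 : (0 : ℝ) ≤ (Fintype.card Ω : ℝ) := Nat.cast_nonneg _
  rw [abs_div, abs_of_nonneg h0]
  refine div_le_div_of_nonneg_right ?_ h0
  exact (Finset.abs_sum_le_sum_abs _ _).trans (Finset.sum_le_sum fun x _ => hfh x)

private theorem os_one {Ω : Type} [Fintype Ω] [Nonempty Ω] : avg (fun _ : Ω => (1 : ℝ)) = 1 := by
  unfold avg
  rw [Finset.sum_const, Finset.card_univ, nsmul_eq_mul, mul_one, div_self]
  exact_mod_cast Fintype.card_ne_zero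

private theorem os_mem_cov {V : Type} {k : ℕ} [Fintype V] (T : V → Fin k → V) (g : ℕ)
    (Q : Finset (Fin g → Fin k)) (p : V) :
    p ∈ cov T g Q ↔ ∃ w ∈ Q, ∃ x, rn T g w x = p := by
  simp only [cov, Finset.mem_filter, Finset.mem_univ, true_and]

private theorem os_mem_slice {k g : ℕ} (Q : Finset (Fin (g + 1) → Fin k)) (a : Fin k)
    (w : Fin g → Fin k) : w ∈ slice Q a ↔
      (Fin.snoc (α := fun _ => Fin k) w a : Fin (g + 1) → Fin k) ∈ Q := by
  unfold slice
  rw [Finset.mem_filter]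
  simp only [Finset.mem_univ, true_and]

private theorem os_mem_Bd {V : Type} {k : ℕ} [Fintype V] (g : ℕ) (Q : Finset (Fin (g + 1) → Fin k))
    (T : V → Fin k → V) (c : V × Fin k) :
    c ∈ Bd g Q T ↔ c.1 ∈ cov T g (slice Q c.2) := by
  simp only [Bd, Finset.mem_filter, Finset.mem_univ, true_and]

private theorem os_Xp_ne {V : Type} {k : ℕ} [Fintype V] (g : ℕ) (Q : Finset (Fin (g + 1) → Fin k))
    (T : V → Fin k → V) (p : V) :
    Xp g Q T p ≠ 0 ↔ ∃ c ∈ Bd g Q T, T c.1 c.2 = p := by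
  unfold Xp
  rw [Finset.card_ne_zero]
  simp only [Finset.Nonempty, Finset.mem_filter]

private theorem os_Bd_card {V : Type} {k : ℕ} [Fintype V] (g : ℕ)
    (Q : Finset (Fin (g + 1) → Fin k)) (T : V → Fin k → V) :
    (Bd g Q T).card = ∑ a : Fin k, (cov T g (slice Q a)).card := by
  classical
  rw [Finset.card_eq_sum_card_fiberwise (f := Prod.snd) (t := univ)
    (fun _ _ => Finset.mem_coe.2 (Finset.mem_univ _))]
  refine Finset.sum_congr rfl fun a _ => ?_
  refine Finset.card_nbij' (fun c => c.1) (fun v => (v, a)) ?_ ?_ ?_ ?_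
  · intro c hc
    rw [Finset.mem_coe, Finset.mem_filter, os_mem_Bd] at hc
    rw [Finset.mem_coe, ← hc.2]
    exact hc.1
  · intro v hv
    rw [Finset.mem_coe, Finset.mem_filter, os_mem_Bd]
    exact ⟨hv, rfl⟩
  · intro c hc
    rw [Finset.mem_coe, Finset.mem_filter] at hc
    exact Prod.ext rfl hc.2.symm
  · intro v _
    rfl

/-! TARGETS -/
theorem Bd_card {V : Type} {k : ℕ} [Fintype V] [DecidableEq V] (g : ℕ)
    (Q : Finset (Fin (g + 1) → Fin k)) (T : V → Fin k → V) :
    (Bd g Q T).card = ∑ a : Fin k, (cov T g (slice Q a)).card := os_Bd_card g Q T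

theorem mem_cov_succ {V : Type} {k : ℕ} [Fintype V] [DecidableEq V] (g : ℕ)
    (Q : Finset (Fin (g + 1) → Fin k)) (T : V → Fin k → V) (p : V) :
    p ∈ cov T (g + 1) Q ↔ Xp g Q T p ≠ 0 := by
  rw [os_Xp_ne, os_mem_cov]
  constructor
  · rintro ⟨w, hw, x, hx⟩
    refine ⟨(rn T g (fun i => w i.castSucc) x, w (Fin.last g)), ?_, hx⟩
    rw [os_mem_Bd, os_mem_cov]
    refine ⟨fun i => w i.castSucc, ?_, x, rfl⟩
    rw [os_mem_slice]
    have : (Fin.snoc (α := fun _ => Fin k) (fun i : Fin g => w i.castSucc) (w (Fin.last g)) :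
        Fin (g + 1) → Fin k) = w := Fin.snoc_init_self w
    simp only
    rw [this]
    exact hw
  · rintro ⟨⟨v, a⟩, hc1, hc2⟩
    rw [os_mem_Bd, os_mem_cov] at hc1
    obtain ⟨w, hw, x, hx⟩ := hc1
    rw [os_mem_slice] at hw
    refine ⟨_, hw, x, ?_⟩
    rw [rn]
    simp only [Fin.snoc_castSucc, Fin.snoc_last]
    simp only at hx
    rw [hx]
    exact hc2

theorem one_step {V : Type} {k : ℕ} [Fintype V] [DecidableEq V] [Nonempty V] (g : ℕ)
    (Q : Finset (Fin (g + 1) → Fin k)) (C : ℝ)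
    (hcore : ∀ s : ℝ, 0 ≤ s → s ≤ 1 →
      |avg (fun T : V → Fin k → V => ∑ p : V, (Xp g Q T p : ℝ) * s ^ (Xp g Q T p - 1))
      - avg (fun T : V → Fin k → V =>
          (∑ p : V, ((Bd g Q T).card : ℝ) * s ^ (Xp g Q T p)) / Fintype.card V)| ≤ C)
    (b : ℝ) (hb : 0 ≤ b) :
    |avg (fun T : V → Fin k → V => (((cov T (g + 1) Q)ᶜ).card : ℝ) / Fintype.card V)
        - Real.exp (-b)|
      ≤ C / Fintype.card V
        + avg (fun T : V → Fin k → V => |((Bd g Q T).card : ℝ) / Fintype.card V - b|) := by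
  classical
  set n : ℝ := (Fintype.card V : ℝ) with hn
  have hn0 : 0 < n := by
    rw [hn]
    exact_mod_cast Fintype.card_pos
  let K := Fintype.card (V × Fin k)
  have hX : ∀ (T : V → Fin k → V) (p : V), Xp g Q T p ≤ K := fun T p => Finset.card_le_univ _
  let P : ℕ → ℝ := fun j => avg (fun T : V → Fin k → V =>
    ((univ.filter (fun p => Xp g Q T p = j)).card : ℝ) / n)
  have hgen : ∀ φ : ℕ → ℝ, ∑ j ∈ range (K + 1), φ j * P j =
      avg (fun T : V → Fin k → V => (∑ p, φ (Xp g Q T p)) / n) := by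
    intro φ
    have h1 : ∀ T : V → Fin k → V, (∑ p, φ (Xp g Q T p)) / n = ∑ j ∈ range (K + 1),
        φ j * (((univ.filter (fun p => Xp g Q T p = j)).card : ℝ) / n) := by
      intro T
      rw [← Finset.sum_fiberwise_of_maps_to (s := univ) (t := range (K + 1))
        (g := fun p => Xp g Q T p)
        (fun p _ => Finset.mem_range.2 (Nat.lt_succ_of_le (hX T p)))
        (fun p => φ (Xp g Q T p)), Finset.sum_div]
      refine Finset.sum_congr rfl fun j _ => ?_
      have h2 : ∑ p ∈ univ.filter (fun p => Xp g Q T p = j), φ (Xp g Q T p) =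
          ∑ p ∈ univ.filter (fun p => Xp g Q T p = j), φ j :=
        Finset.sum_congr rfl fun p hp => by rw [(Finset.mem_filter.1 hp).2]
      rw [h2, Finset.sum_const, nsmul_eq_mul]
      ring
    simp only [h1]
    rw [os_sum]
    refine Finset.sum_congr rfl fun j _ => ?_
    rw [os_mul]
  have hsum : ∑ j ∈ range (K + 1), P j = 1 := by
    have h1 := hgen (fun _ => 1)
    simp only [one_mul] at h1
    rw [h1]
    have h2 : ∀ T : V → Fin k → V, (∑ p : V, (1 : ℝ)) / n = 1 := by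
      intro T
      rw [Finset.sum_const, Finset.card_univ, nsmul_eq_mul, mul_one, ← hn, div_self hn0.ne']
    rw [show (fun T : V → Fin k → V => (∑ p : V, (1 : ℝ)) / n) = fun _ => 1 from funext h2]
    exact os_one
  have hP0 : P 0 = avg (fun T : V → Fin k → V => (((cov T (g + 1) Q)ᶜ).card : ℝ) / n) := by
    show avg _ = avg _
    congr 1
    funext T
    congr 2
    congr 1
    ext p
    rw [Finset.mem_filter, Finset.mem_compl, mem_cov_succ]
    simp
  rw [← hP0]
  refine gen_fun K P b _ hb hsum fun s hs0 hs1 => ?_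
  have e1 : ∑ j ∈ range (K + 1), (j : ℝ) * P j * s ^ (j - 1) =
      avg (fun T : V → Fin k → V => (∑ p, ((Xp g Q T p : ℕ) : ℝ) * s ^ (Xp g Q T p - 1)) / n) := by
    rw [← hgen (fun j => (j : ℝ) * s ^ (j - 1))]
    refine Finset.sum_congr rfl fun j _ => ?_
    ring
  have e2 : b * ∑ j ∈ range (K + 1), P j * s ^ j =
      avg (fun T : V → Fin k → V => (∑ p, b * s ^ (Xp g Q T p)) / n) := by
    rw [← hgen (fun j => b * s ^ j), Finset.mul_sum]
    refine Finset.sum_congr rfl fun j _ => ?_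
    ring
  rw [e1, e2]
  have e3 : avg (fun T : V → Fin k → V =>
        (∑ p, ((Xp g Q T p : ℕ) : ℝ) * s ^ (Xp g Q T p - 1)) / n) -
      avg (fun T : V → Fin k → V => (∑ p, b * s ^ (Xp g Q T p)) / n) =
      n⁻¹ * (avg (fun T : V → Fin k → V => ∑ p : V, (Xp g Q T p : ℝ) * s ^ (Xp g Q T p - 1))
      - avg (fun T : V → Fin k → V =>
          (∑ p : V, ((Bd g Q T).card : ℝ) * s ^ (Xp g Q T p)) / n)) +
      avg (fun T : V → Fin k → V => n⁻¹ * ((∑ p : V, ((Bd g Q T).card : ℝ) *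
        s ^ (Xp g Q T p)) / n) - (∑ p, b * s ^ (Xp g Q T p)) / n) := by
    rw [os_sub, os_mul, mul_sub]
    have e4 : avg (fun T : V → Fin k → V =>
        (∑ p, ((Xp g Q T p : ℕ) : ℝ) * s ^ (Xp g Q T p - 1)) / n) =
        n⁻¹ * avg (fun T : V → Fin k → V => ∑ p : V, (Xp g Q T p : ℝ) * s ^ (Xp g Q T p - 1)) := by
      rw [← os_mul]
      congr 1
      funext T
      rw [div_eq_inv_mul]
    rw [e4]
    ring
  rw [e3]
  refine (abs_add_le _ _).trans (add_le_add ?_ ?_)
  · rw [abs_mul, abs_of_pos (inv_pos.2 hn0), div_eq_inv_mul]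
    exact mul_le_mul_of_nonneg_left (hcore s hs0 hs1) (inv_pos.2 hn0).le
  · refine os_abs _ _ fun T => ?_
    have e5 : n⁻¹ * ((∑ p : V, ((Bd g Q T).card : ℝ) * s ^ (Xp g Q T p)) / n) -
        (∑ p, b * s ^ (Xp g Q T p)) / n =
        (((Bd g Q T).card : ℝ) / n - b) * ((∑ p : V, s ^ (Xp g Q T p)) / n) := by
      rw [← Finset.mul_sum, ← Finset.mul_sum]
      field_simp
    rw [e5, abs_mul]
    have h6 : 0 ≤ (∑ p : V, s ^ (Xp g Q T p)) / n := by positivity
    have h7 : (∑ p : V, s ^ (Xp g Q T p)) / n ≤ 1 := by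
      rw [div_le_one hn0]
      calc ∑ p : V, s ^ (Xp g Q T p) ≤ ∑ p : V, (1 : ℝ) :=
            Finset.sum_le_sum fun p _ => pow_le_one₀ hs0 hs1
        _ = n := by simp [hn]
    rw [abs_of_nonneg h6]
    exact mul_le_of_le_one_right (abs_nonneg _) h7

end AC

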