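import Pool.Agent.Helper949.AC.Outs
import Pool.Agent.Helper949.AC.Cyc
import Pool.Agent.Helper949.AC.Core
import Pool.Agent.Helper949.AC.Step

set_option autoImplicit false

namespace AC
open Finset

theorem one_step' (k g : ℕ) (hk : 1 ≤ k) (Q : Finset (Fin (g + 1) → Fin k)) (M : ℕ)
    (b : ℝ) (hb : 0 ≤ b) :
    |avg (fun T : Fin (M + 1) → Fin k → Fin (M + 1) =>
        (((cov T (g + 1) Q)ᶜ).card : ℝ) / (M + 1)) - Real.exp (-b)|
      ≤ (k + 4 * k ^ 2 * (g * k ^ g)) / (M + 1)
        + avg (fun T : Fin (M + 1) → Fin k → Fin (M + 1) =>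
            |(∑ a : Fin k, ((cov T g (slice Q a)).card : ℝ)) / (M + 1) - b|) := by
  have h := one_step (V := Fin (M + 1)) (k := k) g Q ((k : ℝ) + 4 * (k : ℝ) ^ 2 * (g * (k : ℝ) ^ g))
    (fun s hs0 hs1 => core_resample (V := Fin (M + 1)) (k := k) g hk Q s hs0 hs1
      (fun T y => outs_card T g hk y)
      (fun T R v a y => cov_update T g R v a y)
      (cycle_avg (V := Fin (M + 1)) (k := k) g hk)) b hb
  simp only [Fintype.card_fin, Bd_card, Nat.cast_add, Nat.cast_one, Nat.cast_sum] at h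
  convert h using 2

end AC
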