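import Pool.Agent.Helper949.AC.Defs2
import Pool.Agent.Helper949.AC.McD
import Pool.Agent.Helper949.AC.Outs
import Pool.Agent.Helper949.AC.StepB

set_option autoImplicit false

/-!
Definitions for the asymptotics of the average state complexity of intersections.
Tables `T : V → Fin k → V`; `rn T g w x` is the state reached from `x` after reading `w`.
-/

namespace AC

open Finset

variable {V : Type} {k : ℕ}

end AC

namespace AC
open Finset

/-! GIVEN -/
private theorem avg_mono' {Ω : Type} [Fintype Ω] {f g : Ω → ℝ} (h : ∀ x, f x ≤ g x) : avg f ≤ avg g := by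
  unfold avg
  exact div_le_div_of_nonneg_right (Finset.sum_le_sum fun x _ => h x) (Nat.cast_nonneg _)

private theorem avg_const' {Ω : Type} [Fintype Ω] [Nonempty Ω] (c : ℝ) : avg (fun _ : Ω => c) = c := by
  unfold avg
  rw [Finset.sum_const, nsmul_eq_mul, Finset.card_univ]
  have : (Fintype.card Ω : ℝ) ≠ 0 := by exact_mod_cast Fintype.card_ne_zero
  field_simp

private theorem avg_add' {Ω : Type} [Fintype Ω] (f g : Ω → ℝ) :
    avg (fun x => f x + g x) = avg f + avg g := by
  unfold avg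
  rw [Finset.sum_add_distrib, add_div]

private theorem avg_div' {Ω : Type} [Fintype Ω] (f : Ω → ℝ) (c : ℝ) :
    avg (fun x => f x / c) = avg f / c := by
  unfold avg
  rw [← Finset.sum_div, div_right_comm]

private theorem avg_sum' {Ω ι : Type} [Fintype Ω] (s : Finset ι) (f : ι → Ω → ℝ) :
    avg (fun x => ∑ a ∈ s, f a x) = ∑ a ∈ s, avg (f a) := by
  unfold avg
  rw [Finset.sum_comm, Finset.sum_div]

private theorem pr_mono' {Ω : Type} [Fintype Ω] {P Q : Ω → Prop} (h : ∀ x, P x → Q x) : pr P ≤ pr Q := by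
  classical
  unfold pr
  refine div_le_div_of_nonneg_right ?_ (Nat.cast_nonneg _)
  exact_mod_cast Finset.card_le_card (by
    intro x hx
    rw [Finset.mem_filter] at hx ⊢
    exact ⟨hx.1, h x hx.2⟩)

private theorem avg_abs_le {Ω : Type} [Fintype Ω] [Nonempty Ω] (X : Ω → ℝ) (η : ℝ) (hη : 0 ≤ η)
    (hX : ∀ x, |X x| ≤ 1) : avg (fun x => |X x|) ≤ η + pr (fun x => η ≤ |X x|) := by
  classical
  have h1 : avg (fun x => |X x|) ≤ avg (fun x => η + if η ≤ |X x| then (1 : ℝ) else 0) := by
    apply avg_mono'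
    intro x
    split_ifs with h
    · linarith [hX x]
    · push Not at h
      linarith
  refine h1.trans (le_of_eq ?_)
  rw [avg_add', avg_const']
  congr 1
  unfold avg pr
  rw [Finset.sum_boole]

private theorem card_diff_le {V : Type} [DecidableEq V] (A B : Finset V) :
    |(A.card : ℝ) - B.card| ≤ (symmDiff A B).card := by
  have h1 : A.card ≤ (symmDiff A B).card + B.card := by
    refine (Finset.card_le_card_sdiff_add_card (s := A) (t := B)).trans ?_
    refine Nat.add_le_add_right (Finset.card_le_card ?_) _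
    intro x hx
    rw [Finset.mem_symmDiff]
    rw [Finset.mem_sdiff] at hx
    exact Or.inl hx
  have h2 : B.card ≤ (symmDiff A B).card + A.card := by
    refine (Finset.card_le_card_sdiff_add_card (s := B) (t := A)).trans ?_
    refine Nat.add_le_add_right (Finset.card_le_card ?_) _
    intro x hx
    rw [Finset.mem_symmDiff]
    rw [Finset.mem_sdiff] at hx
    exact Or.inr hx
  have h1' : (A.card : ℝ) ≤ (symmDiff A B).card + B.card := by exact_mod_cast h1
  have h2' : (B.card : ℝ) ≤ (symmDiff A B).card + A.card := by exact_mod_cast h2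
  rw [abs_le]
  constructor <;> linarith

private theorem compl_card_real {V : Type} [Fintype V] [DecidableEq V] (A : Finset V) :
    ((Aᶜ).card : ℝ) = Fintype.card V - A.card := by
  have h := Finset.card_add_card_compl A
  have h' : (A.card : ℝ) + (Aᶜ).card = Fintype.card V := by exact_mod_cast h
  linarith

private theorem lip {V : Type} {k : ℕ} [Fintype V] [DecidableEq V] (hk : 1 ≤ k) (T : V → Fin k → V)
    (g : ℕ) (Q : Finset (Fin g → Fin k)) (v : V) (a : Fin k) (y : V) :
    |(((cov (Function.update T v (Function.update (T v) a y)) g Q)ᶜ).card : ℝ) -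
      ((cov T g Q)ᶜ).card| ≤ 2 * (g * (k : ℝ) ^ g) + 1 := by
  rw [compl_card_real, compl_card_real]
  have h1 := card_diff_le (cov T g Q) (cov (Function.update T v (Function.update (T v) a y)) g Q)
  have h2 : (symmDiff (cov T g Q)
      (cov (Function.update T v (Function.update (T v) a y)) g Q)).card ≤
      g * k ^ g + g * k ^ g := by
    refine (Finset.card_le_card (cov_update T g Q v a y)).trans ?_
    refine (Finset.card_union_le _ _).trans ?_
    exact Nat.add_le_add (outs_card T g hk _) (outs_card T g hk _)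
  have h3 : ((symmDiff (cov T g Q)
      (cov (Function.update T v (Function.update (T v) a y)) g Q)).card : ℝ) ≤
      2 * (g * (k : ℝ) ^ g) := by
    have : ((symmDiff (cov T g Q)
      (cov (Function.update T v (Function.update (T v) a y)) g Q)).card : ℝ) ≤
      ((g * k ^ g + g * k ^ g : ℕ) : ℝ) := by exact_mod_cast h2
    refine this.trans (le_of_eq ?_)
    push_cast
    ring
  have h4 : |(Fintype.card V - (cov (Function.update T v (Function.update (T v) a y)) g Q).card : ℝ)
      - (Fintype.card V - (cov T g Q).card)| =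
      |((cov T g Q).card : ℝ) - (cov (Function.update T v (Function.update (T v) a y)) g Q).card| := by
    congr 1
    ring
  rw [h4]
  linarith

/-- concentration around the average -/
private theorem conc0 (k : ℕ) (hk : 1 ≤ k) (g : ℕ) (Q : Finset (Fin g → Fin k)) (η : ℝ) (hη : 0 < η) :
    ∃ c : ℝ, 0 < c ∧ ∀ M : ℕ,
    pr (fun T : Fin (M + 1) → Fin k → Fin (M + 1) =>
        η ≤ |(((cov T g Q)ᶜ).card : ℝ) / (M + 1) -
          avg (fun T : Fin (M + 1) → Fin k → Fin (M + 1) =>
            (((cov T g Q)ᶜ).card : ℝ) / (M + 1))|) ≤ 2 * Real.exp (-(c * (M + 1))) := by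
  have hkpos : (0 : ℝ) < k := by exact_mod_cast hk
  have hL : (0 : ℝ) < 2 * (g * (k : ℝ) ^ g) + 1 := by positivity
  refine ⟨η ^ 2 / (2 * k * (2 * (g * (k : ℝ) ^ g) + 1) ^ 2), by positivity, fun M => ?_⟩
  have hM : (0 : ℝ) < (M : ℝ) + 1 := by positivity
  have key := mcd_table (V := Fin (M + 1)) (k := k)
    (fun T => (((cov T g Q)ᶜ).card : ℝ)) (2 * (g * (k : ℝ) ^ g) + 1) hL
    (fun T v a y => lip hk T g Q v a y) (η * (M + 1)) (by positivity)
  have hexp : -((η * (M + 1)) ^ 2) /
      (2 * ((Fintype.card (Fin (M + 1)) : ℝ) * k) * (2 * (g * (k : ℝ) ^ g) + 1) ^ 2) =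
      -(η ^ 2 / (2 * k * (2 * (g * (k : ℝ) ^ g) + 1) ^ 2) * (M + 1)) := by
    rw [Fintype.card_fin]
    push_cast
    field_simp
  rw [hexp] at key
  refine le_trans (pr_mono' ?_) key
  intro T hT
  rw [avg_div', ← sub_div, abs_div, abs_of_pos hM, le_div_iff₀ hM] at hT
  exact hT

private theorem covc_le_one {k : ℕ} (g : ℕ) (Q : Finset (Fin g → Fin k)) (M : ℕ)
    (T : Fin (M + 1) → Fin k → Fin (M + 1)) :
    0 ≤ (((cov T g Q)ᶜ).card : ℝ) / (M + 1) ∧ (((cov T g Q)ᶜ).card : ℝ) / (M + 1) ≤ 1 := by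
  have hM : (0 : ℝ) < (M : ℝ) + 1 := by positivity
  refine ⟨by positivity, ?_⟩
  rw [div_le_one hM]
  have h := Finset.card_le_univ ((cov T g Q)ᶜ)
  rw [Fintype.card_fin] at h
  exact_mod_cast h

private theorem exp_small (c ε : ℝ) (hc : 0 < c) (hε : 0 < ε) :
    ∀ᶠ M : ℕ in Filter.atTop, 2 * Real.exp (-(c * (M + 1))) ≤ ε := by
  obtain ⟨N, hN⟩ := exists_nat_gt (2 / (c * ε))
  rw [Filter.eventually_atTop]
  refine ⟨N, fun M hM => ?_⟩
  have hM' : (N : ℝ) ≤ M := by exact_mod_cast hM
  have hx : 0 < c * ((M : ℝ) + 1) := by positivity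
  have h1 : c * ((M : ℝ) + 1) ≤ Real.exp (c * (M + 1)) := by
    have := Real.add_one_le_exp (c * ((M : ℝ) + 1))
    linarith
  rw [Real.exp_neg]
  have h2 : (Real.exp (c * ((M : ℝ) + 1)))⁻¹ ≤ (c * ((M : ℝ) + 1))⁻¹ := by gcongr
  have h3 : 2 / (c * ε) < M + 1 := by linarith
  have h4 : 2 * (c * ((M : ℝ) + 1))⁻¹ ≤ ε := by
    rw [div_lt_iff₀ (by positivity)] at h3
    rw [← div_eq_mul_inv, div_le_iff₀ hx]
    nlinarith
  linarith

/-- mean deviation from the average -/
private theorem dev0 (k : ℕ) (hk : 1 ≤ k) (g : ℕ) (Q : Finset (Fin g → Fin k)) (ε : ℝ) (hε : 0 < ε) :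
    ∀ᶠ M : ℕ in Filter.atTop,
    avg (fun T : Fin (M + 1) → Fin k → Fin (M + 1) =>
        |(((cov T g Q)ᶜ).card : ℝ) / (M + 1) -
          avg (fun T : Fin (M + 1) → Fin k → Fin (M + 1) =>
            (((cov T g Q)ᶜ).card : ℝ) / (M + 1))|) ≤ ε := by
  obtain ⟨c, hc, hpr⟩ := conc0 k hk g Q (ε / 2) (by positivity)
  filter_upwards [exp_small c (ε / 2) hc (by positivity)] with M hM
  have h0 : 0 ≤ avg (fun T : Fin (M + 1) → Fin k → Fin (M + 1) =>
            (((cov T g Q)ᶜ).card : ℝ) / (M + 1)) := by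
    have := avg_mono' (f := fun _ : Fin (M + 1) → Fin k → Fin (M + 1) => (0 : ℝ))
      (g := fun T : Fin (M + 1) → Fin k → Fin (M + 1) => (((cov T g Q)ᶜ).card : ℝ) / (M + 1))
      (fun T => (covc_le_one g Q M T).1)
    rwa [avg_const'] at this
  have h1 : avg (fun T : Fin (M + 1) → Fin k → Fin (M + 1) =>
            (((cov T g Q)ᶜ).card : ℝ) / (M + 1)) ≤ 1 := by
    have := avg_mono' (g := fun _ : Fin (M + 1) → Fin k → Fin (M + 1) => (1 : ℝ))
      (f := fun T : Fin (M + 1) → Fin k → Fin (M + 1) => (((cov T g Q)ᶜ).card : ℝ) / (M + 1))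
      (fun T => (covc_le_one g Q M T).2)
    rwa [avg_const'] at this
  have h2 := avg_abs_le (fun T : Fin (M + 1) → Fin k → Fin (M + 1) =>
        (((cov T g Q)ᶜ).card : ℝ) / (M + 1) -
          avg (fun T : Fin (M + 1) → Fin k → Fin (M + 1) =>
            (((cov T g Q)ᶜ).card : ℝ) / (M + 1))) (ε / 2) (by positivity) (by
      intro T
      have := covc_le_one g Q M T
      rw [abs_le]
      constructor <;> linarith [this.1, this.2])
  have h3 := hpr M
  linarith

private theorem FF_le_one (k : ℕ) (g : ℕ) (Q : Finset (Fin g → Fin k)) : FF k 1 g Q ≤ 1 := by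
  induction g with
  | zero =>
    unfold FF
    split_ifs <;> norm_num
  | succ g ih =>
    unfold FF
    rw [Real.exp_le_one_iff]
    apply Finset.sum_nonpos
    intro a _
    linarith [ih (slice Q a)]

private theorem limit_ev (k : ℕ) (hk : 1 ≤ k) (g : ℕ) : ∀ (Q : Finset (Fin g → Fin k)) (ε : ℝ)
    (_ : 0 < ε), ∀ᶠ M : ℕ in Filter.atTop,
    |avg (fun T : Fin (M + 1) → Fin k → Fin (M + 1) =>
        (((cov T g Q)ᶜ).card : ℝ) / (M + 1)) - FF k 1 g Q| ≤ ε := by
  induction g with
  | zero =>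
    intro Q ε hε
    refine Filter.Eventually.of_forall fun M => ?_
    have hM : (0 : ℝ) < (M : ℝ) + 1 := by positivity
    by_cases hQ : Q = ∅
    · have h1 : ∀ T : Fin (M + 1) → Fin k → Fin (M + 1), cov T 0 Q = ∅ := by
        intro T
        apply Finset.eq_empty_of_forall_notMem
        intro p hp
        simp only [cov, Finset.mem_filter, Finset.mem_univ, true_and] at hp
        obtain ⟨w, hw, _⟩ := hp
        rw [hQ] at hw
        simp at hw
      have h2 : (fun T : Fin (M + 1) → Fin k → Fin (M + 1) =>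
          (((cov T 0 Q)ᶜ).card : ℝ) / (M + 1)) = fun _ => 1 := by
        funext T
        rw [h1 T, Finset.compl_empty, Finset.card_univ, Fintype.card_fin]
        push_cast
        exact div_self hM.ne'
      rw [h2, avg_const']
      unfold FF
      rw [if_pos hQ]
      simpa using hε.le
    · have h1 : ∀ T : Fin (M + 1) → Fin k → Fin (M + 1), cov T 0 Q = univ := by
        intro T
        apply Finset.eq_univ_of_forall
        intro p
        simp only [cov, Finset.mem_filter, Finset.mem_univ, true_and]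
        obtain ⟨w, hw⟩ := Finset.nonempty_iff_ne_empty.mpr hQ
        exact ⟨w, hw, p, rfl⟩
      have h2 : (fun T : Fin (M + 1) → Fin k → Fin (M + 1) =>
          (((cov T 0 Q)ᶜ).card : ℝ) / (M + 1)) = fun _ => 0 := by
        funext T
        rw [h1 T, Finset.compl_univ, Finset.card_empty]
        simp
      rw [h2, avg_const']
      unfold FF
      rw [if_neg hQ]
      simpa using hε.le
  | succ g ih =>
    intro Q ε hε
    have hkpos : (0 : ℝ) < k := by exact_mod_cast hk
    set b : ℝ := ∑ a : Fin k, (1 - FF k 1 g (slice Q a)) with hb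
    have hb0 : 0 ≤ b := Finset.sum_nonneg fun a _ => by linarith [FF_le_one k g (slice Q a)]
    have hFF : FF k 1 (g + 1) Q = Real.exp (-b) := by
      rw [hb, ← Finset.sum_neg_distrib]
      show Real.exp (∑ a : Fin k, (FF k 1 g (slice Q a) - 1)) = _
      congr 1
      apply Finset.sum_congr rfl
      intro a _
      rw [neg_sub]
    have hδ : 0 < ε / (4 * k) := by positivity
    have e1 : ∀ᶠ M : ℕ in Filter.atTop, ∀ a : Fin k,
        |avg (fun T : Fin (M + 1) → Fin k → Fin (M + 1) =>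
          (((cov T g (slice Q a))ᶜ).card : ℝ) / (M + 1)) - FF k 1 g (slice Q a)| ≤ ε / (4 * k) :=
      Filter.eventually_all.mpr fun a => ih (slice Q a) _ hδ
    have e2 : ∀ᶠ M : ℕ in Filter.atTop, ∀ a : Fin k,
        avg (fun T : Fin (M + 1) → Fin k → Fin (M + 1) =>
        |(((cov T g (slice Q a))ᶜ).card : ℝ) / (M + 1) -
          avg (fun T : Fin (M + 1) → Fin k → Fin (M + 1) =>
            (((cov T g (slice Q a))ᶜ).card : ℝ) / (M + 1))|) ≤ ε / (4 * k) :=
      Filter.eventually_all.mpr fun a => dev0 k hk g (slice Q a) _ hδ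
    have e3 : ∀ᶠ M : ℕ in Filter.atTop,
        ((k : ℝ) + 4 * k ^ 2 * (g * k ^ g)) / (M + 1) ≤ ε / 2 := by
      obtain ⟨N, hN⟩ := exists_nat_gt (((k : ℝ) + 4 * k ^ 2 * (g * k ^ g)) / (ε / 2))
      rw [Filter.eventually_atTop]
      refine ⟨N, fun M hM => ?_⟩
      have hM' : (N : ℝ) ≤ M := by exact_mod_cast hM
      have hMpos : (0 : ℝ) < (M : ℝ) + 1 := by positivity
      rw [div_le_iff₀ hMpos]
      rw [div_lt_iff₀ (by positivity)] at hN
      nlinarith
    filter_upwards [e1, e2, e3] with M h1 h2 h3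
    have hM : (0 : ℝ) < (M : ℝ) + 1 := by positivity
    rw [hFF]
    refine (one_step' k g hk Q M b hb0).trans ?_
    have h4 : avg (fun T : Fin (M + 1) → Fin k → Fin (M + 1) =>
            |(∑ a : Fin k, ((cov T g (slice Q a)).card : ℝ)) / (M + 1) - b|) ≤
        avg (fun T : Fin (M + 1) → Fin k → Fin (M + 1) => ∑ a : Fin k,
          (|(((cov T g (slice Q a))ᶜ).card : ℝ) / (M + 1) -
          avg (fun T : Fin (M + 1) → Fin k → Fin (M + 1) =>
            (((cov T g (slice Q a))ᶜ).card : ℝ) / (M + 1))| +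
          |avg (fun T : Fin (M + 1) → Fin k → Fin (M + 1) =>
          (((cov T g (slice Q a))ᶜ).card : ℝ) / (M + 1)) - FF k 1 g (slice Q a)|)) := by
      apply avg_mono'
      intro T
      have h5 : (∑ a : Fin k, ((cov T g (slice Q a)).card : ℝ)) / (M + 1) - b =
          ∑ a : Fin k, (((cov T g (slice Q a)).card : ℝ) / (M + 1) - (1 - FF k 1 g (slice Q a))) := by
        rw [Finset.sum_sub_distrib, Finset.sum_div, hb]
      rw [h5]
      refine (Finset.abs_sum_le_sum_abs _ _).trans ?_
      apply Finset.sum_le_sum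
      intro a _
      have h6 : ((cov T g (slice Q a)).card : ℝ) / (M + 1) - (1 - FF k 1 g (slice Q a)) =
          -((((cov T g (slice Q a))ᶜ).card : ℝ) / (M + 1) - FF k 1 g (slice Q a)) := by
        rw [compl_card_real, Fintype.card_fin]
        push_cast
        field_simp
        ring
      rw [h6, abs_neg]
      exact abs_sub_le _ _ _
    have h7 : avg (fun T : Fin (M + 1) → Fin k → Fin (M + 1) => ∑ a : Fin k,
          (|(((cov T g (slice Q a))ᶜ).card : ℝ) / (M + 1) -
          avg (fun T : Fin (M + 1) → Fin k → Fin (M + 1) =>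
            (((cov T g (slice Q a))ᶜ).card : ℝ) / (M + 1))| +
          |avg (fun T : Fin (M + 1) → Fin k → Fin (M + 1) =>
          (((cov T g (slice Q a))ᶜ).card : ℝ) / (M + 1)) - FF k 1 g (slice Q a)|)) ≤ ε / 2 := by
      rw [avg_sum']
      have h8 : ∀ a ∈ (univ : Finset (Fin k)),
          avg (fun T : Fin (M + 1) → Fin k → Fin (M + 1) =>
          (|(((cov T g (slice Q a))ᶜ).card : ℝ) / (M + 1) -
          avg (fun T : Fin (M + 1) → Fin k → Fin (M + 1) =>
            (((cov T g (slice Q a))ᶜ).card : ℝ) / (M + 1))| +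
          |avg (fun T : Fin (M + 1) → Fin k → Fin (M + 1) =>
          (((cov T g (slice Q a))ᶜ).card : ℝ) / (M + 1)) - FF k 1 g (slice Q a)|)) ≤
          ε / (4 * k) + ε / (4 * k) := by
        intro a _
        rw [avg_add', avg_const']
        exact add_le_add (h2 a) (h1 a)
      refine (Finset.sum_le_sum h8).trans (le_of_eq ?_)
      rw [Finset.sum_const, Finset.card_univ, Fintype.card_fin, nsmul_eq_mul]
      field_simp
      ring
    linarith

/-! TARGETS -/
theorem local_limit (k : ℕ) (hk : 1 ≤ k) (g : ℕ) (Q : Finset (Fin g → Fin k)) (ε : ℝ)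
    (hε : 0 < ε) : ∃ M0 : ℕ, ∀ M, M0 ≤ M →
    |avg (fun T : Fin (M + 1) → Fin k → Fin (M + 1) =>
        (((cov T g Q)ᶜ).card : ℝ) / (M + 1)) - FF k 1 g Q| ≤ ε :=
  Filter.eventually_atTop.mp (limit_ev k hk g Q ε hε)

theorem local_conc (k : ℕ) (hk : 1 ≤ k) (g : ℕ) (Q : Finset (Fin g → Fin k)) (ε : ℝ)
    (hε : 0 < ε) : ∃ c : ℝ, 0 < c ∧ ∃ M0 : ℕ, ∀ M, M0 ≤ M →
    pr (fun T : Fin (M + 1) → Fin k → Fin (M + 1) =>
        ε ≤ |(((cov T g Q)ᶜ).card : ℝ) / (M + 1) - FF k 1 g Q|) ≤ Real.exp (-(c * (M + 1))) := by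
  obtain ⟨c, hc, hpr⟩ := conc0 k hk g Q (ε / 2) (by positivity)
  refine ⟨c / 2, by positivity, ?_⟩
  apply Filter.eventually_atTop.mp
  filter_upwards [limit_ev k hk g Q (ε / 2) (by positivity),
    exp_small (c / 2) 1 (by positivity) one_pos] with M h1 h2
  have h3 := hpr M
  have h4 : Real.exp (-(c * ((M : ℝ) + 1))) =
      Real.exp (-(c / 2 * (M + 1))) * Real.exp (-(c / 2 * (M + 1))) := by
    rw [← Real.exp_add]
    congr 1
    ring
  have h5 : 2 * Real.exp (-(c * ((M : ℝ) + 1))) ≤ Real.exp (-(c / 2 * (M + 1))) := by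
    rw [h4]
    have h6 := Real.exp_pos (-(c / 2 * ((M : ℝ) + 1)))
    nlinarith
  refine le_trans (pr_mono' ?_) (h3.trans h5)
  intro T hT
  have h7 := abs_sub_le ((((cov T g Q)ᶜ).card : ℝ) / (M + 1))
    (avg (fun T : Fin (M + 1) → Fin k → Fin (M + 1) =>
        (((cov T g Q)ᶜ).card : ℝ) / (M + 1))) (FF k 1 g Q)
  linarith

end AC

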