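import Pool.Agent.Helper949.AC.Defs2

set_option autoImplicit false

/-!
Definitions for the asymptotics of the average state complexity of intersections.
Tables `T : V → Fin k → V`; `rn T g w x` is the state reached from `x` after reading `w`.
-/

namespace AC

open Finset

variable {V : Type} {k : ℕ}

end AC

namespace AC
open Finset

theorem FF_mem (k : ℕ) (θ : ℝ) (h0 : 0 ≤ θ) (h1 : θ ≤ 1) (g : ℕ) (Q : Finset (Fin g → Fin k)) :
    0 ≤ FF k θ g Q ∧ FF k θ g Q ≤ 1 := by
  induction g with
  | zero =>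
    unfold FF
    split_ifs
    · exact ⟨zero_le_one, le_rfl⟩
    · exact ⟨by linarith, by linarith⟩
  | succ g ih =>
    unfold FF
    refine ⟨(Real.exp_pos _).le, ?_⟩
    rw [Real.exp_le_one_iff]
    exact Finset.sum_nonpos (fun a _ => by linarith [(ih (slice Q a)).2])

/-- finite sets of words as families of slices -/
private noncomputable def sliceEquiv (g k : ℕ) :
    Finset (Fin (g + 1) → Fin k) ≃ (Fin k → Finset (Fin g → Fin k)) where
  toFun R a := slice R a
  invFun r := univ.filter (fun v => (Fin.init v : Fin g → Fin k) ∈ r (v (Fin.last g)))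
  left_inv R := by
    ext v
    simp only [slice, mem_filter, mem_univ, true_and]
    rw [Fin.snoc_init_self]
  right_inv r := by
    funext a
    ext w
    simp [slice]

private theorem cc_slice {g k : ℕ} (β : ℝ) (R R' : Finset (Fin (g + 1) → Fin k)) :
    cc β R R' = ∏ a : Fin k, cc β (slice R a) (slice R' a) := by
  unfold cc
  rw [← (Fin.snocEquiv (fun _ => Fin k)).prod_comp, Fintype.prod_prod_type]
  refine Finset.prod_congr rfl (fun a _ => Finset.prod_congr rfl (fun w _ => ?_))
  have h : ∀ R : Finset (Fin (g + 1) → Fin k),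
      w ∈ slice R a ↔ (Fin.snocEquiv (fun _ => Fin k)) (a, w) ∈ R := by
    intro R
    simp only [slice, mem_filter, mem_univ, true_and]
    rfl
  simp only [h]

private theorem po_hasSum (i : ℕ) (F : ℝ) :
    HasSum (fun x => po i x * F ^ x) (Real.exp (F - 1) ^ i) := by
  have h1 : HasSum (fun x : ℕ => ((i : ℝ) * F) ^ x / (x.factorial : ℝ))
      (Real.exp ((i : ℝ) * F)) := by
    rw [Real.exp_eq_exp_ℝ]
    exact NormedSpace.expSeries_div_hasSum_exp _
  have h2 := h1.mul_left (Real.exp (-(i : ℝ)))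
  have h3 : Real.exp (-(i : ℝ)) * Real.exp ((i : ℝ) * F) = Real.exp (F - 1) ^ i := by
    rw [← Real.exp_add, ← Real.exp_nat_mul]
    congr 1
    ring
  rw [h3] at h2
  have h4 : (fun x => po i x * F ^ x)
      = fun x : ℕ => Real.exp (-(i : ℝ)) * (((i : ℝ) * F) ^ x / (x.factorial : ℝ)) := by
    funext x
    unfold po
    rw [mul_pow]
    ring
  rw [h4]
  exact h2

private theorem FF_succ_pow (k : ℕ) (θ : ℝ) (g i : ℕ) (R : Finset (Fin (g + 1) → Fin k)) :
    FF k θ (g + 1) R ^ i = ∏ a : Fin k, Real.exp (FF k θ g (slice R a) - 1) ^ i := by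
  show Real.exp (∑ a : Fin k, (FF k θ g (slice R a) - 1)) ^ i = _
  rw [Real.exp_sum, Finset.prod_pow]

private theorem sum_family {A : Type} [Fintype A] (k : ℕ) (h : A → A → ℝ) :
    ∑ r : Fin k → A, ∑ r' : Fin k → A, ∏ a, h (r a) (r' a) = (∑ Q, ∑ Q', h Q Q') ^ k := by
  classical
  have h1 : (∑ Q, ∑ Q', h Q Q') = ∑ z : A × A, h z.1 z.2 := by
    rw [Fintype.sum_prod_type]
  rw [h1, Fintype.sum_pow, ← Fintype.sum_prod_type' (fun r r' : Fin k → A => ∏ a, h (r a) (r' a))]
  exact ((Equiv.arrowProdEquivProdArrow (Fin k) (fun _ => A) (fun _ => A)).sum_comp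
    (fun z : (Fin k → A) × (Fin k → A) => ∏ a, h (z.1 a) (z.2 a))).symm

theorem cc_sum_eq_aa (k : ℕ) (θ β : ℝ) (h0 : 0 ≤ θ) (h1 : θ ≤ 1) (g i j : ℕ) :
    ∑ R : Finset (Fin g → Fin k), ∑ R' : Finset (Fin g → Fin k),
        cc β R R' * (FF k θ g R ^ i * FF k θ g R' ^ j) = aa k θ β g i j := by
  induction g generalizing i j with
  | zero =>
    have huniv : (univ : Finset (Finset (Fin 0 → Fin k))) = {∅, univ} := by
      ext R
      simp only [mem_univ, mem_insert, mem_singleton, true_iff]
      rcases R.eq_empty_or_nonempty with h | ⟨w, hw⟩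
      · exact Or.inl h
      · right
        ext v
        simp only [mem_univ, iff_true]
        rw [Subsingleton.elim v w]
        exact hw
    have hne : (∅ : Finset (Fin 0 → Fin k)) ≠ univ := by
      intro h
      have h2 : (Fin.elim0 : Fin 0 → Fin k) ∈ (∅ : Finset (Fin 0 → Fin k)) := by
        rw [h]; exact mem_univ _
      simp at h2
    rw [huniv, Finset.sum_pair hne, Finset.sum_pair hne, Finset.sum_pair hne]
    have c1 : cc β (∅ : Finset (Fin 0 → Fin k)) ∅ = β := by
      unfold cc; simp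
    have c2 : cc β (∅ : Finset (Fin 0 → Fin k)) univ = 1 - β := by
      unfold cc; simp
    have c3 : cc β (univ : Finset (Fin 0 → Fin k)) ∅ = 1 - β := by
      unfold cc; simp
    have c4 : cc β (univ : Finset (Fin 0 → Fin k)) univ = -(1 - β) := by
      unfold cc; simp
    have f1 : FF k θ 0 ∅ = 1 := by unfold FF; rw [if_pos rfl]
    have f2 : FF k θ 0 univ = 1 - θ := by unfold FF; rw [if_neg hne.symm]
    rw [c1, c2, c3, c4, f1, f2]
    unfold aa
    simp only [one_pow]
    ring
  | succ g ih =>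
    -- reduce to families
    have s1 : ∑ R : Finset (Fin (g + 1) → Fin k), ∑ R' : Finset (Fin (g + 1) → Fin k),
        cc β R R' * (FF k θ (g + 1) R ^ i * FF k θ (g + 1) R' ^ j)
        = ∑ r : Fin k → Finset (Fin g → Fin k), ∑ r' : Fin k → Finset (Fin g → Fin k),
          ∏ a, (cc β (r a) (r' a) * (Real.exp (FF k θ g (r a) - 1) ^ i
            * Real.exp (FF k θ g (r' a) - 1) ^ j)) := by
      rw [← (sliceEquiv g k).sum_comp (fun r : Fin k → Finset (Fin g → Fin k) =>
        ∑ r' : Fin k → Finset (Fin g → Fin k),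
          ∏ a, (cc β (r a) (r' a) * (Real.exp (FF k θ g (r a) - 1) ^ i
            * Real.exp (FF k θ g (r' a) - 1) ^ j)))]
      refine Finset.sum_congr rfl (fun R _ => ?_)
      rw [← (sliceEquiv g k).sum_comp (fun r' : Fin k → Finset (Fin g → Fin k) =>
          ∏ a, (cc β (sliceEquiv g k R a) (r' a)
            * (Real.exp (FF k θ g (sliceEquiv g k R a) - 1) ^ i
            * Real.exp (FF k θ g (r' a) - 1) ^ j)))]
      refine Finset.sum_congr rfl (fun R' _ => ?_)
      rw [Finset.prod_mul_distrib, Finset.prod_mul_distrib, cc_slice, FF_succ_pow, FF_succ_pow]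
      rfl
    rw [s1, sum_family k (fun Q Q' => cc β Q Q' * (Real.exp (FF k θ g Q - 1) ^ i
            * Real.exp (FF k θ g Q' - 1) ^ j))]
    show _ = (∑' x : ℕ, ∑' y : ℕ, po i x * po j y * aa k θ β g x y) ^ k
    congr 1
    have s2 : ∀ x : ℕ, ∑' y : ℕ, po i x * po j y * aa k θ β g x y
        = ∑ Q : Finset (Fin g → Fin k), ∑ Q' : Finset (Fin g → Fin k),
          cc β Q Q' * (po i x * FF k θ g Q ^ x * Real.exp (FF k θ g Q' - 1) ^ j) := by
      intro x
      have s3 : HasSum (fun y : ℕ => ∑ Q : Finset (Fin g → Fin k),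
          ∑ Q' : Finset (Fin g → Fin k),
          cc β Q Q' * (po i x * FF k θ g Q ^ x * (po j y * FF k θ g Q' ^ y)))
          (∑ Q : Finset (Fin g → Fin k), ∑ Q' : Finset (Fin g → Fin k),
          cc β Q Q' * (po i x * FF k θ g Q ^ x * Real.exp (FF k θ g Q' - 1) ^ j)) :=
        hasSum_sum (fun Q _ => hasSum_sum (fun Q' _ =>
          ((po_hasSum j (FF k θ g Q')).mul_left _).mul_left _))
      rw [← s3.tsum_eq]
      congr 1
      funext y
      rw [← ih x y, Finset.mul_sum]
      refine Finset.sum_congr rfl (fun Q _ => ?_)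
      rw [Finset.mul_sum]
      refine Finset.sum_congr rfl (fun Q' _ => ?_)
      ring
    simp only [s2]
    have s4 : HasSum (fun x : ℕ => ∑ Q : Finset (Fin g → Fin k),
          ∑ Q' : Finset (Fin g → Fin k),
          cc β Q Q' * (po i x * FF k θ g Q ^ x * Real.exp (FF k θ g Q' - 1) ^ j))
          (∑ Q : Finset (Fin g → Fin k), ∑ Q' : Finset (Fin g → Fin k),
          cc β Q Q' * (Real.exp (FF k θ g Q - 1) ^ i * Real.exp (FF k θ g Q' - 1) ^ j)) :=
      hasSum_sum (fun Q _ => hasSum_sum (fun Q' _ =>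
        ((po_hasSum i (FF k θ g Q)).mul_right _).mul_left _))
    exact s4.tsum_eq.symm

end AC

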