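import Pool.Agent.Helper949.AC.Defs2
import Pool.Agent.Helper949.AC.Loc
import Pool.Agent.Helper949.AC.SumCC
import Pool.Agent.Helper949.AC.CovL
import Pool.Agent.Helper949.AC.FFL

set_option autoImplicit false

/-!
Definitions for the asymptotics of the average state complexity of intersections.
Tables `T : V → Fin k → V`; `rn T g w x` is the state reached from `x` after reading `w`.
-/

namespace AC

open Finset

variable {V : Type} {k : ℕ}

end AC

namespace AC
open Finset

/-! GIVEN -/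
/-! TARGETS -/
theorem th_mem (k h : ℕ) : 0 ≤ th k h ∧ th k h ≤ 1 := by
  induction h with
  | zero => exact ⟨zero_le_one, le_refl _⟩
  | succ h ih =>
    show 0 ≤ 1 - Real.exp (-((k : ℝ) * th k h)) ∧ 1 - Real.exp (-((k : ℝ) * th k h)) ≤ 1
    have h1 : 0 ≤ (k : ℝ) * th k h := mul_nonneg (Nat.cast_nonneg k) ih.1
    have h2 : Real.exp (-((k : ℝ) * th k h)) ≤ 1 := Real.exp_le_one_iff.2 (by linarith)
    have h3 := Real.exp_pos (-((k : ℝ) * th k h))
    constructor <;> linarith

private theorem pr_mono' {Ω : Type} [Fintype Ω] {P Q : Ω → Prop} (h : ∀ x, P x → Q x) : pr P ≤ pr Q := by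
  unfold pr
  refine div_le_div_of_nonneg_right ?_ (Nat.cast_nonneg _)
  norm_cast
  refine Finset.card_le_card ?_
  intro x hx
  simp only [Finset.mem_filter, Finset.mem_univ, true_and] at hx ⊢
  exact h x hx

private theorem pr_or_le' {Ω : Type} [Fintype Ω] (P Q : Ω → Prop) :
    pr (fun x => P x ∨ Q x) ≤ pr P + pr Q := by
  classical
  unfold pr
  rw [← add_div]
  refine div_le_div_of_nonneg_right ?_ (Nat.cast_nonneg _)
  norm_cast
  refine (Finset.card_le_card ?_).trans (Finset.card_union_le _ _)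
  intro x hx
  simp only [Finset.mem_filter, Finset.mem_univ, true_and, Finset.mem_union] at hx ⊢
  exact hx

private theorem pr_exists_le' {Ω ι : Type} [Fintype Ω] [Fintype ι] (P : ι → Ω → Prop) :
    pr (fun x => ∃ i, P i x) ≤ ∑ i, pr (P i) := by
  classical
  unfold pr
  rw [← Finset.sum_div]
  refine div_le_div_of_nonneg_right ?_ (Nat.cast_nonneg _)
  norm_cast
  refine (Finset.card_le_card ?_).trans Finset.card_biUnion_le
  intro x hx
  simp only [Finset.mem_filter, Finset.mem_univ, true_and, Finset.mem_biUnion] at hx ⊢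
  exact hx

private theorem pr_fst' {Ω Ω' : Type} [Fintype Ω] [Fintype Ω'] [Nonempty Ω'] (P : Ω → Prop) :
    pr (fun x : Ω × Ω' => P x.1) = pr P := by
  classical
  unfold pr
  have h1 : univ.filter (fun x : Ω × Ω' => P x.1) = (univ.filter P) ×ˢ (univ : Finset Ω') := by
    ext x
    simp
  have h2 : (0 : ℝ) < Fintype.card Ω' := by exact_mod_cast Fintype.card_pos
  rw [h1, Finset.card_product, Finset.card_univ, Fintype.card_prod]
  push_cast
  rw [mul_div_mul_right _ _ h2.ne']

private theorem pr_snd' {Ω Ω' : Type} [Fintype Ω] [Fintype Ω'] [Nonempty Ω] (P : Ω' → Prop) :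
    pr (fun x : Ω × Ω' => P x.2) = pr P := by
  classical
  unfold pr
  have h1 : univ.filter (fun x : Ω × Ω' => P x.2) = (univ : Finset Ω) ×ˢ (univ.filter P) := by
    ext x
    simp
  have h2 : (0 : ℝ) < Fintype.card Ω := by exact_mod_cast Fintype.card_pos
  rw [h1, Finset.card_product, Finset.card_univ, Fintype.card_prod]
  push_cast
  rw [mul_div_mul_left _ _ h2.ne']

private theorem ind_prod' {X : Type} [Fintype X] [DecidableEq X] (A R : Finset X) :
    (if Disjoint A R then (1 : ℝ) else 0) = ∏ w : X, (if w ∈ A ∧ w ∈ R then (0 : ℝ) else 1) := by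
  by_cases h : Disjoint A R
  · rw [if_pos h]
    symm
    apply Finset.prod_eq_one
    intro w _
    rw [if_neg]
    rintro ⟨h1, h2⟩
    exact Finset.disjoint_left.1 h h1 h2
  · rw [if_neg h]
    rw [Finset.not_disjoint_iff] at h
    obtain ⟨w, h1, h2⟩ := h
    symm
    apply Finset.prod_eq_zero (Finset.mem_univ w)
    rw [if_pos ⟨h1, h2⟩]

/-- pairs of sets as functions -/
private def eqP (X : Type) [Fintype X] [DecidableEq X] : (X → Bool × Bool) ≃ Finset X × Finset X where
  toFun s := (univ.filter (fun w => (s w).1 = true), univ.filter (fun w => (s w).2 = true))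
  invFun p := fun w => (decide (w ∈ p.1), decide (w ∈ p.2))
  left_inv s := by
    funext w
    simp
  right_inv p := by
    ext w <;> simp

private theorem cc_ident' {X : Type} [Fintype X] [DecidableEq X] (β : ℝ) (A A' : Finset X) :
    ∑ R : Finset X, ∑ R' : Finset X, cc β R R' *
      ((if Disjoint A R then (1 : ℝ) else 0) * (if Disjoint A' R' then (1 : ℝ) else 0)) =
      β ^ (A ∩ A').card := by
  obtain ⟨f, hf⟩ : ∃ f : X → Bool × Bool → ℝ, f = fun w b =>
      (if b.1 = true then (if b.2 = true then -(1 - β) else 1 - β) else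
        (if b.2 = true then 1 - β else β)) *
      ((if w ∈ A ∧ b.1 = true then 0 else 1) * (if w ∈ A' ∧ b.2 = true then 0 else 1)) := ⟨_, rfl⟩
  have h1 : ∀ R R' : Finset X, cc β R R' *
      ((if Disjoint A R then (1 : ℝ) else 0) * (if Disjoint A' R' then (1 : ℝ) else 0)) =
      ∏ w, f w (decide (w ∈ R), decide (w ∈ R')) := by
    intro R R'
    rw [ind_prod', ind_prod']
    unfold cc
    rw [← Finset.prod_mul_distrib, ← Finset.prod_mul_distrib]
    refine Finset.prod_congr rfl fun w _ => ?_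
    rw [hf]
    by_cases a1 : w ∈ R <;> by_cases a2 : w ∈ R' <;> simp [a1, a2]
  simp only [h1]
  have h2 : ∑ R : Finset X, ∑ R' : Finset X, ∏ w, f w (decide (w ∈ R), decide (w ∈ R')) =
      ∑ s : X → Bool × Bool, ∏ w, f w (s w) := by
    rw [← Fintype.sum_prod_type' (f := fun R R' : Finset X =>
      ∏ w, f w (decide (w ∈ R), decide (w ∈ R')))]
    symm
    apply Fintype.sum_equiv (eqP X)
    intro s
    refine Finset.prod_congr rfl fun w _ => ?_
    congr 1
    exact (congrFun ((eqP X).left_inv s) w).symm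
  rw [h2]
  have h3 : ∑ s : X → Bool × Bool, ∏ w, f w (s w) = ∏ w, ∑ b : Bool × Bool, f w b := by
    rw [Finset.prod_univ_sum, Fintype.piFinset_univ]
  rw [h3]
  have h4 : ∀ w, ∑ b : Bool × Bool, f w b = if w ∈ A ∩ A' then β else 1 := by
    intro w
    rw [Fintype.sum_prod_type]
    simp only [Fintype.sum_bool, hf]
    by_cases a1 : w ∈ A <;> by_cases a2 : w ∈ A' <;> simp [a1, a2]
  simp only [h4]
  rw [Finset.prod_ite_mem, Finset.univ_inter, Finset.prod_const]

private theorem cc_abs' {X : Type} [Fintype X] [DecidableEq X] (β : ℝ) (h0 : 0 ≤ β) (h1 : β ≤ 1)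
    (R R' : Finset X) : |cc β R R'| ≤ 1 := by
  unfold cc
  rw [Finset.abs_prod]
  apply Finset.prod_le_one
  · intro w _
    exact abs_nonneg _
  · intro w _
    rw [abs_le]
    split_ifs <;> constructor <;> linarith

private theorem cwm_sum' {V : Type} {k : ℕ} [Fintype V] [DecidableEq V] (S S' : V → Fin k → V) (h g : ℕ)
    (β : ℝ) : ∑ p, ∑ q, β ^ (cwm S S' h g p q) =
      ∑ R : Finset (Fin g → Fin k), ∑ R' : Finset (Fin g → Fin k), cc β R R' *
        ((((cov S (h + g) (lift h R))ᶜ).card : ℝ) * (((cov S' (h + g) (lift h R'))ᶜ).card : ℝ)) := by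
  classical
  have hdis : ∀ (T : V → Fin k → V) (p : V) (R : Finset (Fin g → Fin k)),
      Disjoint (univ.filter (fun w : Fin g → Fin k => ∃ x ∈ cov T h univ, rn T g w x = p)) R ↔
        p ∉ cov T (h + g) (lift h R) := by
    intro T p R
    rw [cov_lift, Finset.disjoint_left]
    constructor
    · rintro h1 ⟨w, hw, x, hx⟩
      exact h1 (Finset.mem_filter.2 ⟨Finset.mem_univ _, x, hx⟩) hw
    · intro h1 w hw hwR
      obtain ⟨-, x, hx⟩ := Finset.mem_filter.1 hw
      exact h1 ⟨w, hwR, x, hx⟩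
  have hsum : ∀ (T : V → Fin k → V) (R : Finset (Fin g → Fin k)),
      ∑ p, (if Disjoint (univ.filter
        (fun w : Fin g → Fin k => ∃ x ∈ cov T h univ, rn T g w x = p)) R then (1 : ℝ) else 0) =
        (((cov T (h + g) (lift h R))ᶜ).card : ℝ) := by
    intro T R
    simp only [hdis]
    rw [Finset.sum_boole]
    congr 2
    ext p
    simp
  have h1 : ∀ p q, β ^ (cwm S S' h g p q) =
      ∑ R : Finset (Fin g → Fin k), ∑ R' : Finset (Fin g → Fin k), cc β R R' *
      ((if Disjoint (univ.filter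
        (fun w : Fin g → Fin k => ∃ x ∈ cov S h univ, rn S g w x = p)) R then (1 : ℝ) else 0) *
      (if Disjoint (univ.filter
        (fun w : Fin g → Fin k => ∃ x ∈ cov S' h univ, rn S' g w x = q)) R' then (1 : ℝ) else 0)) := by
    intro p q
    rw [cc_ident']
    congr 1
    unfold cwm
    rw [← Finset.filter_and]
    congr 1
    ext w
    simp
  simp only [h1]
  calc ∑ p, ∑ q, ∑ R : Finset (Fin g → Fin k), ∑ R' : Finset (Fin g → Fin k), cc β R R' *
      ((if Disjoint (univ.filter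
        (fun w : Fin g → Fin k => ∃ x ∈ cov S h univ, rn S g w x = p)) R then (1 : ℝ) else 0) *
      (if Disjoint (univ.filter
        (fun w : Fin g → Fin k => ∃ x ∈ cov S' h univ, rn S' g w x = q)) R' then (1 : ℝ) else 0))
      = ∑ p, ∑ R : Finset (Fin g → Fin k), ∑ q, ∑ R' : Finset (Fin g → Fin k), cc β R R' *
      ((if Disjoint (univ.filter
        (fun w : Fin g → Fin k => ∃ x ∈ cov S h univ, rn S g w x = p)) R then (1 : ℝ) else 0) *
      (if Disjoint (univ.filter
        (fun w : Fin g → Fin k => ∃ x ∈ cov S' h univ, rn S' g w x = q)) R' then (1 : ℝ) else 0)) :=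
        Finset.sum_congr rfl fun p _ => Finset.sum_comm
    _ = ∑ R : Finset (Fin g → Fin k), ∑ p, ∑ q, ∑ R' : Finset (Fin g → Fin k), cc β R R' *
      ((if Disjoint (univ.filter
        (fun w : Fin g → Fin k => ∃ x ∈ cov S h univ, rn S g w x = p)) R then (1 : ℝ) else 0) *
      (if Disjoint (univ.filter
        (fun w : Fin g → Fin k => ∃ x ∈ cov S' h univ, rn S' g w x = q)) R' then (1 : ℝ) else 0)) :=
        Finset.sum_comm
    _ = ∑ R : Finset (Fin g → Fin k), ∑ R' : Finset (Fin g → Fin k), cc β R R' *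
        ((((cov S (h + g) (lift h R))ᶜ).card : ℝ) *
          (((cov S' (h + g) (lift h R'))ᶜ).card : ℝ)) := by
        refine Finset.sum_congr rfl fun R _ => ?_
        have h2 : ∀ p, ∑ q, ∑ R' : Finset (Fin g → Fin k), cc β R R' *
          ((if Disjoint (univ.filter
            (fun w : Fin g → Fin k => ∃ x ∈ cov S h univ, rn S g w x = p)) R then (1 : ℝ) else 0) *
          (if Disjoint (univ.filter
            (fun w : Fin g → Fin k => ∃ x ∈ cov S' h univ, rn S' g w x = q)) R' then (1 : ℝ) else 0))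
          = ∑ R' : Finset (Fin g → Fin k), ∑ q, cc β R R' *
          ((if Disjoint (univ.filter
            (fun w : Fin g → Fin k => ∃ x ∈ cov S h univ, rn S g w x = p)) R then (1 : ℝ) else 0) *
          (if Disjoint (univ.filter
            (fun w : Fin g → Fin k => ∃ x ∈ cov S' h univ, rn S' g w x = q)) R' then (1 : ℝ) else 0)) :=
          fun p => Finset.sum_comm
        simp only [h2]
        rw [Finset.sum_comm]
        refine Finset.sum_congr rfl fun R' _ => ?_
        rw [← hsum S R, ← hsum S' R', Finset.sum_mul_sum, Finset.mul_sum]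
        refine Finset.sum_congr rfl fun p _ => ?_
        rw [Finset.mul_sum]

private theorem prod_bound' (a a' F F' : ℝ) (h1 : 0 ≤ a') (h2 : a' ≤ 1) (h3 : 0 ≤ F) (h4 : F ≤ 1) :
    |a * a' - F * F'| ≤ |a - F| + |a' - F'| := by
  have e : a * a' - F * F' = (a - F) * a' + F * (a' - F') := by ring
  rw [e]
  refine (abs_add_le _ _).trans (add_le_add ?_ ?_)
  · rw [abs_mul, abs_of_nonneg h1]
    exact mul_le_of_le_one_right (abs_nonneg _) h2
  · rw [abs_mul, abs_of_nonneg h3]
    exact mul_le_of_le_one_left (abs_nonneg _) h4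

private theorem exp_final (c0 N : ℝ) (hc : 0 < c0) (hN : 0 < N) : ∃ M0 : ℕ, ∀ M : ℕ, M0 ≤ M →
    N * Real.exp (-(c0 * ((M : ℝ) + 1))) ≤ Real.exp (-(c0 / 2 * ((M : ℝ) + 1))) := by
  obtain ⟨M0, hM0⟩ := exists_nat_gt (Real.log N / (c0 / 2))
  refine ⟨M0, fun M hM => ?_⟩
  have h1 : Real.log N ≤ c0 / 2 * ((M : ℝ) + 1) := by
    rw [div_lt_iff₀ (by positivity)] at hM0
    have h2 : (M0 : ℝ) ≤ M := by exact_mod_cast hM
    nlinarith
  calc N * Real.exp (-(c0 * ((M : ℝ) + 1)))
      = Real.exp (Real.log N) * Real.exp (-(c0 * ((M : ℝ) + 1))) := by rw [Real.exp_log hN]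
    _ = Real.exp (Real.log N + -(c0 * ((M : ℝ) + 1))) := by rw [Real.exp_add]
    _ ≤ _ := Real.exp_le_exp.2 (by linarith)

/-- concentration of the pair functional in the uniform model -/
theorem cwm_conc (k : ℕ) (hk : 1 ≤ k) (h g : ℕ) (β : ℝ) (hβ0 : 0 ≤ β) (hβ1 : β ≤ 1) (ε : ℝ)
    (hε : 0 < ε) : ∃ c : ℝ, 0 < c ∧ ∃ M0 : ℕ, ∀ M, M0 ≤ M →
    pr (fun P : (Fin (M + 1) → Fin k → Fin (M + 1)) × (Fin (M + 1) → Fin k → Fin (M + 1)) =>
        ε ≤ |(∑ p, ∑ q, β ^ (cwm P.1 P.2 h g p q)) / ((M : ℝ) + 1) ^ 2 - aa k (th k h) β g 1 1|)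
      ≤ Real.exp (-(c * (M + 1))) := by
  classical
  obtain ⟨N, hN⟩ : ∃ N : ℝ, N = (Fintype.card (Finset (Fin g → Fin k)) : ℝ) := ⟨_, rfl⟩
  have hN0 : 0 < N := by rw [hN]; exact_mod_cast Fintype.card_pos
  obtain ⟨δ, hδ⟩ : ∃ δ, δ = ε / (4 * N ^ 2) := ⟨_, rfl⟩
  have hδ0 : 0 < δ := by rw [hδ]; positivity
  have hloc := fun R : Finset (Fin g → Fin k) => local_conc k hk (h + g) (lift h R) δ hδ0
  choose cR hcR MR hMR using hloc
  obtain ⟨R0, -, hR0⟩ := Finset.exists_min_image (Finset.univ : Finset (Finset (Fin g → Fin k))) cR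
    ⟨∅, Finset.mem_univ _⟩
  obtain ⟨M1, hM1⟩ := exp_final (cR R0) (2 * N) (hcR R0) (by positivity)
  refine ⟨cR R0 / 2, half_pos (hcR R0), max M1 (∑ R, MR R), fun M hM => ?_⟩
  have hMM1 : M1 ≤ M := (le_max_left _ _).trans hM
  have hMMR : ∀ R, MR R ≤ M := fun R =>
    (Finset.single_le_sum (fun _ _ => Nat.zero_le _) (Finset.mem_univ R)).trans
      ((le_max_right _ _).trans hM)
  have hM0 : (0 : ℝ) < (M : ℝ) + 1 := by positivity
  -- the good event implies a small deviation
  have hth := th_mem k h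
  have haa : aa k (th k h) β g 1 1 = ∑ R : Finset (Fin g → Fin k), ∑ R' : Finset (Fin g → Fin k),
      cc β R R' * (FF k 1 (h + g) (lift h R) * FF k 1 (h + g) (lift h R')) := by
    rw [← cc_sum_eq_aa k (th k h) β hth.1 hth.2 g 1 1]
    simp only [FF_lift, pow_one]
  have hF : ∀ R, 0 ≤ FF k 1 (h + g) (lift h R) ∧ FF k 1 (h + g) (lift h R) ≤ 1 := fun R =>
    FF_mem k 1 zero_le_one le_rfl _ _
  have hcov : ∀ (T : Fin (M + 1) → Fin k → Fin (M + 1)) (R : Finset (Fin g → Fin k)),
      0 ≤ (((cov T (h + g) (lift h R))ᶜ).card : ℝ) / ((M : ℝ) + 1) ∧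
        (((cov T (h + g) (lift h R))ᶜ).card : ℝ) / ((M : ℝ) + 1) ≤ 1 := by
    intro T R
    refine ⟨by positivity, ?_⟩
    rw [div_le_one hM0]
    have h1 : ((cov T (h + g) (lift h R))ᶜ).card ≤ M + 1 := by
      have h2 := Finset.card_le_univ ((cov T (h + g) (lift h R))ᶜ)
      rwa [Fintype.card_fin] at h2
    exact_mod_cast h1
  have hdet : ∀ P : (Fin (M + 1) → Fin k → Fin (M + 1)) × (Fin (M + 1) → Fin k → Fin (M + 1)),
      ε ≤ |(∑ p, ∑ q, β ^ (cwm P.1 P.2 h g p q)) / ((M : ℝ) + 1) ^ 2 - aa k (th k h) β g 1 1| →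
      (∃ R : Finset (Fin g → Fin k), δ ≤ |(((cov P.1 (h + g) (lift h R))ᶜ).card : ℝ) / (M + 1) -
        FF k 1 (h + g) (lift h R)|) ∨
      (∃ R : Finset (Fin g → Fin k), δ ≤ |(((cov P.2 (h + g) (lift h R))ᶜ).card : ℝ) / (M + 1) -
        FF k 1 (h + g) (lift h R)|) := by
    intro P hP
    by_contra hcon
    push Not at hcon
    obtain ⟨hc1, hc2⟩ := hcon
    have h1 : (∑ p, ∑ q, β ^ (cwm P.1 P.2 h g p q)) / ((M : ℝ) + 1) ^ 2 - aa k (th k h) β g 1 1 =
        ∑ R : Finset (Fin g → Fin k), ∑ R' : Finset (Fin g → Fin k), cc β R R' *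
          ((((cov P.1 (h + g) (lift h R))ᶜ).card : ℝ) / (M + 1) *
            ((((cov P.2 (h + g) (lift h R'))ᶜ).card : ℝ) / (M + 1)) -
            FF k 1 (h + g) (lift h R) * FF k 1 (h + g) (lift h R')) := by
      rw [cwm_sum', haa, Finset.sum_div, ← Finset.sum_sub_distrib]
      refine Finset.sum_congr rfl fun R _ => ?_
      rw [Finset.sum_div, ← Finset.sum_sub_distrib]
      refine Finset.sum_congr rfl fun R' _ => ?_
      field_simp
    rw [h1] at hP
    have h2 : |∑ R : Finset (Fin g → Fin k), ∑ R' : Finset (Fin g → Fin k), cc β R R' *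
          ((((cov P.1 (h + g) (lift h R))ᶜ).card : ℝ) / (M + 1) *
            ((((cov P.2 (h + g) (lift h R'))ᶜ).card : ℝ) / (M + 1)) -
            FF k 1 (h + g) (lift h R) * FF k 1 (h + g) (lift h R'))| ≤
        ∑ R : Finset (Fin g → Fin k), ∑ R' : Finset (Fin g → Fin k), 2 * δ := by
      refine (Finset.abs_sum_le_sum_abs _ _).trans (Finset.sum_le_sum fun R _ => ?_)
      refine (Finset.abs_sum_le_sum_abs _ _).trans (Finset.sum_le_sum fun R' _ => ?_)
      rw [abs_mul]
      have h3 := prod_bound' ((((cov P.1 (h + g) (lift h R))ᶜ).card : ℝ) / (M + 1))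
        ((((cov P.2 (h + g) (lift h R'))ᶜ).card : ℝ) / (M + 1)) (FF k 1 (h + g) (lift h R))
        (FF k 1 (h + g) (lift h R')) (hcov P.2 R').1 (hcov P.2 R').2 (hF R).1 (hF R).2
      have h4 := hc1 R
      have h5 := hc2 R'
      calc |cc β R R'| * _ ≤ 1 * _ := mul_le_mul_of_nonneg_right (cc_abs' β hβ0 hβ1 R R')
            (abs_nonneg _)
        _ ≤ 2 * δ := by rw [one_mul]; linarith
    have h6 : ∑ R : Finset (Fin g → Fin k), ∑ R' : Finset (Fin g → Fin k), 2 * δ = ε / 2 := by
      rw [Finset.sum_const, Finset.sum_const, Finset.card_univ, nsmul_eq_mul, nsmul_eq_mul, ← hN, hδ]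
      field_simp
      ring
    rw [h6] at h2
    linarith
  refine (pr_mono' hdet).trans ?_
  refine (pr_or_le' _ _).trans ?_
  haveI : Nonempty (Fin (M + 1) → Fin k → Fin (M + 1)) := ⟨fun x _ => x⟩
  have hu1 : pr (fun P : (Fin (M + 1) → Fin k → Fin (M + 1)) ×
      (Fin (M + 1) → Fin k → Fin (M + 1)) =>
      ∃ R : Finset (Fin g → Fin k), δ ≤ |(((cov P.1 (h + g) (lift h R))ᶜ).card : ℝ) / (M + 1) -
        FF k 1 (h + g) (lift h R)|) ≤ N * Real.exp (-(cR R0 * ((M : ℝ) + 1))) := by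
    refine (pr_exists_le' _).trans ?_
    calc _ ≤ ∑ R : Finset (Fin g → Fin k), Real.exp (-(cR R0 * ((M : ℝ) + 1))) := by
          refine Finset.sum_le_sum fun R _ => ?_
          rw [pr_fst' (fun T : Fin (M + 1) → Fin k → Fin (M + 1) =>
            δ ≤ |(((cov T (h + g) (lift h R))ᶜ).card : ℝ) / (M + 1) - FF k 1 (h + g) (lift h R)|)]
          refine (hMR R M (hMMR R)).trans (Real.exp_le_exp.2 ?_)
          have := mul_le_mul_of_nonneg_right (hR0 R (Finset.mem_univ R)) hM0.le
          linarith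
      _ = _ := by rw [Finset.sum_const, Finset.card_univ, nsmul_eq_mul, hN]
  have hu2 : pr (fun P : (Fin (M + 1) → Fin k → Fin (M + 1)) ×
      (Fin (M + 1) → Fin k → Fin (M + 1)) =>
      ∃ R : Finset (Fin g → Fin k), δ ≤ |(((cov P.2 (h + g) (lift h R))ᶜ).card : ℝ) / (M + 1) -
        FF k 1 (h + g) (lift h R)|) ≤ N * Real.exp (-(cR R0 * ((M : ℝ) + 1))) := by
    refine (pr_exists_le' _).trans ?_
    calc _ ≤ ∑ R : Finset (Fin g → Fin k), Real.exp (-(cR R0 * ((M : ℝ) + 1))) := by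
          refine Finset.sum_le_sum fun R _ => ?_
          rw [pr_snd' (fun T : Fin (M + 1) → Fin k → Fin (M + 1) =>
            δ ≤ |(((cov T (h + g) (lift h R))ᶜ).card : ℝ) / (M + 1) - FF k 1 (h + g) (lift h R)|)]
          refine (hMR R M (hMMR R)).trans (Real.exp_le_exp.2 ?_)
          have := mul_le_mul_of_nonneg_right (hR0 R (Finset.mem_univ R)) hM0.le
          linarith
      _ = _ := by rw [Finset.sum_const, Finset.card_univ, nsmul_eq_mul, hN]
  have hfin := hM1 M hMM1
  linarith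

theorem cwm_zero {V : Type} {k : ℕ} [Fintype V] (T T' : V → Fin k → V) (g : ℕ) (p q : V) :
    cwm T T' 0 g p q = cw T T' g p q := by
  classical
  have h : ∀ (T : V → Fin k → V) (x : V), x ∈ cov T 0 univ := fun T x => by
    simp only [cov, Finset.mem_filter, Finset.mem_univ, true_and]
    exact ⟨fun i => i.elim0, x, rfl⟩
  unfold cwm cw
  congr 1
  ext w
  simp only [Finset.mem_filter, Finset.mem_univ, true_and, h]

end AC

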