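import Pool.Agent.Helper949.AC.Defs2
import Pool.Agent.Helper949.AC.Loc
import Pool.Agent.Helper949.AC.P1
import Pool.Agent.Helper949.AC.D6
import Pool.Agent.Helper949.AC.D5b
import Pool.Agent.Helper949.AC.L1

set_option autoImplicit false

/-!
Definitions for the asymptotics of the average state complexity of intersections.
Tables `T : V → Fin k → V`; `rn T g w x` is the state reached from `x` after reading `w`.
-/

namespace AC

open Finset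

variable {V : Type} {k : ℕ}

end AC

namespace AC
open Finset

end AC

namespace AC
open Finset

/-! GIVEN -/
private theorem up_sum {V : Type} {k : ℕ} [Fintype V] (S S' : V → Fin k → V) (g : ℕ) :
    (∑ p, ∑ q, (0 : ℝ) ^ (cwm S S' 0 g p q)) =
      (Fintype.card V : ℝ) ^ 2 -
        ((univ.filter (fun x : V × V => 1 ≤ cw S S' g x.1 x.2)).card : ℝ) := by
  classical
  have h1 : (∑ p, ∑ q, (0 : ℝ) ^ (cwm S S' 0 g p q)) =
      ∑ x : V × V, (0 : ℝ) ^ (cw S S' g x.1 x.2) := by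
    rw [Fintype.sum_prod_type]
    apply Finset.sum_congr rfl
    intro p _
    apply Finset.sum_congr rfl
    intro q _
    rw [cwm_zero]
  have h2 : ((univ.filter (fun x : V × V => 1 ≤ cw S S' g x.1 x.2)).card : ℝ) =
      ∑ x : V × V, (if 1 ≤ cw S S' g x.1 x.2 then (1 : ℝ) else 0) := by
    rw [Finset.sum_boole]
  have h3 : (Fintype.card V : ℝ) ^ 2 = ∑ _x : V × V, (1 : ℝ) := by
    rw [Finset.sum_const, nsmul_eq_mul, mul_one, Finset.card_univ, Fintype.card_prod]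
    push_cast
    ring
  rw [h1, h2, h3, ← Finset.sum_sub_distrib]
  apply Finset.sum_congr rfl
  intro x _
  by_cases hx : 1 ≤ cw S S' g x.1 x.2
  · rw [if_pos hx, zero_pow (by omega)]
    ring
  · have : cw S S' g x.1 x.2 = 0 := by omega
    rw [if_neg hx, this, pow_zero]
    ring

/-! TARGETS -/
open Classical in
/-- transfer of exponentially rare events of pairs -/
theorem transfer_pair (k : ℕ) (hk : 2 ≤ k) (w : ℝ) (hw0 : 0 < w) (hw1 : w < 1)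
    (hw : w = 1 - Real.exp (-((k : ℝ) * w)))
    (P : ∀ m : ℕ, (Fin (m + 1) → Fin k → Fin (m + 1)) → (Fin (m + 1) → Fin k → Fin (m + 1)) → Prop)
    (P' : ∀ M : ℕ, (Fin (M + 1) → Fin k → Fin (M + 1)) → (Fin (M + 1) → Fin k → Fin (M + 1)) → Prop)
    (δ : ℝ) (hδ : 0 < δ) (c : ℝ) (hc : 0 < c) (M0 : ℕ)
    (h : ∀ m M : ℕ, M0 ≤ M → m ≤ M → |((m : ℝ) + 1) / (M + 1) - w| < δ →
      ∀ T T' S S' e e', Ac T 0 → Ac T' 0 → Emb (k := k) (m := m) (M := M) e T S →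
        Emb (k := k) (m := m) (M := M) e' T' S' → P m T T' → P' M S S')
    (hP' : ∀ M, M0 ≤ M → pr (fun p : (Fin (M + 1) → Fin k → Fin (M + 1)) ×
      (Fin (M + 1) → Fin k → Fin (M + 1)) => P' M p.1 p.2) ≤ Real.exp (-(c * (M + 1))))
    (ε : ℝ) (hε : 0 < ε) : ∃ m0 : ℕ, ∀ m, m0 ≤ m →
    ((univ.filter (fun p : (Fin (m + 1) → Fin k → Fin (m + 1)) × (Fin (m + 1) → Fin k → Fin (m + 1)) =>
        Ac p.1 0 ∧ Ac p.2 0 ∧ P m p.1 p.2)).card : ℝ)
      ≤ ε * ((univ.filter (fun T : Fin (m + 1) → Fin k → Fin (m + 1) => Ac T 0)).card : ℝ) ^ 2 := by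
  obtain ⟨ε', hε'⟩ : ∃ ε' : ℝ, ε' = min δ (c / 8) := ⟨_, rfl⟩
  have hε'0 : 0 < ε' := by rw [hε']; exact lt_min hδ (by linarith)
  have hε'δ : ε' ≤ δ := by rw [hε']; exact min_le_left _ _
  have hε'c : ε' ≤ c / 8 := by rw [hε']; exact min_le_right _ _
  obtain ⟨m1, hm1⟩ := transfer_exists k hk w hw0 hw1 hw ε' hε'0
  refine ⟨max m1 (max M0 ⌈2 / (c * ε)⌉₊), fun m hm => ?_⟩
  have hma : m1 ≤ m := (le_max_left _ _).trans hm
  have hmb : M0 ≤ m := ((le_max_left _ _).trans (le_max_right _ _)).trans hm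
  have hmc : ⌈2 / (c * ε)⌉₊ ≤ m := ((le_max_right _ _).trans (le_max_right _ _)).trans hm
  obtain ⟨M, hmM, hr, hR⟩ := hm1 m hma
  have hM0 : M0 ≤ M := hmb.trans hmM
  have H := transfer2 k m M hmM (P m) (P' M)
    (h m M hM0 hmM (lt_of_lt_of_le hr hε'δ))
  have HP := hP' M hM0
  unfold pr at HP hR
  obtain ⟨bad, hbad⟩ : ∃ x : ℝ, x = ((univ.filter (fun p : (Fin (m + 1) → Fin k → Fin (m + 1)) ×
    (Fin (m + 1) → Fin k → Fin (m + 1)) => Ac p.1 0 ∧ Ac p.2 0 ∧ P m p.1 p.2)).card : ℝ) :=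
    ⟨_, rfl⟩
  obtain ⟨R, hRd⟩ : ∃ x : ℝ, x = ((univ.filter
    (fun S : Fin (M + 1) → Fin k → Fin (M + 1) => (rch S 0).card = m + 1)).card : ℝ) :=
    ⟨_, rfl⟩
  obtain ⟨PP, hPP⟩ : ∃ x : ℝ, x = ((univ.filter (fun p : (Fin (M + 1) → Fin k → Fin (M + 1)) ×
    (Fin (M + 1) → Fin k → Fin (M + 1)) => P' M p.1 p.2)).card : ℝ) := ⟨_, rfl⟩
  obtain ⟨A, hA⟩ : ∃ x : ℝ, x = ((univ.filter
    (fun T : Fin (m + 1) → Fin k → Fin (m + 1) => Ac T 0)).card : ℝ) := ⟨_, rfl⟩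
  obtain ⟨N, hN⟩ : ∃ x : ℝ, x = (Fintype.card (Fin (M + 1) → Fin k → Fin (M + 1)) : ℝ) :=
    ⟨_, rfl⟩
  have hN0 : 0 < N := by
    rw [hN]
    exact_mod_cast Fintype.card_pos
  have H' : bad * R ^ 2 ≤ PP * A ^ 2 := by
    rw [hbad, hRd, hPP, hA]
    exact_mod_cast H
  have hbad0 : 0 ≤ bad := by rw [hbad]; exact Nat.cast_nonneg _
  have hPP0 : 0 ≤ PP := by rw [hPP]; exact Nat.cast_nonneg _
  have hR' : Real.exp (-(ε' * (M + 1))) * N ≤ R := by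
    have h1 : Real.exp (-(ε' * (M + 1))) ≤ R / N := by
      rw [hRd, hN]
      convert hR
    rwa [le_div_iff₀ hN0] at h1
  have HP' : PP ≤ Real.exp (-(c * (M + 1))) * N ^ 2 := by
    have h1 : PP / (N ^ 2) ≤ Real.exp (-(c * (M + 1))) := by
      have h2 : N ^ 2 = (Fintype.card ((Fin (M + 1) → Fin k → Fin (M + 1)) ×
          (Fin (M + 1) → Fin k → Fin (M + 1))) : ℝ) := by
        rw [Fintype.card_prod, hN]
        push_cast
        ring
      rw [hPP, h2]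
      convert HP
    rwa [div_le_iff₀ (by positivity)] at h1
  have hE0 := Real.exp_pos (-(ε' * ((M : ℝ) + 1)))
  have h1 : (Real.exp (-(ε' * (M + 1))) * N) ^ 2 ≤ R ^ 2 :=
    pow_le_pow_left₀ (by positivity) hR' 2
  have h2 : bad * (Real.exp (-(ε' * (M + 1))) * N) ^ 2 ≤
      Real.exp (-(c * (M + 1))) * N ^ 2 * A ^ 2 :=
    (mul_le_mul_of_nonneg_left h1 hbad0).trans
      (H'.trans (mul_le_mul_of_nonneg_right HP' (sq_nonneg A)))
  have h3 : bad * Real.exp (-(ε' * (M + 1))) ^ 2 ≤ Real.exp (-(c * (M + 1))) * A ^ 2 := by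
    have h4 : (bad * Real.exp (-(ε' * (M + 1))) ^ 2) * N ^ 2 ≤
        (Real.exp (-(c * (M + 1))) * A ^ 2) * N ^ 2 := by
      calc (bad * Real.exp (-(ε' * (M + 1))) ^ 2) * N ^ 2
          = bad * (Real.exp (-(ε' * (M + 1))) * N) ^ 2 := by ring
        _ ≤ _ := h2
        _ = _ := by ring
    exact le_of_mul_le_mul_right h4 (by positivity)
  have hMpos : (0 : ℝ) < (M : ℝ) + 1 := by positivity
  have hmM' : (m : ℝ) + 1 ≤ (M : ℝ) + 1 := by
    have : (m : ℝ) ≤ M := by exact_mod_cast hmM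
    linarith
  have h5 : Real.exp (-(c * (M + 1))) ≤
      Real.exp (-(c / 2 * (m + 1))) * Real.exp (-(ε' * (M + 1))) ^ 2 := by
    rw [← Real.exp_nat_mul, ← Real.exp_add]
    apply Real.exp_le_exp.mpr
    push_cast
    have h6 : ε' * ((M : ℝ) + 1) ≤ c / 8 * (M + 1) := mul_le_mul_of_nonneg_right hε'c hMpos.le
    have h7 : c / 2 * ((m : ℝ) + 1) ≤ c / 2 * (M + 1) :=
      mul_le_mul_of_nonneg_left hmM' (by linarith)
    have h8 : 0 < c * ((M : ℝ) + 1) := by positivity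
    linarith
  have h6 : Real.exp (-(c / 2 * (m + 1))) ≤ ε := by
    have h7 : 2 / (c * ε) ≤ m := (Nat.le_ceil _).trans (by exact_mod_cast hmc)
    have hcε : 0 < c * ε := by positivity
    rw [div_le_iff₀ hcε] at h7
    have h8 : 0 < c / 2 * ((m : ℝ) + 1) := by positivity
    have h9 : 1 ≤ ε * (c / 2 * ((m : ℝ) + 1)) := by nlinarith
    have h10 := Real.add_one_le_exp (c / 2 * ((m : ℝ) + 1))
    rw [Real.exp_neg]
    rw [inv_le_comm₀ (Real.exp_pos _) hε]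
    have h11 : ε⁻¹ ≤ c / 2 * ((m : ℝ) + 1) := by
      rw [inv_le_iff_one_le_mul₀ hε]
      linarith
    linarith
  have h7 : bad * Real.exp (-(ε' * (M + 1))) ^ 2 ≤
      (ε * A ^ 2) * Real.exp (-(ε' * (M + 1))) ^ 2 := by
    have h8 : Real.exp (-(c * (M + 1))) ≤ ε * Real.exp (-(ε' * (M + 1))) ^ 2 :=
      h5.trans (mul_le_mul_of_nonneg_right h6 (by positivity))
    have h9 := mul_le_mul_of_nonneg_right h8 (sq_nonneg A)
    calc bad * Real.exp (-(ε' * (M + 1))) ^ 2 ≤ Real.exp (-(c * (M + 1))) * A ^ 2 := h3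
      _ ≤ ε * Real.exp (-(ε' * (M + 1))) ^ 2 * A ^ 2 := h9
      _ = _ := by ring
  have h8 := le_of_mul_le_mul_right h7 (by positivity)
  rw [hbad, hA] at h8
  exact h8

open Classical in
/-- upper bound for the number of pairs with common words -/
theorem upper_pairs (k : ℕ) (hk : 2 ≤ k) (w : ℝ) (hw0 : 0 < w) (hw1 : w < 1)
    (hw : w = 1 - Real.exp (-((k : ℝ) * w))) (g : ℕ) (ε : ℝ) (hε : 0 < ε) : ∃ m0 : ℕ, ∀ m, m0 ≤ m →
    ((univ.filter (fun p : (Fin (m + 1) → Fin k → Fin (m + 1)) × (Fin (m + 1) → Fin k → Fin (m + 1)) =>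
        Ac p.1 0 ∧ Ac p.2 0 ∧ ((1 - aa k 1 0 g 1 1) / w ^ 2 + ε) * ((m : ℝ) + 1) ^ 2 ≤
          ((univ.filter (fun x : Fin (m + 1) × Fin (m + 1) => 1 ≤ cw p.1 p.2 g x.1 x.2)).card : ℝ))).card : ℝ)
      ≤ ε * ((univ.filter (fun T : Fin (m + 1) → Fin k → Fin (m + 1) => Ac T 0)).card : ℝ) ^ 2 := by
  obtain ⟨a, ha⟩ : ∃ a : ℝ, a = aa k 1 0 g 1 1 := ⟨_, rfl⟩
  obtain ⟨B, hB⟩ : ∃ B : ℝ, B = (1 - a) / w ^ 2 + ε := ⟨_, rfl⟩
  have hw2 : 0 < w ^ 2 := by positivity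
  have hBw : B * w ^ 2 = (1 - a) + ε * w ^ 2 := by
    rw [hB]
    field_simp
  obtain ⟨ε', hε'⟩ : ∃ ε' : ℝ, ε' = ε * w ^ 2 / 2 := ⟨_, rfl⟩
  have hε'0 : 0 < ε' := by rw [hε']; positivity
  obtain ⟨δ, hδ⟩ : ∃ δ : ℝ, δ = min 1 (ε' / (3 * (|B| + 1))) := ⟨_, rfl⟩
  have hB1 : 0 < 3 * (|B| + 1) := by positivity
  have hδ0 : 0 < δ := by rw [hδ]; exact lt_min one_pos (by positivity)
  have hδ1 : δ ≤ 1 := by rw [hδ]; exact min_le_left _ _
  have hδB : |B| * (3 * δ) ≤ ε' := by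
    have h1 : δ ≤ ε' / (3 * (|B| + 1)) := by rw [hδ]; exact min_le_right _ _
    rw [le_div_iff₀ hB1] at h1
    have h2 := abs_nonneg B
    nlinarith
  obtain ⟨c, hc, M0, hM0⟩ := cwm_conc k (by omega) 0 g 0 le_rfl zero_le_one ε' hε'0
  have key := transfer_pair k hk w hw0 hw1 hw
    (fun m T T' => ((1 - aa k 1 0 g 1 1) / w ^ 2 + ε) * ((m : ℝ) + 1) ^ 2 ≤
      ((univ.filter (fun x : Fin (m + 1) × Fin (m + 1) => 1 ≤ cw T T' g x.1 x.2)).card : ℝ))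
    (fun M S S' => ε' ≤ |(∑ p, ∑ q, (0 : ℝ) ^ (cwm S S' 0 g p q)) / ((M : ℝ) + 1) ^ 2 -
      aa k (th k 0) 0 g 1 1|) δ hδ0 c hc M0 ?_ hM0 ε hε
  · obtain ⟨m0, hm0⟩ := key
    refine ⟨m0, fun m hm => ?_⟩
    have h1 := hm0 m hm
    convert h1
  · intro m M _ hmM hr T T' S S' e e' _ _ he he' hP
    have hth : th k 0 = 1 := rfl
    simp only [hth]
    rw [up_sum, Fintype.card_fin]
    have h1 := cw_emb_pos he he' g
    have h1' : ((univ.filter (fun x : Fin (m + 1) × Fin (m + 1) =>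
        1 ≤ cw T T' g x.1 x.2)).card : ℝ) ≤
        ((univ.filter (fun x : Fin (M + 1) × Fin (M + 1) => 1 ≤ cw S S' g x.1 x.2)).card : ℝ) := by
      exact_mod_cast h1
    obtain ⟨s, hs⟩ : ∃ s : ℝ, s =
      ((univ.filter (fun x : Fin (M + 1) × Fin (M + 1) => 1 ≤ cw S S' g x.1 x.2)).card : ℝ) :=
      ⟨_, rfl⟩
    rw [← ha, ← hB] at hP
    rw [← hs] at h1'
    rw [← hs, ← ha]
    have hMp : (0 : ℝ) < (M : ℝ) + 1 := by positivity
    obtain ⟨r, hrr⟩ : ∃ r : ℝ, r = ((m : ℝ) + 1) / (M + 1) := ⟨_, rfl⟩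
    rw [← hrr] at hr
    have h2 : B * ((m : ℝ) + 1) ^ 2 ≤ s := hP.trans h1'
    have h3 : B * r ^ 2 ≤ s / ((M : ℝ) + 1) ^ 2 := by
      rw [le_div_iff₀ (by positivity), hrr]
      have : B * (((m : ℝ) + 1) / (M + 1)) ^ 2 * ((M : ℝ) + 1) ^ 2 = B * ((m : ℝ) + 1) ^ 2 := by
        field_simp
      rw [this]
      exact h2
    have hr2 := abs_lt.mp hr
    have h4 : |r ^ 2 - w ^ 2| ≤ 3 * δ := by
      have h5 : r ^ 2 - w ^ 2 = (r - w) * (r + w) := by ring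
      rw [h5, abs_mul]
      have h6 : |r + w| ≤ 3 := by
        rw [abs_le]; constructor <;> linarith [hr2.1, hr2.2]
      have := mul_le_mul hr.le h6 (abs_nonneg _) hδ0.le
      linarith
    have h7 : |B * (r ^ 2 - w ^ 2)| ≤ ε' := by
      rw [abs_mul]
      exact (mul_le_mul_of_nonneg_left h4 (abs_nonneg B)).trans hδB
    have h8 := (abs_le.mp h7).1
    have h9 : B * r ^ 2 = B * (r ^ 2 - w ^ 2) + B * w ^ 2 := by ring
    have h10 : 1 - a + ε' ≤ s / ((M : ℝ) + 1) ^ 2 := by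
      have : ε * w ^ 2 = 2 * ε' := by rw [hε']; ring
      linarith
    have h11 : (((M + 1 : ℕ) : ℝ) ^ 2 - s) / ((M : ℝ) + 1) ^ 2 = 1 - s / ((M : ℝ) + 1) ^ 2 := by
      push_cast
      rw [sub_div, div_self (by positivity)]
    rw [h11]
    refine le_trans ?_ (neg_le_abs _)
    linarith

end AC

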