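import Pool.Agent.Helper949.AC.Defs2

set_option autoImplicit false

/-!
Definitions for the asymptotics of the average state complexity of intersections.
Tables `T : V → Fin k → V`; `rn T g w x` is the state reached from `x` after reading `w`.
-/

namespace AC

open Finset

variable {V : Type} {k : ℕ}

end AC

namespace AC
open Finset

theorem th_tendsto (k : ℕ) (w : ℝ) (hw0 : 0 < w) (hw1 : w < 1)
    (hw : w = 1 - Real.exp (-((k : ℝ) * w))) :
    (∀ h, w ≤ th k h ∧ th k h ≤ 1) ∧ Filter.Tendsto (th k) Filter.atTop (nhds w) := by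
  have hk0 : (0 : ℝ) ≤ k := Nat.cast_nonneg k
  have hk : (0 : ℝ) < k := by
    rcases hk0.lt_or_eq with h | h
    · exact h
    · rw [← h] at hw
      simp at hw
      exact absurd hw hw0.ne'
  have hmono : ∀ x y : ℝ, x ≤ y →
      1 - Real.exp (-((k : ℝ) * x)) ≤ 1 - Real.exp (-((k : ℝ) * y)) := by
    intro x y hxy
    have h1 : Real.exp (-((k : ℝ) * y)) ≤ Real.exp (-((k : ℝ) * x)) :=
      Real.exp_le_exp.mpr (neg_le_neg (mul_le_mul_of_nonneg_left hxy hk0))
    linarith
  have hb : ∀ h, w ≤ th k h ∧ th k h ≤ 1 := by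
    intro h
    induction h with
    | zero => exact ⟨hw1.le, le_refl 1⟩
    | succ h ih =>
      show w ≤ 1 - Real.exp (-((k : ℝ) * th k h)) ∧ 1 - Real.exp (-((k : ℝ) * th k h)) ≤ 1
      refine ⟨?_, ?_⟩
      · have h1 := hmono w (th k h) ih.1
        linarith
      · have h1 := Real.exp_pos (-((k : ℝ) * th k h))
        linarith
  refine ⟨hb, ?_⟩
  have hstep : ∀ h, th k (h + 1) ≤ th k h := by
    intro h
    induction h with
    | zero => exact (hb 1).2
    | succ h ih => exact hmono _ _ ih
  have hanti : Antitone (th k) := antitone_nat_of_succ_le hstep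
  have hbdd : BddBelow (Set.range (th k)) := ⟨w, by rintro _ ⟨h, rfl⟩; exact (hb h).1⟩
  have hlim := tendsto_atTop_ciInf hanti hbdd
  obtain ⟨t, ht⟩ : ∃ t, t = ⨅ i, th k i := ⟨_, rfl⟩
  rw [← ht] at hlim
  have htw : w ≤ t := ge_of_tendsto' hlim fun h => (hb h).1
  have hfix : t = 1 - Real.exp (-((k : ℝ) * t)) := by
    have h1 : Filter.Tendsto (fun h => th k (h + 1)) Filter.atTop (nhds t) :=
      hlim.comp (Filter.tendsto_add_atTop_nat 1)
    have hc : Continuous (fun x : ℝ => 1 - Real.exp (-((k : ℝ) * x))) := by fun_prop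
    have h2 : Filter.Tendsto (fun h => th k (h + 1)) Filter.atTop
        (nhds (1 - Real.exp (-((k : ℝ) * t)))) := (hc.tendsto t).comp hlim
    exact tendsto_nhds_unique h1 h2
  have heq : t = w := by
    rcases htw.lt_or_eq with h | h
    · exfalso
      have ht0 : 0 < t := hw0.trans h
      have h1 := strictConvexOn_exp.2 (Set.mem_univ (0 : ℝ)) (Set.mem_univ (-((k : ℝ) * t)))
        (by have := mul_pos hk ht0; linarith) (show 0 < 1 - w / t by
          rw [sub_pos, div_lt_one ht0]
          exact h) (show 0 < w / t from div_pos hw0 ht0) (by ring)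
      have h2 : (1 - w / t) • (0 : ℝ) + (w / t) • (-((k : ℝ) * t)) = -((k : ℝ) * w) := by
        simp only [smul_eq_mul]
        field_simp
        ring
      rw [h2, Real.exp_zero] at h1
      simp only [smul_eq_mul] at h1
      have h3 : Real.exp (-((k : ℝ) * t)) = 1 - t := by linarith
      have h4 : Real.exp (-((k : ℝ) * w)) = 1 - w := by linarith
      rw [h3, h4] at h1
      have h5 : (1 - w / t) * 1 + w / t * (1 - t) = 1 - w := by
        field_simp
        ring
      linarith
    · exact h.symm
  rw [heq] at hlim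
  exact hlim

end AC

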