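import Pool.Agent.Helper949.AC.Defs2
import Pool.Agent.Helper949.AC.Loc
import Pool.Agent.Helper949.AC.P1
import Pool.Agent.Helper949.AC.AaA
import Pool.Agent.Helper949.AC.Th
import Pool.Agent.Helper949.AC.L1
import Pool.Agent.Helper949.AC.L2

set_option autoImplicit false

/-!
Definitions for the asymptotics of the average state complexity of intersections.
Tables `T : V → Fin k → V`; `rn T g w x` is the state reached from `x` after reading `w`.
-/

namespace AC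

open Finset

variable {V : Type} {k : ℕ}

end AC

namespace AC
open Finset

end AC

namespace AC
open Finset

/-! GIVEN -/
/-! TARGETS -/
theorem FF_univ (k h : ℕ) : FF k 1 h (univ : Finset (Fin h → Fin k)) = 1 - th k h := by
  induction h with
  | zero =>
    have h0 : (univ : Finset (Fin 0 → Fin k)) ≠ ∅ := by simp
    show (if (univ : Finset (Fin 0 → Fin k)) = ∅ then (1:ℝ) else 1 - 1) = 1 - 1
    rw [if_neg h0]
  | succ h ih =>
    have hs : ∀ a : Fin k, slice (univ : Finset (Fin (h+1) → Fin k)) a = univ := by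
      intro a
      ext w
      simp [slice]
    show Real.exp (∑ a : Fin k, (FF k 1 h (slice univ a) - 1)) =
      1 - (1 - Real.exp (-((k:ℝ) * th k h)))
    simp only [hs, ih, Finset.sum_const, Finset.card_univ, Fintype.card_fin, nsmul_eq_mul]
    have : (k:ℝ) * (1 - th k h - 1) = -((k:ℝ) * th k h) := by ring
    rw [this]; ring

open Classical in
private theorem pr_or' {Ω : Type} [Fintype Ω] (P Q : Ω → Prop) :
    pr (fun x => P x ∨ Q x) ≤ pr P + pr Q := by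
  unfold pr
  rw [← add_div]
  apply div_le_div_of_nonneg_right _ (by positivity)
  rw [← Nat.cast_add]
  apply Nat.cast_le.mpr
  refine le_trans (Finset.card_le_card (t := univ.filter P ∪ univ.filter Q) ?_)
    (Finset.card_union_le _ _)
  intro x hx
  simp only [Finset.mem_filter, Finset.mem_univ, true_and, Finset.mem_union] at hx ⊢
  exact hx

private theorem pr_fst' {Ω Ω' : Type} [Fintype Ω] [Fintype Ω'] [Nonempty Ω'] (P : Ω → Prop) :
    pr (fun x : Ω × Ω' => P x.1) = pr P := by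
  classical
  unfold pr
  have h1 : (univ.filter (fun x : Ω × Ω' => P x.1)) = (univ.filter P) ×ˢ (univ : Finset Ω') := by
    ext x; simp
  have h2 : ((univ.filter (fun x : Ω × Ω' => P x.1)).card : ℝ)
      = ((univ.filter P).card : ℝ) * Fintype.card Ω' := by
    rw [h1, Finset.card_product]; push_cast; rfl
  have h3 : (Fintype.card Ω' : ℝ) ≠ 0 := by
    have := Fintype.card_pos (α := Ω')
    positivity
  have h4 : (Fintype.card (Ω × Ω') : ℝ) = Fintype.card Ω * Fintype.card Ω' := by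
    rw [Fintype.card_prod]; push_cast; rfl
  rw [h4]
  rw [show ((@Finset.filter (Ω × Ω') (fun x => P x.1) (fun a => Classical.propDecidable _) univ).card : ℝ)
    = ((univ.filter (fun x : Ω × Ω' => P x.1)).card : ℝ) by congr!]
  rw [h2]
  rw [mul_div_mul_right _ _ h3]

private theorem pr_snd' {Ω Ω' : Type} [Fintype Ω] [Fintype Ω'] [Nonempty Ω] (P : Ω' → Prop) :
    pr (fun x : Ω × Ω' => P x.2) = pr P := by
  classical
  unfold pr
  have h1 : (univ.filter (fun x : Ω × Ω' => P x.2)) = (univ : Finset Ω) ×ˢ (univ.filter P) := by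
    ext x; simp
  have h2 : ((univ.filter (fun x : Ω × Ω' => P x.2)).card : ℝ)
      = Fintype.card Ω * ((univ.filter P).card : ℝ) := by
    rw [h1, Finset.card_product]; push_cast; rfl
  have h3 : (Fintype.card Ω : ℝ) ≠ 0 := by
    have := Fintype.card_pos (α := Ω)
    positivity
  have h4 : (Fintype.card (Ω × Ω') : ℝ) = Fintype.card Ω * Fintype.card Ω' := by
    rw [Fintype.card_prod]; push_cast; rfl
  rw [h4]
  rw [show ((@Finset.filter (Ω × Ω') (fun x => P x.2) (fun a => Classical.propDecidable _) univ).card : ℝ)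
    = ((univ.filter (fun x : Ω × Ω' => P x.2)).card : ℝ) by congr!]
  rw [h2]
  rw [mul_div_mul_left _ _ h3]

/-- the real-number core of the comparison -/
private theorem lp_core (N n K t w δ ε ε1 a ah H X Y C C' c c' : ℝ) (hN : 0 < N) (hK : 0 < K)
    (hw0 : 0 < w) (hw1 : w < 1) (hδ : 0 < δ) (hδ1 : δ ≤ 1) (hδw : δ ≤ w / 2) (hε : 0 < ε)
    (hε1 : 0 < ε1)
    (ha0 : 0 ≤ a) (ha1 : a ≤ 1) (hah : ah ≤ a)
    (hr : |n / N - w| < δ)
    (b1 : 2 * K * (t - w) ≤ ε * w ^ 2 / 4 / 8)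
    (b2 : ε1 * (1 + 2 * K) ≤ ε * w ^ 2 / 4 / 8)
    (b3 : δ * (2 * K + 3 / w ^ 2) ≤ ε * w ^ 2 / 4 / 8)
    (b4 : 2 * K * H / N ≤ ε * w ^ 2 / 4 / 8)
    (hX : X / N ^ 2 < ah + ε1)
    (hC : C = N - c) (hC' : C' = N - c')
    (hc : 1 - t - ε1 < c / N) (hc' : 1 - t - ε1 < c' / N)
    (hlow : N ^ 2 - X ≤ Y + N * K * ((C + H - n) + (C' + H - n)))
    (hP : Y ≤ ((1 - a) / w ^ 2 - ε) * n ^ 2) : False := by
  have hr' := abs_lt.mp hr
  set r := n / N with hrdef
  have hn : n = r * N := by rw [hrdef]; field_simp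
  have hN2 : 0 < N ^ 2 := by positivity
  have hw2 : 0 < w ^ 2 := by positivity
  have hX2 : X < (ah + ε1) * N ^ 2 := by rwa [div_lt_iff₀ hN2] at hX
  have hc2 : (1 - t - ε1) * N < c := by rwa [lt_div_iff₀ hN] at hc
  have hc2' : (1 - t - ε1) * N < c' := by rwa [lt_div_iff₀ hN] at hc'
  have hrpos : 0 < r := by linarith [hr'.1]
  have hr1 : r ^ 2 ≤ w ^ 2 + 3 * δ := by nlinarith
  have hr2 : w ^ 2 / 4 ≤ r ^ 2 := by nlinarith
  -- upper bound for Y / N^2
  have hY : Y ≤ ((1 - a) + 3 * δ / w ^ 2 - ε * w ^ 2 / 4) * N ^ 2 := by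
    refine le_trans hP ?_
    rw [hn, mul_pow, ← mul_assoc]
    apply mul_le_mul_of_nonneg_right _ hN2.le
    have e1 : (1 - a) / w ^ 2 * r ^ 2 ≤ (1 - a) / w ^ 2 * (w ^ 2 + 3 * δ) :=
      mul_le_mul_of_nonneg_left hr1 (div_nonneg (by linarith) hw2.le)
    have e2 : (1 - a) / w ^ 2 * (w ^ 2 + 3 * δ) = (1 - a) + (1 - a) * (3 * δ / w ^ 2) := by
      field_simp
    have e3 : (1 - a) * (3 * δ / w ^ 2) ≤ 1 * (3 * δ / w ^ 2) :=
      mul_le_mul_of_nonneg_right (by linarith) (by positivity)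
    have e4 : ε * (w ^ 2 / 4) ≤ ε * r ^ 2 := mul_le_mul_of_nonneg_left hr2 hε.le
    have e5 : ((1 - a) / w ^ 2 - ε) * r ^ 2 = (1 - a) / w ^ 2 * r ^ 2 - ε * r ^ 2 := by ring
    rw [e5]
    linarith
  -- bound for D
  have hrN : (w - δ) * N < r * N := mul_lt_mul_of_pos_right (by linarith [hr'.1]) hN
  have hD : C + H - n ≤ (t - w + ε1 + δ) * N + H := by
    rw [hC, hn]
    linarith only [hc2, hrN]
  have hD' : C' + H - n ≤ (t - w + ε1 + δ) * N + H := by
    rw [hC', hn]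
    linarith only [hc2', hrN]
  have hDD : N * K * ((C + H - n) + (C' + H - n)) ≤
      N * K * (((t - w + ε1 + δ) * N + H) + ((t - w + ε1 + δ) * N + H)) :=
    mul_le_mul_of_nonneg_left (add_le_add hD hD') (by positivity)
  have hH : 2 * K * H ≤ (ε * w ^ 2 / 4 / 8) * N := by rwa [div_le_iff₀ hN] at b4
  have hH2 : N * (2 * K * H) ≤ N * ((ε * w ^ 2 / 4 / 8) * N) :=
    mul_le_mul_of_nonneg_left hH hN.le
  have hlow2 : (1 - a - ε1) * N ^ 2 ≤ N ^ 2 - X := by
    have e10 : ah * N ^ 2 ≤ a * N ^ 2 := mul_le_mul_of_nonneg_right hah hN2.le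
    linarith only [hX2, e10]
  have key : (1 - a - ε1) * N ^ 2 ≤ ((1 - a) + 3 * δ / w ^ 2 - ε * w ^ 2 / 4) * N ^ 2
      + (2 * K * (t - w) + 2 * K * ε1 + 2 * K * δ) * N ^ 2 + (ε * w ^ 2 / 4 / 8) * N ^ 2 := by
    have e8 : N * K * (((t - w + ε1 + δ) * N + H) + ((t - w + ε1 + δ) * N + H)) =
      (2 * K * (t - w) + 2 * K * ε1 + 2 * K * δ) * N ^ 2 + N * (2 * K * H) := by ring
    have e9 : N * ((ε * w ^ 2 / 4 / 8) * N) = (ε * w ^ 2 / 4 / 8) * N ^ 2 := by ring
    rw [e8] at hDD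
    rw [e9] at hH2
    linarith only [hlow2, hlow, hDD, hH2, hY]
  have key2 : (1 - a - ε1) * N ^ 2 ≤ (((1 - a) + 3 * δ / w ^ 2 - ε * w ^ 2 / 4)
      + (2 * K * (t - w) + 2 * K * ε1 + 2 * K * δ) + (ε * w ^ 2 / 4 / 8)) * N ^ 2 := by
    linarith
  have key3 := le_of_mul_le_mul_right key2 hN2
  have e6 : δ * (2 * K + 3 / w ^ 2) = 2 * K * δ + 3 * δ / w ^ 2 := by ring
  have e7 : ε1 * (1 + 2 * K) = ε1 + 2 * K * ε1 := by ring
  rw [e6] at b3
  rw [e7] at b2
  have hpos : 0 < ε * w ^ 2 := by positivity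
  linarith

open Classical in
/-- lower bound for the pair functional in accessible tables -/
theorem lower_pairs (k : ℕ) (hk : 2 ≤ k) (w : ℝ) (hw0 : 0 < w) (hw1 : w < 1)
    (hw : w = 1 - Real.exp (-((k : ℝ) * w))) (g : ℕ) (β : ℝ) (hβ0 : 0 ≤ β) (hβ1 : β ≤ 1)
    (ε : ℝ) (hε : 0 < ε) : ∃ m0 : ℕ, ∀ m, m0 ≤ m →
    ((univ.filter (fun p : (Fin (m + 1) → Fin k → Fin (m + 1)) × (Fin (m + 1) → Fin k → Fin (m + 1)) =>
        Ac p.1 0 ∧ Ac p.2 0 ∧ ∑ x, ∑ y, (1 - β ^ (cw p.1 p.2 g x y)) ≤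
          ((1 - aa k w β g 1 1) / w ^ 2 - ε) * ((m : ℝ) + 1) ^ 2)).card : ℝ)
      ≤ ε * ((univ.filter (fun T : Fin (m + 1) → Fin k → Fin (m + 1) => Ac T 0)).card : ℝ) ^ 2 := by
  have hk1 : 1 ≤ k := by omega
  have hkpos : (0:ℝ) < k := by exact_mod_cast (by omega : 0 < k)
  set K : ℝ := (k:ℝ) ^ g with hKdef
  have hK : 0 < K := by positivity
  obtain ⟨hth, htend⟩ := th_tendsto k w hw0 hw1 hw
  set η : ℝ := ε * w ^ 2 / 4 / 8 with hη
  have hηpos : 0 < η := by positivity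
  -- choice of h
  have hev : ∀ᶠ h in Filter.atTop, th k h < w + η / (2 * K) :=
    (htend.eventually (gt_mem_nhds (by linarith [div_pos hηpos (by positivity : (0:ℝ) < 2 * K)])))
  obtain ⟨h, hh⟩ := hev.exists
  have b1 : 2 * K * (th k h - w) ≤ η := by
    have : th k h - w ≤ η / (2 * K) := by linarith
    calc 2 * K * (th k h - w) ≤ 2 * K * (η / (2 * K)) :=
          mul_le_mul_of_nonneg_left this (by positivity)
      _ = η := by field_simp
  -- choice of ε1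
  set ε1 : ℝ := η / (1 + 2 * K) with hε1def
  have hε1 : 0 < ε1 := by positivity
  have b2 : ε1 * (1 + 2 * K) ≤ η := by
    rw [hε1def]; rw [div_mul_cancel₀]; positivity
  -- choice of δ
  set δ : ℝ := min (min 1 (w / 2)) (η / (2 * K + 3 / w ^ 2)) with hδdef
  have hδ : 0 < δ := by
    apply lt_min (lt_min one_pos (by linarith)) (by positivity)
  have hδ1 : δ ≤ 1 := le_trans (min_le_left _ _) (min_le_left _ _)
  have hδw : δ ≤ w / 2 := le_trans (min_le_left _ _) (min_le_right _ _)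
  have b3 : δ * (2 * K + 3 / w ^ 2) ≤ η := by
    have h1 : δ ≤ η / (2 * K + 3 / w ^ 2) := min_le_right _ _
    have h2 : 0 < 2 * K + 3 / w ^ 2 := by positivity
    rwa [le_div_iff₀ h2] at h1
  obtain ⟨c1, hc1, M1, hM1⟩ := cwm_conc k hk1 h g β hβ0 hβ1 ε1 hε1
  obtain ⟨c2, hc2, M2, hM2⟩ := local_conc k hk1 h (univ : Finset (Fin h → Fin k)) ε1 hε1
  set c : ℝ := min c1 c2 / 2 with hcdef
  have hc : 0 < c := by
    have := lt_min hc1 hc2
    positivity
  have hcc1 : 2 * c ≤ c1 := by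
    have := min_le_left c1 c2
    rw [hcdef]; linarith
  have hcc2 : 2 * c ≤ c2 := by
    have := min_le_right c1 c2
    rw [hcdef]; linarith
  obtain ⟨M3, hM3⟩ := exists_nat_gt (2 / c)
  obtain ⟨M4, hM4⟩ := exists_nat_gt (2 * K * ((h:ℝ) * (k:ℝ) ^ h) / η)
  set M0 : ℕ := max (max M1 M2) (max M3 M4) with hM0
  refine transfer_pair k hk w hw0 hw1 hw
    (fun m T T' => ∑ x, ∑ y, (1 - β ^ (cw T T' g x y)) ≤
          ((1 - aa k w β g 1 1) / w ^ 2 - ε) * ((m : ℝ) + 1) ^ 2)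
    (fun M S S' =>
      (ε1 ≤ |(∑ p, ∑ q, β ^ (cwm S S' h g p q)) / ((M : ℝ) + 1) ^ 2 - aa k (th k h) β g 1 1|) ∨
      ((ε1 ≤ |(((cov S h univ)ᶜ).card : ℝ) / (M + 1) - FF k 1 h univ|) ∨
      (ε1 ≤ |(((cov S' h univ)ᶜ).card : ℝ) / (M + 1) - FF k 1 h univ|)))
    δ hδ c hc M0 ?_ ?_ ε hε
  · intro m M hM hmM hr T T' S S' e e' hT hT' he he' hP
    by_contra hcon
    push Not at hcon
    obtain ⟨q1, q2, q3⟩ := hcon
    rw [FF_univ] at q2 q3
    have q1' := (abs_lt.mp q1).2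
    have q2' := (abs_lt.mp q2).1
    have q3' := (abs_lt.mp q3).1
    have hN : (0:ℝ) < (M:ℝ) + 1 := by positivity
    have hlow := lower_comp hk1 hT hT' he he' h g β hβ0 hβ1
    have hab := aa_basic k w β hw0.le hw1.le hβ0 hβ1 g 1 1
    have hmono := aa_mono k w (th k h) β β hw0.le (hth h).1 (hth h).2 hβ0 le_rfl hβ1 g 1 1
    have hsum : ∑ P : Fin (M+1), ∑ Q : Fin (M+1), (1 - β ^ (cwm S S' h g P Q)) =
        ((M:ℝ) + 1) ^ 2 - ∑ P : Fin (M+1), ∑ Q : Fin (M+1), β ^ (cwm S S' h g P Q) := by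
      simp only [Finset.sum_sub_distrib, Finset.sum_const, Finset.card_univ, Fintype.card_fin,
        nsmul_eq_mul]
      push_cast
      ring
    rw [hsum] at hlow
    have hcard : ∀ S : Fin (M + 1) → Fin k → Fin (M + 1),
        ((cov S h univ).card : ℝ) = ((M:ℝ) + 1) - (((cov S h univ)ᶜ).card : ℝ) := by
      intro S
      have h1 := Finset.card_add_card_compl (cov S h univ)
      rw [Fintype.card_fin] at h1
      have h2 : ((cov S h univ).card : ℝ) + (((cov S h univ)ᶜ).card : ℝ) = (M:ℝ) + 1 := by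
        exact_mod_cast h1
      linarith
    have b4 : 2 * K * ((h:ℝ) * (k:ℝ) ^ h) / ((M:ℝ) + 1) ≤ η := by
      rw [div_le_iff₀ hN]
      have h1 : (M4:ℝ) ≤ M := by
        have : M4 ≤ M := le_trans (le_trans (le_max_right _ _) (le_max_right _ _)) hM
        exact_mod_cast this
      have h2 : 2 * K * ((h:ℝ) * (k:ℝ) ^ h) / η < M + 1 := by linarith
      rw [div_lt_iff₀ hηpos] at h2
      linarith
    exact lp_core ((M:ℝ) + 1) ((m:ℝ) + 1) K (th k h) w δ ε ε1 (aa k w β g 1 1)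
      (aa k (th k h) β g 1 1) ((h:ℝ) * (k:ℝ) ^ h) _ _ _ _ _ _ hN hK hw0 hw1 hδ hδ1 hδw hε hε1
      hab.1 hab.2 hmono hr b1 b2 b3 b4 (by linarith) (hcard S) (hcard S') (by linarith)
      (by linarith) hlow hP
  · intro M hM
    have hM1' : M1 ≤ M := le_trans (le_trans (le_max_left _ _) (le_max_left _ _)) hM
    have hM2' : M2 ≤ M := le_trans (le_trans (le_max_right _ _) (le_max_left _ _)) hM
    have hM3' : M3 ≤ M := le_trans (le_trans (le_max_left _ _) (le_max_right _ _)) hM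
    have p1 := hM1 M hM1'
    have p2 := hM2 M hM2'
    refine le_trans (pr_or' _ _) ?_
    refine le_trans (add_le_add le_rfl (pr_or' _ _)) ?_
    have f1 : pr (fun p : (Fin (M + 1) → Fin k → Fin (M + 1)) × (Fin (M + 1) → Fin k → Fin (M + 1)) =>
        ε1 ≤ |(((cov p.1 h univ)ᶜ).card : ℝ) / (M + 1) - FF k 1 h univ|)
        = pr (fun T : Fin (M + 1) → Fin k → Fin (M + 1) =>
        ε1 ≤ |(((cov T h univ)ᶜ).card : ℝ) / (M + 1) - FF k 1 h univ|) :=
      pr_fst' (Ω' := Fin (M + 1) → Fin k → Fin (M + 1))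
        (fun T : Fin (M + 1) → Fin k → Fin (M + 1) =>
        ε1 ≤ |(((cov T h univ)ᶜ).card : ℝ) / (M + 1) - FF k 1 h univ|)
    have f2 : pr (fun p : (Fin (M + 1) → Fin k → Fin (M + 1)) × (Fin (M + 1) → Fin k → Fin (M + 1)) =>
        ε1 ≤ |(((cov p.2 h univ)ᶜ).card : ℝ) / (M + 1) - FF k 1 h univ|)
        = pr (fun T : Fin (M + 1) → Fin k → Fin (M + 1) =>
        ε1 ≤ |(((cov T h univ)ᶜ).card : ℝ) / (M + 1) - FF k 1 h univ|) :=
      pr_snd' (Ω := Fin (M + 1) → Fin k → Fin (M + 1))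
        (fun T : Fin (M + 1) → Fin k → Fin (M + 1) =>
        ε1 ≤ |(((cov T h univ)ᶜ).card : ℝ) / (M + 1) - FF k 1 h univ|)
    rw [f1, f2]
    have hNpos : (0:ℝ) < (M:ℝ) + 1 := by positivity
    have hcN : 2 ≤ c * ((M:ℝ) + 1) := by
      have h1 : (M3:ℝ) ≤ M := by exact_mod_cast hM3'
      have h2 : 2 / c < (M:ℝ) + 1 := by linarith
      rw [div_lt_iff₀ hc] at h2
      linarith
    have g1 : Real.exp (-(c1 * ((M:ℝ) + 1))) ≤ Real.exp (-(2 * c * ((M:ℝ) + 1))) := by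
      apply Real.exp_le_exp.mpr
      have := mul_le_mul_of_nonneg_right hcc1 hNpos.le
      linarith
    have g2 : Real.exp (-(c2 * ((M:ℝ) + 1))) ≤ Real.exp (-(2 * c * ((M:ℝ) + 1))) := by
      apply Real.exp_le_exp.mpr
      have := mul_le_mul_of_nonneg_right hcc2 hNpos.le
      linarith
    have g3 : Real.exp (-(2 * c * ((M:ℝ) + 1))) =
        Real.exp (-(c * ((M:ℝ) + 1))) * Real.exp (-(c * ((M:ℝ) + 1))) := by
      rw [← Real.exp_add]; congr 1; ring
    have g4 : 3 * Real.exp (-(c * ((M:ℝ) + 1))) ≤ 1 := by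
      have h1 : 3 ≤ Real.exp (c * ((M:ℝ) + 1)) := by
        have := Real.add_one_le_exp (c * ((M:ℝ) + 1))
        linarith
      rw [Real.exp_neg]
      have h2 : 0 < Real.exp (c * ((M:ℝ) + 1)) := Real.exp_pos _
      rw [← div_eq_mul_inv, div_le_one h2]
      exact h1
    have g5 : 0 < Real.exp (-(c * ((M:ℝ) + 1))) := Real.exp_pos _
    nlinarith

end AC

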