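import Pool.Agent.Helper949.AC.Defs3

set_option autoImplicit false

/-!
Definitions for the asymptotics of the average state complexity of intersections.
Tables `T : V → Fin k → V`; `rn T g w x` is the state reached from `x` after reading `w`.
-/

namespace AC

open Finset

variable {V : Type} {k : ℕ}

end AC

namespace RA
variable {V : Type} {k : ℕ}
end RA

namespace SI
variable {V : Type} {k : ℕ}
end SI

namespace AS
open Finset

end AS

namespace AC
open Finset AS SI

/-! TARGETS -/
private theorem mem_Om_iff {V : Type} [Fintype V] {k : ℕ} (T0 T : V → Fin k → V)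
    (X : Finset (V × Fin k)) (K R : Finset V) : T ∈ Om T0 X K R ↔
      ((∀ c ∈ X, T c.1 c.2 = T0 c.1 c.2) ∧ (∀ c, c ∉ X → T c.1 c.2 ∉ K) ∧
        ∀ r ∈ R, ∃ c, c ∉ X ∧ T c.1 c.2 = r) := by
  unfold Om
  simp only [Finset.mem_filter, Finset.mem_univ, true_and]

private theorem mem_intr_iff {V : Type} {k : ℕ} [Fintype V] (T : V → Fin k → V) (g : ℕ) (p y : V) :
    y ∈ intr T g p ↔ ∃ j < g, ∃ u : Fin j → Fin k, rn T j u y = p := by
  unfold intr
  simp only [Finset.mem_filter, Finset.mem_univ, true_and]

private theorem mem_incell_iff {V : Type} {k : ℕ} [Fintype V] (T : V → Fin k → V) (g : ℕ) (p : V)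
    (c : V × Fin k) : c ∈ incell T g p ↔ T c.1 c.2 ∈ intr T g p := by
  unfold incell
  simp only [Finset.mem_filter, Finset.mem_univ, true_and]

private theorem mem_cls_iff {V : Type} {k : ℕ} [Fintype V] [DecidableEq V] (o : V) (T T' : V → Fin k → V)
    (g : ℕ) (p : V) : T' ∈ cls o T g p ↔
      ((∀ c ∈ incell T g p, T' c.1 c.2 = T c.1 c.2) ∧
        (∀ c, c ∉ incell T g p → T' c.1 c.2 ∉ intr T g p) ∧
        ∀ r, r ≠ o → r ∉ intr T g p → ∃ c, c ∉ incell T g p ∧ T' c.1 c.2 = r) := by
  unfold cls
  rw [mem_Om_iff]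
  simp only [Finset.mem_erase, Finset.mem_sdiff, Finset.mem_univ, true_and, and_imp, ne_eq]
theorem cls_self {V : Type} {k : ℕ} [Fintype V] [DecidableEq V] (o : V) (T : V → Fin k → V)
    (hT : Su T o) (g : ℕ) (p : V) : T ∈ cls o T g p := by
  rw [mem_cls_iff]
  refine ⟨fun c _ => rfl, ?_, ?_⟩
  · intro c hc h
    exact hc ((mem_incell_iff T g p c).2 h)
  · intro r hr hrK
    obtain ⟨v, a, hva⟩ := hT r hr
    refine ⟨(v, a), ?_, hva⟩
    intro hc
    have := (mem_incell_iff T g p _).1 hc
    simp only at this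
    rw [hva] at this
    exact hrK this

private theorem rn_first {V : Type} {k : ℕ} (T : V → Fin k → V) (j : ℕ) (w : Fin (j + 1) → Fin k) (y : V) :
    rn T (j + 1) w y = rn T j (fun i => w i.succ) (T y (w 0)) := by
  induction j with
  | zero => rfl
  | succ j ih =>
    have h1 : rn T (j + 1 + 1) w y =
        T (rn T (j + 1) (fun i => w i.castSucc) y) (w (Fin.last (j + 1))) := rfl
    rw [h1, ih]
    rfl

theorem cls_mem {V : Type} {k : ℕ} [Fintype V] [DecidableEq V] (o : V) (T T2 : V → Fin k → V)
    (hT : Su T o) (g : ℕ) (p : V) (h2 : T2 ∈ cls o T g p) :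
    Su T2 o ∧ intr T2 g p = intr T g p ∧ incell T2 g p = incell T g p ∧
      cls o T2 g p = cls o T g p ∧
      ∀ (j : ℕ) (w : Fin j → Fin k) (y : V), j ≤ g → (rn T2 j w y = p ↔ rn T j w y = p) := by
  obtain ⟨ha, hb, hc⟩ := (mem_cls_iff o T T2 g p).1 h2
  have hX := mem_incell_iff T g p
  have hK : ∀ (T' : V → Fin k → V) (y : V), y ∈ intr T' g p ↔
      ∃ j < g, ∃ u : Fin j → Fin k, rn T' j u y = p := fun T' y => mem_intr_iff T' g p y
  have claim : ∀ (j : ℕ) (w : Fin j → Fin k) (y : V), j ≤ g →
      (rn T2 j w y = p ↔ rn T j w y = p) := by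
    intro j
    induction j with
    | zero => intro w y _; rfl
    | succ j ih =>
      intro w y hj
      rw [rn_first, rn_first]
      constructor
      · intro h
        have h3 := (ih _ _ (by omega)).1 h
        have h4 : T2 y (w 0) ∈ intr T g p := (hK T _).2 ⟨j, by omega, _, h3⟩
        have h5 : (y, w 0) ∈ incell T g p := by
          by_contra hne
          exact hb _ hne h4
        have h6 := ha _ h5
        simp only at h6
        rw [h6] at h3
        exact h3
      · intro h
        have h4 : T y (w 0) ∈ intr T g p := (hK T _).2 ⟨j, by omega, _, h⟩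
        have h5 : (y, w 0) ∈ incell T g p := (hX _).2 h4
        have h6 := ha _ h5
        simp only at h6
        rw [h6]
        exact (ih _ _ (by omega)).2 h
  have hI : intr T2 g p = intr T g p := by
    ext y
    rw [hK, hK]
    constructor
    · rintro ⟨j, hj, u, hu⟩
      exact ⟨j, hj, u, (claim j u y hj.le).1 hu⟩
    · rintro ⟨j, hj, u, hu⟩
      exact ⟨j, hj, u, (claim j u y hj.le).2 hu⟩
  have hC : incell T2 g p = incell T g p := by
    ext c
    rw [mem_incell_iff, hI]
    constructor
    · intro h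
      by_contra hne
      exact hb _ hne h
    · intro h
      rw [ha _ h]
      exact (hX _).1 h
  refine ⟨?_, hI, hC, ?_, claim⟩
  · intro r hr
    by_cases hrK : r ∈ intr T g p
    · obtain ⟨v, a, hva⟩ := hT r hr
      have h5 : (v, a) ∈ incell T g p := (hX _).2 (by simpa [hva] using hrK)
      exact ⟨v, a, by rw [← hva]; exact ha _ h5⟩
    · obtain ⟨c, _, hc2⟩ := hc r hr hrK
      exact ⟨c.1, c.2, hc2⟩
  · ext T'
    rw [mem_cls_iff, mem_cls_iff, hI, hC]
    constructor
    · rintro ⟨h1, h3, h4⟩
      exact ⟨fun c hc' => (h1 c hc').trans (ha c hc'), h3, h4⟩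
    · rintro ⟨h1, h3, h4⟩
      exact ⟨fun c hc' => (h1 c hc').trans (ha c hc').symm, h3, h4⟩

theorem rn_traj {V : Type} {k : ℕ} (T : V → Fin k → V) (W : ℕ → Fin k) (o : V) (l : ℕ) :
    rn T l (fun i => W i) o = traj T o W l := by
  induction l with
  | zero => rfl
  | succ l ih =>
    have h1 : rn T (l + 1) (fun i => W i) o = T (rn T l (fun i => W i) o) (W l) := rfl
    rw [h1, ih]
    rfl

private theorem rn_app {V : Type} {k : ℕ} (T : V → Fin k → V) (o : V) (W : ℕ → Fin k)
    (L g : ℕ) (w : Fin g → Fin k) :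
    rn T (L + g) (fun i => if h : i.1 < L then W i else w ⟨i.1 - L, by omega⟩) o =
      rn T g w (traj T o W L) := by
  induction g with
  | zero =>
    have : (fun i : Fin (L + 0) => if h : i.1 < L then W i else w ⟨i.1 - L, by omega⟩) =
        fun i : Fin (L + 0) => W i := by
      funext i
      have : i.1 < L := i.2
      simp [this]
    rw [this]
    exact rn_traj T W o L
  | succ g ih =>
    have h1 : rn T (L + (g + 1)) (fun i => if h : i.1 < L then W i else w ⟨i.1 - L, by omega⟩) o =
        T (rn T (L + g) (fun i => if h : i.1 < L then W i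
          else (fun i : Fin g => w i.castSucc) ⟨i.1 - L, by omega⟩) o)
          (if h : (L + g) < L then W (L + g) else w ⟨L + g - L, by omega⟩) := rfl
    rw [h1, ih (fun i : Fin g => w i.castSucc)]
    have h2 : (if h : (L + g) < L then W (L + g) else w ⟨L + g - L, by omega⟩) =
        w (Fin.last g) := by
      rw [dif_neg (by omega)]
      congr 1
      ext
      simp
    rw [h2]
    rfl

/-- extension of a common word -/
theorem rd_extend {V : Type} {k : ℕ} (T T' : V → Fin k → V) (o x y p q : V) (W : ℕ → Fin k)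
    (L g : ℕ) (w : Fin g → Fin k) (h1 : traj T o W L = x) (h2 : traj T' o W L = y)
    (h3 : rn T g w x = p) (h4 : rn T' g w y = q) : Rd T T' o p q := by
  refine ⟨L + g, fun i => if h : i.1 < L then W i else w ⟨i.1 - L, by omega⟩, ?_, ?_⟩
  · rw [rn_app, h1, h3]
  · rw [rn_app, h2, h4]

end AC

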