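import Pool.Agent.Helper949.AC.Defs3
import Pool.Agent.Helper949.AC.PM1
import Pool.Agent.Helper949.ASX.E4

set_option autoImplicit false

/-!
Definitions for the asymptotics of the average state complexity of intersections.
Tables `T : V → Fin k → V`; `rn T g w x` is the state reached from `x` after reading `w`.
-/

namespace AC

open Finset

variable {V : Type} {k : ℕ}

end AC

namespace RA
variable {V : Type} {k : ℕ}
end RA

namespace SI
variable {V : Type} {k : ℕ}
end SI

namespace AS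
open Finset

end AS

namespace AC
open Finset AS SI

/-! GIVEN -/
/-! TARGET -/

private theorem rn_cons_aux {V : Type} {k : ℕ} (T : V → Fin k → V) (x : V) (a : Fin k) :
    ∀ (j : ℕ) (u : Fin j → Fin k),
      rn T (j + 1) (Fin.cons a u : Fin (j + 1) → Fin k) x = rn T j u (T x a) := by
  intro j
  induction j with
  | zero =>
    intro u
    simp only [rn]
    rfl
  | succ j ih =>
    intro u
    have h1 : (fun i : Fin (j + 1) => (Fin.cons a u : Fin (j + 1 + 1) → Fin k) i.castSucc) =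
        (Fin.cons a (fun i : Fin j => u i.castSucc) : Fin (j + 1) → Fin k) := by
      funext i
      refine Fin.cases ?_ (fun l => ?_) i
      · rfl
      · rw [Fin.cons_succ, ← Fin.succ_castSucc, Fin.cons_succ]
    have h2 : (Fin.cons a u : Fin (j + 1 + 1) → Fin k) (Fin.last (j + 1)) = u (Fin.last j) := by
      rw [← Fin.succ_last, Fin.cons_succ]
    change T (rn T (j + 1) (fun i => (Fin.cons a u : Fin (j + 1 + 1) → Fin k) i.castSucc) x)
      ((Fin.cons a u : Fin (j + 1 + 1) → Fin k) (Fin.last (j + 1))) =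
      T (rn T j (fun i => u i.castSucc) (T x a)) (u (Fin.last j))
    rw [h1, h2, ih]

open Classical in
private theorem incell_ball_aux {V : Type} {k : ℕ} [Fintype V] (T : V → Fin k → V) (g : ℕ) (p : V)
    (c : V × Fin k) (hc : c ∈ incell T g p) : c.1 ∈ ball T g p := by
  unfold incell at hc
  unfold ball
  rw [Finset.mem_filter] at hc ⊢
  have h := hc.2
  unfold intr at h
  rw [Finset.mem_filter] at h
  obtain ⟨_, j, hj, u, hu⟩ := h
  refine ⟨Finset.mem_univ _, j + 1, by omega, (Fin.cons c.2 u : Fin (j + 1) → Fin k), ?_⟩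
  rw [rn_cons_aux]
  exact hu

open Classical in
private theorem intr_ball_aux {V : Type} {k : ℕ} [Fintype V] (T : V → Fin k → V) (g : ℕ) (p : V) :
    intr T g p ⊆ ball T g p := by
  intro y hy
  unfold intr at hy
  unfold ball
  rw [Finset.mem_filter] at hy ⊢
  obtain ⟨_, j, hj, u, hu⟩ := hy
  exact ⟨Finset.mem_univ _, j, hj.le, u, hu⟩

open Classical in
private theorem x_props_aux {V : Type} {k : ℕ} [Fintype V] (T : V → Fin k → V) (g b : ℕ) (o p : V)
    (hG : Gd T g b o p) {M : ℕ} (w : Fin M → Fin g → Fin k) (hw : Function.Injective w)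
    (x : Fin M → V) (hx : ∀ i, rn T g (w i) (x i) = p) :
    Function.Injective x ∧ ∀ i, x i ∈ ball T g p ∧ x i ∉ intr T g p := by
  refine ⟨?_, ?_⟩
  · intro i j hij
    by_contra hne
    apply hG.1
    refine ⟨x i, g, le_refl _, g, le_refl _, w i, w j, ?_, hx i, ?_⟩
    · intro h
      have h2 := eq_of_heq (Sigma.mk.inj h).2
      exact hne (hw h2)
    · rw [hij]; exact hx j
  · intro i
    refine ⟨?_, ?_⟩
    · unfold ball
      rw [Finset.mem_filter]
      exact ⟨Finset.mem_univ _, g, le_refl _, w i, hx i⟩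
    · intro h
      unfold intr at h
      rw [Finset.mem_filter] at h
      obtain ⟨_, j, hj, u, hu⟩ := h
      apply hG.1
      refine ⟨x i, j, hj.le, g, le_refl _, u, w i, ?_, hu, hx i⟩
      intro h3
      have := (Sigma.mk.inj h3).1
      omega

open Classical in
theorem class_pair (k : ℕ) (hk : 2 ≤ k) (Mn g b : ℕ) (hM : 1 ≤ Mn) (ε : ℝ) (hε : 0 < ε) :
    ∃ m0 : ℕ, ∀ m, m0 ≤ m → ∀ p q : Fin (m + 1),
    ((univ.filter (fun P : (Fin (m + 1) → Fin k → Fin (m + 1)) × (Fin (m + 1) → Fin k → Fin (m + 1)) =>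
        Su P.1 0 ∧ Su P.2 0 ∧ Gd P.1 g b 0 p ∧ Gd P.2 g b 0 q ∧ Mn ≤ cw P.1 P.2 g p q ∧
        ¬ Rd P.1 P.2 0 p q)).card : ℝ)
      ≤ (12 / Mn + ε)
        * ((univ.filter (fun T : Fin (m + 1) → Fin k → Fin (m + 1) => Su T 0)).card : ℝ) ^ 2 := by
  obtain ⟨n0, hn0⟩ := second_moment k hk Mn b hM ε hε
  refine ⟨n0, fun m hm p q => ?_⟩
  have hcpos : (0 : ℝ) ≤ 12 / Mn + ε := by positivity
  set S := univ.filter (fun P : (Fin (m + 1) → Fin k → Fin (m + 1)) ×
      (Fin (m + 1) → Fin k → Fin (m + 1)) =>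
        Su P.1 0 ∧ Su P.2 0 ∧ Gd P.1 g b 0 p ∧ Gd P.2 g b 0 q ∧ Mn ≤ cw P.1 P.2 g p q ∧
        ¬ Rd P.1 P.2 0 p q) with hS
  set A := univ.filter (fun T : Fin (m + 1) → Fin k → Fin (m + 1) => Su T 0) with hA
  let κ : (Fin (m + 1) → Fin k → Fin (m + 1)) × (Fin (m + 1) → Fin k → Fin (m + 1)) →
      Finset (Fin (m + 1) → Fin k → Fin (m + 1)) × Finset (Fin (m + 1) → Fin k → Fin (m + 1)) :=
    fun P => (cls 0 P.1 g p, cls 0 P.2 g q)
  have hmemA : ∀ T, T ∈ A ↔ Su T 0 := by
    intro T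
    rw [hA, Finset.mem_filter]
    simp
  have hSA : S ⊆ A ×ˢ A := by
    intro P hP
    rw [hS, Finset.mem_filter] at hP
    rw [Finset.mem_product, hmemA, hmemA]
    exact ⟨hP.2.1, hP.2.2.1⟩
  have hfib : ∀ E ∈ A ×ˢ A, (A ×ˢ A).filter (fun P => κ P = κ E) =
      (cls 0 E.1 g p) ×ˢ (cls 0 E.2 g q) := by
    intro E hE
    rw [Finset.mem_product, hmemA, hmemA] at hE
    ext P
    rw [Finset.mem_filter, Finset.mem_product, Finset.mem_product, hmemA, hmemA]
    constructor
    · rintro ⟨⟨h1, h2⟩, h3⟩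
      have h4 : cls 0 P.1 g p = cls 0 E.1 g p := congrArg Prod.fst h3
      have h5 : cls 0 P.2 g q = cls 0 E.2 g q := congrArg Prod.snd h3
      rw [← h4, ← h5]
      exact ⟨cls_self 0 P.1 h1 g p, cls_self 0 P.2 h2 g q⟩
    · rintro ⟨h1, h2⟩
      obtain ⟨a1, _, _, a4, _⟩ := cls_mem 0 E.1 P.1 hE.1 g p h1
      obtain ⟨b1, _, _, b4, _⟩ := cls_mem 0 E.2 P.2 hE.2 g q h2
      refine ⟨⟨a1, b1⟩, ?_⟩
      exact Prod.ext a4 b4
  have hkey : ∀ K ∈ (A ×ˢ A).image κ, ((S.filter (fun P => κ P = K)).card : ℝ) ≤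
      (12 / Mn + ε) * (((A ×ˢ A).filter (fun P => κ P = K)).card : ℝ) := by
    intro K _
    rcases (S.filter (fun P => κ P = K)).eq_empty_or_nonempty with h0 | ⟨E, hE⟩
    · rw [h0, Finset.card_empty, Nat.cast_zero]
      exact mul_nonneg hcpos (Nat.cast_nonneg _)
    · rw [Finset.mem_filter] at hE
      obtain ⟨hES, rfl⟩ := hE
      have hEA := hSA hES
      rw [hfib E hEA, Finset.card_product]
      have hES' := hES
      rw [hS, Finset.mem_filter] at hES'
      obtain ⟨_, hs1, hs2, hg1, hg2, hcw, _⟩ := hES'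
      unfold cw at hcw
      obtain ⟨Wd, hcw, hwm0⟩ : ∃ Wd : Finset (Fin g → Fin k), Mn ≤ Wd.card ∧
          ∀ w ∈ Wd, (∃ x, rn E.1 g w x = p) ∧ (∃ y, rn E.2 g w y = q) := by
        refine ⟨_, hcw, fun w hw => ?_⟩
        simpa using hw
      let w : Fin Mn → Fin g → Fin k := fun i => (Wd.equivFin.symm (Fin.castLE hcw i)).1
      have hw : Function.Injective w := by
        intro i j hij
        have h1 := Subtype.ext hij
        have h2 := Wd.equivFin.symm.injective h1
        exact Fin.castLE_injective hcw h2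
      have hwm : ∀ i, w i ∈ Wd := fun i => (Wd.equivFin.symm (Fin.castLE hcw i)).2
      have hwx : ∀ i, ∃ x, rn E.1 g (w i) x = p := fun i => (hwm0 _ (hwm i)).1
      have hwy : ∀ i, ∃ y, rn E.2 g (w i) y = q := fun i => (hwm0 _ (hwm i)).2
      choose x hx using hwx
      choose y hy using hwy
      obtain ⟨hxi, hxb⟩ := x_props_aux E.1 g b 0 p hg1 w hw x hx
      obtain ⟨hyi, hyb⟩ := x_props_aux E.2 g b 0 q hg2 w hw y hy
      have h2m := hn0 (m + 1) (by omega) 0 E.1 E.2 (incell E.1 g p) (incell E.2 g q)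
        (intr E.1 g p) (intr E.2 g q) (ball E.1 g p) (ball E.2 g q) x y
        (intr_ball_aux _ _ _) (intr_ball_aux _ _ _)
        (fun c hc => incell_ball_aux _ _ _ c hc) (fun c hc => incell_ball_aux _ _ _ c hc)
        hg1.2.2 hg2.2.2 hg1.2.1 hg2.2.1 hxi hyi hxb hyb
      refine le_trans ?_ (le_trans h2m (le_of_eq ?_))
      · rw [← Set.ncard_coe_finset]
        apply Nat.cast_le.2
        apply Set.ncard_le_ncard _ (Set.toFinite _)
        intro P hP
        rw [Finset.mem_coe, Finset.mem_filter] at hP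
        obtain ⟨hPS, hPκ⟩ := hP
        rw [hS, Finset.mem_filter] at hPS
        obtain ⟨_, t1, t2, _, _, _, hRd⟩ := hPS
        have h4 : cls 0 P.1 g p = cls 0 E.1 g p := congrArg Prod.fst hPκ
        have h5 : cls 0 P.2 g q = cls 0 E.2 g q := congrArg Prod.snd hPκ
        have m1 : P.1 ∈ cls 0 E.1 g p := by rw [← h4]; exact cls_self 0 P.1 t1 g p
        have m2 : P.2 ∈ cls 0 E.2 g q := by rw [← h5]; exact cls_self 0 P.2 t2 g q
        refine ⟨m1, m2, ?_⟩
        rintro ⟨W, L, i, e1, e2⟩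
        apply hRd
        obtain ⟨_, _, _, _, a5⟩ := cls_mem 0 E.1 P.1 hs1 g p m1
        obtain ⟨_, _, _, _, b5⟩ := cls_mem 0 E.2 P.2 hs2 g q m2
        exact rd_extend P.1 P.2 0 (x i) (y i) p q W L g (w i) e1 e2
          ((a5 g (w i) (x i) le_rfl).2 (hx i)) ((b5 g (w i) (y i) le_rfl).2 (hy i))
      · push_cast
        rfl
  have hS1 : S.card = ∑ K ∈ (A ×ˢ A).image κ, (S.filter (fun P => κ P = K)).card :=
    Finset.card_eq_sum_card_fiberwise (fun P hP => Finset.mem_image_of_mem κ (hSA hP))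
  have hS2 : (A ×ˢ A).card = ∑ K ∈ (A ×ˢ A).image κ, ((A ×ˢ A).filter (fun P => κ P = K)).card :=
    Finset.card_eq_sum_card_fiberwise (fun P hP => Finset.mem_image_of_mem κ hP)
  have hA2 : ((A.card : ℝ)) ^ 2 = ((A ×ˢ A).card : ℝ) := by
    rw [Finset.card_product]; push_cast; ring
  rw [hA2, hS1, hS2]
  push_cast
  rw [Finset.mul_sum]
  exact Finset.sum_le_sum hkey

end AC

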