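import Pool.Agent.Helper949.AC.Defs3
import Pool.Agent.Helper949.AC.PM2
import Pool.Agent.Helper949.ASX.A1
import Pool.Agent.Helper949.ASX.B1
import Pool.Agent.Helper949.ASX.A5

set_option autoImplicit false

/-!
Definitions for the asymptotics of the average state complexity of intersections.
Tables `T : V → Fin k → V`; `rn T g w x` is the state reached from `x` after reading `w`.
-/

namespace AC

open Finset

variable {V : Type} {k : ℕ}

end AC

namespace RA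
variable {V : Type} {k : ℕ}
end RA

namespace SI
variable {V : Type} {k : ℕ}
end SI

namespace AS
open Finset

end AS

namespace AC
open Finset AS SI

/-! GIVEN -/
/-! TARGETS -/
private theorem mem_Om75 {V : Type} [Fintype V] {k : ℕ} (T0 : V → Fin k → V)
    (X : Finset (V × Fin k)) (K R : Finset V) (T : V → Fin k → V) :
    T ∈ Om T0 X K R ↔ (∀ c ∈ X, T c.1 c.2 = T0 c.1 c.2) ∧ (∀ c, c ∉ X → T c.1 c.2 ∉ K) ∧
    ∀ r ∈ R, ∃ c, c ∉ X ∧ T c.1 c.2 = r := by
  simp only [Om, Finset.mem_filter, Finset.mem_univ, true_and]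

private theorem rn_run {V : Type} {k : ℕ} (T : V → Fin k → V) (o : V) :
    ∀ (l : ℕ) (w : Fin l → Fin k), rn T l w o = RA.run T o (List.ofFn w) := by
  intro l
  induction l with
  | zero => intro w; simp [rn, RA.run]
  | succ l ih =>
    intro w
    rw [List.ofFn_succ', List.concat_eq_append]
    simp only [rn, RA.run, List.foldl_append, List.foldl_cons, List.foldl_nil]
    rw [ih]
    rfl

theorem ac_iff {V : Type} {k : ℕ} (T : V → Fin k → V) (o : V) : Ac T o ↔ RA.Acc T o := by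
  constructor
  · intro h q
    obtain ⟨l, w, hw⟩ := h q
    exact ⟨List.ofFn w, by rw [← rn_run]; exact hw⟩
  · intro h q
    obtain ⟨w, hw⟩ := h q
    exact ⟨w.length, w.get, by rw [rn_run, List.ofFn_get]; exact hw⟩

theorem rd_iff {V : Type} {k : ℕ} (T T' : V → Fin k → V) (o p q : V) :
    Rd T T' o p q ↔ ∃ w : List (Fin k), RA.run T o w = p ∧ RA.run T' o w = q := by
  constructor
  · rintro ⟨l, w, h1, h2⟩
    exact ⟨List.ofFn w, by rw [← rn_run]; exact h1, by rw [← rn_run]; exact h2⟩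
  · rintro ⟨w, h1, h2⟩
    exact ⟨w.length, w.get, by rw [rn_run, List.ofFn_get]; exact h1,
      by rw [rn_run, List.ofFn_get]; exact h2⟩

theorem ac_su {V : Type} {k : ℕ} (T : V → Fin k → V) (o : V) (h : Ac T o) : Su T o := by
  intro r hr
  obtain ⟨l, w, hw⟩ := h r
  cases l with
  | zero => exact absurd hw.symm hr
  | succ l => exact ⟨_, _, hw⟩

open Classical in
theorem su_le (k : ℕ) (hk : 2 ≤ k) : ∃ C m0 : ℕ, ∀ m, m0 ≤ m →
    (univ.filter (fun T : Fin (m + 1) → Fin k → Fin (m + 1) => Su T 0)).card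
      ≤ C * (univ.filter (fun T : Fin (m + 1) → Fin k → Fin (m + 1) => Ac T 0)).card := by
  obtain ⟨C, m0, hC⟩ := acc_fraction k hk
  refine ⟨2 * C, max m0 1, fun m hm => ?_⟩
  have hm0 : m0 ≤ m := le_trans (le_max_left _ _) hm
  have hm1 : 1 ≤ m := le_trans (le_max_right _ _) hm
  have h1 := hC m hm0
  have hset : {T : Fin (m+1) → Fin k → Fin (m+1) | RA.Acc T 0} =
      ((univ.filter (fun T : Fin (m + 1) → Fin k → Fin (m + 1) => Ac T 0) :
        Finset (Fin (m+1) → Fin k → Fin (m+1))) : Set (Fin (m+1) → Fin k → Fin (m+1))) := by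
    ext T
    simp only [Set.mem_setOf_eq, Finset.coe_filter, Finset.mem_univ, true_and]
    exact (ac_iff T 0).symm
  rw [hset, Set.ncard_coe_finset] at h1
  have hOm : (univ.filter (fun T : Fin (m + 1) → Fin k → Fin (m + 1) => Su T 0)) =
      Om (fun _ _ => (0 : Fin (m + 1))) (∅ : Finset (Fin (m + 1) × Fin k)) ∅
        ((univ : Finset (Fin (m + 1))).erase 0) := by
    ext T
    rw [Finset.mem_filter, mem_Om75]
    simp [Su]
  have hcard := card_Om (fun _ _ => (0 : Fin (m + 1))) (∅ : Finset (Fin (m + 1) × Fin k)) ∅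
    ((univ : Finset (Fin (m + 1))).erase 0) (Finset.disjoint_empty_right _)
  rw [← hOm] at hcard
  rw [hcard]
  have hR : ((univ : Finset (Fin (m + 1))).erase 0).card = m := by
    rw [Finset.card_erase_of_mem (Finset.mem_univ _), Finset.card_univ, Fintype.card_fin]; rfl
  rw [hR, Finset.card_empty, Finset.card_empty, Fintype.card_fin, Nat.sub_zero, Nat.sub_zero,
    cvr_top1, Nat.mul_comm (m + 1) k]
  have hs := sj_split (k * (m + 1)) m
  have hkm : m ≤ k * (m + 1) - m := by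
    have : 2 * (m + 1) ≤ k * (m + 1) := Nat.mul_le_mul_right _ hk
    omega
  have h2 : m * sj (k * (m + 1)) m ≤ m * sj (k * (m + 1)) (m + 1) :=
    (Nat.mul_le_mul_right _ hkm).trans hs
  have h3 : sj (k * (m + 1)) m ≤ sj (k * (m + 1)) (m + 1) := Nat.le_of_mul_le_mul_left h2 hm1
  calc sj (k * (m + 1)) (m + 1) + sj (k * (m + 1)) m
      ≤ 2 * sj (k * (m + 1)) (m + 1) := by omega
    _ ≤ 2 * (C * (univ.filter (fun T : Fin (m + 1) → Fin k → Fin (m + 1) => Ac T 0)).card) :=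
        Nat.mul_le_mul_left _ h1
    _ = _ := by ring

open Classical in
/-- good pairs with many common words are mostly reached -/
theorem matched_reached (k : ℕ) (hk : 2 ≤ k) : ∃ C : ℝ, 0 < C ∧ ∀ (Mn g b : ℕ), 1 ≤ Mn →
    ∀ ε : ℝ, 0 < ε → ∃ m0 : ℕ, ∀ m, m0 ≤ m →
    ∑ P ∈ univ.filter (fun P : (Fin (m + 1) → Fin k → Fin (m + 1)) × (Fin (m + 1) → Fin k → Fin (m + 1)) =>
        Ac P.1 0 ∧ Ac P.2 0),
      ((univ.filter (fun x : Fin (m + 1) × Fin (m + 1) => Gd P.1 g b 0 x.1 ∧ Gd P.2 g b 0 x.2 ∧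
        Mn ≤ cw P.1 P.2 g x.1 x.2 ∧ ¬ Rd P.1 P.2 0 x.1 x.2)).card : ℝ)
      ≤ (C / Mn + ε) * ((m : ℝ) + 1) ^ 2
        * ((univ.filter (fun T : Fin (m + 1) → Fin k → Fin (m + 1) => Ac T 0)).card : ℝ) ^ 2 := by
  obtain ⟨D, m1, hD⟩ := su_le k hk
  have hDp : (0 : ℝ) < ((D : ℝ) + 1) ^ 2 := by positivity
  refine ⟨12 * ((D : ℝ) + 1) ^ 2, by positivity, fun Mn g b hM ε hε => ?_⟩
  obtain ⟨m2, h2⟩ := class_pair k hk Mn g b hM (ε / ((D : ℝ) + 1) ^ 2) (by positivity)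
  refine ⟨max m1 m2, fun m hm => ?_⟩
  have hm1 : m1 ≤ m := le_trans (le_max_left _ _) hm
  have hm2 : m2 ≤ m := le_trans (le_max_right _ _) hm
  set S := univ.filter (fun P : (Fin (m + 1) → Fin k → Fin (m + 1)) ×
    (Fin (m + 1) → Fin k → Fin (m + 1)) => Ac P.1 0 ∧ Ac P.2 0) with hS
  set A : ℝ := ((univ.filter (fun T : Fin (m + 1) → Fin k → Fin (m + 1) => Ac T 0)).card : ℝ)
    with hA
  set B : ℝ := ((univ.filter (fun T : Fin (m + 1) → Fin k → Fin (m + 1) => Su T 0)).card : ℝ)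
    with hB
  have hBA : B ≤ ((D : ℝ) + 1) * A := by
    have h3 : B ≤ (D : ℝ) * A := by
      rw [hB, hA]; exact_mod_cast hD m hm1
    have h4 : 0 ≤ A := Nat.cast_nonneg _
    nlinarith
  have hB0 : 0 ≤ B := Nat.cast_nonneg _
  have hswap : ∑ P ∈ S, (univ.filter (fun x : Fin (m + 1) × Fin (m + 1) =>
        Gd P.1 g b 0 x.1 ∧ Gd P.2 g b 0 x.2 ∧
        Mn ≤ cw P.1 P.2 g x.1 x.2 ∧ ¬ Rd P.1 P.2 0 x.1 x.2)).card =
      ∑ x : Fin (m + 1) × Fin (m + 1), (S.filter (fun P => Gd P.1 g b 0 x.1 ∧ Gd P.2 g b 0 x.2 ∧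
        Mn ≤ cw P.1 P.2 g x.1 x.2 ∧ ¬ Rd P.1 P.2 0 x.1 x.2)).card := by
    simp only [Finset.card_filter]
    exact Finset.sum_comm
  rw [← Nat.cast_sum, hswap, Nat.cast_sum]
  have hterm : ∀ x : Fin (m + 1) × Fin (m + 1),
      ((S.filter (fun P => Gd P.1 g b 0 x.1 ∧ Gd P.2 g b 0 x.2 ∧
        Mn ≤ cw P.1 P.2 g x.1 x.2 ∧ ¬ Rd P.1 P.2 0 x.1 x.2)).card : ℝ) ≤
      (12 / Mn + ε / ((D : ℝ) + 1) ^ 2) * B ^ 2 := by
    intro x
    refine le_trans ?_ (h2 m hm2 x.1 x.2)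
    norm_cast
    refine Finset.card_le_card ?_
    intro P hP
    rw [Finset.mem_filter, hS, Finset.mem_filter] at hP
    rw [Finset.mem_filter]
    exact ⟨Finset.mem_univ _, ac_su _ _ hP.1.2.1, ac_su _ _ hP.1.2.2, hP.2⟩
  refine (Finset.sum_le_sum (fun x _ => hterm x)).trans ?_
  rw [Finset.sum_const, Finset.card_univ, Fintype.card_prod, Fintype.card_fin, nsmul_eq_mul]
  have hMn : (0 : ℝ) < Mn := by exact_mod_cast hM
  have hsq : B ^ 2 ≤ ((D : ℝ) + 1) ^ 2 * A ^ 2 := by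
    rw [← mul_pow]; exact pow_le_pow_left₀ hB0 hBA 2
  have hc : 0 ≤ 12 / (Mn : ℝ) + ε / ((D : ℝ) + 1) ^ 2 := by positivity
  calc (((m + 1) * (m + 1) : ℕ) : ℝ) * ((12 / Mn + ε / ((D : ℝ) + 1) ^ 2) * B ^ 2)
      ≤ (((m + 1) * (m + 1) : ℕ) : ℝ) * ((12 / Mn + ε / ((D : ℝ) + 1) ^ 2) *
          (((D : ℝ) + 1) ^ 2 * A ^ 2)) := by
        refine mul_le_mul_of_nonneg_left (mul_le_mul_of_nonneg_left hsq hc) (Nat.cast_nonneg _)
    _ = (12 * ((D : ℝ) + 1) ^ 2 / Mn + ε) * ((m : ℝ) + 1) ^ 2 * A ^ 2 := by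
        push_cast
        field_simp

end AC

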