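import Pool.Agent.Helper949.AC.Defs2

set_option autoImplicit false

/-!
Definitions for the asymptotics of the average state complexity of intersections.
Tables `T : V → Fin k → V`; `rn T g w x` is the state reached from `x` after reading `w`.
-/

namespace AC

open Finset

variable {V : Type} {k : ℕ}

end AC

namespace AC
open Finset Filter Topology

private theorem rn_append {V : Type} {k : ℕ} (T : V → Fin k → V) (n g : ℕ) :
    ∀ (w : Fin (n + g) → Fin k) (x : V), rn T (n + g) w x =
      rn T g (fun i => w (Fin.natAdd n i)) (rn T n (fun i => w (Fin.castAdd g i)) x) := by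
  induction g with
  | zero =>
    intro w x
    rfl
  | succ g ih =>
    intro w x
    have h1 : rn T (n + (g + 1)) w x =
        T (rn T (n + g) (fun i => w i.castSucc) x) (w (Fin.last (n + g))) := rfl
    rw [h1, ih]
    rfl

/-! TARGETS -/
open Classical in
theorem reach_upper {V : Type} {k : ℕ} [Fintype V] (hk : 1 ≤ k) (T T' : V → Fin k → V) (o : V) (g : ℕ) :
    (univ.filter (fun x : V × V => Rd T T' o x.1 x.2)).card
      ≤ (univ.filter (fun x : V × V => 1 ≤ cw T T' g x.1 x.2)).card + g * k ^ g := by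
  have hsub : univ.filter (fun x : V × V => Rd T T' o x.1 x.2) ⊆
      univ.filter (fun x : V × V => 1 ≤ cw T T' g x.1 x.2) ∪
        (range g).biUnion (fun l => (univ : Finset (Fin l → Fin k)).image
          (fun w => (rn T l w o, rn T' l w o))) := by
    rintro ⟨p, q⟩ hpq
    rw [Finset.mem_filter] at hpq
    obtain ⟨-, l, w, h1, h2⟩ := hpq
    simp only at h1 h2
    rw [Finset.mem_union, Finset.mem_biUnion]
    by_cases hl : l < g
    · right
      refine ⟨l, Finset.mem_range.2 hl, ?_⟩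
      rw [Finset.mem_image]
      exact ⟨w, Finset.mem_univ _, by rw [h1, h2]⟩
    · left
      obtain ⟨n, rfl⟩ : ∃ n, l = n + g := ⟨l - g, by omega⟩
      rw [Finset.mem_filter]
      refine ⟨Finset.mem_univ _, ?_⟩
      rw [rn_append] at h1 h2
      unfold cw
      rw [Nat.one_le_iff_ne_zero, ← Nat.pos_iff_ne_zero, Finset.card_pos]
      refine ⟨fun i => w (Fin.natAdd n i), ?_⟩
      rw [Finset.mem_filter]
      exact ⟨Finset.mem_univ _, ⟨_, h1⟩, ⟨_, h2⟩⟩
  refine (Finset.card_le_card hsub).trans ((Finset.card_union_le _ _).trans ?_)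
  refine Nat.add_le_add_left ?_ _
  refine Finset.card_biUnion_le.trans ?_
  calc ∑ l ∈ range g, ((univ : Finset (Fin l → Fin k)).image
          (fun w => (rn T l w o, rn T' l w o))).card
      ≤ ∑ _l ∈ range g, k ^ g := by
        refine Finset.sum_le_sum fun l hl => ?_
        refine Finset.card_image_le.trans ?_
        rw [Finset.card_univ, Fintype.card_fun, Fintype.card_fin, Fintype.card_fin]
        exact Nat.pow_le_pow_right hk (Finset.mem_range.1 hl).le
    _ = g * k ^ g := by rw [Finset.sum_const, Finset.card_range, smul_eq_mul]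

open Classical in
theorem reach_lower {V : Type} {k : ℕ} [Fintype V] (T T' : V → Fin k → V) (o : V) (g b Mn : ℕ)
    (β : ℝ) (hβ0 : 0 ≤ β) (hβ1 : β ≤ 1) :
    ∑ x : V, ∑ y : V, (1 - β ^ (cw T T' g x y))
      ≤ ((univ.filter (fun x : V × V => Rd T T' o x.1 x.2)).card : ℝ)
        + ((univ.filter (fun x : V × V => Gd T g b o x.1 ∧ Gd T' g b o x.2 ∧
            Mn ≤ cw T T' g x.1 x.2 ∧ ¬ Rd T T' o x.1 x.2)).card : ℝ)
        + (Fintype.card V : ℝ) * (((univ.filter (fun p : V => ¬ Gd T g b o p)).card : ℝ)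
            + ((univ.filter (fun p : V => ¬ Gd T' g b o p)).card : ℝ))
        + (1 - β ^ Mn) * (Fintype.card V : ℝ) ^ 2 := by
  have hMn : 0 ≤ 1 - β ^ Mn := by
    have := pow_le_one₀ (n := Mn) hβ0 hβ1
    linarith
  have hterm : ∀ x y : V, (1 - β ^ (cw T T' g x y)) ≤
      (if Rd T T' o x y then (1 : ℝ) else 0) +
      (if Gd T g b o x ∧ Gd T' g b o y ∧ Mn ≤ cw T T' g x y ∧ ¬ Rd T T' o x y then (1 : ℝ) else 0) +
      ((if ¬ Gd T g b o x then (1 : ℝ) else 0) + (if ¬ Gd T' g b o y then (1 : ℝ) else 0)) +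
      (1 - β ^ Mn) := by
    intro x y
    have hc : 0 ≤ β ^ (cw T T' g x y) := pow_nonneg hβ0 _
    have a1 : (0 : ℝ) ≤ (if Rd T T' o x y then (1 : ℝ) else 0) := by split_ifs <;> norm_num
    have a2 : (0 : ℝ) ≤ (if Gd T g b o x ∧ Gd T' g b o y ∧ Mn ≤ cw T T' g x y ∧
      ¬ Rd T T' o x y then (1 : ℝ) else 0) := by split_ifs <;> norm_num
    have a3 : (0 : ℝ) ≤ (if ¬ Gd T g b o x then (1 : ℝ) else 0) := by split_ifs <;> norm_num
    have a4 : (0 : ℝ) ≤ (if ¬ Gd T' g b o y then (1 : ℝ) else 0) := by split_ifs <;> norm_num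
    by_cases h1 : cw T T' g x y < Mn
    · have h2 : β ^ Mn ≤ β ^ (cw T T' g x y) := pow_le_pow_of_le_one hβ0 hβ1 h1.le
      linarith
    have h1' := not_lt.1 h1
    by_cases h2 : Rd T T' o x y
    · rw [if_pos h2] at a1 ⊢
      linarith
    by_cases h3 : Gd T g b o x
    · by_cases h4 : Gd T' g b o y
      · rw [if_pos (⟨h3, h4, h1', h2⟩ : Gd T g b o x ∧ Gd T' g b o y ∧ Mn ≤ cw T T' g x y ∧
          ¬ Rd T T' o x y)]
        linarith
      · rw [if_pos (h4 : ¬ Gd T' g b o y)]
        linarith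
    · rw [if_pos (h3 : ¬ Gd T g b o x)]
      linarith
  refine (Finset.sum_le_sum fun x _ => Finset.sum_le_sum fun y _ => hterm x y).trans (le_of_eq ?_)
  have s1 : ∑ x : V, ∑ y : V, (if Rd T T' o x y then (1 : ℝ) else 0) =
      ((univ.filter (fun x : V × V => Rd T T' o x.1 x.2)).card : ℝ) := by
    rw [Finset.card_filter, Nat.cast_sum, Fintype.sum_prod_type]
    simp only [Nat.cast_ite, Nat.cast_one, Nat.cast_zero]
  have s2 : ∑ x : V, ∑ y : V, (if Gd T g b o x ∧ Gd T' g b o y ∧ Mn ≤ cw T T' g x y ∧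
      ¬ Rd T T' o x y then (1 : ℝ) else 0) =
      ((univ.filter (fun x : V × V => Gd T g b o x.1 ∧ Gd T' g b o x.2 ∧
            Mn ≤ cw T T' g x.1 x.2 ∧ ¬ Rd T T' o x.1 x.2)).card : ℝ) := by
    rw [Finset.card_filter, Nat.cast_sum, Fintype.sum_prod_type]
    simp only [Nat.cast_ite, Nat.cast_one, Nat.cast_zero]
  have s3 : ∑ x : V, ∑ _y : V, (if ¬ Gd T g b o x then (1 : ℝ) else 0) =
      (Fintype.card V : ℝ) * ((univ.filter (fun p : V => ¬ Gd T g b o p)).card : ℝ) := by
    rw [Finset.card_filter, Nat.cast_sum, Finset.mul_sum]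
    refine Finset.sum_congr rfl fun x _ => ?_
    rw [Finset.sum_const, Finset.card_univ, nsmul_eq_mul]
    simp only [Nat.cast_ite, Nat.cast_one, Nat.cast_zero]
  have s4 : ∑ _x : V, ∑ y : V, (if ¬ Gd T' g b o y then (1 : ℝ) else 0) =
      (Fintype.card V : ℝ) * ((univ.filter (fun p : V => ¬ Gd T' g b o p)).card : ℝ) := by
    rw [Finset.sum_const, Finset.card_univ, nsmul_eq_mul, Finset.card_filter, Nat.cast_sum]
    simp only [Nat.cast_ite, Nat.cast_one, Nat.cast_zero]
  have s5 : ∑ _x : V, ∑ _y : V, (1 - β ^ Mn) = (1 - β ^ Mn) * (Fintype.card V : ℝ) ^ 2 := by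
    rw [Finset.sum_const, Finset.sum_const, Finset.card_univ, nsmul_eq_mul, nsmul_eq_mul]
    ring
  simp only [Finset.sum_add_distrib]
  rw [s1, s2, s3, s4, s5]
  ring

open Classical in
theorem notGd_le {V : Type} {k : ℕ} [Fintype V] (T : V → Fin k → V) (o : V) (g b : ℕ) :
    (univ.filter (fun p : V => ¬ Gd T g b o p)).card
      ≤ (univ.filter (fun p : V => Coin T g p)).card
        + (univ.filter (fun p : V => b < (ball T g p).card)).card
        + (univ.filter (fun p : V => o ∈ ball T g p)).card := by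
  have hsub : univ.filter (fun p : V => ¬ Gd T g b o p) ⊆
      (univ.filter (fun p : V => Coin T g p) ∪ univ.filter (fun p : V => b < (ball T g p).card)) ∪
        univ.filter (fun p : V => o ∈ ball T g p) := by
    intro p hp
    rw [Finset.mem_filter] at hp
    rw [Finset.mem_union, Finset.mem_union, Finset.mem_filter, Finset.mem_filter, Finset.mem_filter]
    have h1 := hp.2
    unfold Gd at h1
    by_contra h2
    apply h1
    refine ⟨fun h3 => h2 (Or.inl (Or.inl ⟨Finset.mem_univ _, h3⟩)), ?_, fun h3 =>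
      h2 (Or.inr ⟨Finset.mem_univ _, h3⟩)⟩
    by_contra h3
    exact h2 (Or.inl (Or.inr ⟨Finset.mem_univ _, not_le.1 h3⟩))
  refine (Finset.card_le_card hsub).trans ((Finset.card_union_le _ _).trans ?_)
  exact Nat.add_le_add_right (Finset.card_union_le _ _) _

end AC

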