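import Pool.Agent.Helper949.AC.Defs2
import Pool.Agent.Helper949.AC.AaB
import Pool.Agent.Helper949.AC.RE1
import Pool.Agent.Helper949.AC.CO3
import Pool.Agent.Helper949.AC.L2
import Pool.Agent.Helper949.AC.L3
import Pool.Agent.Helper949.AC.PM3

set_option autoImplicit false

/-!
Definitions for the asymptotics of the average state complexity of intersections.
Tables `T : V → Fin k → V`; `rn T g w x` is the state reached from `x` after reading `w`.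
-/

namespace AC

open Finset

variable {V : Type} {k : ℕ}

end AC

namespace AC
open Finset Filter Topology

/-! GIVEN -/
/-! helper lemmas -/
open Classical in
private theorem RE2_notGd {m k : ℕ} (hk : 1 ≤ k) (T : Fin (m + 1) → Fin k → Fin (m + 1)) (g b : ℕ) (η : ℝ)
    (hη : 0 < η) (hb : 1 ≤ b) (hbη : (((g + 1) * k ^ g : ℕ) : ℝ) ≤ η * b)
    (hN : (((g + 1) * k ^ g : ℕ) : ℝ) ≤ η * ((m : ℝ) + 1))
    (c1 : ¬ (η * ((m : ℝ) + 1) ≤ ((univ.filter (fun p => Coin T g p)).card : ℝ))) :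
    ((univ.filter (fun p : Fin (m + 1) => ¬ Gd T g b 0 p)).card : ℝ) ≤ 3 * η * ((m : ℝ) + 1) := by
  have h1 := notGd_le T 0 g b
  have h2 := big_ball T g b hk
  have h3 := ball_zero T g hk 0
  rw [Fintype.card_fin] at h2
  have h1' := (Nat.cast_le (α := ℝ)).2 h1
  have h2' := (Nat.cast_le (α := ℝ)).2 h2
  have h3' := (Nat.cast_le (α := ℝ)).2 h3
  rw [Nat.cast_add, Nat.cast_add] at h1'
  rw [Nat.cast_mul, Nat.cast_mul] at h2'
  rw [show ((m + 1 : ℕ) : ℝ) = (m : ℝ) + 1 by push_cast; ring] at h2'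
  have hb0 : (0 : ℝ) < b := by exact_mod_cast hb
  have hm0 : (0 : ℝ) ≤ (m : ℝ) + 1 := by positivity
  have h5 : ((m : ℝ) + 1) * (((g + 1) * k ^ g : ℕ) : ℝ) ≤ (η * ((m : ℝ) + 1)) * b := by
    calc ((m : ℝ) + 1) * (((g + 1) * k ^ g : ℕ) : ℝ) ≤ ((m : ℝ) + 1) * (η * b) :=
          mul_le_mul_of_nonneg_left hbη hm0
      _ = _ := by ring
  have h4 := le_of_mul_le_mul_right (h2'.trans h5) hb0
  push Not at c1
  linarith

open Classical in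
private theorem RE2_pt {m k : ℕ} (hk : 1 ≤ k) (T T' : Fin (m + 1) → Fin k → Fin (m + 1)) (g b Mn : ℕ)
    (β c η a1 a2 : ℝ) (hβ0 : 0 ≤ β) (hβ1 : β ≤ 1) (hη : 0 < η) (h1 : a1 ≤ c + η) (h2 : c - η ≤ a2)
    (hMn : 1 - β ^ Mn ≤ η) (hb : 1 ≤ b) (hbη : (((g + 1) * k ^ g : ℕ) : ℝ) ≤ η * b)
    (hN : (((g + 1) * k ^ g : ℕ) : ℝ) ≤ η * ((m : ℝ) + 1))
    (u : ¬ ((a1 + η) * ((m : ℝ) + 1) ^ 2 ≤
      ((univ.filter (fun x : Fin (m + 1) × Fin (m + 1) => 1 ≤ cw T T' g x.1 x.2)).card : ℝ)))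
    (l : ¬ (∑ x, ∑ y, (1 - β ^ (cw T T' g x y)) ≤ (a2 - η) * ((m : ℝ) + 1) ^ 2))
    (c1 : ¬ (η * ((m : ℝ) + 1) ≤ ((univ.filter (fun p => Coin T g p)).card : ℝ)))
    (c2 : ¬ (η * ((m : ℝ) + 1) ≤ ((univ.filter (fun p => Coin T' g p)).card : ℝ))) :
    |((univ.filter (fun x : Fin (m + 1) × Fin (m + 1) => Rd T T' 0 x.1 x.2)).card : ℝ)
        - c * ((m : ℝ) + 1) ^ 2| ≤ 9 * η * ((m : ℝ) + 1) ^ 2 +
      ((univ.filter (fun x : Fin (m + 1) × Fin (m + 1) => Gd T g b 0 x.1 ∧ Gd T' g b 0 x.2 ∧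
        Mn ≤ cw T T' g x.1 x.2 ∧ ¬ Rd T T' 0 x.1 x.2)).card : ℝ) := by
  have hu := reach_upper hk T T' 0 g
  have hl := reach_lower T T' 0 g b Mn β hβ0 hβ1
  have g1 := RE2_notGd hk T g b η hη hb hbη hN c1
  have g2 := RE2_notGd hk T' g b η hη hb hbη hN c2
  rw [Fintype.card_fin] at hl
  have hcast : ((m + 1 : ℕ) : ℝ) = (m : ℝ) + 1 := by push_cast; ring
  rw [hcast] at hl
  have hu' : ((univ.filter (fun x : Fin (m + 1) × Fin (m + 1) => Rd T T' 0 x.1 x.2)).card : ℝ) ≤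
      ((univ.filter (fun x : Fin (m + 1) × Fin (m + 1) => 1 ≤ cw T T' g x.1 x.2)).card : ℝ) +
      ((g * k ^ g : ℕ) : ℝ) := by exact_mod_cast hu
  push Not at u l
  obtain ⟨R, hR⟩ : ∃ R : ℝ, R = ((univ.filter (fun x : Fin (m + 1) × Fin (m + 1) => Rd T T' 0 x.1 x.2)).card : ℝ) := ⟨_, rfl⟩
  obtain ⟨U, hU⟩ : ∃ U : ℝ, U = ((univ.filter (fun x : Fin (m + 1) × Fin (m + 1) => Gd T g b 0 x.1 ∧ Gd T' g b 0 x.2 ∧
        Mn ≤ cw T T' g x.1 x.2 ∧ ¬ Rd T T' 0 x.1 x.2)).card : ℝ) := ⟨_, rfl⟩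
  obtain ⟨W, hW⟩ : ∃ W : ℝ, W = ((univ.filter (fun x : Fin (m + 1) × Fin (m + 1) => 1 ≤ cw T T' g x.1 x.2)).card : ℝ) := ⟨_, rfl⟩
  obtain ⟨L, hL⟩ : ∃ L : ℝ, L = ∑ x, ∑ y, (1 - β ^ (cw T T' g x y)) := ⟨_, rfl⟩
  obtain ⟨N, hNd⟩ : ∃ N : ℝ, N = (m : ℝ) + 1 := ⟨_, rfl⟩
  rw [← hR, ← hW] at hu'
  rw [← hL, ← hR, ← hU] at hl
  rw [← hW] at u
  rw [← hL] at l
  rw [← hR, ← hU]
  simp only [← hNd] at hN u l g1 g2 hl ⊢
  have hN1 : 1 ≤ N := by rw [hNd]; have : (0:ℝ) ≤ m := Nat.cast_nonneg m; linarith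
  have hU0 : 0 ≤ U := by rw [hU]; positivity
  have hgk : ((g * k ^ g : ℕ) : ℝ) ≤ η * N ^ 2 := by
    have t1 : ((g * k ^ g : ℕ) : ℝ) ≤ (((g + 1) * k ^ g : ℕ) : ℝ) := by
      exact_mod_cast Nat.mul_le_mul_right _ (Nat.le_succ g)
    have t2 : η * N ≤ η * N ^ 2 := by
      apply mul_le_mul_of_nonneg_left _ hη.le
      nlinarith
    linarith
  have hN2 : 0 ≤ N ^ 2 := sq_nonneg N
  rw [abs_le]
  constructor
  · have t1 : (c - 2 * η) * N ^ 2 ≤ (a2 - η) * N ^ 2 := mul_le_mul_of_nonneg_right (by linarith) hN2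
    have t2 : N * (((univ.filter (fun p : Fin (m + 1) => ¬ Gd T g b 0 p)).card : ℝ)
        + ((univ.filter (fun p : Fin (m + 1) => ¬ Gd T' g b 0 p)).card : ℝ)) ≤ N * (6 * η * N) :=
      mul_le_mul_of_nonneg_left (by linarith) (by linarith)
    have t3 : (1 - β ^ Mn) * N ^ 2 ≤ η * N ^ 2 := mul_le_mul_of_nonneg_right hMn hN2
    nlinarith
  · have t1 : (a1 + η) * N ^ 2 ≤ (c + 2 * η) * N ^ 2 := mul_le_mul_of_nonneg_right (by linarith) hN2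
    nlinarith

open Classical in
private theorem RE2_bad {m k : ℕ} (T T' : Fin (m + 1) → Fin k → Fin (m + 1)) (c : ℝ) (hc : 0 ≤ c) :
    |((univ.filter (fun x : Fin (m + 1) × Fin (m + 1) => Rd T T' 0 x.1 x.2)).card : ℝ)
        - c * ((m : ℝ) + 1) ^ 2| ≤ (1 + c) * ((m : ℝ) + 1) ^ 2 := by
  have h1 : ((univ.filter (fun x : Fin (m + 1) × Fin (m + 1) => Rd T T' 0 x.1 x.2)).card : ℝ) ≤
      ((m : ℝ) + 1) ^ 2 := by
    have h2 : (univ.filter (fun x : Fin (m + 1) × Fin (m + 1) => Rd T T' 0 x.1 x.2)).card ≤ (m + 1) * (m + 1) := by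
      refine (Finset.card_le_univ _).trans ?_
      rw [Fintype.card_prod, Fintype.card_fin]
    have h3 : ((univ.filter (fun x : Fin (m + 1) × Fin (m + 1) => Rd T T' 0 x.1 x.2)).card : ℝ) ≤
        (((m + 1) * (m + 1) : ℕ) : ℝ) := by exact_mod_cast h2
    push_cast at h3
    nlinarith
  have h0 : (0 : ℝ) ≤ ((univ.filter (fun x : Fin (m + 1) × Fin (m + 1) => Rd T T' 0 x.1 x.2)).card : ℝ) := by
    positivity
  have h4 : 0 ≤ c * ((m : ℝ) + 1) ^ 2 := by positivity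
  rw [abs_le]
  constructor <;> nlinarith [sq_nonneg ((m : ℝ) + 1)]

/-! TARGET -/
open Classical in
/-- L1 convergence of the number of reachable pairs -/
theorem reach_L1 (k : ℕ) (hk : 2 ≤ k) (w : ℝ) (hw0 : 0 < w) (hw1 : w < 1)
    (hw : w = 1 - Real.exp (-((k : ℝ) * w))) (s : ℝ)
    (hs : Tendsto (fun g => 1 - aa k 1 0 g 1 1) atTop (𝓝 s)) (ε : ℝ) (hε : 0 < ε) :
    ∃ m0 : ℕ, ∀ m, m0 ≤ m →
    ∑ P ∈ univ.filter (fun P : (Fin (m + 1) → Fin k → Fin (m + 1)) × (Fin (m + 1) → Fin k → Fin (m + 1)) =>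
        Ac P.1 0 ∧ Ac P.2 0),
      |((univ.filter (fun x : Fin (m + 1) × Fin (m + 1) => Rd P.1 P.2 0 x.1 x.2)).card : ℝ)
        - s / w ^ 2 * ((m : ℝ) + 1) ^ 2|
      ≤ ε * ((m : ℝ) + 1) ^ 2
        * ((univ.filter (fun T : Fin (m + 1) → Fin k → Fin (m + 1) => Ac T 0)).card : ℝ) ^ 2 := by
  obtain ⟨s', hs0, hs1, hs', hlow⟩ := aa_limit k hk w hw0 hw1
  have hss : s' = s := tendsto_nhds_unique hs' hs
  rw [hss] at hs0 hs1 hlow
  have hk1 : 1 ≤ k := by omega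
  obtain ⟨C, hC0, hC⟩ := matched_reached k hk
  obtain ⟨c, hcd⟩ : ∃ c : ℝ, c = s / w ^ 2 := ⟨_, rfl⟩
  have hw2 : 0 < w ^ 2 := by positivity
  have hc : 0 ≤ c := by rw [hcd]; positivity
  have hcw : c * w ^ 2 = s := by rw [hcd]; field_simp
  rw [← hcd]
  obtain ⟨K, hKd⟩ : ∃ K : ℝ, K = 4 * (1 + c) + 11 := ⟨_, rfl⟩
  have hK : 0 < K := by rw [hKd]; linarith
  obtain ⟨η, hηd⟩ : ∃ η : ℝ, η = ε / K := ⟨_, rfl⟩
  have hη : 0 < η := by rw [hηd]; positivity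
  have hKη : K * η = ε := by rw [hηd]; field_simp
  obtain ⟨Mn, hMn1, hMnC⟩ : ∃ Mn : ℕ, 1 ≤ Mn ∧ C / Mn ≤ η := by
    refine ⟨⌈C / η⌉₊ + 1, by omega, ?_⟩
    have h1 : C / η ≤ ((⌈C / η⌉₊ + 1 : ℕ) : ℝ) := by
      refine (Nat.le_ceil (C / η)).trans ?_
      exact_mod_cast Nat.le_succ _
    rw [div_le_iff₀ hη] at h1
    rw [div_le_iff₀ (by positivity)]
    linarith
  have hMn0 : (0 : ℝ) < Mn := by exact_mod_cast hMn1
  obtain ⟨β, hβ0, hβ1, hβM⟩ : ∃ β : ℝ, 0 ≤ β ∧ β < 1 ∧ 1 - β ^ Mn ≤ η := by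
    obtain ⟨e, hed⟩ : ∃ e : ℝ, e = min η 1 := ⟨_, rfl⟩
    have he0 : 0 < e := by rw [hed]; exact lt_min hη one_pos
    have he1 : e ≤ 1 := by rw [hed]; exact min_le_right _ _
    have heη : e ≤ η := by rw [hed]; exact min_le_left _ _
    have hMn1' : (1 : ℝ) ≤ Mn := by exact_mod_cast hMn1
    have hq : e / Mn ≤ 1 := by
      rw [div_le_iff₀ hMn0]; linarith
    have hq0 : 0 < e / Mn := by positivity
    refine ⟨1 - e / Mn, by linarith, by linarith, ?_⟩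
    have hB := one_add_mul_le_pow (a := -(e / Mn)) (by linarith) Mn
    have e1 : (1 : ℝ) + Mn * -(e / Mn) = 1 - e := by field_simp; ring
    rw [e1, ← sub_eq_add_neg] at hB
    linarith
  have ev1 : ∀ᶠ g in atTop, 1 - aa k 1 0 g 1 1 < s + η * w ^ 2 :=
    hs.eventually (gt_mem_nhds (by linarith [mul_pos hη hw2]))
  have ev2 := hlow β hβ0 hβ1 (η * w ^ 2) (mul_pos hη hw2)
  obtain ⟨g, hg1, hg2⟩ := (ev1.and ev2).exists
  have ha1 : (1 - aa k 1 0 g 1 1) / w ^ 2 ≤ c + η := by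
    rw [div_le_iff₀ hw2]
    nlinarith
  have ha2 : c - η ≤ (1 - aa k w β g 1 1) / w ^ 2 := by
    rw [le_div_iff₀ hw2]
    nlinarith
  obtain ⟨b, hb1, hbη⟩ : ∃ b : ℕ, 1 ≤ b ∧ (((g + 1) * k ^ g : ℕ) : ℝ) ≤ η * b := by
    refine ⟨⌈(((g + 1) * k ^ g : ℕ) : ℝ) / η⌉₊ + 1, by omega, ?_⟩
    have h1 : (((g + 1) * k ^ g : ℕ) : ℝ) / η ≤ ((⌈(((g + 1) * k ^ g : ℕ) : ℝ) / η⌉₊ + 1 : ℕ) : ℝ) := by
      refine (Nat.le_ceil _).trans ?_
      exact_mod_cast Nat.le_succ _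
    rw [div_le_iff₀ hη] at h1
    linarith
  obtain ⟨m1, h1⟩ := upper_pairs k hk w hw0 hw1 hw g η hη
  obtain ⟨m2, h2⟩ := lower_pairs k hk w hw0 hw1 hw g β hβ0 hβ1.le η hη
  obtain ⟨m3, h3⟩ := coin_acc k hk w hw0 hw1 hw g η hη
  obtain ⟨m4, h4⟩ := hC Mn g b hMn1 η hη
  refine ⟨max m1 (max m2 (max m3 (max m4 b))), ?_⟩
  intro m hm
  have hm1 : m1 ≤ m := le_trans (le_max_left _ _) hm
  have hma := le_trans (le_max_right _ _) hm
  have hm2 : m2 ≤ m := le_trans (le_max_left _ _) hma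
  have hmb := le_trans (le_max_right _ _) hma
  have hm3 : m3 ≤ m := le_trans (le_max_left _ _) hmb
  have hmc := le_trans (le_max_right _ _) hmb
  have hm4 : m4 ≤ m := le_trans (le_max_left _ _) hmc
  have hmd : b ≤ m := le_trans (le_max_right _ _) hmc
  have hN : (((g + 1) * k ^ g : ℕ) : ℝ) ≤ η * ((m : ℝ) + 1) := by
    refine hbη.trans ?_
    apply mul_le_mul_of_nonneg_left _ hη.le
    have : (b : ℝ) ≤ m := by exact_mod_cast hmd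
    linarith
  have q1 := h1 m hm1
  have q2 := h2 m hm2
  have q3 := h3 m hm3
  have q4 := h4 m hm4
  obtain ⟨Acc, hAcc⟩ : ∃ Acc : Finset (Fin (m + 1) → Fin k → Fin (m + 1)),
    Acc = univ.filter (fun T : Fin (m + 1) → Fin k → Fin (m + 1) => Ac T 0) := ⟨_, rfl⟩
  obtain ⟨Acc2, hAcc2⟩ : ∃ Acc2 : Finset ((Fin (m + 1) → Fin k → Fin (m + 1)) × (Fin (m + 1) → Fin k → Fin (m + 1))),
    Acc2 = univ.filter (fun P => Ac P.1 0 ∧ Ac P.2 0) := ⟨_, rfl⟩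
  rw [← hAcc] at q1 q2 q3 q4 ⊢
  rw [← hAcc2] at q4 ⊢
  obtain ⟨N, hNd⟩ : ∃ N : ℝ, N = (m : ℝ) + 1 := ⟨_, rfl⟩
  have hN0 : 0 ≤ N ^ 2 := sq_nonneg N
  have hA0 : (0 : ℝ) ≤ (Acc.card : ℝ) := Nat.cast_nonneg _
  have hA2 : (Acc2.card : ℝ) ≤ (Acc.card : ℝ) ^ 2 := by
    have hsub : Acc2 ⊆ Acc ×ˢ Acc := by
      intro P hP
      rw [hAcc2, mem_filter] at hP
      rw [mem_product, hAcc, mem_filter, mem_filter]
      exact ⟨⟨mem_univ _, hP.2.1⟩, ⟨mem_univ _, hP.2.2⟩⟩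
    have := card_le_card hsub
    rw [card_product] at this
    have h5 : (Acc2.card : ℝ) ≤ ((Acc.card * Acc.card : ℕ) : ℝ) := by exact_mod_cast this
    rw [pow_two]
    push_cast at h5
    exact h5
  obtain ⟨p1, hp1⟩ : ∃ p1 : (Fin (m + 1) → Fin k → Fin (m + 1)) × (Fin (m + 1) → Fin k → Fin (m + 1)) → Prop,
    p1 = fun P => ((1 - aa k 1 0 g 1 1) / w ^ 2 + η) * ((m : ℝ) + 1) ^ 2 ≤
      ((univ.filter (fun x : Fin (m + 1) × Fin (m + 1) => 1 ≤ cw P.1 P.2 g x.1 x.2)).card : ℝ) := ⟨_, rfl⟩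
  obtain ⟨p2, hp2⟩ : ∃ p2 : (Fin (m + 1) → Fin k → Fin (m + 1)) × (Fin (m + 1) → Fin k → Fin (m + 1)) → Prop,
    p2 = fun P => ∑ x, ∑ y, (1 - β ^ (cw P.1 P.2 g x y)) ≤
      ((1 - aa k w β g 1 1) / w ^ 2 - η) * ((m : ℝ) + 1) ^ 2 := ⟨_, rfl⟩
  obtain ⟨p3, hp3⟩ : ∃ p3 : (Fin (m + 1) → Fin k → Fin (m + 1)) → Prop,
    p3 = fun T => η * ((m : ℝ) + 1) ≤ ((univ.filter (fun p => Coin T g p)).card : ℝ) := ⟨_, rfl⟩
  -- counting the bad pairs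
  have k1 : ((Acc2.filter p1).card : ℝ) ≤ η * (Acc.card : ℝ) ^ 2 := by
    refine le_trans (Nat.cast_le.2 (card_le_card ?_)) q1
    intro P hP
    rw [mem_filter, hAcc2, mem_filter] at hP
    rw [mem_filter]
    rw [hp1] at hP
    exact ⟨mem_univ _, hP.1.2.1, hP.1.2.2, hP.2⟩
  have k2 : ((Acc2.filter p2).card : ℝ) ≤ η * (Acc.card : ℝ) ^ 2 := by
    refine le_trans (Nat.cast_le.2 (card_le_card ?_)) q2
    intro P hP
    rw [mem_filter, hAcc2, mem_filter] at hP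
    rw [mem_filter]
    rw [hp2] at hP
    exact ⟨mem_univ _, hP.1.2.1, hP.1.2.2, hP.2⟩
  obtain ⟨Co, hCo⟩ : ∃ Co : Finset (Fin (m + 1) → Fin k → Fin (m + 1)),
    Co = univ.filter (fun T : Fin (m + 1) → Fin k → Fin (m + 1) => Ac T 0 ∧
        η * ((m : ℝ) + 1) ≤ ((univ.filter (fun p => Coin T g p)).card : ℝ)) := ⟨_, rfl⟩
  rw [← hCo] at q3
  have hCoA : (Co.card : ℝ) * (Acc.card : ℝ) ≤ η * (Acc.card : ℝ) ^ 2 := by
    calc (Co.card : ℝ) * (Acc.card : ℝ) ≤ (η * (Acc.card : ℝ)) * (Acc.card : ℝ) :=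
          mul_le_mul_of_nonneg_right q3 hA0
      _ = _ := by ring
  have k3 : ((Acc2.filter (fun P => p3 P.1)).card : ℝ) ≤ η * (Acc.card : ℝ) ^ 2 := by
    have hsub : Acc2.filter (fun P => p3 P.1) ⊆ Co ×ˢ Acc := by
      intro P hP
      rw [mem_filter, hAcc2, mem_filter, hp3] at hP
      rw [mem_product, hAcc, hCo, mem_filter, mem_filter]
      exact ⟨⟨mem_univ _, hP.1.2.1, hP.2⟩, ⟨mem_univ _, hP.1.2.2⟩⟩
    have := card_le_card hsub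
    rw [card_product] at this
    have h5 : ((Acc2.filter (fun P => p3 P.1)).card : ℝ) ≤ ((Co.card * Acc.card : ℕ) : ℝ) := by
      exact_mod_cast this
    push_cast at h5
    exact h5.trans hCoA
  have k4 : ((Acc2.filter (fun P => p3 P.2)).card : ℝ) ≤ η * (Acc.card : ℝ) ^ 2 := by
    have hsub : Acc2.filter (fun P => p3 P.2) ⊆ Acc ×ˢ Co := by
      intro P hP
      rw [mem_filter, hAcc2, mem_filter, hp3] at hP
      rw [mem_product, hAcc, hCo, mem_filter, mem_filter]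
      exact ⟨⟨mem_univ _, hP.1.2.1⟩, ⟨mem_univ _, hP.1.2.2, hP.2⟩⟩
    have := card_le_card hsub
    rw [card_product] at this
    have h5 : ((Acc2.filter (fun P => p3 P.2)).card : ℝ) ≤ ((Acc.card * Co.card : ℕ) : ℝ) := by
      exact_mod_cast this
    push_cast at h5
    rw [mul_comm] at h5
    exact h5.trans hCoA
  -- pointwise bound
  have hpt : ∀ P ∈ Acc2, |((univ.filter (fun x : Fin (m + 1) × Fin (m + 1) => Rd P.1 P.2 0 x.1 x.2)).card : ℝ)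
        - c * ((m : ℝ) + 1) ^ 2| ≤
      (1 + c) * N ^ 2 * ((if p1 P then (1:ℝ) else 0) + (if p2 P then (1:ℝ) else 0) +
        (if p3 P.1 then (1:ℝ) else 0) + (if p3 P.2 then (1:ℝ) else 0)) + (9 * η * N ^ 2 +
      ((univ.filter (fun x : Fin (m + 1) × Fin (m + 1) => Gd P.1 g b 0 x.1 ∧ Gd P.2 g b 0 x.2 ∧
        Mn ≤ cw P.1 P.2 g x.1 x.2 ∧ ¬ Rd P.1 P.2 0 x.1 x.2)).card : ℝ)) := by
    intro P _
    have hbad := RE2_bad P.1 P.2 c hc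
    rw [← hNd] at hbad
    have hU0 : (0:ℝ) ≤ ((univ.filter (fun x : Fin (m + 1) × Fin (m + 1) => Gd P.1 g b 0 x.1 ∧ Gd P.2 g b 0 x.2 ∧
        Mn ≤ cw P.1 P.2 g x.1 x.2 ∧ ¬ Rd P.1 P.2 0 x.1 x.2)).card : ℝ) := Nat.cast_nonneg _
    have h9 : 0 ≤ 9 * η * N ^ 2 := by positivity
    have hcN : 0 ≤ (1 + c) * N ^ 2 := by positivity
    have i1 : (0:ℝ) ≤ (if p1 P then (1:ℝ) else 0) := by split_ifs <;> norm_num
    have i2 : (0:ℝ) ≤ (if p2 P then (1:ℝ) else 0) := by split_ifs <;> norm_num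
    have i3 : (0:ℝ) ≤ (if p3 P.1 then (1:ℝ) else 0) := by split_ifs <;> norm_num
    have i4 : (0:ℝ) ≤ (if p3 P.2 then (1:ℝ) else 0) := by split_ifs <;> norm_num
    by_cases hb : p1 P ∨ p2 P ∨ p3 P.1 ∨ p3 P.2
    · have hge : (1:ℝ) ≤ (if p1 P then (1:ℝ) else 0) + (if p2 P then (1:ℝ) else 0) +
        (if p3 P.1 then (1:ℝ) else 0) + (if p3 P.2 then (1:ℝ) else 0) := by
        rcases hb with h | h | h | h
        · rw [if_pos h] at i1 ⊢; linarith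
        · rw [if_pos h] at i2 ⊢; linarith
        · rw [if_pos h] at i3 ⊢; linarith
        · rw [if_pos h] at i4 ⊢; linarith
      have hmul := mul_le_mul_of_nonneg_left hge hcN
      rw [← hNd]
      linarith
    · push Not at hb
      obtain ⟨n1, n2, n3, n4⟩ := hb
      have hg := RE2_pt hk1 P.1 P.2 g b Mn β c η ((1 - aa k 1 0 g 1 1) / w ^ 2)
        ((1 - aa k w β g 1 1) / w ^ 2) hβ0 hβ1.le hη ha1 ha2 hβM hb1 hbη hN
        (by rw [hp1] at n1; exact n1) (by rw [hp2] at n2; exact n2)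
        (by rw [hp3] at n3; exact n3) (by rw [hp3] at n4; exact n4)
      rw [if_neg n1, if_neg n2, if_neg n3, if_neg n4]
      rw [← hNd] at hg ⊢
      linarith
  refine (Finset.sum_le_sum hpt).trans ?_
  rw [Finset.sum_add_distrib, Finset.sum_add_distrib, ← Finset.mul_sum, Finset.sum_add_distrib,
    Finset.sum_add_distrib, Finset.sum_add_distrib, Finset.sum_boole, Finset.sum_boole, Finset.sum_boole,
    Finset.sum_boole, Finset.sum_const, nsmul_eq_mul]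
  rw [← hNd] at q4 ⊢
  have z1 : (1 + c) * N ^ 2 * (((Acc2.filter p1).card : ℝ) + ((Acc2.filter p2).card : ℝ) +
      ((Acc2.filter (fun P => p3 P.1)).card : ℝ) + ((Acc2.filter (fun P => p3 P.2)).card : ℝ)) ≤
      (1 + c) * N ^ 2 * (4 * (η * (Acc.card : ℝ) ^ 2)) := by
    apply mul_le_mul_of_nonneg_left _ (by positivity)
    linarith
  have z2 : (Acc2.card : ℝ) * (9 * η * N ^ 2) ≤ (Acc.card : ℝ) ^ 2 * (9 * η * N ^ 2) :=
    mul_le_mul_of_nonneg_right hA2 (by positivity)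
  have z3 : (C / Mn + η) * N ^ 2 * (Acc.card : ℝ) ^ 2 ≤ (2 * η) * N ^ 2 * (Acc.card : ℝ) ^ 2 := by
    apply mul_le_mul_of_nonneg_right _ (sq_nonneg _)
    apply mul_le_mul_of_nonneg_right _ hN0
    linarith
  have z4 : ε * N ^ 2 * (Acc.card : ℝ) ^ 2 = (1 + c) * N ^ 2 * (4 * (η * (Acc.card : ℝ) ^ 2)) +
      (Acc.card : ℝ) ^ 2 * (9 * η * N ^ 2) + (2 * η) * N ^ 2 * (Acc.card : ℝ) ^ 2 := by
    rw [← hKη, hKd]
    ring
  rw [z4]
  linarith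

end AC

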